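import Pool.Agent.Work.MP_2cfc43_lc.EDefs

/-! MP_2cfc43_lc, module A: the skew product over the Bernoulli shift with an ergodic fibre map is
a Kolmogorov automorphism (a Hewitt-Savage argument). -/

namespace Pool.Agent.KAut

open MeasureTheory Set Filter Topology ProbabilityTheory
open scoped symmDiff

/-- one-sided coin measure -/
noncomputable def A_P : Measure (ℕ → Bool) := Measure.infinitePi (fun _ : ℕ => unif Bool)

noncomputable instance A_P_prob : IsProbabilityMeasure A_P := by unfold A_P; infer_instance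

theorem A_map_inj {f : ℕ → ℕ} (hf : Function.Injective f) :
    A_P.map (fun ω i => ω (f i)) = A_P :=
  Measure.map_infinitePi_infinitePi_of_inj (P := fun _ : ℕ => unif Bool) hf

theorem A_map_cast : muB.map (fun ω (i : ℕ) => ω (i : ℤ)) = A_P :=
  Measure.map_infinitePi_infinitePi_of_inj (P := fun _ : ℤ => unif Bool)
    (f := fun i : ℕ => (i : ℤ)) Nat.cast_injective

/-- the swap of `[0,m)` and `[m,2m)` -/
def A_sw (m : ℕ) (i : ℕ) : ℕ := if i < m then i + m else if i < 2 * m then i - m else i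

theorem A_sw_sw (m i : ℕ) : A_sw m (A_sw m i) = i := by
  unfold A_sw
  split_ifs <;> omega

theorem A_sw_inj (m : ℕ) : Function.Injective (A_sw m) :=
  Function.LeftInverse.injective (g := A_sw m) (A_sw_sw m)

theorem A_sw_lt {m i : ℕ} (h : i < m) : A_sw m i = i + m := by simp [A_sw, h]

theorem A_sw_ge {m i : ℕ} (h : 2 * m ≤ i) : A_sw m i = i := by
  unfold A_sw
  split_ifs <;> omega

theorem A_sw_lt2 {m i : ℕ} (h : i < 2 * m) : A_sw m i < 2 * m := by
  unfold A_sw
  split_ifs <;> omega

/-- permuting the bits -/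
def A_s (m : ℕ) (ω : ℕ → Bool) : ℕ → Bool := fun i => ω (A_sw m i)

theorem A_s_measurable (m : ℕ) : Measurable (A_s m) := by
  unfold A_s; fun_prop

theorem A_s_mp (m : ℕ) : MeasurePreserving (A_s m) A_P A_P :=
  ⟨A_s_measurable m, A_map_inj (A_sw_inj m)⟩

theorem A_indep : iIndepFun (fun (i : ℕ) (ω : ℕ → Bool) => ω i) A_P :=
  iIndepFun_infinitePi (P := fun _ : ℕ => unif Bool) (X := fun _ ω => ω) (by fun_prop)

/-- independence of a cylinder and its swap -/
theorem A_cyl_indep {s : Finset ℕ} {S : Set (∀ _ : s, Bool)} (hS : MeasurableSet S) {m : ℕ}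
    (hm : s ⊆ Finset.range m) :
    A_P.real (cylinder s S ∩ A_s m ⁻¹' cylinder s S) = A_P.real (cylinder s S) ^ 2 := by
  have hd : Disjoint s (s.image (fun i => i + m)) := by
    rw [Finset.disjoint_left]
    intro i hi hi'
    obtain ⟨j, hj, rfl⟩ := Finset.mem_image.1 hi'
    have := Finset.mem_range.1 (hm hi)
    omega
  have hI := A_indep.indepFun_finset s (s.image (fun i => i + m)) hd (by fun_prop)
  -- the swapped cylinder
  let g : (∀ _ : (s.image (fun i => i + m) : Finset ℕ), Bool) → (∀ _ : s, Bool) :=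
    fun z i => z ⟨i.1 + m, Finset.mem_image_of_mem _ i.2⟩
  have hg : Measurable g := by
    refine measurable_pi_lambda _ fun i => ?_
    exact measurable_pi_apply _
  have h1 : cylinder s S = (fun (ω : ℕ → Bool) (i : s) => ω i) ⁻¹' S := rfl
  have h2 : A_s m ⁻¹' cylinder s S
      = (fun (ω : ℕ → Bool) (i : (s.image (fun i => i + m) : Finset ℕ)) => ω i) ⁻¹' (g ⁻¹' S) := by
    ext ω
    have : (fun i : s => A_s m ω i)
        = g (fun i : (s.image (fun i => i + m) : Finset ℕ) => ω i) := by
      funext i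
      show ω (A_sw m i) = ω (i + m)
      rw [A_sw_lt (Finset.mem_range.1 (hm i.2))]
    show (fun i : s => A_s m ω i) ∈ S ↔ g (fun i : (s.image (fun i => i + m) : Finset ℕ) => ω i) ∈ S
    rw [this]
  have h3 := hI.measure_inter_preimage_eq_mul S (g ⁻¹' S) hS (hg hS)
  have h4 : A_P (A_s m ⁻¹' cylinder s S) = A_P (cylinder s S) :=
    (A_s_mp m).measure_preimage (hS.cylinder s).nullMeasurableSet
  unfold Measure.real
  rw [← h1] at h3
  rw [← h2] at h3
  rw [h3, h4, ENNReal.toReal_mul, sq]

/-- Hewitt-Savage -/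
theorem A_hs {B : Set (ℕ → Bool)} (hB : MeasurableSet B)
    (h : ∀ m : ℕ, B =ᵐ[A_P] A_s m ⁻¹' B) : A_P B = 0 ∨ A_P B = 1 := by
  have key : ∀ ε : ℝ, 0 < ε → |A_P.real B - A_P.real B ^ 2| ≤ 4 * ε := by
    intro ε hε
    obtain ⟨E, hE, hBE⟩ := (Measure.MeasureDense.of_generateFrom_isSetAlgebra_finite (μ := A_P)
      isSetAlgebra_measurableCylinders generateFrom_measurableCylinders.symm).approx B hB
      (measure_ne_top _ _) ε hε
    obtain ⟨s, S, hS, rfl⟩ := (mem_measurableCylinders _).1 hE
    obtain ⟨m, hm⟩ : ∃ m, s ⊆ Finset.range m := s.exists_nat_subset_range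
    have hEm : MeasurableSet (cylinder s S : Set (ℕ → Bool)) := hS.cylinder s
    have hE' : MeasurableSet (A_s m ⁻¹' cylinder s S) := A_s_measurable m hEm
    have e1 : A_P.real (B ∆ cylinder s S) ≤ ε := by
      unfold Measure.real
      refine ENNReal.toReal_le_of_le_ofReal hε.le hBE.le
    have e2 : A_P.real (B ∆ (A_s m ⁻¹' cylinder s S)) ≤ ε := by
      have : A_P (B ∆ (A_s m ⁻¹' cylinder s S)) = A_P (B ∆ cylinder s S) := by
        rw [← (A_s_mp m).measure_preimage (hB.symmDiff hEm).nullMeasurableSet]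
        rw [preimage_symmDiff]
        refine measure_congr ?_
        exact (h m).symmDiff (ae_eq_refl _)
      unfold Measure.real at e1 ⊢
      rwa [this]
    have e3 : |A_P.real B - A_P.real (cylinder s S ∩ A_s m ⁻¹' cylinder s S)| ≤ 2 * ε := by
      refine (abs_measureReal_sub_le_measureReal_symmDiff hB.nullMeasurableSet
        (hEm.inter hE').nullMeasurableSet).trans ?_
      have : B ∆ (cylinder s S ∩ A_s m ⁻¹' cylinder s S)
          ⊆ (B ∆ cylinder s S) ∪ (B ∆ (A_s m ⁻¹' cylinder s S)) := by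
        intro x hx
        simp only [mem_union, mem_symmDiff, mem_inter_iff] at hx ⊢
        tauto
      refine (measureReal_mono this).trans ((measureReal_union_le _ _).trans ?_)
      linarith
    have e4 : |A_P.real B - A_P.real (cylinder s S)| ≤ ε :=
      (abs_measureReal_sub_le_measureReal_symmDiff hB.nullMeasurableSet
        hEm.nullMeasurableSet).trans e1
    rw [A_cyl_indep hS hm] at e3
    have hp0 : 0 ≤ A_P.real B := measureReal_nonneg
    have hp1 : A_P.real B ≤ 1 := measureReal_le_one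
    have hq0 : 0 ≤ A_P.real (cylinder s S) := measureReal_nonneg
    have hq1 : A_P.real (cylinder s S) ≤ 1 := measureReal_le_one
    set p := A_P.real B
    set q := A_P.real (cylinder s S)
    have e5 : |q ^ 2 - p ^ 2| ≤ 2 * ε := by
      have : q ^ 2 - p ^ 2 = (q + p) * (q - p) := by ring
      rw [this, abs_mul, abs_of_nonneg (by positivity : (0:ℝ) ≤ q + p), abs_sub_comm]
      have h0 : 0 ≤ |p - q| := abs_nonneg _
      nlinarith
    calc |p - p ^ 2| = |(p - q ^ 2) + (q ^ 2 - p ^ 2)| := by ring_nf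
      _ ≤ |p - q ^ 2| + |q ^ 2 - p ^ 2| := abs_add_le _ _
      _ ≤ 4 * ε := by linarith
  have h0 : A_P.real B - A_P.real B ^ 2 = 0 := by
    by_contra hne
    have hpos : 0 < |A_P.real B - A_P.real B ^ 2| := abs_pos.2 hne
    have := key (|A_P.real B - A_P.real B ^ 2| / 8) (by positivity)
    linarith
  have h1 : A_P.real B * (1 - A_P.real B) = 0 := by nlinarith
  rcases mul_eq_zero.1 h1 with h2 | h2
  · left
    exact (measureReal_eq_zero_iff).1 h2
  · right
    have h3 : (A_P B).toReal = 1 := by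
      have : A_P.real B = 1 := by linarith
      exact this
    exact (ENNReal.toReal_eq_one_iff _).1 h3

/-! ### the one-sided skew product -/

section

variable {Y : Type*}

/-- one-sided skew product -/
def A_sk (T : Y → Y) (w : (ℕ → Bool) × Y) : (ℕ → Bool) × Y :=
  (fun n => w.1 (n + 1), if w.1 0 then T w.2 else w.2)

/-- projection on the nonnegative coordinates -/
def A_rho (w : BB × Y) : (ℕ → Bool) × Y := (fun n : ℕ => w.1 (n : ℤ), w.2)

theorem A_rho_skew (T : Y → Y) (w : BB × Y) : A_rho (skew T w) = A_sk T (A_rho w) := by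
  simp only [A_rho, skew, A_sk]
  refine Prod.ext ?_ ?_
  · funext n
    simp
  · simp

theorem A_rho_iter (T : Y → Y) (n : ℕ) (w : BB × Y) :
    A_rho ((skew T)^[n] w) = (A_sk T)^[n] (A_rho w) := by
  have : Function.Semiconj (A_rho (Y := Y)) (skew T) (A_sk T) := A_rho_skew T
  exact this.iterate_right n w

/-- number of `true` among the first `n` bits -/
def A_cnt (n : ℕ) (ζ : ℕ → Bool) : ℕ := ∑ i ∈ Finset.range n, if ζ i then 1 else 0

theorem A_sk_iter (T : Y → Y) (n : ℕ) (w : (ℕ → Bool) × Y) :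
    (A_sk T)^[n] w = (fun i => w.1 (i + n), T^[A_cnt n w.1] w.2) := by
  induction n with
  | zero => simp [A_cnt]
  | succ n ih =>
    rw [Function.iterate_succ_apply', ih]
    simp only [A_sk, A_cnt, Finset.sum_range_succ]
    refine Prod.ext ?_ ?_
    · funext i
      show w.1 (i + 1 + n) = w.1 (i + (n + 1))
      rw [show i + 1 + n = i + (n + 1) by omega]
    · simp only [zero_add]
      by_cases h : w.1 n = true
      · simp only [h, if_true]
        rw [Function.iterate_succ_apply']
      · simp only [h]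
        simp

theorem A_cnt_s (m : ℕ) (ζ : ℕ → Bool) : A_cnt (2 * m) (A_s m ζ) = A_cnt (2 * m) ζ := by
  unfold A_cnt
  refine Finset.sum_nbij' (A_sw m) (A_sw m) ?_ ?_ ?_ ?_ ?_
  · intro i hi
    exact Finset.mem_range.2 (A_sw_lt2 (Finset.mem_range.1 hi))
  · intro i hi
    exact Finset.mem_range.2 (A_sw_lt2 (Finset.mem_range.1 hi))
  · intro i _
    exact A_sw_sw m i
  · intro i _
    exact A_sw_sw m i
  · intro i _
    rfl

/-- the swap does not change the future -/
theorem A_sk_iter_s (T : Y → Y) (m : ℕ) (w : (ℕ → Bool) × Y) :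
    (A_sk T)^[2 * m] (A_s m w.1, w.2) = (A_sk T)^[2 * m] w := by
  rw [A_sk_iter, A_sk_iter]
  refine Prod.ext ?_ ?_
  · funext i
    show w.1 (A_sw m (i + 2 * m)) = w.1 (i + 2 * m)
    rw [A_sw_ge (by omega)]
  · show T^[A_cnt (2 * m) (A_s m w.1)] w.2 = T^[A_cnt (2 * m) w.1] w.2
    rw [A_cnt_s]

/-- flip the first bit -/
def A_flip (ζ : ℕ → Bool) : ℕ → Bool := fun i => if i = 0 then !ζ i else ζ i

/-- flip the first bit and correct the fibre -/
def A_R (T T' : Y → Y) (w : (ℕ → Bool) × Y) : (ℕ → Bool) × Y :=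
  (A_flip w.1, if w.1 0 then T w.2 else T' w.2)

theorem A_sk_R {T T' : Y → Y} (h2 : ∀ y, T (T' y) = y) (w : (ℕ → Bool) × Y) :
    A_sk T (A_R T T' w) = A_sk T w := by
  simp only [A_sk, A_R, A_flip]
  refine Prod.ext ?_ ?_
  · funext n
    simp
  · by_cases h : w.1 0 = true
    · simp [h]
    · simp [h, h2]

variable [MeasurableSpace Y]

theorem A_rho_measurable : Measurable (A_rho (Y := Y)) := by
  unfold A_rho; fun_prop

theorem A_ite_measurable {T T' : Y → Y} (hT : Measurable T) (hT' : Measurable T') :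
    Measurable (fun w : (ℕ → Bool) × Y => if w.1 0 then T w.2 else T' w.2) := by
  refine Measurable.ite ?_ (hT.comp measurable_snd) (hT'.comp measurable_snd)
  have : Measurable (fun w : (ℕ → Bool) × Y => w.1 0) := by fun_prop
  exact this (measurableSet_singleton true)

theorem A_sk_measurable {T : Y → Y} (hT : Measurable T) : Measurable (A_sk T) := by
  unfold A_sk
  refine Measurable.prodMk (by fun_prop) ?_
  exact A_ite_measurable hT measurable_id

theorem A_flip_measurable : Measurable A_flip := by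
  refine measurable_pi_lambda _ fun i => ?_
  unfold A_flip
  by_cases h : i = 0
  · simp only [h, if_true]
    exact (measurable_of_finite (fun b : Bool => !b)).comp (measurable_pi_apply 0)
  · simp only [h, if_false]
    exact measurable_pi_apply i

theorem A_unif_not : (unif Bool).map (fun b => !b) = unif Bool := by
  refine Measure.ext_of_singleton fun b => ?_
  rw [Measure.map_apply (measurable_of_finite _) (measurableSet_singleton b)]
  have : (fun b => !b) ⁻¹' ({b} : Set Bool) = {!b} := by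
    ext x; cases x <;> cases b <;> simp
  rw [this]
  unfold unif
  rw [PMF.toMeasure_apply_singleton _ _ (measurableSet_singleton _),
    PMF.toMeasure_apply_singleton _ _ (measurableSet_singleton _)]
  simp

theorem A_flip_mp : MeasurePreserving A_flip A_P A_P := by
  refine ⟨A_flip_measurable, ?_⟩
  have h := Measure.infinitePi_map_pi (μ := fun _ : ℕ => unif Bool)
    (f := fun (i : ℕ) (b : Bool) => if i = 0 then !b else b) (fun i => measurable_of_finite _)
  have e : A_flip = fun ω i => (fun (i : ℕ) (b : Bool) => if i = 0 then !b else b) i (ω i) := rfl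
  unfold A_P
  rw [e, h]
  congr 1
  funext i
  by_cases hi : i = 0
  · simp only [hi, if_true]
    exact A_unif_not
  · simp only [hi, if_false]
    exact Measure.map_id

variable {ν : Measure Y} [IsProbabilityMeasure ν]

theorem A_rho_mp : MeasurePreserving (A_rho (Y := Y)) (muB.prod ν) (A_P.prod ν) := by
  have h1 : MeasurePreserving (fun (ω : BB) (i : ℕ) => ω (i : ℤ)) muB A_P :=
    ⟨by fun_prop, A_map_cast⟩
  exact h1.prod (MeasurePreserving.id ν)

theorem A_R_mp {T T' : Y → Y} (hT : MeasurePreserving T ν ν) (hT' : MeasurePreserving T' ν ν) :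
    MeasurePreserving (A_R T T') (A_P.prod ν) (A_P.prod ν) := by
  refine A_flip_mp.skew_product (g := fun (ζ : ℕ → Bool) y => if ζ 0 then T y else T' y)
    (A_ite_measurable hT.measurable hT'.measurable) ?_
  refine ae_of_all _ fun ζ => ?_
  by_cases h : ζ 0 = true
  · simp only [h, if_true]
    exact hT.map_eq
  · simp only [h]
    exact hT'.map_eq

theorem A_s_prod_mp (m : ℕ) :
    MeasurePreserving (fun w : (ℕ → Bool) × Y => (A_s m w.1, w.2)) (A_P.prod ν) (A_P.prod ν) :=
  (A_s_mp m).prod (MeasurePreserving.id ν)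

/-- Fubini in the other order -/
theorem A_fub {p : (ℕ → Bool) × Y → Prop} (hp : MeasurableSet {w | p w}) :
    (∀ᵐ w ∂(A_P.prod ν), p w) ↔ ∀ᵐ y ∂ν, ∀ᵐ ζ ∂A_P, p (ζ, y) := by
  rw [Measure.ae_prod_iff_ae_ae hp]
  exact Measure.ae_ae_comm hp

/-- the one-sided form of the tail triviality -/
theorem A_tail {T T' : Y → Y} (hT : Ergodic T ν) (hT' : MeasurePreserving T' ν ν)
    (h2 : ∀ y, T (T' y) = y) {B : Set ((ℕ → Bool) × Y)} (hB : MeasurableSet B)
    (h : ∀ n : ℕ, ∃ A, MeasurableSet A ∧ ∀ᵐ w ∂(A_P.prod ν), (w ∈ B ↔ (A_sk T)^[n] w ∈ A)) :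
    A_P.prod ν B = 0 ∨ A_P.prod ν B = 1 := by
  have hTm := hT.measurable
  -- invariance under the swaps
  have hs : ∀ m : ℕ, ∀ᵐ w ∂(A_P.prod ν), (w ∈ B ↔ (A_s m w.1, w.2) ∈ B) := by
    intro m
    obtain ⟨A, hA, hAB⟩ := h (2 * m)
    have h' := (A_s_prod_mp (ν := ν) m).quasiMeasurePreserving.ae hAB
    filter_upwards [hAB, h'] with w hw hw'
    rw [hw, hw', A_sk_iter_s]
  -- invariance under the flip
  have hR : ∀ᵐ w ∂(A_P.prod ν), (w ∈ B ↔ A_R T T' w ∈ B) := by
    obtain ⟨A, hA, hAB⟩ := h 1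
    have h' := (A_R_mp hT.toMeasurePreserving hT').quasiMeasurePreserving.ae hAB
    filter_upwards [hAB, h'] with w hw hw'
    rw [hw, hw', Function.iterate_one, A_sk_R h2]
  -- the sections
  have hsm : ∀ m : ℕ, MeasurableSet {w : (ℕ → Bool) × Y | (w ∈ B ↔ (A_s m w.1, w.2) ∈ B)} := by
    intro m
    exact hB.iff ((A_s_prod_mp (ν := ν) m).measurable hB)
  have h01 : ∀ᵐ y ∂ν, A_P {ζ | (ζ, y) ∈ B} = 0 ∨ A_P {ζ | (ζ, y) ∈ B} = 1 := by
    have : ∀ᵐ y ∂ν, ∀ m : ℕ, ∀ᵐ ζ ∂A_P, ((ζ, y) ∈ B ↔ (A_s m ζ, y) ∈ B) := by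
      rw [ae_all_iff]
      intro m
      exact (A_fub (hsm m)).1 (hs m)
    filter_upwards [this] with y hy
    refine A_hs (B := {ζ | (ζ, y) ∈ B}) ((measurable_prodMk_right (y := y)) hB) fun m => ?_
    rw [Filter.eventuallyEq_set]
    exact hy m
  set D : Set Y := {y | A_P {ζ | (ζ, y) ∈ B} = 1} with hD
  have hDm : MeasurableSet D := by
    have : Measurable fun y => A_P ((fun ζ => (ζ, y)) ⁻¹' B) := measurable_measure_prodMk_right hB
    exact this (measurableSet_singleton 1)
  have hBD : ∀ᵐ w ∂(A_P.prod ν), (w ∈ B ↔ w.2 ∈ D) := by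
    refine (A_fub (p := fun w => (w ∈ B ↔ w.2 ∈ D)) (hB.iff (measurable_snd hDm))).2 ?_
    filter_upwards [h01] with y hy
    have hmy : MeasurableSet {ζ | (ζ, y) ∈ B} := (measurable_prodMk_right (y := y)) hB
    rcases hy with hy | hy
    · have hyD : y ∉ D := by
        intro hyD
        have : A_P {ζ | (ζ, y) ∈ B} = 1 := hyD
        rw [hy] at this
        exact zero_ne_one this
      have h5 : ∀ᵐ ζ ∂A_P, ζ ∉ {ζ | (ζ, y) ∈ B} := measure_eq_zero_iff_ae_notMem.1 hy
      filter_upwards [h5] with ζ hζ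
      constructor
      · intro h6
        exact absurd h6 hζ
      · intro h6
        exact absurd h6 hyD
    · have hyD : y ∈ D := hy
      have h5 : ∀ᵐ ζ ∂A_P, ζ ∈ {ζ | (ζ, y) ∈ B} := (mem_ae_iff_prob_eq_one hmy).2 hy
      filter_upwards [h5] with ζ hζ
      exact ⟨fun _ => hyD, fun _ => hζ⟩
  -- invariance of `D`
  have hDT : ∀ᵐ y ∂ν, (y ∈ D ↔ T y ∈ D) := by
    have h6 : ∀ᵐ w ∂(A_P.prod ν), (w.2 ∈ D ↔ (A_R T T' w).2 ∈ D) := by
      have h7 := (A_R_mp hT.toMeasurePreserving hT').quasiMeasurePreserving.ae hBD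
      filter_upwards [hBD, h7, hR] with w w1 w2 w3
      rw [← w1, ← w2, w3]
    have h8 : MeasurableSet {w : (ℕ → Bool) × Y | (w.2 ∈ D ↔ (A_R T T' w).2 ∈ D)} :=
      (measurable_snd hDm).iff
        ((measurable_snd.comp (A_R_mp (ν := ν) hT.toMeasurePreserving hT').measurable) hDm)
    rw [A_fub h8] at h6
    filter_upwards [h6] with y hy
    have h9 : A_P {ζ | ζ 0 = true} ≠ 0 := by
      have e1 : A_P {ζ | ζ 0 = true} = unif Bool {true} := by
        have := (measurePreserving_eval_infinitePi (fun _ : ℕ => unif Bool) 0).measure_preimage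
          (measurableSet_singleton true).nullMeasurableSet
        exact this
      rw [e1]
      unfold unif
      rw [PMF.toMeasure_apply_singleton _ _ (measurableSet_singleton _)]
      simp
    have h10 : ∃ ζ : ℕ → Bool, ζ 0 = true ∧ (y ∈ D ↔ (A_R T T' (ζ, y)).2 ∈ D) := by
      by_contra hcon
      apply h9
      rw [measure_eq_zero_iff_ae_notMem]
      filter_upwards [hy] with ζ hζ hζ0
      exact hcon ⟨ζ, hζ0, hζ⟩
    obtain ⟨ζ, hζ0, hζ⟩ := h10
    simpa [A_R, hζ0] using hζ
  have hD01 : D =ᵐ[ν] (∅ : Set Y) ∨ D =ᵐ[ν] univ := by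
    refine hT.quasiErgodic.ae_empty_or_univ₀ hDm.nullMeasurableSet ?_
    rw [Filter.eventuallyEq_set]
    filter_upwards [hDT] with y hy
    exact hy.symm
  have hfin : A_P.prod ν B = ν D := by
    have e1 : A_P.prod ν B = A_P.prod ν (univ ×ˢ D) := by
      refine measure_congr ?_
      rw [Filter.eventuallyEq_set]
      filter_upwards [hBD] with w hw
      rw [hw]
      simp
    rw [e1, Measure.prod_prod, measure_univ, one_mul]
  rw [hfin]
  rcases hD01 with h11 | h11
  · left
    rw [measure_congr h11, measure_empty]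
  · right
    rw [measure_congr h11, measure_univ]

end

/-- the skew product is a Kolmogorov automorphism -/
theorem kol_skew {Y : Type*} [MeasurableSpace Y] {ν : Measure Y} [IsProbabilityMeasure ν]
    {T T' : Y → Y} (hT : Ergodic T ν) (hT' : MeasurePreserving T' ν ν)
    (h1 : ∀ y, T' (T y) = y) (h2 : ∀ y, T (T' y) = y) :
    KolOn (muB.prod ν) (skew T) (skewInv T') := by
  refine ⟨MeasurableSpace.comap (A_rho (Y := Y)) inferInstance, ?_, ?_, ?_, ?_⟩
  · exact A_rho_measurable.comap_le
  · rintro A ⟨A0, hA0, rfl⟩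
    refine ⟨A_rho ⁻¹' (A_sk T ⁻¹' A0), ⟨_, A_sk_measurable hT.measurable hA0, rfl⟩, ?_⟩
    refine Filter.EventuallyEq.of_eq (Set.ext fun w => ?_)
    show A_rho (skew T w) ∈ A0 ↔ A_sk T (A_rho w) ∈ A0
    rw [A_rho_skew]
  · intro B hB
    refine ⟨B, ?_, ae_eq_refl _⟩
    have hle : (inferInstance : MeasurableSpace (BB × Y)) ≤
        ⨆ n : ℕ, (MeasurableSpace.comap (A_rho (Y := Y)) inferInstance).comap
          ((skewInv T')^[n]) := by
      have hit : ∀ (n : ℕ) (w : BB × Y), ((skewInv T')^[n] w).1 = fun i => w.1 (i - n) := by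
        intro n
        induction n with
        | zero => intro w; simp
        | succ n ih =>
          intro w
          rw [Function.iterate_succ_apply, ih]
          funext i
          show w.1 (i - n - 1) = w.1 (i - ((n + 1 : ℕ) : ℤ))
          rw [show i - n - 1 = i - ((n + 1 : ℕ) : ℤ) by push_cast; ring]
      have hcoord : ∀ j : ℤ, @Measurable _ _ (⨆ n : ℕ,
          (MeasurableSpace.comap (A_rho (Y := Y)) inferInstance).comap ((skewInv T')^[n]))
          inferInstance (fun w : BB × Y => w.1 j) := by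
        intro j
        rw [measurable_iff_comap_le]
        rcases le_total 0 j with hj | hj
        · lift j to ℕ using hj
          refine le_trans ?_ (le_iSup _ 0)
          rintro _ ⟨C, hC, rfl⟩
          refine ⟨A_rho ⁻¹' ((fun z : (ℕ → Bool) × Y => z.1 j) ⁻¹' C), ⟨_, ?_, rfl⟩, ?_⟩
          · exact (by fun_prop : Measurable (fun z : (ℕ → Bool) × Y => z.1 j)) hC
          · rfl
        · obtain ⟨n, rfl⟩ : ∃ n : ℕ, j = -(n : ℤ) := ⟨j.natAbs, by omega⟩
          refine le_trans ?_ (le_iSup _ n)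
          rintro _ ⟨C, hC, rfl⟩
          refine ⟨A_rho ⁻¹' ((fun z : (ℕ → Bool) × Y => z.1 0) ⁻¹' C), ⟨_, ?_, rfl⟩, ?_⟩
          · exact (by fun_prop : Measurable (fun z : (ℕ → Bool) × Y => z.1 0)) hC
          · ext w
            simp only [mem_preimage, A_rho, hit]
            simp
      have hsnd : @Measurable _ _ (⨆ n : ℕ,
          (MeasurableSpace.comap (A_rho (Y := Y)) inferInstance).comap ((skewInv T')^[n]))
          inferInstance (fun w : BB × Y => w.2) := by
        rw [measurable_iff_comap_le]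
        refine le_trans ?_ (le_iSup _ 0)
        rintro _ ⟨C, hC, rfl⟩
        exact ⟨A_rho ⁻¹' ((fun z : (ℕ → Bool) × Y => z.2) ⁻¹' C), ⟨_, measurable_snd hC, rfl⟩, rfl⟩
      have hfst : @Measurable _ _ (⨆ n : ℕ,
          (MeasurableSpace.comap (A_rho (Y := Y)) inferInstance).comap ((skewInv T')^[n]))
          inferInstance (fun w : BB × Y => w.1) := by
        refine @measurable_pi_lambda _ _ _ (_) _ _ fun j => hcoord j
      refine sup_le ?_ ?_
      · exact measurable_iff_comap_le.1 hfst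
      · exact measurable_iff_comap_le.1 hsnd
    exact hle _ hB
  · intro B hB h
    have hρ := A_rho_mp (Y := Y) (ν := ν)
    obtain ⟨_, ⟨B0, hB0, rfl⟩, hBB0⟩ := h 0
    rw [Filter.eventuallyEq_set] at hBB0
    have key := A_tail hT hT' h2 hB0 (fun n => by
      obtain ⟨_, ⟨A0, hA0, rfl⟩, hBA0⟩ := h n
      rw [Filter.eventuallyEq_set] at hBA0
      refine ⟨A0, hA0, ?_⟩
      rw [← hρ.map_eq, ae_map_iff hρ.aemeasurable]
      · filter_upwards [hBB0, hBA0] with w w1 w2
        simp only [Function.iterate_zero, preimage_id, mem_preimage] at w1 w2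
        rw [← w1, w2, A_rho_iter]
      · exact hB0.iff (((A_sk_measurable hT.measurable).iterate n) hA0))
    have e1 : muB.prod ν B = A_P.prod ν B0 := by
      rw [← hρ.measure_preimage hB0.nullMeasurableSet]
      refine measure_congr ?_
      rw [Filter.eventuallyEq_set]
      filter_upwards [hBB0] with w hw
      simpa using hw
    rw [e1]
    exact key

end Pool.Agent.KAut
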