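import Pool.Agent.Work.MP_2cfc43_lc.Defs

/-! MP_2cfc43_lc, module S: the skew product over the Bernoulli shift. -/

namespace Pool.Agent.KAut

open MeasureTheory Set Filter Topology

/-! ### lists of bits -/

theorem S_bits_succ (ξ : BB) (n : ℕ) :
    bitsL ξ 0 (n + 1) = ξ 0 :: bitsL (fun i => ξ (i + 1)) 0 n := by
  unfold bitsL
  rw [List.range_succ_eq_map, List.map_cons, List.map_map]
  rfl

theorem S_bits_succ' (ξ : BB) (n : ℕ) :
    bitsL ξ 0 (n + 1) = bitsL ξ 0 n ++ [ξ n] := by
  unfold bitsL
  rw [List.range_succ, List.map_append]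
  simp

theorem S_bits_shift (ξ : BB) (n W : ℕ) :
    bitsL (fun i => ξ (i + 1)) n W = bitsL ξ (n + 1) W := by
  unfold bitsL
  refine List.map_congr_left fun i _ => ?_
  have e : ((n + i : ℕ) : ℤ) + 1 = ((n + 1 + i : ℕ) : ℤ) := by
    push_cast
    ring
  show ξ (((n + i : ℕ) : ℤ) + 1) = ξ ((n + 1 + i : ℕ) : ℤ)
  rw [e]

theorem S_bits_take (ξ : BB) {W n : ℕ} (h : W ≤ n) : (bitsL ξ 0 n).take W = bitsL ξ 0 W := by
  unfold bitsL
  rw [← List.map_take, List.take_range, min_eq_left h]

theorem S_bits_ofFn (ξ : BB) (n : ℕ) :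
    bitsL ξ 0 n = List.ofFn (fun i : Fin n => ξ ((i : ℕ) : ℤ)) := by
  apply List.ext_getElem
  · simp [bitsL]
  · intro i h1 h2
    simp [bitsL]

theorem S_avg_eq (n : ℕ) (f : List Bool → ℝ) :
    avg n f = (∑ x : Fin n → Bool, f (List.ofFn x)) / 2 ^ n := by
  induction n generalizing f with
  | zero => simp [avg]
  | succ n ih =>
    have e : ∑ x : Fin (n + 1) → Bool, f (List.ofFn x) =
        ∑ p : Bool × (Fin n → Bool), f (p.1 :: List.ofFn p.2) := by
      rw [← (Fin.consEquiv (fun _ : Fin (n + 1) => Bool)).sum_comp]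
      refine Finset.sum_congr rfl fun p _ => ?_
      simp [Fin.consEquiv, List.ofFn_succ]
    rw [e, Fintype.sum_prod_type, avg, ih, ih, Fintype.sum_bool, pow_succ]
    field_simp
    ring

theorem S_unif_bool (b : Bool) : unif Bool {b} = 2⁻¹ := by
  unfold unif
  rw [PMF.toMeasure_apply_singleton _ _ (measurableSet_singleton _), PMF.uniformOfFintype_apply]
  simp

theorem S_map_bits (n : ℕ) :
    muB.map (fun (ξ : BB) (i : Fin n) => ξ ((i : ℕ) : ℤ)) =
      Measure.pi (fun _ : Fin n => unif Bool) := by
  have h := Measure.map_infinitePi_infinitePi_of_inj (P := fun _ : ℤ => unif Bool)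
    (f := fun i : Fin n => ((i : ℕ) : ℤ)) (fun i j h => by simpa [Fin.ext_iff] using h)
  unfold muB
  rw [h, Measure.infinitePi_eq_pi]

theorem integral_bits (n : ℕ) (f : List Bool → ℝ) :
    ∫ ξ, f (bitsL ξ 0 n) ∂muB = avg n f := by
  have h1 : ∀ ξ : BB, f (bitsL ξ 0 n) =
      (fun x : Fin n → Bool => f (List.ofFn x)) (fun i : Fin n => ξ ((i : ℕ) : ℤ)) := fun ξ => by
    rw [S_bits_ofFn]
  simp_rw [h1]
  have hm : Measurable (fun (ξ : BB) (i : Fin n) => ξ ((i : ℕ) : ℤ)) := by fun_prop
  rw [← integral_map (φ := fun (ξ : BB) (i : Fin n) => ξ ((i : ℕ) : ℤ))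
    (f := fun x : Fin n → Bool => f (List.ofFn x)) hm.aemeasurable
    (Measurable.of_discrete.aestronglyMeasurable), S_map_bits, integral_fintype]
  · rw [S_avg_eq, Finset.sum_div]
    refine Finset.sum_congr rfl fun x _ => ?_
    rw [measureReal_def, Measure.pi_singleton]
    simp only [S_unif_bool, Finset.prod_const, Finset.card_univ, Fintype.card_fin, smul_eq_mul,
      ENNReal.toReal_pow, ENNReal.toReal_inv, ENNReal.toReal_ofNat]
    rw [inv_pow, div_eq_inv_mul]
  · exact Integrable.of_finite

theorem S_measurable_bits (n : ℕ) (P : List Bool → Prop) :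
    MeasurableSet {ξ : BB | P (bitsL ξ 0 n)} := by
  have hm : Measurable (fun (ξ : BB) (i : Fin n) => ξ ((i : ℕ) : ℤ)) := by fun_prop
  have : {ξ : BB | P (bitsL ξ 0 n)} =
      (fun (ξ : BB) (i : Fin n) => ξ ((i : ℕ) : ℤ)) ⁻¹' {x | P (List.ofFn x)} := by
    ext ξ
    simp [S_bits_ofFn]
  rw [this]
  exact hm (MeasurableSet.of_discrete)

theorem S_real_bits (n : ℕ) (P : List Bool → Prop) [DecidablePred P] :
    muB.real {ξ : BB | P (bitsL ξ 0 n)} = avg n (fun l => if P l then 1 else 0) := by
  rw [← integral_bits, ← integral_indicator_one (S_measurable_bits n P)]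
  refine integral_congr_ae (ae_of_all _ fun ξ => ?_)
  simp [Set.indicator_apply]

/-! ### the skew product -/

theorem S_mp_shift : MeasurePreserving (fun (ξ : BB) (n : ℤ) => ξ (n + 1)) muB muB := by
  refine ⟨by fun_prop, ?_⟩
  exact Measure.map_infinitePi_infinitePi_of_inj (P := fun _ : ℤ => unif Bool)
    (f := fun n : ℤ => n + 1) (fun a b h => by simpa using h)

theorem S_mp_shift' : MeasurePreserving (fun (ξ : BB) (n : ℤ) => ξ (n - 1)) muB muB := by
  refine ⟨by fun_prop, ?_⟩
  exact Measure.map_infinitePi_infinitePi_of_inj (P := fun _ : ℤ => unif Bool)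
    (f := fun n : ℤ => n - 1) (fun a b h => by simpa using h)

section skew

variable {Y : Type*} [MeasurableSpace Y] {ν : Measure Y} [IsProbabilityMeasure ν]

theorem mp_skew {T : Y → Y} (hT : MeasurePreserving T ν ν) :
    MeasurePreserving (skew T) (muB.prod ν) (muB.prod ν) := by
  refine MeasurePreserving.skew_product (g := fun (ξ : BB) y => if ξ 0 then T y else y)
    S_mp_shift ?_ (ae_of_all _ fun ξ => ?_)
  · have hm : Measurable (fun p : BB × Y => p.1 0) := by fun_prop
    have hs : MeasurableSet ((fun p : BB × Y => p.1 0) ⁻¹' {true}) := hm (measurableSet_singleton true)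
    exact Measurable.ite hs (hT.measurable.comp measurable_snd) measurable_snd
  · by_cases h : ξ 0 = true
    · simp only [h, if_true]
      exact hT.map_eq
    · simp only [h]
      exact Measure.map_id'

theorem mp_skewInv {T' : Y → Y} (hT : MeasurePreserving T' ν ν) :
    MeasurePreserving (skewInv T') (muB.prod ν) (muB.prod ν) := by
  refine MeasurePreserving.skew_product (g := fun (ξ : BB) y => if ξ (-1) then T' y else y)
    S_mp_shift' ?_ (ae_of_all _ fun ξ => ?_)
  · have hm : Measurable (fun p : BB × Y => p.1 (-1)) := by fun_prop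
    have hs : MeasurableSet ((fun p : BB × Y => p.1 (-1)) ⁻¹' {true}) :=
      hm (measurableSet_singleton true)
    exact Measurable.ite hs (hT.measurable.comp measurable_snd) measurable_snd
  · by_cases h : ξ (-1) = true
    · simp only [h, if_true]
      exact hT.map_eq
    · simp only [h]
      exact Measure.map_id'

theorem skewInv_skew {Y : Type*} {T T' : Y → Y} (h : ∀ y, T' (T y) = y) (w : BB × Y) :
    skewInv T' (skew T w) = w := by
  unfold skewInv skew
  refine Prod.ext ?_ ?_
  · funext n
    simp
  · simp only [neg_add_cancel]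
    by_cases hb : w.1 0 = true
    · simp [hb, h]
    · simp [hb]

theorem skew_skewInv {Y : Type*} {T T' : Y → Y} (h : ∀ y, T (T' y) = y) (w : BB × Y) :
    skew T (skewInv T' w) = w := by
  unfold skewInv skew
  refine Prod.ext ?_ ?_
  · funext n
    simp
  · simp only [zero_sub]
    by_cases hb : w.1 (-1) = true
    · simp [hb, h]
    · simp [hb]

theorem skew_iter_fst {Y : Type*} (T : Y → Y) (n : ℕ) (w : BB × Y) :
    ((skew T)^[n] w).1 = fun i => w.1 (i + n) := by
  induction n with
  | zero => simp
  | succ n ih =>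
    rw [Function.iterate_succ_apply']
    show (fun i => ((skew T)^[n] w).1 (i + 1)) = _
    rw [ih]
    funext i
    have e : i + 1 + (n : ℤ) = i + ((n + 1 : ℕ) : ℤ) := by
      push_cast
      ring
    show w.1 (i + 1 + n) = w.1 (i + ((n + 1 : ℕ) : ℤ))
    rw [e]

theorem skew_iter_snd {Y : Type*} (T : Y → Y) (n : ℕ) (w : BB × Y) :
    ((skew T)^[n] w).2 = T^[(bitsL w.1 0 n).count true] w.2 := by
  induction n with
  | zero => simp [bitsL]
  | succ n ih =>
    rw [Function.iterate_succ_apply', S_bits_succ', List.count_append]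
    show (if ((skew T)^[n] w).1 0 then T ((skew T)^[n] w).2 else ((skew T)^[n] w).2) = _
    rw [skew_iter_fst, ih]
    simp only [zero_add]
    by_cases hb : w.1 n = true
    · rw [if_pos hb, hb]
      simp [Function.iterate_succ_apply']
    · rw [if_neg hb]
      have : w.1 n = false := by simpa using hb
      rw [this]
      simp

theorem readL_stream {Y β : Type*} (T : Y → Y) (W N : ℕ) (ψ : List Bool → (ℕ → Y) → β)
    (w : BB × Y) :
    readL W ψ N (bitsL w.1 0 (N + W)) (fun i => T^[i] w.2)
      = (List.range N).map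
          (fun n => ψ (bitsL w.1 n W) (fun i => T^[i] (((skew T)^[n] w).2))) := by
  induction N generalizing w with
  | zero => simp [readL]
  | succ N ih =>
    have e : N + 1 + W = (N + W) + 1 := by ring
    rw [e, readL, S_bits_take w.1 (by omega), List.range_succ_eq_map, List.map_cons, List.map_map]
    congr 1
    rw [S_bits_succ, List.tail_cons, List.headI_cons]
    have h1 : (if w.1 0 = true then (fun i => (fun i => T^[i] w.2) (i + 1)) else
        (fun i => T^[i] w.2)) = fun i => T^[i] (skew T w).2 := by
      funext i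
      show (if w.1 0 = true then (fun i => T^[i + 1] w.2) else (fun i => T^[i] w.2)) i =
        T^[i] (if w.1 0 then T w.2 else w.2)
      by_cases hb : w.1 0 = true
      · rw [if_pos hb, if_pos hb]
        rfl
      · rw [if_neg hb, if_neg hb]
    rw [h1]
    have h2 := ih (skew T w)
    show readL W ψ N (bitsL (skew T w).1 0 (N + W)) _ = _
    rw [h2]
    refine List.map_congr_left fun n _ => ?_
    simp only [Function.comp, Nat.succ_eq_add_one, Function.iterate_succ_apply]
    congr 1
    exact S_bits_shift w.1 n W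

/-- the collapsed name is a piece of the name of the fibre -/
theorem collapse_name {Y : Type*} (T : Y → Y) (c : Y → ℕ) (N : ℕ) (w : BB × Y) :
    collapse ((List.range N).map (fun n => (((skew T)^[n] w).1 0, c ((skew T)^[n] w).2)))
      = (List.range ((bitsL w.1 0 N).count true)).map (fun i => c (T^[i] w.2)) := by
  induction N generalizing w with
  | zero => simp [collapse, bitsL]
  | succ N ih =>
    rw [List.range_succ_eq_map, List.map_cons, List.map_map, S_bits_succ]
    have h1 : ((fun n => (((skew T)^[n] w).1 0, c ((skew T)^[n] w).2)) ∘ Nat.succ) =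
        fun n => (((skew T)^[n] (skew T w)).1 0, c ((skew T)^[n] (skew T w)).2) := by
      funext n
      simp only [Function.comp, Nat.succ_eq_add_one, Function.iterate_succ_apply]
    rw [h1]
    have h2 := ih (skew T w)
    have h3 : (skew T w).1 = fun i => w.1 (i + 1) := rfl
    rw [h3] at h2
    by_cases hb : w.1 0 = true
    · have h4 : (skew T w).2 = T w.2 := by
        show (if w.1 0 then T w.2 else w.2) = _
        rw [if_pos hb]
      rw [h4] at h2
      rw [hb, List.count_cons_self, List.range_succ_eq_map, List.map_cons, List.map_map]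
      unfold collapse at h2 ⊢
      simp only [Function.iterate_zero, id_eq, hb, List.filter_cons_of_pos, List.map_cons]
      congr 1
    · have hb' : w.1 0 = false := by simpa using hb
      have h4 : (skew T w).2 = w.2 := by
        show (if w.1 0 then T w.2 else w.2) = _
        rw [if_neg hb]
      rw [h4] at h2
      rw [hb', List.count_cons_of_ne (by simp)]
      unfold collapse at h2 ⊢
      rw [List.filter_cons_of_neg (by simp [hb'])]
      exact h2

end skew

/-! ### the number of ones -/

theorem S_avg_mono (n : ℕ) {f g : List Bool → ℝ} (h : ∀ l : List Bool, l.length = n → f l ≤ g l) :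
    avg n f ≤ avg n g := by
  induction n generalizing f g with
  | zero => exact h [] rfl
  | succ n ih =>
    unfold avg
    have h1 := ih (f := fun l => f (false :: l)) (g := fun l => g (false :: l)) fun l hl =>
      h _ (by simp [hl])
    have h2 := ih (f := fun l => f (true :: l)) (g := fun l => g (true :: l)) fun l hl =>
      h _ (by simp [hl])
    linarith

theorem S_avg_lin (n : ℕ) (f : List Bool → ℝ) (a b : ℝ) :
    avg n (fun l => a * f l + b) = a * avg n f + b := by
  induction n generalizing f with
  | zero => rfl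
  | succ n ih =>
    unfold avg
    rw [ih (fun l => f (false :: l)), ih (fun l => f (true :: l))]
    ring

theorem S_avg_add (n : ℕ) (f g : List Bool → ℝ) :
    avg n (fun l => f l + g l) = avg n f + avg n g := by
  induction n generalizing f g with
  | zero => rfl
  | succ n ih =>
    unfold avg
    rw [ih (fun l => f (false :: l)), ih (fun l => f (true :: l))]
    ring

theorem S_avg_count (n : ℕ) :
    avg n (fun l => ((l.count true : ℝ) - n / 2) ^ 2) = n / 4 := by
  induction n with
  | zero => simp [avg]
  | succ n ih =>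
    unfold avg
    have h1 : ∀ l : List Bool, (((false :: l).count true : ℝ) - ((n + 1 : ℕ) : ℝ) / 2) ^ 2 +
        (((true :: l).count true : ℝ) - ((n + 1 : ℕ) : ℝ) / 2) ^ 2 =
        2 * ((l.count true : ℝ) - n / 2) ^ 2 + 1 / 2 := by
      intro l
      rw [List.count_cons_of_ne (by simp), List.count_cons_self]
      push_cast
      ring
    rw [← S_avg_add]
    simp_rw [h1]
    rw [S_avg_lin, ih]
    push_cast
    ring

/-- at least a quarter of the bits are `true` -/
theorem count_ge (N : ℕ) (hN : 0 < N) :
    (muB.real {ξ | 4 * (bitsL ξ 0 N).count true < N}) ≤ 4 / N := by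
  have hN' : (0 : ℝ) < N := by exact_mod_cast hN
  rw [S_real_bits N (fun l => 4 * l.count true < N)]
  have h1 : avg N (fun l => if 4 * l.count true < N then (1 : ℝ) else 0) ≤
      avg N (fun l => 16 / (N : ℝ) ^ 2 * ((l.count true : ℝ) - N / 2) ^ 2 + 0) := by
    refine S_avg_mono N fun l _ => ?_
    by_cases h : 4 * l.count true < N
    · rw [if_pos h, add_zero]
      have h2 : (4 * (l.count true : ℝ)) < N := by exact_mod_cast h
      rw [div_mul_eq_mul_div, le_div_iff₀ (by positivity), one_mul]
      nlinarith
    · rw [if_neg h, add_zero]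
      positivity
  refine h1.trans (le_of_eq ?_)
  rw [S_avg_lin, S_avg_count]
  field_simp
  norm_num

end Pool.Agent.KAut
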