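import Pool.Agent.Work.MP_2cfc43_lc.C1
import Pool.Agent.Work.MP_2cfc43_lc.S

/-! MP_2cfc43_lc, module B1: coding of a factor map by finite codes. -/

namespace Pool.Agent.KAut

open MeasureTheory Set Filter Topology
open scoped ENNReal symmDiff

/-- the two points agree on the coordinates of `BB` in `[-m, m]` and on the coordinates `< m` of
the product -/
def B1_Agree {M : ℕ → ℕ} (m : ℕ) (w w' : BB × Prd M) : Prop :=
  (∀ i : ℤ, |i| ≤ m → w.1 i = w'.1 i) ∧ (∀ c < m, w.2 c = w'.2 c)

theorem B1_Agree.symm {M : ℕ → ℕ} {m : ℕ} {w w' : BB × Prd M} (h : B1_Agree m w w') :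
    B1_Agree m w' w :=
  ⟨fun i hi => (h.1 i hi).symm, fun c hc => (h.2 c hc).symm⟩

theorem B1_Agree.mono {M : ℕ → ℕ} {m m' : ℕ} (hm : m' ≤ m) {w w' : BB × Prd M}
    (h : B1_Agree m w w') : B1_Agree m' w w' :=
  ⟨fun i hi => h.1 i (hi.trans (by exact_mod_cast hm)), fun c hc => h.2 c (hc.trans_le hm)⟩

/-- measurable sets depending on finitely many coordinates -/
def B1_alg (M : ℕ → ℕ) : Set (Set (BB × Prd M)) :=
  {S | MeasurableSet S ∧ ∃ m : ℕ, ∀ w w' : BB × Prd M, B1_Agree m w w' → w ∈ S → w' ∈ S}

theorem B1_isSetAlgebra (M : ℕ → ℕ) : IsSetAlgebra (B1_alg M) where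
  empty_mem := ⟨MeasurableSet.empty, 0, fun _ _ _ h => h⟩
  compl_mem := by
    rintro S ⟨hS, m, hm⟩
    exact ⟨hS.compl, m, fun w w' hw h h' => h (hm w' w hw.symm h')⟩
  union_mem := by
    rintro S S' ⟨hS, m, hm⟩ ⟨hS', m', hm'⟩
    refine ⟨hS.union hS', max m m', fun w w' hw h => ?_⟩
    rcases h with h | h
    · exact Or.inl (hm w w' (hw.mono (le_max_left _ _)) h)
    · exact Or.inr (hm' w w' (hw.mono (le_max_right _ _)) h)

theorem B1_generate (M : ℕ → ℕ) :
    (inferInstance : MeasurableSpace (BB × Prd M)) = MeasurableSpace.generateFrom (B1_alg M) := by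
  apply le_antisymm
  · have h1 : Measurable[MeasurableSpace.generateFrom (B1_alg M)]
        (fun w : BB × Prd M => w.1) := by
      rw [@measurable_pi_iff]
      intro i t ht
      apply MeasurableSpace.measurableSet_generateFrom
      refine ⟨?_, i.natAbs, fun w w' hw h => ?_⟩
      · exact (measurable_pi_apply i).comp measurable_fst ht
      · have : w.1 i = w'.1 i := hw.1 i (by rw [Int.natCast_natAbs])
        simpa [this] using h
    have h2 : Measurable[MeasurableSpace.generateFrom (B1_alg M)]
        (fun w : BB × Prd M => w.2) := by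
      rw [@measurable_pi_iff]
      intro c t ht
      apply MeasurableSpace.measurableSet_generateFrom
      refine ⟨?_, c + 1, fun w w' hw h => ?_⟩
      · exact (measurable_pi_apply c).comp measurable_snd ht
      · have : w.2 c = w'.2 c := hw.2 c (Nat.lt_succ_self c)
        simpa [this] using h
    have h3 : Measurable[MeasurableSpace.generateFrom (B1_alg M)]
        (fun w : BB × Prd M => (w.1, w.2)) := @Measurable.prodMk _ _ _ _ _ _ _ _ h1 h2
    intro S hS
    exact h3 hS
  · apply MeasurableSpace.generateFrom_le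
    rintro S ⟨hS, -⟩
    exact hS

theorem B1_agree_finset {M : ℕ → ℕ} {ι : Type*} [Finite ι] (C : ι → Set (BB × Prd M))
    (hC : ∀ b, C b ∈ B1_alg M) :
    ∃ m : ℕ, ∀ b, ∀ w w' : BB × Prd M, B1_Agree m w w' → (w ∈ C b ↔ w' ∈ C b) := by
  choose m hm using fun b => (hC b).2
  cases nonempty_fintype ι
  refine ⟨Finset.univ.sup m, fun b w w' h => ?_⟩
  have h' : B1_Agree (m b) w w' := h.mono (Finset.le_sup (Finset.mem_univ b))
  exact ⟨hm b w w' h', hm b w' w h'.symm⟩

theorem code_approx {M : ℕ → ℕ} [∀ k, NeZero (M k)] {β : Type*} [Fintype β] [MeasurableSpace β]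
    [MeasurableSingletonClass β] (q : BB × Prd M → β) (hq : Measurable q) {η : ℝ} (hη : 0 < η) :
    ∃ (m : ℕ) (g : BB × Prd M → β),
      (∀ w w' : BB × Prd M, (∀ i : ℤ, |i| ≤ m → w.1 i = w'.1 i) → (∀ c < m, w.2 c = w'.2 c) →
        g w = g w') ∧
      (muB.prod (nuM M)).real {w | q w ≠ g w} ≤ η := by
  classical
  have hne : Nonempty β := ⟨q (fun _ => false, fun _ => 0)⟩
  have hdense := Measure.MeasureDense.of_generateFrom_isSetAlgebra_finite (muB.prod (nuM M))
    (B1_isSetAlgebra M) (B1_generate M)
  have hcard : (0 : ℝ) < Fintype.card β := by exact_mod_cast Fintype.card_pos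
  have hex : ∀ b : β, ∃ t ∈ B1_alg M,
      (muB.prod (nuM M)) ((q ⁻¹' {b}) ∆ t) < ENNReal.ofReal (η / Fintype.card β) := fun b =>
    hdense.approx _ (hq (measurableSet_singleton b)) (measure_ne_top _ _) _ (div_pos hη hcard)
  choose C hCa hC using hex
  obtain ⟨m, hm⟩ := B1_agree_finset C hCa
  refine ⟨m, fun w => if h : ∃ b, w ∈ C b then h.choose else Classical.arbitrary β, ?_, ?_⟩
  · intro w w' h1 h2
    have key : (fun b => w ∈ C b) = fun b => w' ∈ C b := by
      funext b
      exact propext (hm b w w' ⟨h1, h2⟩)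
    simp only [key]
  · have hsub : {w | q w ≠ (if h : ∃ b, w ∈ C b then h.choose else Classical.arbitrary β)}
        ⊆ ⋃ b, (q ⁻¹' {b}) ∆ (C b) := by
      intro w hw
      by_contra hcon
      simp only [mem_iUnion, not_exists] at hcon
      apply hw
      have h1 : ∀ b, (w ∈ C b ↔ q w = b) := by
        intro b
        have := hcon b
        simp only [Set.mem_symmDiff, mem_preimage, mem_singleton_iff] at this
        tauto
      have h2 : ∃ b, w ∈ C b := ⟨q w, (h1 _).2 rfl⟩
      rw [dif_pos h2]
      exact (h1 _).1 h2.choose_spec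
    have hle : (muB.prod (nuM M)) {w | q w ≠ (if h : ∃ b, w ∈ C b then h.choose
        else Classical.arbitrary β)} ≤ ENNReal.ofReal η := by
      calc _ ≤ (muB.prod (nuM M)) (⋃ b, (q ⁻¹' {b}) ∆ (C b)) := measure_mono hsub
        _ ≤ ∑ b, (muB.prod (nuM M)) ((q ⁻¹' {b}) ∆ (C b)) := measure_iUnion_fintype_le _ _
        _ ≤ ∑ _b : β, ENNReal.ofReal (η / Fintype.card β) :=
            Finset.sum_le_sum (fun b _ => (hC b).le)
        _ = ENNReal.ofReal η := by
            rw [Finset.sum_const, Finset.card_univ, nsmul_eq_mul, ← ENNReal.ofReal_natCast,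
              ← ENNReal.ofReal_mul (by positivity)]
            congr 1
            field_simp
    exact ENNReal.toReal_le_of_le_ofReal hη.le hle

theorem code_stream {M : ℕ → ℕ} [∀ k, NeZero (M k)] (hM2 : ∀ k, 2 ≤ M k) {β : Type*} [Fintype β]
    [MeasurableSpace β] [MeasurableSingletonClass β] [Nonempty β] (D : Adic M)
    (q : BB × Prd M → β) (hq : Measurable q) {η : ℝ} (hη : 0 < η) :
    ∃ (m W : ℕ) (ψ : List Bool → (ℕ → Prd M) → β),
      (∀ (bs : List Bool) (s s' : ℕ → Prd M), (∀ i < W, ∀ c < W, s i c = s' i c) →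
        ψ bs s = ψ bs s') ∧
      ∀ n : ℕ, (muB.prod (nuM M)).real {w | q ((skew D.fwd)^[m + n] w)
        ≠ ψ (bitsL w.1 n W) (fun i => D.fwd^[i] (((skew D.fwd)^[n] w).2))} ≤ η := by
  obtain ⟨m, g, hg, hgη⟩ := code_approx q hq hη
  refine ⟨m, 2 * m + 1, fun bs s => g (fun i => bs.getD (i + m).toNat false,
    s ((bs.take m).count true)), ?_, ?_⟩
  · intro bs s s' h
    apply hg
    · intro i _
      rfl
    · intro c hc
      apply h
      · have h1 : (bs.take m).count true ≤ (bs.take m).length := List.count_le_length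
        have h2 : (bs.take m).length ≤ m := List.length_take_le _ _
        omega
      · omega
  · intro n
    have hmp : MeasurePreserving ((skew D.fwd)^[m + n]) (muB.prod (nuM M)) (muB.prod (nuM M)) :=
      (mp_skew (D.mp_fwd hM2)).iterate (m + n)
    have hset : {w : BB × Prd M | q ((skew D.fwd)^[m + n] w)
        ≠ g (fun i => (bitsL w.1 n (2 * m + 1)).getD (i + m).toNat false,
          D.fwd^[((bitsL w.1 n (2 * m + 1)).take m).count true] (((skew D.fwd)^[n] w).2))}
        = ((skew D.fwd)^[m + n]) ⁻¹' {w | q w ≠ g w} := by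
      ext w
      have hgw : g (fun i => (bitsL w.1 n (2 * m + 1)).getD (i + m).toNat false,
          D.fwd^[((bitsL w.1 n (2 * m + 1)).take m).count true] (((skew D.fwd)^[n] w).2))
          = g ((skew D.fwd)^[m + n] w) := by
        apply hg
        · intro i hi
          rw [abs_le] at hi
          have h0 : (i + m).toNat < 2 * m + 1 := by omega
          rw [skew_iter_fst]
          show (bitsL w.1 n (2 * m + 1)).getD (i + m).toNat false = w.1 (i + ((m + n : ℕ) : ℤ))
          unfold bitsL
          rw [List.getD_eq_getElem?_getD, List.getElem?_map, List.getElem?_range h0]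
          show w.1 ((n + (i + m).toNat : ℕ) : ℤ) = _
          have h3 : ((i + m).toNat : ℤ) = i + m := Int.toNat_of_nonneg (by omega)
          refine congrArg w.1 ?_
          rw [Nat.cast_add, h3, Nat.cast_add]
          ring
        · intro c _
          have h1 : (bitsL w.1 n (2 * m + 1)).take m = bitsL ((skew D.fwd)^[n] w).1 0 m := by
            rw [skew_iter_fst]
            unfold bitsL
            rw [← List.map_take, List.take_range, min_eq_left (by omega)]
            apply List.map_congr_left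
            intro i _
            refine congrArg w.1 ?_
            push_cast
            ring
          show (D.fwd^[((bitsL w.1 n (2 * m + 1)).take m).count true]
            (((skew D.fwd)^[n] w).2)) c = ((skew D.fwd)^[m + n] w).2 c
          rw [h1, ← skew_iter_snd, ← Function.iterate_add_apply]
      simp only [mem_preimage]
      show (_ ≠ _) ↔ (_ ≠ _)
      rw [hgw]
    have hle : (muB.prod (nuM M)) (((skew D.fwd)^[m + n]) ⁻¹' {w | q w ≠ g w})
        ≤ (muB.prod (nuM M)) {w | q w ≠ g w} := by
      calc _ ≤ (Measure.map ((skew D.fwd)^[m + n]) (muB.prod (nuM M))) {w | q w ≠ g w} :=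
            Measure.le_map_apply hmp.measurable.aemeasurable _
        _ = _ := by rw [hmp.map_eq]
    calc (muB.prod (nuM M)).real {w : BB × Prd M | q ((skew D.fwd)^[m + n] w)
        ≠ g (fun i => (bitsL w.1 n (2 * m + 1)).getD (i + m).toNat false,
          D.fwd^[((bitsL w.1 n (2 * m + 1)).take m).count true] (((skew D.fwd)^[n] w).2))}
        = (muB.prod (nuM M)).real (((skew D.fwd)^[m + n]) ⁻¹' {w | q w ≠ g w}) := by rw [hset]
      _ ≤ (muB.prod (nuM M)).real {w | q w ≠ g w} :=
          ENNReal.toReal_mono (measure_ne_top _ _) hle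
      _ ≤ η := hgη

end Pool.Agent.KAut
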