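import Pool.Agent.Work.MP_2cfc43_lc.Defs

/-! MP_2cfc43_lc, module V: averages over bits, variance of the reading. -/

namespace Pool.Agent.KAut

open MeasureTheory Set Filter Topology

theorem avg_const (n : ℕ) (c : ℝ) : avg n (fun _ => c) = c := by
  induction n with
  | zero => rfl
  | succ n ih => simp only [avg, ih]; ring

theorem avg_mono {n : ℕ} {f g : List Bool → ℝ} (h : ∀ l : List Bool, l.length = n → f l ≤ g l) :
    avg n f ≤ avg n g := by
  induction n generalizing f g with
  | zero => exact h [] rfl
  | succ n ih =>
    simp only [avg]
    have h1 := ih (f := fun l => f (false :: l)) (g := fun l => g (false :: l))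
      (fun l hl => h _ (by simp [hl]))
    have h2 := ih (f := fun l => f (true :: l)) (g := fun l => g (true :: l))
      (fun l hl => h _ (by simp [hl]))
    linarith

theorem V_avg_add (n : ℕ) (f g : List Bool → ℝ) :
    avg n (fun l => f l + g l) = avg n f + avg n g := by
  induction n generalizing f g with
  | zero => rfl
  | succ n ih => simp only [avg, ih]; ring

theorem V_avg_mul (n : ℕ) (c : ℝ) (f : List Bool → ℝ) :
    avg n (fun l => c * f l) = c * avg n f := by
  induction n generalizing f with
  | zero => rfl
  | succ n ih => simp only [avg, ih]; ring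

theorem V_avg_sub (n : ℕ) (f g : List Bool → ℝ) :
    avg n (fun l => f l - g l) = avg n f - avg n g := by
  induction n generalizing f g with
  | zero => rfl
  | succ n ih => simp only [avg, ih]; ring

theorem V_avg_congr {n : ℕ} {f g : List Bool → ℝ}
    (h : ∀ l : List Bool, l.length = n → f l = g l) : avg n f = avg n g :=
  le_antisymm (avg_mono fun l hl => (h l hl).le) (avg_mono fun l hl => (h l hl).ge)

theorem avg_add_len (n m : ℕ) (f : List Bool → ℝ) :
    avg (n + m) f = avg n (fun l => avg m (fun l' => f (l ++ l'))) := by
  induction n generalizing f with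
  | zero => simp [avg]
  | succ n ih =>
    rw [Nat.succ_add]
    simp only [avg, ih, List.cons_append]

theorem V_avg_abs_sub {n : ℕ} {f g : List Bool → ℝ} {c : ℝ}
    (h : ∀ l : List Bool, l.length = n → |f l - g l| ≤ c) : |avg n f - avg n g| ≤ c := by
  rw [← V_avg_sub, abs_le]
  constructor
  · rw [← avg_const n (-c)]
    exact avg_mono fun l hl => (abs_le.1 (h l hl)).1
  · have := avg_mono (n := n) (f := fun l => f l - g l) (g := fun _ => c)
      fun l hl => (abs_le.1 (h l hl)).2
    rwa [avg_const] at this

theorem V_avg_abs_const {n : ℕ} {x : ℝ} {g : List Bool → ℝ} {c : ℝ}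
    (h : ∀ l : List Bool, l.length = n → |x - g l| ≤ c) : |x - avg n g| ≤ c := by
  have := V_avg_abs_sub (n := n) (f := fun _ => x) (g := g) h
  rwa [avg_const] at this

/-- bounded martingale differences give a bounded variance -/
theorem avg_variance {n : ℕ} {f : List Bool → ℝ} {C : ℝ} (hC : 0 ≤ C)
    (h : ∀ pre : List Bool, pre.length < n →
      |avg (n - pre.length - 1) (fun l => f (pre ++ false :: l))
        - avg (n - pre.length - 1) (fun l => f (pre ++ true :: l))| ≤ C) :
    avg n (fun l => (f l - avg n f) ^ 2) ≤ n * C ^ 2 := by
  induction n generalizing f with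
  | zero => simp [avg]
  | succ n ih =>
    have key : ∀ (g : List Bool → ℝ) (m : ℝ),
        avg n (fun l => (g l - m) ^ 2) = avg n (fun l => (g l - avg n g) ^ 2)
          + (avg n g - m) ^ 2 := by
      intro g m
      have e1 : (fun l => (g l - m) ^ 2) = fun l => ((g l - avg n g) ^ 2
          + (2 * (avg n g - m)) * (g l - avg n g)) + (avg n g - m) ^ 2 := by
        funext l; ring
      have e2 : avg n (fun l => g l - avg n g) = 0 := by
        rw [V_avg_sub n g (fun _ => avg n g), avg_const, sub_self]
      rw [e1, V_avg_add, V_avg_add, V_avg_mul, e2, avg_const]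
      ring
    have i0 := ih (f := fun l => f (false :: l)) (fun pre hpre => by
      have := h (false :: pre) (by simpa using hpre)
      simpa [Nat.succ_sub_succ] using this)
    have i1 := ih (f := fun l => f (true :: l)) (fun pre hpre => by
      have := h (true :: pre) (by simpa using hpre)
      simpa [Nat.succ_sub_succ] using this)
    have h0 := h [] (by simp)
    simp only [List.length_nil, Nat.sub_zero, Nat.add_sub_cancel, List.nil_append] at h0
    simp only [avg]
    have k0 := key (fun l => f (false :: l))
      ((avg n (fun l => f (false :: l)) + avg n (fun l => f (true :: l))) / 2)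
    have k1 := key (fun l => f (true :: l))
      ((avg n (fun l => f (false :: l)) + avg n (fun l => f (true :: l))) / 2)
    rw [k0, k1]
    set m0 := avg n (fun l => f (false :: l)) with hm0
    set m1 := avg n (fun l => f (true :: l)) with hm1
    have h2 : (m0 - m1) ^ 2 ≤ C ^ 2 := by
      rw [sq_le_sq, abs_of_nonneg hC]; exact h0
    push_cast
    nlinarith [i0, i1, h2, sq_nonneg C]

/-- average over the position of the first `true` -/
theorem V_geo (B : ℝ) (n : ℕ) (f : List Bool → ℝ) (c : ℝ)
    (h : ∀ k m : ℕ, k + 1 + m = n →
      |avg m (fun l => f (List.replicate k false ++ true :: l)) - B| ≤ c + k)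
    (h0 : |f (List.replicate n false) - B| ≤ c + n + 1) : |avg n f - B| ≤ c + 1 := by
  induction n generalizing f c with
  | zero => simpa [avg] using h0
  | succ n ih =>
    have i0 := ih (fun l => f (false :: l)) (c + 1) (fun k m hkm => by
      have := h (k + 1) m (by omega)
      rw [List.replicate_succ] at this
      simp only [List.cons_append] at this
      refine this.trans (le_of_eq ?_)
      push_cast; ring) (by
      have := h0
      rw [List.replicate_succ] at this
      refine this.trans (le_of_eq ?_)
      push_cast; ring)
    have i1 := h 0 n (by omega)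
    simp only [List.replicate_zero, List.nil_append, Nat.cast_zero, add_zero] at i1
    simp only [avg]
    rw [abs_le] at *
    constructor <;> linarith [i0.1, i0.2, i1.1, i1.2]

/-- the scenery after some bits -/
def V_adv {σ : Type*} : List Bool → (ℕ → σ) → (ℕ → σ)
  | [], s => s
  | b :: bs, s => V_adv bs (if b then (fun i => s (i + 1)) else s)

theorem readL_length {σ β : Type*} (W N : ℕ) (ψ : List Bool → (ℕ → σ) → β) (bs : List Bool)
    (s : ℕ → σ) : (readL W ψ N bs s).length = N := by
  induction N generalizing bs s with
  | zero => rfl
  | succ N ih => simp [readL, ih]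

theorem V_readL_add {σ β : Type*} (W : ℕ) (ψ : List Bool → (ℕ → σ) → β) (n m : ℕ)
    (bs : List Bool) (s : ℕ → σ) :
    readL W ψ (n + m) bs s
      = readL W ψ n bs s ++ readL W ψ m (bs.drop n) (V_adv (bs.take n) s) := by
  induction n generalizing bs s with
  | zero => simp [readL, V_adv]
  | succ n ih =>
    rw [Nat.succ_add]
    cases bs with
    | nil => 
      simp only [readL, List.tail_nil, List.cons_append, List.drop_nil, List.take_nil]
      rw [ih]
      simp [V_adv]
    | cons b bs =>
      simp only [readL, List.tail_cons, List.cons_append, List.drop_succ_cons,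
        List.take_succ_cons, V_adv, List.headI_cons]
      rw [ih]
      rfl

theorem V_readL_take {σ β : Type*} (W : ℕ) (ψ : List Bool → (ℕ → σ) → β) (n : ℕ)
    {bs bs' : List Bool} (s : ℕ → σ) (h : bs.take (n + W) = bs'.take (n + W)) :
    readL W ψ n bs s = readL W ψ n bs' s := by
  induction n generalizing bs bs' s with
  | zero => rfl
  | succ n ih =>
    have h1 : bs.take W = bs'.take W := by
      have := congrArg (List.take W) h
      simpa [List.take_take] using this
    have h2 : bs.tail.take (n + W) = bs'.tail.take (n + W) := by
      have := congrArg List.tail h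
      rw [show n + 1 + W = (n + W) + 1 by omega] at this
      cases bs <;> cases bs' <;> simp_all
    have h3 : bs.headI = bs'.headI := by
      rw [show n + 1 + W = (n + W) + 1 by omega] at h
      cases bs <;> cases bs' <;> simp at h ⊢
      exact h.1
    simp only [readL, h1, h3]
    rw [ih _ h2]

/-- locality of the reading -/
theorem readL_congr {σ β : Type*} {W N : ℕ} {ψ : List Bool → (ℕ → σ) → β} {R : σ → σ → Prop}
    (hψ : ∀ bs s s', (∀ i < W, R (s i) (s' i)) → ψ bs s = ψ bs s') (bs : List Bool)
    {s s' : ℕ → σ} (h : ∀ i < N + W, R (s i) (s' i)) :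
    readL W ψ N bs s = readL W ψ N bs s' := by
  induction N generalizing bs s s' with
  | zero => rfl
  | succ N ih =>
    simp only [readL]
    rw [hψ (bs.take W) s s' (fun i hi => h i (by omega))]
    congr 1
    apply ih
    intro i hi
    split
    · exact h (i + 1) (by omega)
    · exact h i (by omega)

theorem V_subLip_le {β : Type*} {F : List β → ℕ} (hF : SubLip F) {X Y Z : List β}
    (hX : Z.Sublist X) (hY : Z.Sublist Y) {c : ℕ} (hc : X.length ≤ Z.length + c) :
    F X ≤ F Y + c := by
  have h1 := (hF Z X hX).2
  have h2 := (hF Z Y hY).1
  omega

theorem V_abs_le {x y c : ℕ} (h1 : x ≤ y + c) (h2 : y ≤ x + c) : |(x : ℝ) - y| ≤ c := by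
  have h1' : (x : ℝ) ≤ y + c := by exact_mod_cast h1
  have h2' : (y : ℝ) ≤ x + c := by exact_mod_cast h2
  rw [abs_le]; constructor <;> linarith

/-- two readings with a common prefix of the bits -/
theorem V_common {σ β : Type*} (W N : ℕ) (ψ : List Bool → (ℕ → σ) → β) (s : ℕ → σ)
    {F : List β → ℕ} (hF : SubLip F) (pre b b' : List Bool) (h : pre.length < N + W) :
    |(F (readL W ψ N (pre ++ b) s) : ℝ) - F (readL W ψ N (pre ++ b') s)|
      ≤ (N - (pre.length - W) : ℕ) := by
  have hle : pre.length - W ≤ N := by omega
  obtain ⟨m, hm⟩ := Nat.exists_eq_add_of_le hle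
  have hX : readL W ψ (pre.length - W) (pre ++ b) s
      = readL W ψ (pre.length - W) (pre ++ b') s := by
    by_cases hp : W ≤ pre.length
    · apply V_readL_take
      rw [show pre.length - W + W = pre.length by omega]
      simp
    · rw [show pre.length - W = 0 by omega]; rfl
  have e1 := V_readL_add W ψ (pre.length - W) m (pre ++ b) s
  have e2 := V_readL_add W ψ (pre.length - W) m (pre ++ b') s
  rw [← hm] at e1 e2
  rw [e1, e2]
  apply V_abs_le
  · refine V_subLip_le hF (Z := readL W ψ (pre.length - W) (pre ++ b) s)
      (List.sublist_append_left _ _) ?_ ?_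
    · rw [hX]; exact List.sublist_append_left _ _
    · simp only [List.length_append, readL_length]; omega
  · refine V_subLip_le hF (Z := readL W ψ (pre.length - W) (pre ++ b) s) ?_
      (List.sublist_append_left _ _) ?_
    · rw [hX]; exact List.sublist_append_left _ _
    · simp only [List.length_append, readL_length]; omega

/-- the main pointwise comparison -/
theorem V_point {σ β : Type*} (W N : ℕ) (ψ : List Bool → (ℕ → σ) → β) (s : ℕ → σ)
    {F : List β → ℕ} (hF : SubLip F) (pre z z' : List Bool) (k : ℕ)
    (h : pre.length < N + W)
    (hz : pre.length + (k + 1) + (z.length + 1) = N + W) :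
    |(F (readL W ψ N (pre ++ (List.replicate (k + 1) false ++ true :: z)) s) : ℝ)
      - F (readL W ψ N (pre ++ (true :: (z ++ z'))) s)| ≤ W + 1 + k := by
  by_cases hN : pre.length + (k + 1) ≤ N
  · obtain ⟨m, hm⟩ := Nat.exists_eq_add_of_le hN
    have hmz : m + W = z.length + 1 := by omega
    -- the reading of the first list
    have hadv : ∀ (n : ℕ) (l : List Bool) (s : ℕ → σ),
        V_adv (l ++ List.replicate n false) s = V_adv l s := by
      intro n l s
      induction l generalizing s with
      | nil =>
        induction n with
        | zero => rfl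
        | succ n ih => simpa [List.replicate_succ, V_adv] using ih
      | cons b l ih => simp only [List.cons_append, V_adv]; exact ih _
    have e1 : readL W ψ N (pre ++ (List.replicate (k + 1) false ++ true :: z)) s
        = readL W ψ (pre.length + (k + 1))
            (pre ++ (List.replicate (k + 1) false ++ true :: z)) s
          ++ readL W ψ m (true :: z) (V_adv pre s) := by
      rw [hm, V_readL_add]
      congr 2
      · rw [← List.append_assoc]
        apply List.drop_left'
        simp
      · rw [← List.append_assoc, List.take_left' (by simp), hadv]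
    have e2 : readL W ψ N (pre ++ (true :: (z ++ z'))) s
        = readL W ψ pre.length (pre ++ (true :: (z ++ z'))) s
          ++ (readL W ψ m (true :: z) (V_adv pre s)
            ++ readL W ψ (k + 1) ((true :: (z ++ z')).drop m)
              (V_adv ((true :: (z ++ z')).take m) (V_adv pre s))) := by
      rw [show N = pre.length + (m + (k + 1)) by omega, V_readL_add, V_readL_add]
      congr 1
      rw [List.drop_left, List.take_left]
      congr 1
      apply V_readL_take
      rw [hmz, ← List.cons_append, List.take_left' (by simp), List.take_of_length_le (by simp)]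
    -- the common beginning
    have hX : readL W ψ (pre.length - W) (pre ++ (List.replicate (k + 1) false ++ true :: z)) s
        = readL W ψ (pre.length - W) (pre ++ (true :: (z ++ z'))) s := by
      by_cases hp : W ≤ pre.length
      · apply V_readL_take
        rw [show pre.length - W + W = pre.length by omega]
        simp
      · rw [show pre.length - W = 0 by omega]; rfl
    have s1 : (readL W ψ (pre.length - W)
        (pre ++ (List.replicate (k + 1) false ++ true :: z)) s).Sublist
        (readL W ψ (pre.length + (k + 1))
            (pre ++ (List.replicate (k + 1) false ++ true :: z)) s) := by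
      obtain ⟨r, hr⟩ := Nat.exists_eq_add_of_le
        (show pre.length - W ≤ pre.length + (k + 1) by omega)
      rw [hr, V_readL_add]
      exact List.sublist_append_left _ _
    have s2 : (readL W ψ (pre.length - W)
        (pre ++ (List.replicate (k + 1) false ++ true :: z)) s).Sublist
        (readL W ψ pre.length (pre ++ (true :: (z ++ z'))) s) := by
      obtain ⟨r, hr⟩ := Nat.exists_eq_add_of_le (show pre.length - W ≤ pre.length by omega)
      have e3 := V_readL_add W ψ (pre.length - W) r (pre ++ (true :: (z ++ z'))) s
      rw [← hr] at e3
      rw [hX, e3]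
      exact List.sublist_append_left _ _
    set X := readL W ψ (pre.length - W)
        (pre ++ (List.replicate (k + 1) false ++ true :: z)) s with hXdef
    have hXl : X.length = pre.length - W := readL_length ..
    set Z := readL W ψ m (true :: z) (V_adv pre s) with hZdef
    have hZl : Z.length = m := readL_length ..
    have t1 : (X ++ Z).Sublist
        (readL W ψ N (pre ++ (List.replicate (k + 1) false ++ true :: z)) s) := by
      rw [e1]; exact s1.append (List.Sublist.refl _)
    have t2 : (X ++ Z).Sublist (readL W ψ N (pre ++ (true :: (z ++ z'))) s) := by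
      rw [e2]; exact s2.append (List.sublist_append_left _ _)
    have hlen : ∀ Y : List β, Y.length = N → Y.length ≤ (X ++ Z).length + (W + 1 + k) := by
      intro Y hY
      rw [hY, List.length_append, hXl, hZl]
      omega
    have := V_abs_le (x := F (readL W ψ N (pre ++ (List.replicate (k + 1) false ++ true :: z)) s))
      (y := F (readL W ψ N (pre ++ (true :: (z ++ z'))) s)) (c := W + 1 + k)
      (V_subLip_le hF t1 t2 (hlen _ (readL_length ..)))
      (V_subLip_le hF t2 t1 (hlen _ (readL_length ..)))
    simpa using this
  · refine (V_common W N ψ s hF pre _ _ h).trans ?_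
    have : N - (pre.length - W) ≤ W + 1 + k := by omega
    exact_mod_cast this

/-- flipping a bit of the reading -/
theorem readL_diff {σ β : Type*} (W N : ℕ) (ψ : List Bool → (ℕ → σ) → β) (s : ℕ → σ)
    {F : List β → ℕ} (hF : SubLip F) (pre : List Bool) (hpre : pre.length < N + W) :
    |avg (N + W - pre.length - 1) (fun l => (F (readL W ψ N (pre ++ false :: l) s) : ℝ))
      - avg (N + W - pre.length - 1) (fun l => (F (readL W ψ N (pre ++ true :: l) s) : ℝ))|
      ≤ 2 * W + 8 := by
  set R := N + W - pre.length - 1 with hR
  have := V_geo (avg R (fun l => (F (readL W ψ N (pre ++ true :: l) s) : ℝ))) R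
    (fun l => (F (readL W ψ N (pre ++ false :: l) s) : ℝ)) (W + 1) ?_ ?_
  · have hW : (0 : ℝ) ≤ W := Nat.cast_nonneg _
    linarith
  · intro k m hkm
    have hB : avg R (fun l => (F (readL W ψ N (pre ++ true :: l) s) : ℝ))
        = avg m (fun z => avg (k + 1) (fun z' =>
            (F (readL W ψ N (pre ++ true :: (z ++ z')) s) : ℝ))) := by
      rw [← hkm, show k + 1 + m = m + (k + 1) by omega, avg_add_len]
    rw [hB]
    apply V_avg_abs_sub
    intro z hz
    apply V_avg_abs_const
    intro z' _
    have := V_point W N ψ s hF pre z z' k hpre (by omega)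
    rw [List.replicate_succ, List.cons_append] at this
    exact this
  · apply V_avg_abs_const
    intro l _
    refine (V_common W N ψ s hF pre _ _ hpre).trans ?_
    have h1 : N - (pre.length - W) ≤ W + 1 + R + 1 := by omega
    have h2 : ((N - (pre.length - W) : ℕ) : ℝ) ≤ ((W + 1 + R + 1 : ℕ) : ℝ) := by exact_mod_cast h1
    refine h2.trans (le_of_eq ?_)
    push_cast; ring

theorem V_point_shift {σ β : Type*} (W N : ℕ) (ψ : List Bool → (ℕ → σ) → β) (s : ℕ → σ)
    {F : List β → ℕ} (hF : SubLip F) (z z' : List Bool) (k : ℕ)
    (hz : k + 1 + z.length = N + W) :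
    |(F (readL W ψ N (List.replicate k false ++ true :: z) s) : ℝ)
      - F (readL W ψ N (z ++ z') (fun i => s (i + 1)))| ≤ 1 + k := by
  by_cases hN : k + 1 ≤ N
  · obtain ⟨m, hm⟩ := Nat.exists_eq_add_of_le hN
    have hadv : V_adv (List.replicate k false ++ [true]) s = fun i => s (i + 1) := by
      clear hz hN hm
      induction k with
      | zero => simp [V_adv]
      | succ n ih => simpa [List.replicate_succ, V_adv] using ih
    have e1 : readL W ψ N (List.replicate k false ++ true :: z) s
        = readL W ψ (k + 1) (List.replicate k false ++ true :: z) s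
          ++ readL W ψ m z (fun i => s (i + 1)) := by
      rw [hm, V_readL_add]
      have h1 : List.replicate k false ++ true :: z = (List.replicate k false ++ [true]) ++ z := by
        simp
      rw [h1, List.drop_left' (by simp), List.take_left' (by simp), hadv]
    have e2 : readL W ψ N (z ++ z') (fun i => s (i + 1))
        = readL W ψ m z (fun i => s (i + 1))
          ++ readL W ψ (k + 1) ((z ++ z').drop m)
            (V_adv ((z ++ z').take m) (fun i => s (i + 1))) := by
      rw [show N = m + (k + 1) by omega, V_readL_add]
      congr 1
      apply V_readL_take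
      rw [show m + W = z.length by omega, List.take_left, List.take_length]
    set Z := readL W ψ m z (fun i => s (i + 1)) with hZdef
    have hZl : Z.length = m := readL_length ..
    have t1 : Z.Sublist (readL W ψ N (List.replicate k false ++ true :: z) s) := by
      rw [e1]; exact List.sublist_append_right _ _
    have t2 : Z.Sublist (readL W ψ N (z ++ z') (fun i => s (i + 1))) := by
      rw [e2]; exact List.sublist_append_left _ _
    have hlen : ∀ Y : List β, Y.length = N → Y.length ≤ Z.length + (1 + k) := by
      intro Y hY
      rw [hY, hZl]
      omega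
    have := V_abs_le (x := F (readL W ψ N (List.replicate k false ++ true :: z) s))
      (y := F (readL W ψ N (z ++ z') (fun i => s (i + 1)))) (c := 1 + k)
      (V_subLip_le hF t1 t2 (hlen _ (readL_length ..)))
      (V_subLip_le hF t2 t1 (hlen _ (readL_length ..)))
    simpa using this
  · have := V_abs_le (x := F (readL W ψ N (List.replicate k false ++ true :: z) s))
      (y := F (readL W ψ N (z ++ z') (fun i => s (i + 1)))) (c := 1 + k)
      (V_subLip_le hF (Z := []) (List.nil_sublist _) (List.nil_sublist _)
        (by rw [readL_length]; simp; omega))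
      (V_subLip_le hF (Z := []) (List.nil_sublist _) (List.nil_sublist _)
        (by rw [readL_length]; simp; omega))
    simpa using this

/-- shifting the scenery -/
theorem readL_shift {σ β : Type*} (W N : ℕ) (ψ : List Bool → (ℕ → σ) → β) (s : ℕ → σ)
    {F : List β → ℕ} (hF : SubLip F) :
    |avg (N + W) (fun l => (F (readL W ψ N l s) : ℝ))
      - avg (N + W) (fun l => (F (readL W ψ N l (fun i => s (i + 1))) : ℝ))| ≤ 6 := by
  have := V_geo (avg (N + W) (fun l => (F (readL W ψ N l (fun i => s (i + 1))) : ℝ))) (N + W)
    (fun l => (F (readL W ψ N l s) : ℝ)) 1 ?_ ?_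
  · linarith
  · intro k m hkm
    have hB : avg (N + W) (fun l => (F (readL W ψ N l (fun i => s (i + 1))) : ℝ))
        = avg m (fun z => avg (k + 1) (fun z' =>
            (F (readL W ψ N (z ++ z') (fun i => s (i + 1))) : ℝ))) := by
      rw [← hkm, show k + 1 + m = m + (k + 1) by omega, avg_add_len]
    rw [hB]
    apply V_avg_abs_sub
    intro z hz
    apply V_avg_abs_const
    intro z' _
    exact V_point_shift W N ψ s hF z z' k (by omega)
  · apply V_avg_abs_const
    intro l _
    have := V_abs_le (x := F (readL W ψ N (List.replicate (N + W) false) s))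
      (y := F (readL W ψ N l (fun i => s (i + 1)))) (c := N)
      (V_subLip_le hF (Z := []) (List.nil_sublist _) (List.nil_sublist _)
        (by rw [readL_length]; simp))
      (V_subLip_le hF (Z := []) (List.nil_sublist _) (List.nil_sublist _)
        (by rw [readL_length]; simp))
    refine this.trans ?_
    push_cast
    have hW : (0 : ℝ) ≤ W := Nat.cast_nonneg _
    linarith

/-- a Lipschitz functional changes at most by the number of errors -/
theorem SubLip.errors {β : Type*} [DecidableEq β] {F : List β → ℕ} (hF : SubLip F) (N : ℕ)
    (z z' : ℕ → β) :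
    F ((List.range N).map z) ≤ F ((List.range N).map z')
      + ((Finset.range N).filter (fun n => z n ≠ z' n)).card := by
  have hcard : ((Finset.range N).filter (fun n => z n ≠ z' n)).card
      + ((List.range N).filter (fun n => z n = z' n)).length = N := by
    induction N with
    | zero => simp
    | succ N ih =>
      rw [List.range_succ, List.filter_append, List.length_append, Finset.range_add_one,
        Finset.filter_insert]
      simp only [ne_eq] at ih ⊢
      by_cases h : z N = z' N
      · simp [h]; omega
      · rw [if_pos h, Finset.card_insert_of_notMem (by simp)]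
        simp [h]; omega
  refine V_subLip_le hF (Z := ((List.range N).filter (fun n => z n = z' n)).map z) ?_ ?_ ?_
  · exact List.filter_sublist.map z
  · have : ((List.range N).filter (fun n => z n = z' n)).map z
        = ((List.range N).filter (fun n => z n = z' n)).map z' := by
      apply List.map_congr_left
      intro n hn
      simpa using (List.mem_filter.1 hn).2
    rw [this]
    exact List.filter_sublist.map z'
  · simp only [List.length_map, List.length_range]
    omega

end Pool.Agent.KAut
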