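import Pool.Agent.Work.MP_2cfc43_lc.Defs
import Pool.Agent.Work.MP_2cfc43_lc.V
import Pool.Agent.Work.MP_2cfc43_lc.S

/-! MP_2cfc43_lc, module B2: concentration of the functionals over the bits. -/

namespace Pool.Agent.KAut

open MeasureTheory Set Filter Topology

/-- mean of the functional over the bits, for the scenery of `y` -/
noncomputable def mF {Y β : Type*} (T : Y → Y) (W N : ℕ) (ψ : List Bool → (ℕ → Y) → β)
    (F : List β → ℕ) (y : Y) : ℝ :=
  avg (N + W) (fun l => (F (readL W ψ N l (fun i => T^[i] y)) : ℝ))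

theorem B2_measurableSet_bits (n : ℕ) (P : List Bool → Prop) :
    MeasurableSet {ξ : BB | P (bitsL ξ 0 n)} := by
  have h1 : Measurable (fun ξ : BB => fun i : Fin n => ξ ((i : ℕ) : ℤ)) := by
    rw [measurable_pi_iff]
    intro i
    exact measurable_pi_apply _
  have h2 : {ξ : BB | P (bitsL ξ 0 n)}
      = (fun ξ : BB => fun i : Fin n => ξ ((i : ℕ) : ℤ)) ⁻¹' {v | P (List.ofFn v)} := by
    ext ξ
    have : bitsL ξ 0 n = List.ofFn (fun i : Fin n => ξ ((i : ℕ) : ℤ)) := by
      apply List.ext_getElem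
      · simp [bitsL]
      · intro i h1 h2
        simp [bitsL]
    change P (bitsL ξ 0 n) ↔ P (List.ofFn fun i : Fin n => ξ ((i : ℕ) : ℤ))
    rw [this]
  rw [h2]
  exact h1 (Set.toFinite _).measurableSet

theorem B2_measure_bits (n : ℕ) (P : List Bool → Prop) [DecidablePred P] :
    muB.real {ξ : BB | P (bitsL ξ 0 n)} = avg n (fun l => if P l then 1 else 0) := by
  rw [← integral_bits, ← integral_indicator_one (B2_measurableSet_bits n P)]
  congr 1
  funext ξ
  by_cases h : P (bitsL ξ 0 n)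
  · simp [h]
  · simp [h]

theorem concentration {Y β : Type*} (T : Y → Y) (W N : ℕ) (ψ : List Bool → (ℕ → Y) → β)
    {F : List β → ℕ} (hF : SubLip F) (y : Y) {t : ℝ} (ht : 0 < t) :
    muB.real {ξ | t < |(F (readL W ψ N (bitsL ξ 0 (N + W)) (fun i => T^[i] y)) : ℝ)
      - mF T W N ψ F y|} ≤ (N + W) * (2 * W + 8) ^ 2 / t ^ 2 := by
  classical
  rw [B2_measure_bits (N + W) (fun l => t < |(F (readL W ψ N l (fun i => T^[i] y)) : ℝ)
      - mF T W N ψ F y|)]
  have hv := avg_variance (n := N + W)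
    (f := fun l => (F (readL W ψ N l (fun i => T^[i] y)) : ℝ)) (C := 2 * W + 8) (by positivity)
    (fun pre hpre => readL_diff W N ψ _ hF pre hpre)
  have ht2 : (0 : ℝ) < t ^ 2 := by positivity
  rw [le_div_iff₀ ht2, mul_comm, ← V_avg_mul]
  refine (avg_mono (fun l _ => ?_)).trans (hv.trans (le_of_eq (by push_cast; ring)))
  by_cases h : t < |(F (readL W ψ N l (fun i => T^[i] y)) : ℝ) - mF T W N ψ F y|
  · rw [if_pos h, mul_one, ← sq_abs (_ - _)]
    exact pow_le_pow_left₀ ht.le h.le 2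
  · rw [if_neg h, mul_zero]
    positivity

theorem mF_shift {Y β : Type*} (T : Y → Y) (W N : ℕ) (ψ : List Bool → (ℕ → Y) → β)
    {F : List β → ℕ} (hF : SubLip F) (y : Y) (d : ℕ) :
    |mF T W N ψ F y - mF T W N ψ F (T^[d] y)| ≤ 6 * d := by
  induction d with
  | zero => simp
  | succ d ih =>
    have h := readL_shift W N ψ (fun i => T^[i] (T^[d] y)) hF
    have e : (fun i => (fun i => T^[i] (T^[d] y)) (i + 1)) = fun i => T^[i] (T^[d + 1] y) := by
      funext i
      simp only [Function.iterate_succ_apply']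
      rw [← Function.iterate_succ_apply' T i, Function.iterate_succ_apply]
    rw [e] at h
    have h' : |mF T W N ψ F (T^[d] y) - mF T W N ψ F (T^[d + 1] y)| ≤ 6 := h
    calc |mF T W N ψ F y - mF T W N ψ F (T^[d + 1] y)|
        ≤ |mF T W N ψ F y - mF T W N ψ F (T^[d] y)|
          + |mF T W N ψ F (T^[d] y) - mF T W N ψ F (T^[d + 1] y)| := abs_sub_le _ _ _
      _ ≤ 6 * d + 6 := add_le_add ih h'
      _ = 6 * ((d + 1 : ℕ) : ℝ) := by push_cast; ring

end Pool.Agent.KAut
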