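import Pool.Agent.Work.MP_2cfc43_lc.C6
import Pool.Agent.Work.MP_2cfc43_lc.B2

/-! MP_2cfc43_lc, module B3: at a low level the mean of the functionals depends on the class and,
slowly, on the position. -/

namespace Pool.Agent.KAut

open MeasureTheory Set Filter Topology

attribute [local irreducible] Mc qc rc hc bc Rc ell

/-- at a level with `a k = 0` the mean depends on the class and, slowly, on the position -/
theorem mF_low (a : ℕ → ℕ) {k W N : ℕ} (ha : a k = 0) (hW : W ≤ k) {β : Type*}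
    {ψ : List Bool → (ℕ → Prd Mc) → β}
    (hψ : ∀ (bs : List Bool) (s s' : ℕ → Prd Mc), (∀ i < W, ∀ c < W, s i c = s' i c) →
      ψ bs s = ψ bs s')
    {F : List β → ℕ} (hF : SubLip F) {y y' : Prd Mc}
    (hcl : ((y (k + 1) : Fin (Mc (k + 1))) : ℕ) % qc (k + 1) / rc (k + 1)
      = ((y' (k + 1) : Fin (Mc (k + 1))) : ℕ) % qc (k + 1) / rc (k + 1))
    (hp : (adic a).pos (k + 1) y ≤ (adic a).pos (k + 1) y')
    (hp' : (adic a).pos (k + 1) y' + N + W < hc (k + 1)) :
    |mF (adic a).fwd W N ψ F y - mF (adic a).fwd W N ψ F y'| ≤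
      6 * (((adic a).pos (k + 1) y' : ℝ) - (adic a).pos (k + 1) y) := by
  obtain ⟨d, hd⟩ := Nat.exists_eq_add_of_le hp
  have h1 : (adic a).pos (k + 1) y + d < hM Mc (k + 1) := by rw [← hc_eq_hM]; omega
  obtain ⟨h2, h3⟩ := (adic a).iter_tower h1
  have h4 : (adic a).pos (k + 1) ((adic a).fwd^[d] y) = (adic a).pos (k + 1) y' := by
    rw [h2, hd]
  have h5 : mF (adic a).fwd W N ψ F ((adic a).fwd^[d] y) = mF (adic a).fwd W N ψ F y' := by
    unfold mF
    congr 1
    funext l
    rw [readL_congr (R := fun s s' : Prd Mc => ∀ c < W, s c = s' c)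
      (fun bs s s' h => hψ bs s s' h) l]
    intro i hi c hc'
    apply low_stream a ha _ h4 _ c (by omega)
    · rw [h3 (k + 1) le_rfl]; exact hcl
    · rw [h4]; omega
  have h6 := mF_shift (adic a).fwd W N ψ hF y d
  rw [h5] at h6
  refine h6.trans (le_of_eq ?_)
  rw [hd]; push_cast; ring

end Pool.Agent.KAut
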