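import Pool.Agent.Work.MP_2cfc43_lc.F0

/-! MP_2cfc43_lc, module F2: the block lemma. -/

namespace Pool.Agent.KAut

theorem F2_aux {W : ℕ → List ℕ} {cl : ℕ → ℕ} {P : ℕ → Prop} {h : ℕ} {g d : ℝ}
    (hg : 0 ≤ g) (hd : 0 ≤ d) (hW : ∀ i, (W i).length ≤ h)
    (H : ∀ i i', P i → P i' → cl i ≠ cl i' → ∀ x x' : List ℕ, x <:+: W i → x' <:+: W i' →
      (lcs x x' : ℝ) ≤ g * (x.length + x'.length) / 2 + d) :
    ∀ (n : ℕ) (L M : List (ℕ × List ℕ)), L.length + M.length ≤ n →
      (∀ p ∈ L, P p.1 ∧ p.2 <:+: W p.1) → (∀ p ∈ M, P p.1 ∧ p.2 <:+: W p.1) →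
      (lcs (L.flatMap Prod.snd) (M.flatMap Prod.snd) : ℝ) ≤
        g * ((L.flatMap Prod.snd).length + (M.flatMap Prod.snd).length) / 2
        + d * (L.length + M.length)
        + h * lcs (L.map fun p => cl p.1) (M.map fun p => cl p.1) := by
  intro n
  induction n with
  | zero =>
    intro L M hn _ _
    have hL : L = [] := List.length_eq_zero_iff.1 (by omega)
    have hM : M = [] := List.length_eq_zero_iff.1 (by omega)
    subst hL; subst hM; simp
  | succ n ih =>
    intro L M hn hL hM
    cases L with
    | nil =>
      simp only [List.flatMap_nil, F0_nil_left, List.length_nil, List.map_nil]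
      push_cast
      have := mul_nonneg hg (Nat.cast_nonneg (α := ℝ) (M.flatMap Prod.snd).length)
      have := mul_nonneg (mul_nonneg hd (Nat.cast_nonneg (α := ℝ) h))
        (Nat.cast_nonneg (α := ℝ) M.length)
      nlinarith
    | cons p L =>
      cases M with
      | nil =>
        simp only [List.flatMap_nil, F0_nil_right, List.length_nil, List.map_nil]
        push_cast
        have := mul_nonneg hg (Nat.cast_nonneg (α := ℝ) ((p :: L).flatMap Prod.snd).length)
        have := mul_nonneg (mul_nonneg hd (Nat.cast_nonneg (α := ℝ) h))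
          (Nat.cast_nonneg (α := ℝ) (p :: L).length)
        nlinarith
      | cons q M =>
        obtain ⟨u, x⟩ := p
        obtain ⟨v, y⟩ := q
        obtain ⟨hPu, hx⟩ : P u ∧ x <:+: W u := hL (u, x) (by simp)
        obtain ⟨hPv, hy⟩ : P v ∧ y <:+: W v := hM (v, y) (by simp)
        have hL' : ∀ p ∈ L, P p.1 ∧ p.2 <:+: W p.1 := fun p hp => hL p (by simp [hp])
        have hM' : ∀ p ∈ M, P p.1 ∧ p.2 <:+: W p.1 := fun p hp => hM p (by simp [hp])
        have hn' : L.length + M.length + 1 ≤ n := by
          simp only [List.length_cons] at hn; omega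
        obtain ⟨c, hcA, hcB, hc⟩ := exists_lcs (((u, x) :: L).flatMap Prod.snd) (((v, y) :: M).flatMap Prod.snd)
        rw [← hc]
        rw [List.flatMap_cons] at hcA hcB
        obtain ⟨p1, q1, rfl, hp1, hq1⟩ := List.sublist_append_iff.1 hcA
        obtain ⟨p2, q2, hpq, hp2, hq2⟩ := List.sublist_append_iff.1 hcB
        simp only [List.map_cons, List.flatMap_cons, List.length_append, List.length_cons]
        push_cast
        by_cases hcl : cl u = cl v
        · have ih0 := ih L M (by omega) hL' hM'
          have hlcs : lcs (L.map fun p => cl p.1) (M.map fun p => cl p.1) + 1 ≤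
              lcs (cl u :: L.map fun p => cl p.1) (cl v :: M.map fun p => cl p.1) := by
            rw [hcl]; exact lcs_cons_cons _ _ _
          have hlcs' : ((lcs (L.map fun p => cl p.1) (M.map fun p => cl p.1) : ℕ) : ℝ) + 1 ≤
              ((lcs (cl u :: L.map fun p => cl p.1) (cl v :: M.map fun p => cl p.1) : ℕ) : ℝ) := by
            exact_mod_cast hlcs
          have hxh : (x.length : ℝ) ≤ h := by exact_mod_cast hx.length_le.trans (hW u)
          have hyh : (y.length : ℝ) ≤ h := by exact_mod_cast hy.length_le.trans (hW v)
          have key : ((p1.length : ℝ) + q1.length) ≤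
              h + lcs (L.flatMap Prod.snd) (M.flatMap Prod.snd) := by
            rcases List.append_eq_append_iff.1 hpq with ⟨r, hr1, hr2⟩ | ⟨r, hr1, hr2⟩
            · have e : ((p1.length : ℝ) + q1.length) = p2.length + q2.length := by
                have := congrArg List.length hpq
                simp only [List.length_append] at this
                exact_mod_cast this
              rw [e]
              have h1 : (p2.length : ℝ) ≤ y.length := by exact_mod_cast hp2.length_le
              have h2 : (q2.length : ℝ) ≤ lcs (L.flatMap Prod.snd) (M.flatMap Prod.snd) := by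
                subst hr2
                exact_mod_cast F0_le ((List.sublist_append_right r q2).trans hq1) hq2
              linarith
            · have h1 : (p1.length : ℝ) ≤ x.length := by exact_mod_cast hp1.length_le
              have h2 : (q1.length : ℝ) ≤ lcs (L.flatMap Prod.snd) (M.flatMap Prod.snd) := by
                subst hr2
                exact_mod_cast F0_le hq1 ((List.sublist_append_right r q1).trans hq2)
              linarith
          have hh : (0 : ℝ) ≤ h := Nat.cast_nonneg h
          have e1 : (h : ℝ) + h * lcs (L.map fun p => cl p.1) (M.map fun p => cl p.1) ≤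
              h * lcs (cl u :: L.map fun p => cl p.1) (cl v :: M.map fun p => cl p.1) := by
            nlinarith
          have e2 : 0 ≤ g * ((x.length : ℝ) + y.length) :=
            mul_nonneg hg (by positivity)
          nlinarith
        · rcases List.append_eq_append_iff.1 hpq with ⟨r, hr1, hr2⟩ | ⟨r, hr1, hr2⟩
          · -- p2 = p1 ++ r, q1 = r ++ q2
            subst hr1; subst hr2
            obtain ⟨y1, y2, rfl, hy1, hy2⟩ := List.append_sublist_iff.1 hp2
            have hy1' : y1 <:+: W v := (List.prefix_append y1 y2).isInfix.trans hy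
            have hy2' : y2 <:+: W v := (List.suffix_append y1 y2).isInfix.trans hy
            have h1 : (p1.length : ℝ) ≤ lcs x y1 := by exact_mod_cast F0_le hp1 hy1
            have h2 := H u v hPu hPv hcl x y1 hx hy1'
            have ih1 := ih L ((v, y2) :: M) (by simp only [List.length_cons]; omega) hL'
              (by
                intro p hp
                rcases List.mem_cons.1 hp with rfl | hp
                · exact ⟨hPv, hy2'⟩
                · exact hM' p hp)
            have h3 : (((r ++ q2).length : ℕ) : ℝ) ≤ lcs (L.flatMap Prod.snd) (((v, y2) :: M).flatMap Prod.snd) := by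
              exact_mod_cast F0_le hq1 (by rw [List.flatMap_cons]; exact hy2.append hq2)
            have h4 : ((lcs (L.map fun p => cl p.1) (cl v :: M.map fun p => cl p.1) : ℕ) : ℝ) ≤
                ((lcs (cl u :: L.map fun p => cl p.1) (cl v :: M.map fun p => cl p.1) : ℕ) : ℝ) := by
              exact_mod_cast lcs_mono (List.sublist_cons_self _ _) (List.Sublist.refl _)
            have hh : (0 : ℝ) ≤ h := Nat.cast_nonneg h
            have h5 := mul_le_mul_of_nonneg_left h4 hh
            simp only [List.map_cons, List.flatMap_cons, List.length_append, List.length_cons] at ih1 h3 ⊢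
            push_cast at ih1 h3 ⊢
            nlinarith
          · -- p1 = p2 ++ r, q2 = r ++ q1
            subst hr1; subst hr2
            obtain ⟨x1, x2, rfl, hx1, hx2⟩ := List.append_sublist_iff.1 hp1
            have hx1' : x1 <:+: W u := (List.prefix_append x1 x2).isInfix.trans hx
            have hx2' : x2 <:+: W u := (List.suffix_append x1 x2).isInfix.trans hx
            have h1 : (p2.length : ℝ) ≤ lcs x1 y := by exact_mod_cast F0_le hx1 hp2
            have h2 := H u v hPu hPv hcl x1 y hx1' hy
            have ih1 := ih ((u, x2) :: L) M (by simp only [List.length_cons]; omega)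
              (by
                intro p hp
                rcases List.mem_cons.1 hp with rfl | hp
                · exact ⟨hPu, hx2'⟩
                · exact hL' p hp) hM'
            have h3 : (((r ++ q1).length : ℕ) : ℝ) ≤ lcs (((u, x2) :: L).flatMap Prod.snd) (M.flatMap Prod.snd) := by
              exact_mod_cast F0_le (by rw [List.flatMap_cons]; exact hx2.append hq1) hq2
            have h4 : ((lcs (cl u :: L.map fun p => cl p.1) (M.map fun p => cl p.1) : ℕ) : ℝ) ≤
                ((lcs (cl u :: L.map fun p => cl p.1) (cl v :: M.map fun p => cl p.1) : ℕ) : ℝ) := by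
              exact_mod_cast lcs_mono (List.Sublist.refl _) (List.sublist_cons_self _ _)
            have hh : (0 : ℝ) ≤ h := Nat.cast_nonneg h
            have h5 := mul_le_mul_of_nonneg_left h4 hh
            simp only [List.map_cons, List.flatMap_cons, List.length_append, List.length_cons] at ih1 h3 ⊢
            push_cast at ih1 h3 ⊢
            nlinarith


theorem block_lcs {W : ℕ → List ℕ} {cl : ℕ → ℕ} {P : ℕ → Prop} {h : ℕ} {g d : ℝ}
    (hg : 0 ≤ g) (hd : 0 ≤ d) (hW : ∀ i, (W i).length ≤ h)
    (H : ∀ i i', P i → P i' → cl i ≠ cl i' → ∀ x x' : List ℕ, x <:+: W i → x' <:+: W i' →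
      (lcs x x' : ℝ) ≤ g * (x.length + x'.length) / 2 + d)
    (A B : List (ℕ × List ℕ)) (hA : ∀ z ∈ A, P z.1 ∧ z.2 <:+: W z.1)
    (hB : ∀ z ∈ B, P z.1 ∧ z.2 <:+: W z.1) :
    (lcs (A.flatMap Prod.snd) (B.flatMap Prod.snd) : ℝ) ≤
      g * ((A.flatMap Prod.snd).length + (B.flatMap Prod.snd).length) / 2
        + d * (A.length + B.length)
        + h * lcs (A.map (fun z => cl z.1)) (B.map (fun z => cl z.1)) :=
  F2_aux hg hd hW H _ A B le_rfl hA hB

end Pool.Agent.KAut
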