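import Pool.Agent.Work.MP_2cfc43_lc.F1
import Pool.Agent.Work.MP_2cfc43_lc.F2

/-! MP_2cfc43_lc, module F3: factors of words are cut in blocks; the lcs of words. -/

namespace Pool.Agent.KAut

/-- a prefix of a concatenation of words of length `h` is cut in blocks -/
theorem F3_prefix {W : ℕ → List ℕ} {h : ℕ} (hW : ∀ i, (W i).length = h) (L : List ℕ) :
    ∀ x : List ℕ, x <+: L.flatMap W →
      ∃ A : List (ℕ × List ℕ), A.flatMap Prod.snd = x ∧
        (∀ z ∈ A, z.1 ∈ L ∧ z.2 <+: W z.1) ∧ (A.map Prod.fst).Sublist L ∧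
        h * A.length ≤ x.length + h := by
  induction L with
  | nil =>
    intro x hx
    have : x = [] := by simpa using hx
    subst this
    exact ⟨[], rfl, by simp, by simp, by simp⟩
  | cons i L ih =>
    rintro x ⟨t, ht⟩
    rw [List.flatMap_cons] at ht
    rcases List.append_eq_append_iff.1 ht with ⟨u, hu1, hu2⟩ | ⟨u, hu1, hu2⟩
    · -- `W i = x ++ u`
      refine ⟨[(i, x)], by simp, ?_, by simp, by simp⟩
      intro z hz
      simp only [List.mem_singleton] at hz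
      subst hz
      exact ⟨by simp, ⟨u, hu1.symm⟩⟩
    · -- `x = W i ++ u`
      obtain ⟨A, h1, h2, h3, h4⟩ := ih u ⟨t, hu2.symm⟩
      refine ⟨(i, W i) :: A, ?_, ?_, ?_, ?_⟩
      · rw [List.flatMap_cons, h1, hu1]
      · intro z hz
        rcases List.mem_cons.1 hz with rfl | hz
        · exact ⟨by simp, List.prefix_refl _⟩
        · exact ⟨List.mem_cons_of_mem _ (h2 z hz).1, (h2 z hz).2⟩
      · simpa using h3
      · rw [hu1, List.length_append, hW, List.length_cons]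
        nlinarith

/-- a factor of a concatenation of words of length `h` is cut in blocks -/
theorem F3_infix {W : ℕ → List ℕ} {h : ℕ} (hW : ∀ i, (W i).length = h) (L : List ℕ) :
    ∀ x : List ℕ, x <:+: L.flatMap W →
      ∃ A : List (ℕ × List ℕ), A.flatMap Prod.snd = x ∧
        (∀ z ∈ A, z.1 ∈ L ∧ z.2 <:+: W z.1) ∧ (A.map Prod.fst).Sublist L ∧
        h * A.length ≤ x.length + 2 * h := by
  induction L with
  | nil =>
    intro x hx
    have : x = [] := by simpa using hx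
    subst this
    exact ⟨[], rfl, by simp, by simp, by simp⟩
  | cons i L ih =>
    rintro x ⟨s, t, ht⟩
    rw [List.flatMap_cons, List.append_assoc] at ht
    rcases List.append_eq_append_iff.1 ht with ⟨u, hu1, hu2⟩ | ⟨u, hu1, hu2⟩
    · -- `W i = s ++ u`, `x ++ t = u ++ rest`
      rcases List.append_eq_append_iff.1 hu2 with ⟨v, hv1, hv2⟩ | ⟨v, hv1, hv2⟩
      · -- `u = x ++ v`
        refine ⟨[(i, x)], by simp, ?_, by simp, by simp; omega⟩
        intro z hz
        simp only [List.mem_singleton] at hz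
        subst hz
        exact ⟨by simp, ⟨s, v, by rw [hu1, hv1, List.append_assoc]⟩⟩
      · -- `x = u ++ v`, `rest = v ++ t`
        obtain ⟨A, h1, h2, h3, h4⟩ := F3_prefix hW L v ⟨t, hv2.symm⟩
        refine ⟨(i, u) :: A, ?_, ?_, ?_, ?_⟩
        · rw [List.flatMap_cons, h1, hv1]
        · intro z hz
          rcases List.mem_cons.1 hz with rfl | hz
          · exact ⟨by simp, ⟨s, [], by simp [hu1]⟩⟩
          · exact ⟨List.mem_cons_of_mem _ (h2 z hz).1, (h2 z hz).2.isInfix⟩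
        · simpa using h3
        · rw [hv1, List.length_append, List.length_cons]
          nlinarith
    · -- `s = W i ++ u`, `rest = u ++ (x ++ t)`
      obtain ⟨A, h1, h2, h3, h4⟩ := ih x ⟨u, t, by rw [hu2, List.append_assoc]⟩
      exact ⟨A, h1, fun z hz => ⟨List.mem_cons_of_mem _ (h2 z hz).1, (h2 z hz).2⟩,
        h3.cons i, h4⟩

theorem F3_word_length (a : ℕ → ℕ) (K : ℕ) : ∀ j, (word a K j).length = hc K := by
  induction K with
  | zero => intro j; simp [word, hc_zero]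
  | succ K ih =>
    intro j
    simp only [word, List.length_flatMap, ih, hc_succ]
    simp [mul_comm]

theorem F3_word_succ (a : ℕ → ℕ) (k j : ℕ) :
    word a (k + 1) j = ((List.range (Mc k)).map (psym (a k) k j)).flatMap (word a k) := by
  simp only [word, List.flatMap_map]

theorem F3_pat (A k j : ℕ) :
    pat A k j = ((List.range (Mc k)).map (psym A k j)).map (fun i => i / rc k) := by
  simp [pat]

/-- every factor of a word of level `k + 1` is cut in blocks of level `k` -/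
theorem factor_blocks (a : ℕ → ℕ) (k j : ℕ) {x : List ℕ} (hx : x <:+: word a (k + 1) j) :
    ∃ A : List (ℕ × List ℕ), A.flatMap Prod.snd = x ∧
      (∀ z ∈ A, z.1 < qc k ∧ z.2 <:+: word a k z.1) ∧
      (A.map (fun z => z.1 / rc k)).Sublist (pat (a k) k j) ∧
      hc k * A.length ≤ x.length + 2 * hc k := by
  rw [F3_word_succ] at hx
  obtain ⟨A, h1, h2, h3, h4⟩ := F3_infix (F3_word_length a k) _ x hx
  refine ⟨A, h1, ?_, ?_, h4⟩
  · intro z hz
    refine ⟨?_, (h2 z hz).2⟩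
    have := (h2 z hz).1
    simp only [List.mem_map] at this
    obtain ⟨n, -, hn⟩ := this
    rw [← hn]
    exact Nat.mod_lt _ (qc_pos k)
  · rw [F3_pat]
    have := h3.map (fun i => i / rc k)
    simpa [List.map_map, Function.comp_def] using this

/-- the bound at level `K` -/
def F3_bound (a : ℕ → ℕ) (K : ℕ) (g d : ℝ) (i i' : ℕ) : Prop :=
  ∀ x x' : List ℕ, x <:+: word a K i → x' <:+: word a K i' →
    (lcs x x' : ℝ) ≤ g * (x.length + x'.length) / 2 + d * hc K

/-- arithmetic of the step -/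
theorem F3_arith {g d H M p X X' nA nB l L : ℝ} (hd : 0 ≤ d) (hH : 0 < H) (hM : 0 < M)
    (hp : 0 < p) (h2 : H * nA ≤ X + 2 * H) (h3 : H * nB ≤ X' + 2 * H) (h1 : p * l ≤ 4 * M)
    (key : L ≤ g * (X + X') / 2 + d * H * (nA + nB) + H * l) :
    L ≤ (g + 2 * d) * (X + X') / 2 + (4 / p + 4 * d / M) * (H * M) := by
  have e1 : d * (H * nA + H * nB) ≤ d * (X + X' + 4 * H) :=
    mul_le_mul_of_nonneg_left (by linarith) hd
  have e2 : H * l ≤ H * (4 * M / p) :=
    mul_le_mul_of_nonneg_left (by rw [le_div_iff₀ hp]; linarith) hH.le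
  have e3 : (4 / p + 4 * d / M) * (H * M) = H * (4 * M / p) + 4 * d * H := by
    field_simp
  rw [e3]
  nlinarith

theorem F3_step (a : ℕ → ℕ) (k : ℕ) {g d : ℝ} (hg : 0 ≤ g) (hd : 0 ≤ d)
    (H : ∀ i i', i < qc k → i' < qc k → i / rc k ≠ i' / rc k → F3_bound a k g d i i')
    {j j' : ℕ} (hj : j < qc (k + 1)) (hj' : j' < qc (k + 1))
    (h : j / rc (k + 1) ≠ j' / rc (k + 1) ∨ (j ≠ j' ∧ Lc k ≤ a k)) :
    F3_bound a (k + 1) (g + 2 * d) (4 / pc k + 4 * d / Mc k) j j' := by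
  intro x x' hx hx'
  obtain ⟨A, hA1, hA2, hA3, hA4⟩ := factor_blocks a k j hx
  obtain ⟨B, hB1, hB2, hB3, hB4⟩ := factor_blocks a k j' hx'
  have hd' : 0 ≤ d * hc k := mul_nonneg hd (Nat.cast_nonneg _)
  have key := block_lcs (W := word a k) (cl := fun i => i / rc k) (P := fun i => i < qc k)
    (h := hc k) hg hd' (fun i => (F3_word_length a k i).le)
    (fun i i' hi hi' hcl y y' hy hy' => H i i' hi hi' hcl y y' hy hy') A B hA2 hB2
  rw [hA1, hB1] at key
  have hpat := pattern_lcs (A := a k) hj hj' h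
  have hsub : lcs (A.map (fun z => z.1 / rc k)) (B.map (fun z => z.1 / rc k)) ≤
      lcs (pat (a k) k j) (pat (a k) k j') := lcs_mono hA3 hB3
  generalize hl : lcs (A.map (fun z => z.1 / rc k)) (B.map (fun z => z.1 / rc k)) = l
    at key hsub
  have hpc : (0 : ℝ) < pc k := Nat.cast_pos.2 (pc_pos k)
  have hMc : (0 : ℝ) < Mc k := Nat.cast_pos.2 (lt_of_lt_of_le (by norm_num) (two_le_Mc k))
  have hhc : (0 : ℝ) < hc k := Nat.cast_pos.2 (hc_pos k)
  have e : pc k * l ≤ 4 * Mc k := (Nat.mul_le_mul_left _ hsub).trans hpat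
  have h4 : ((hc (k + 1) : ℕ) : ℝ) = hc k * Mc k := by rw [hc_succ, Nat.cast_mul]
  rw [h4]
  refine F3_arith (nA := A.length) (nB := B.length) (l := l) hd hhc hMc hpc ?_ ?_ ?_ key
  · have := (Nat.cast_le (α := ℝ)).2 hA4
    rw [Nat.cast_mul, Nat.cast_add, Nat.cast_mul] at this
    exact this
  · have := (Nat.cast_le (α := ℝ)).2 hB4
    rw [Nat.cast_mul, Nat.cast_add, Nat.cast_mul] at this
    exact this
  · have := (Nat.cast_le (α := ℝ)).2 e
    rw [Nat.cast_mul, Nat.cast_mul] at this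
    exact this

theorem F3_Mc (k : ℕ) : (4096 : ℝ) ≤ Mc k := by
  have h1 : 2 ^ 12 ≤ Mc k :=
    (N_two_pow_le_qc k).trans ((Nat.le_mul_of_pos_right _ (bc_pos k)).trans
      (Nat.le_mul_of_pos_left _ (Lc_pos k)))
  have h2 := (Nat.cast_le (α := ℝ)).2 h1
  rw [Nat.cast_pow] at h2
  refine le_trans ?_ h2
  norm_num

theorem F3_pc (k : ℕ) : (4 : ℝ) / pc k = (1 / 2) ^ k / 1024 := by
  unfold pc
  rw [Nat.cast_pow, pow_add, one_div_pow]
  field_simp
  norm_num
  ring

/-- numbers -/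
theorem F3_num {g d M P : ℝ} (k : ℕ) (hd : 0 ≤ d) (hM : 4096 ≤ M)
    (hP : 4 / P = (1 / 2) ^ k / 1024) (hg' : g ≤ (1 - (1 / 2) ^ k) / 64)
    (hd' : d ≤ (1 / 2) ^ (k + 8)) :
    g + 2 * d ≤ (1 - (1 / 2) ^ (k + 1)) / 64 ∧ 4 / P + 4 * d / M ≤ (1 / 2) ^ (k + 1 + 8) := by
  have e : (1 / 2 : ℝ) ^ (k + 8) = (1 / 2) ^ k / 256 := by rw [pow_add]; norm_num; ring
  have e3 : (1 / 2 : ℝ) ^ (k + 1 + 8) = (1 / 2) ^ k / 512 := by
    rw [add_assoc, pow_add]; norm_num; ring
  have h5 : (0 : ℝ) ≤ (1 / 2) ^ k := by positivity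
  rw [e] at hd'
  have h3 : 4 * d / M ≤ 4 * d / 4096 :=
    div_le_div_of_nonneg_left (by positivity) (by norm_num) hM
  constructor
  · rw [pow_succ]; linarith
  · rw [hP, e3]; linarith

theorem F3_levels (a : ℕ → ℕ) (k : ℕ) : ∃ g d : ℝ, 0 ≤ g ∧ 0 ≤ d ∧
    g ≤ (1 - (1 / 2) ^ k) / 64 ∧ d ≤ (1 / 2) ^ (k + 8) ∧
    ∀ i i', i < qc k → i' < qc k → i / rc k ≠ i' / rc k → F3_bound a k g d i i' := by
  induction k with
  | zero =>
    refine ⟨0, 0, le_rfl, le_rfl, by norm_num, by norm_num, ?_⟩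
    intro i i' _ _ hne x x' hx hx'
    rw [rc_zero, Nat.div_one, Nat.div_one] at hne
    have h0 : lcs x x' = 0 := by
      apply Nat.le_zero.1
      rw [lcs_le_iff]
      intro c h1 h2
      have h1' : c.Sublist [i] := h1.trans hx.sublist
      have h2' : c.Sublist [i'] := h2.trans hx'.sublist
      rcases c with _ | ⟨y, c⟩
      · exact le_rfl
      · exfalso
        have e1 : y ∈ [i] := h1'.subset (by simp)
        have e2 : y ∈ [i'] := h2'.subset (by simp)
        rw [List.mem_singleton] at e1 e2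
        exact hne (e1.symm.trans e2)
    rw [h0, Nat.cast_zero, zero_mul, zero_mul, zero_div, zero_add]
  | succ k ih =>
    obtain ⟨g, d, hg, hd, hg', hd', H⟩ := ih
    have hn := F3_num k hd (F3_Mc k) (F3_pc k) hg' hd'
    refine ⟨g + 2 * d, 4 / pc k + 4 * d / Mc k, by positivity, ?_, hn.1, hn.2,
      fun i i' hi hi' hne => F3_step a k hg hd H hi hi' (Or.inl hne)⟩
    exact add_nonneg (div_nonneg (by norm_num) (Nat.cast_nonneg _))
      (div_nonneg (by positivity) (Nat.cast_nonneg _))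

theorem F3_fin {g d' X H L : ℝ} (k : ℕ) (hH : 0 < H) (hX : 8 * X ≤ H) (hX0 : 0 ≤ X)
    (hg : g ≤ (1 - (1 / 2) ^ (k + 1)) / 64) (hd : d' ≤ (1 / 2) ^ (k + 1 + 8))
    (h : L ≤ g * (X + H) / 2 + d' * H) : 64 * L ≤ H := by
  have h5 : (0 : ℝ) ≤ (1 / 2) ^ (k + 1) := by positivity
  have e3 : (1 / 2 : ℝ) ^ (k + 1 + 8) ≤ 1 / 512 := by
    calc (1 / 2 : ℝ) ^ (k + 1 + 8) ≤ (1 / 2) ^ 9 :=
          pow_le_pow_of_le_one (by norm_num) (by norm_num) (by omega)
      _ = 1 / 512 := by norm_num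
  have e4 : g ≤ 1 / 64 := by linarith
  have e5 : g * (X + H) ≤ 1 / 64 * (X + H) := mul_le_mul_of_nonneg_right e4 (by linarith)
  have e7 : d' * H ≤ 1 / 512 * H := mul_le_mul_of_nonneg_right (hd.trans e3) hH.le
  linarith

theorem words_lcs (a : ℕ → ℕ) {k j j' : ℕ} (hj : j < qc (k + 1)) (hj' : j' < qc (k + 1))
    (hne : j ≠ j') (ha : Lc k ≤ a k) {x : List ℕ} (hx : x <:+: word a (k + 1) j')
    (hlen : 8 * x.length ≤ hc (k + 1)) :
    64 * lcs x (word a (k + 1) j) ≤ hc (k + 1) := by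
  obtain ⟨g, d, hg, hd, hg', hd', H⟩ := F3_levels a k
  have h1 := F3_step a k hg hd H hj' hj (Or.inr ⟨hne.symm, ha⟩) x (word a (k + 1) j) hx
    (List.infix_refl _)
  rw [F3_word_length] at h1
  have hn := F3_num k hd (F3_Mc k) (F3_pc k) hg' hd'
  have h2 := (Nat.cast_le (α := ℝ)).2 hlen
  rw [Nat.cast_mul] at h2
  have h3 := F3_fin k (Nat.cast_pos.2 (hc_pos (k + 1))) h2 (Nat.cast_nonneg _) hn.1 hn.2 h1
  have h4 : ((64 * lcs x (word a (k + 1) j) : ℕ) : ℝ) ≤ (hc (k + 1) : ℕ) := by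
    rw [Nat.cast_mul]; exact h3
  exact Nat.cast_le.1 h4

end Pool.Agent.KAut
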