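import Pool.Agent.Work.MP_2cfc43_lc.C6
import Pool.Agent.Work.MP_2cfc43_lc.F3
import Pool.Agent.Work.MP_2cfc43_lc.S

/-! MP_2cfc43_lc, module B4: values of the functionals on the names of points. -/

namespace Pool.Agent.KAut

open MeasureTheory Set Filter Topology

attribute [local irreducible] Mc qc rc hc bc Rc ell

/-- the name of a point of `Ω` under the skew product -/
def nameL (T : Prd Mc → Prd Mc) (N : ℕ) (w : BB × Prd Mc) : List (Bool × ℕ) :=
  (List.range N).map (fun n => (((skew T)^[n] w).1 0,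
    ((((skew T)^[n] w).2 0 : Fin (Mc 0)) : ℕ) % qc 0))

theorem B4_bits_length (ξ : BB) (n W : ℕ) : (bitsL ξ n W).length = W := by
  simp [bitsL]

theorem B4_count_le (ξ : BB) (N : ℕ) : (bitsL ξ 0 N).count true ≤ N := by
  have := List.count_le_length (a := true) (l := bitsL ξ 0 N)
  rwa [B4_bits_length] at this

/-- the collapsed name is a factor of the word -/
theorem B4_name (a : ℕ → ℕ) {k N : ℕ} (w : BB × Prd Mc)
    (h : (adic a).pos (k + 1) w.2 + N ≤ hc (k + 1)) :
    collapse (nameL (adic a).fwd N w)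
      = ((word a (k + 1) (((w.2 (k + 1) : Fin (Mc (k + 1))) : ℕ) % qc (k + 1))).drop
          ((adic a).pos (k + 1) w.2)).take ((bitsL w.1 0 N).count true) := by
  unfold nameL
  rw [collapse_name (adic a).fwd (fun z => ((z 0 : Fin (Mc 0)) : ℕ) % qc 0) N w]
  have := B4_count_le w.1 N
  exact names a (by omega)

theorem B4_name_length (a : ℕ → ℕ) {k N : ℕ} (w : BB × Prd Mc)
    (h : (adic a).pos (k + 1) w.2 + N ≤ hc (k + 1)) :
    (collapse (nameL (adic a).fwd N w)).length = (bitsL w.1 0 N).count true := by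
  rw [B4_name a w h, List.length_take, List.length_drop, word_length]
  have := B4_count_le w.1 N
  omega

theorem B4_name_infix (a : ℕ → ℕ) {k N : ℕ} (w : BB × Prd Mc)
    (h : (adic a).pos (k + 1) w.2 + N ≤ hc (k + 1)) :
    collapse (nameL (adic a).fwd N w)
      <:+: word a (k + 1) (((w.2 (k + 1) : Fin (Mc (k + 1))) : ℕ) % qc (k + 1)) := by
  rw [B4_name a w h]
  exact (List.take_prefix _ _).isInfix.trans (List.drop_suffix _ _).isInfix

theorem name_own (a : ℕ → ℕ) {k N : ℕ} (w : BB × Prd Mc)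
    (h : (adic a).pos (k + 1) w.2 + N ≤ hc (k + 1)) :
    lcs (collapse (nameL (adic a).fwd N w))
      (word a (k + 1) (((w.2 (k + 1) : Fin (Mc (k + 1))) : ℕ) % qc (k + 1)))
      = (bitsL w.1 0 N).count true := by
  rw [← B4_name_length a w h]
  apply le_antisymm (lcs_le_left _ _)
  exact lcs_le_iff.1 le_rfl _ (List.Sublist.refl _) (B4_name_infix a w h).sublist

theorem name_other (a : ℕ → ℕ) {k N : ℕ} (ha : Lc k ≤ a k) (hN : 8 * N ≤ hc (k + 1))
    (w : BB × Prd Mc) (h : (adic a).pos (k + 1) w.2 + N ≤ hc (k + 1)) {j : ℕ}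
    (hj : j < qc (k + 1)) (hne : j ≠ ((w.2 (k + 1) : Fin (Mc (k + 1))) : ℕ) % qc (k + 1)) :
    64 * lcs (collapse (nameL (adic a).fwd N w)) (word a (k + 1) j) ≤ hc (k + 1) := by
  apply words_lcs a hj (Nat.mod_lt _ (qc_pos (k + 1))) hne ha (B4_name_infix a w h)
  rw [B4_name_length a w h]
  have := B4_count_le w.1 N
  omega

end Pool.Agent.KAut
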