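import Pool.Agent.Work.MP_2cfc43_lc.Defs

/-! MP_2cfc43_lc: module C2 (towers of the adic transformations). -/

namespace Pool.Agent.KAut

open MeasureTheory Set Filter Topology
open scoped ENNReal

set_option linter.unusedSectionVars false

theorem C2_hM_succ (M : ℕ → ℕ) (K : ℕ) : hM M (K + 1) = hM M K * M K := by
  simp [hM, Finset.prod_range_succ]

theorem C2_hM_zero (M : ℕ → ℕ) : hM M 0 = 1 := by simp [hM]

theorem C2_hM_pos (M : ℕ → ℕ) [∀ k, NeZero (M k)] (K : ℕ) : 0 < hM M K :=
  Finset.prod_pos fun k _ => Nat.pos_of_ne_zero (NeZero.ne (M k))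

section generic

variable {M : ℕ → ℕ} [∀ k, NeZero (M k)]

theorem C2_pos_succ (D : Adic M) (K : ℕ) (y : Prd M) :
    D.pos (K + 1) y
      = D.pos K y + ((D.e K (D.sym (K + 1) (y (K + 1))) (y K) : Fin (M K)) : ℕ) * hM M K := by
  simp [Adic.pos, Finset.sum_range_succ]

theorem C2_pos_zero (D : Adic M) (y : Prd M) : D.pos 0 y = 0 := by simp [Adic.pos]

theorem Adic.pos_lt (D : Adic M) (K : ℕ) (y : Prd M) : D.pos K y < hM M K := by
  induction K with
  | zero => simp [C2_pos_zero, C2_hM_zero]
  | succ K ih =>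
    rw [C2_pos_succ, C2_hM_succ]
    have hx := (D.e K (D.sym (K + 1) (y (K + 1))) (y K)).2
    set x := ((D.e K (D.sym (K + 1) (y (K + 1))) (y K) : Fin (M K)) : ℕ)
    calc D.pos K y + x * hM M K < hM M K + x * hM M K := by omega
      _ = hM M K * (x + 1) := by ring
      _ ≤ hM M K * M K := Nat.mul_le_mul_left _ hx

/-- a mixed radix decomposition is unique -/
theorem C2_radix {h p p' x x' : ℕ} (hp : p < h) (hp' : p' < h) (he : p + x * h = p' + x' * h) :
    p = p' ∧ x = x' := by
  have hh : 0 < h := by omega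
  have h1 : x = x' := by
    have e1 : (p + x * h) / h = x := by
      rw [Nat.add_mul_div_right _ _ hh, Nat.div_eq_of_lt hp, zero_add]
    have e2 : (p' + x' * h) / h = x' := by
      rw [Nat.add_mul_div_right _ _ hh, Nat.div_eq_of_lt hp', zero_add]
    rw [← e1, ← e2, he]
  subst h1
  exact ⟨by omega, rfl⟩

theorem Adic.pos_inj (D : Adic M) {K : ℕ} {y y' : Prd M}
    (hs : D.sym K (y K) = D.sym K (y' K)) (hp : D.pos K y = D.pos K y') :
    ∀ k < K, y k = y' k := by
  induction K with
  | zero => intro k hk; omega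
  | succ K ih =>
    rw [C2_pos_succ, C2_pos_succ] at hp
    obtain ⟨h1, h2⟩ := C2_radix (D.pos_lt K y) (D.pos_lt K y') hp
    rw [hs] at h2
    have h3 : y K = y' K := (D.e K _).injective (Fin.ext h2)
    have h4 := ih (by rw [h3]) h1
    intro k hk
    rcases Nat.lt_succ_iff_lt_or_eq.1 hk with h | h
    · exact h4 k h
    · subst h; exact h3

/-- the position is the last one iff all the coordinates are maximal -/
theorem C2_pos_last (D : Adic M) (K : ℕ) (y : Prd M) :
    D.pos K y + 1 = hM M K ↔ ∀ l < K, (y l : ℕ) + 1 = M l := by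
  induction K with
  | zero => simp [C2_pos_zero, C2_hM_zero]
  | succ K ih =>
    have hx := (D.e K (D.sym (K + 1) (y (K + 1))) (y K)).2
    have hl := D.e_last K (D.sym (K + 1) (y (K + 1))) (y K)
    have hlt := D.pos_lt K y
    rw [C2_pos_succ, C2_hM_succ]
    set x := ((D.e K (D.sym (K + 1) (y (K + 1))) (y K) : Fin (M K)) : ℕ) with hxdef
    constructor
    · intro h l hl'
      have hx1 : x + 1 = M K := by
        by_contra hne
        have : x + 2 ≤ M K := by omega
        have h5 : hM M K * (x + 2) ≤ hM M K * M K := Nat.mul_le_mul_left _ this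
        nlinarith
      have hp1 : D.pos K y + 1 = hM M K := by
        rw [← hx1] at h
        nlinarith
      rcases Nat.lt_succ_iff_lt_or_eq.1 hl' with h6 | h6
      · exact ih.1 hp1 l h6
      · subst h6; exact hl.1 hx1
    · intro h
      have hx1 : x + 1 = M K := hl.2 (h K (Nat.lt_succ_self K))
      have hp1 := ih.2 (fun l hl' => h l (Nat.lt_succ_of_lt hl'))
      rw [← hx1]
      nlinarith

/-- above a coordinate which is not maximal nothing changes -/
theorem C2_fwd_above (D : Adic M) {K : ℕ} {y : Prd M} (h : ¬ ∀ l < K, (y l : ℕ) + 1 = M l) :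
    ∀ k, K ≤ k → D.fwd y k = y k := by
  intro k hk
  unfold Adic.fwd
  rw [if_neg]
  intro h'
  exact h fun l hl => h' l (lt_of_lt_of_le hl hk)

theorem C2_fin_add_one_of_last {n : ℕ} [NeZero n] {x : Fin n} (h : (x : ℕ) + 1 = n) :
    ((x + 1 : Fin n) : ℕ) = 0 := by
  rw [Fin.val_add]
  rcases Nat.lt_or_ge 1 n with h1 | h1
  · rw [Fin.val_one' n, Nat.mod_eq_of_lt h1, h, Nat.mod_self]
  · have : n = 1 := by omega
    subst this
    omega

theorem C2_fin_add_one_of_lt {n : ℕ} [NeZero n] {x : Fin n} (h : (x : ℕ) + 1 < n) :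
    ((x + 1 : Fin n) : ℕ) = x + 1 := by
  rw [Fin.val_add, Fin.val_one' n, Nat.mod_eq_of_lt (by omega : 1 < n), Nat.mod_eq_of_lt h]

/-- the coordinates which are carried over become zero -/
theorem C2_fwd_carry (D : Adic M) {k : ℕ} {y : Prd M} (h : ∀ l < k, (y l : ℕ) + 1 = M l)
    (hk : (y k : ℕ) + 1 = M k) : (D.fwd y k : ℕ) = 0 := by
  unfold Adic.fwd
  rw [if_pos h]
  rw [← D.e_zero k (D.sym (k + 1) (y (k + 1))), Equiv.apply_symm_apply]
  exact C2_fin_add_one_of_last ((D.e_last k _ _).2 hk)

theorem C2_pos_fwd_of_last (D : Adic M) {K : ℕ} {y : Prd M} (h : ∀ l < K, (y l : ℕ) + 1 = M l) :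
    D.pos K (D.fwd y) = 0 := by
  unfold Adic.pos
  refine Finset.sum_eq_zero fun k hk => ?_
  rw [Finset.mem_range] at hk
  have h1 := C2_fwd_carry D (k := k) (y := y) (fun l hl => h l (lt_trans hl hk)) (h k hk)
  rw [(D.e_zero k _ _).2 h1, zero_mul]

theorem C2_pos_fwd (D : Adic M) {K : ℕ} {y : Prd M} (h : ¬ ∀ l < K, (y l : ℕ) + 1 = M l) :
    D.pos K (D.fwd y) = D.pos K y + 1 := by
  induction K with
  | zero => exact absurd (fun l hl => by omega) h
  | succ K ih =>
    rw [C2_pos_succ, C2_pos_succ]
    have h1 : D.fwd y (K + 1) = y (K + 1) := C2_fwd_above D h _ le_rfl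
    rw [h1]
    by_cases hK : ∀ l < K, (y l : ℕ) + 1 = M l
    · have hy : ¬ (y K : ℕ) + 1 = M K := by
        intro h2
        apply h
        intro l hl
        rcases Nat.lt_succ_iff_lt_or_eq.1 hl with h3 | h3
        · exact hK l h3
        · subst h3; exact h2
      rw [C2_pos_fwd_of_last D hK]
      have h2 : D.fwd y K = (D.e K (D.sym (K + 1) (y (K + 1)))).symm
          (D.e K (D.sym (K + 1) (y (K + 1))) (y K) + 1) := by
        unfold Adic.fwd
        rw [if_pos hK]
      rw [h2, Equiv.apply_symm_apply]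
      have h3 := (D.e K (D.sym (K + 1) (y (K + 1))) (y K)).2
      have h4 : ((D.e K (D.sym (K + 1) (y (K + 1))) (y K) : Fin (M K)) : ℕ) + 1 ≠ M K := by
        intro h5
        exact hy ((D.e_last K _ _).1 h5)
      rw [C2_fin_add_one_of_lt (by omega)]
      have h5 := (C2_pos_last D K y).2 hK
      nlinarith
    · rw [ih hK, C2_fwd_above D hK K le_rfl]
      ring

theorem Adic.fwd_tower (D : Adic M) {K : ℕ} {y : Prd M} (h : D.pos K y + 1 < hM M K) :
    D.pos K (D.fwd y) = D.pos K y + 1 ∧ ∀ k, K ≤ k → D.fwd y k = y k := by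
  have h1 : ¬ ∀ l < K, (y l : ℕ) + 1 = M l := by
    intro h2
    have := (C2_pos_last D K y).2 h2
    omega
  exact ⟨C2_pos_fwd D h1, C2_fwd_above D h1⟩

theorem Adic.iter_tower (D : Adic M) {K n : ℕ} {y : Prd M} (h : D.pos K y + n < hM M K) :
    D.pos K (D.fwd^[n] y) = D.pos K y + n ∧ ∀ k, K ≤ k → D.fwd^[n] y k = y k := by
  induction n with
  | zero => exact ⟨rfl, fun k _ => rfl⟩
  | succ n ih =>
    obtain ⟨h1, h2⟩ := ih (by omega)
    rw [Function.iterate_succ_apply']
    obtain ⟨h3, h4⟩ := D.fwd_tower (K := K) (y := D.fwd^[n] y) (by omega)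
    exact ⟨by omega, fun k hk => by rw [h4 k hk, h2 k hk]⟩

/-! measure -/

theorem C2_unif_singleton {α : Type*} [Fintype α] [Nonempty α] [MeasurableSpace α]
    [MeasurableSingletonClass α] (x : α) : unif α {x} = (Fintype.card α : ℝ≥0∞)⁻¹ := by
  unfold unif
  rw [PMF.toMeasure_apply_singleton _ _ (measurableSet_singleton x), PMF.uniformOfFintype_apply]

theorem C2_unif_map {α : Type*} [Fintype α] [Nonempty α] [MeasurableSpace α]
    [MeasurableSingletonClass α] (σ : Equiv.Perm α) : (unif α).map σ = unif α := by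
  refine Measure.ext_of_singleton fun x => ?_
  rw [Measure.map_apply (measurable_of_countable _) (measurableSet_singleton x)]
  have : (σ : α → α) ⁻¹' {x} = {σ.symm x} := by
    ext z; simp [Equiv.eq_symm_apply]
  rw [this, C2_unif_singleton, C2_unif_singleton]

theorem Adic.measurable_pos (D : Adic M) (K : ℕ) : Measurable (D.pos K) := by
  unfold Adic.pos
  refine Finset.measurable_fun_sum _ fun k _ => ?_
  have h1 : Measurable (fun y : Prd M => (y k, y (k + 1))) := by fun_prop
  exact (measurable_of_countable (fun p : Fin (M k) × Fin (M (k + 1)) =>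
    ((D.e k (D.sym (k + 1) p.2) p.1 : Fin (M k)) : ℕ) * hM M k)).comp h1

/-- coordinatewise permutations preserve the measure -/
theorem C2_mp_perm (σ : ∀ k, Equiv.Perm (Fin (M k))) :
    MeasurePreserving (fun (y : Prd M) k => σ k (y k)) (nuM M) (nuM M) := by
  refine ⟨by fun_prop, ?_⟩
  unfold nuM
  rw [Measure.infinitePi_map_pi _ (fun k => measurable_of_countable _)]
  congr 1
  ext1 k
  exact C2_unif_map (σ k)

theorem C2_ms (K : ℕ) (v : Fin (M K)) : MeasurableSet {y : Prd M | y K = v} :=
  measurableSet_eq_fun (measurable_pi_apply K) measurable_const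

/-- a coordinate is uniform and independent of the sets which do not depend on it -/
theorem C2_coord {K : ℕ} (v : Fin (M K)) {A : Set (Prd M)} (hA : MeasurableSet A)
    (hdep : ∀ y y' : Prd M, (∀ k, k ≠ K → y k = y' k) → (y ∈ A ↔ y' ∈ A)) :
    nuM M (A ∩ {y | y K = v}) = (M K : ℝ≥0∞)⁻¹ * nuM M A := by
  have hms : ∀ v : Fin (M K), MeasurableSet {y : Prd M | y K = v} := C2_ms K
  have h1 : ∀ v' : Fin (M K), nuM M (A ∩ {y | y K = v'}) = nuM M (A ∩ {y | y K = v}) := by
    intro v'
    have hmp := C2_mp_perm (M := M) (Function.update (fun k => Equiv.refl _) K (Equiv.swap v v'))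
    rw [← hmp.measure_preimage (hA.inter (hms v)).nullMeasurableSet]
    congr 1
    ext y
    simp only [mem_inter_iff, mem_preimage, mem_ofPred_eq, Function.update_self]
    refine and_congr (hdep _ _ fun k hk => ?_) ?_
    · simp [Function.update_of_ne hk]
    · constructor
      · intro h; rw [h]; exact Equiv.swap_apply_right _ _
      · intro h
        have : Equiv.swap v v' (Equiv.swap v v' (y K)) = Equiv.swap v v' v := by rw [h]
        simpa using this
  have h2 : nuM M A = ∑ v' : Fin (M K), nuM M (A ∩ {y | y K = v'}) := by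
    rw [← measure_biUnion_finset]
    · congr 1
      ext y; simp
    · intro i _ j _ hij
      refine Set.disjoint_left.2 fun y hy hy' => hij ?_
      exact hy.2.symm.trans hy'.2
    · intro i _
      exact hA.inter (hms i)
  rw [h2, Finset.sum_congr rfl (fun v' _ => h1 v'), Finset.sum_const, Finset.card_univ,
    Fintype.card_fin, nsmul_eq_mul, ← mul_assoc, ENNReal.inv_mul_cancel, one_mul]
  · exact_mod_cast NeZero.ne (M K)
  · exact ENNReal.natCast_ne_top _

/-- the position is uniform and independent of the coordinates `≥ K` -/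
theorem Adic.pos_indep (D : Adic M) {K n : ℕ} (hn : n < hM M K) {S : Set (Prd M)}
    (hS : MeasurableSet S)
    (hdep : ∀ y y' : Prd M, (∀ k, K ≤ k → y k = y' k) → (y ∈ S ↔ y' ∈ S)) :
    nuM M ({y | D.pos K y = n} ∩ S) = (hM M K : ℝ≥0∞)⁻¹ * nuM M S := by
  induction K generalizing n S with
  | zero =>
    rw [C2_hM_zero] at hn ⊢
    have : {y : Prd M | D.pos 0 y = n} = univ := by
      ext y; simp [C2_pos_zero]; omega
    rw [this, univ_inter]; simp
  | succ K ih =>
    rw [C2_hM_succ] at hn ⊢
    have hh := C2_hM_pos M K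
    set a := n % hM M K with ha
    have hb : n / hM M K < M K := Nat.div_lt_of_lt_mul hn
    have hab : a + n / hM M K * hM M K = n := by
      rw [ha, mul_comm]; exact Nat.mod_add_div n (hM M K)
    have ha' : a < hM M K := Nat.mod_lt _ hh
    set b : Fin (M K) := ⟨n / hM M K, hb⟩ with hbdef
    set S' : Set (Prd M) := {y | D.e K (D.sym (K + 1) (y (K + 1))) (y K) = b} ∩ S with hS'
    have hmeas : Measurable (fun y : Prd M => D.e K (D.sym (K + 1) (y (K + 1))) (y K)) := by
      have h1 : Measurable (fun y : Prd M => (y K, y (K + 1))) := by fun_prop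
      exact (measurable_of_countable (fun p : Fin (M K) × Fin (M (K + 1)) =>
        (D.e K (D.sym (K + 1) p.2) p.1 : Fin (M K)))).comp h1
    have hmS' : MeasurableSet S' := (measurableSet_eq_fun hmeas measurable_const).inter hS
    have e1 : {y : Prd M | D.pos (K + 1) y = n} ∩ S = {y : Prd M | D.pos K y = a} ∩ S' := by
      ext y
      simp only [hS', mem_inter_iff, mem_ofPred_eq, ← and_assoc]
      refine and_congr_left fun _ => ?_
      rw [C2_pos_succ]
      constructor
      · intro h
        rw [← hab] at h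
        obtain ⟨h1, h2⟩ := C2_radix (D.pos_lt K y) ha' h
        exact ⟨h1, Fin.ext h2⟩
      · rintro ⟨h1, h2⟩
        rw [h1, h2]; exact hab
    rw [e1, ih ha' hmS']
    · -- the measure of `S'`
      have hms : ∀ v : Fin (M (K + 1)), MeasurableSet (S ∩ {y : Prd M | y (K + 1) = v}) :=
        fun v => hS.inter (C2_ms (K + 1) v)
      have h3 : nuM M S' = ∑ v : Fin (M (K + 1)), nuM M ((S ∩ {y : Prd M | y (K + 1) = v})
          ∩ {y | y K = (D.e K (D.sym (K + 1) v)).symm b}) := by
        rw [← measure_biUnion_finset]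
        · congr 1
          ext y
          simp only [hS', mem_inter_iff, mem_ofPred_eq, mem_iUnion, Finset.mem_univ,
            exists_prop, true_and, Equiv.eq_symm_apply]
          constructor
          · rintro ⟨h, h'⟩
            exact ⟨y (K + 1), ⟨h', rfl⟩, h⟩
          · rintro ⟨v, ⟨h, h'⟩, h''⟩
            rw [← h'] at h''
            exact ⟨h'', h⟩
        · intro i _ j _ hij
          refine Set.disjoint_left.2 fun y hy hy' => hij ?_
          exact hy.1.2.symm.trans hy'.1.2
        · intro i _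
          exact (hms i).inter (C2_ms K _)
      have h4 : nuM M S = ∑ v : Fin (M (K + 1)), nuM M (S ∩ {y : Prd M | y (K + 1) = v}) := by
        rw [← measure_biUnion_finset]
        · congr 1
          ext y; simp
        · intro i _ j _ hij
          refine Set.disjoint_left.2 fun y hy hy' => hij ?_
          exact hy.2.symm.trans hy'.2
        · intro i _
          exact hms i
      have h5 : ∀ v : Fin (M (K + 1)), nuM M ((S ∩ {y : Prd M | y (K + 1) = v})
          ∩ {y | y K = (D.e K (D.sym (K + 1) v)).symm b})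
          = (M K : ℝ≥0∞)⁻¹ * nuM M (S ∩ {y : Prd M | y (K + 1) = v}) := by
        intro v
        refine C2_coord _ (hms v) fun y y' hy => ?_
        simp only [mem_inter_iff, mem_ofPred_eq]
        rw [hy (K + 1) (by omega)]
        refine and_congr_left fun _ => hdep _ _ fun k hk => hy k (by omega)
      rw [h3, Finset.sum_congr rfl (fun v _ => h5 v), ← Finset.mul_sum, ← h4, ← mul_assoc]
      congr 1
      rw [Nat.cast_mul, ENNReal.mul_inv]
      · right; exact ENNReal.natCast_ne_top _
      · left; exact ENNReal.natCast_ne_top _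
    · intro y y' hy
      simp only [hS', mem_inter_iff, mem_ofPred_eq]
      rw [hy K le_rfl, hy (K + 1) (by omega)]
      exact and_congr_right fun _ => hdep _ _ fun k hk => hy k (by omega)

end generic

end Pool.Agent.KAut
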