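import Pool.Agent.Work.MP_2cfc43_lc.N

/-! MP_2cfc43_lc, module P: the permutations `e`. -/

namespace Pool.Agent.KAut

theorem P_ell_mul (k s : ℕ) : ∃ m, bc k = ell k s * m ∧ 0 < m := by
  obtain ⟨m, hm⟩ := ell_dvd_bc k s
  refine ⟨m, hm, ?_⟩
  rcases Nat.eq_zero_or_pos m with h | h
  · have := bc_pos k
    rw [hm, h] at this
    simp at this
  · exact h

/-- the three digits of a coordinate -/
theorem P_digits (k y : ℕ) :
    ∃ c o i, y = c * Rc k + o * qc k + i ∧ o < bc k ∧ i < qc k := by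
  have hq := qc_pos k
  have hR := Rc_pos k
  refine ⟨y / Rc k, y % Rc k / qc k, y % Rc k % qc k, ?_, ?_, ?_⟩
  · have h1 := Nat.div_add_mod y (Rc k)
    have h2 := Nat.div_add_mod (y % Rc k) (qc k)
    nlinarith
  · apply Nat.div_lt_of_lt_mul
    exact Nat.mod_lt _ hR
  · exact Nat.mod_lt _ hq

/-- the four digits of a place -/
theorem P_places (k s n : ℕ) :
    ∃ c u i v, n = c * Rc k + (u * qc k + i) * ell k s + v ∧ u * ell k s < bc k ∧ i < qc k ∧
      v < ell k s := by
  obtain ⟨m, hm, hm0⟩ := P_ell_mul k s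
  have hq := qc_pos k
  have hR := Rc_pos k
  have hl := ell_pos k s
  set r := n % Rc k with hr
  have hrR : r < Rc k := Nat.mod_lt _ hR
  refine ⟨n / Rc k, r / ell k s / qc k, r / ell k s % qc k, r % ell k s, ?_, ?_, ?_, ?_⟩
  · have h1 := Nat.div_add_mod n (Rc k)
    have h2 := Nat.div_add_mod r (ell k s)
    have h3 := Nat.div_add_mod (r / ell k s) (qc k)
    have h4 : (r / ell k s / qc k * qc k + r / ell k s % qc k) = r / ell k s := by
      rw [mul_comm]; exact h3
    rw [h4]
    nlinarith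
  · have h1 : r / ell k s / qc k < m := by
      rw [Nat.div_div_eq_div_mul]
      apply Nat.div_lt_of_lt_mul
      have : Rc k = ell k s * qc k * m := by
        unfold Rc; rw [hm]; ring
      rw [← this]
      exact hrR
    calc r / ell k s / qc k * ell k s < m * ell k s := by
          exact Nat.mul_lt_mul_of_pos_right h1 hl
      _ = bc k := by rw [hm]; ring
  · exact Nat.mod_lt _ hq
  · exact Nat.mod_lt _ hl

theorem P_lt_Rc {k o i : ℕ} (ho : o < bc k) (hi : i < qc k) : o * qc k + i < Rc k := by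
  unfold Rc
  nlinarith

theorem P_place_lt {k s u i v : ℕ} (hu : u * ell k s < bc k) (hi : i < qc k)
    (hv : v < ell k s) : (u * qc k + i) * ell k s + v < Rc k := by
  obtain ⟨m, hm, hm0⟩ := P_ell_mul k s
  have hl := ell_pos k s
  have h1 : u < m := by
    rw [hm, mul_comm] at hu
    exact Nat.lt_of_mul_lt_mul_left hu
  have h2 : u * qc k + i < m * qc k := by nlinarith
  have h3 : Rc k = (m * qc k) * ell k s := by
    unfold Rc; rw [hm]; ring
  rw [h3]
  nlinarith

theorem P_div {k c r : ℕ} (hr : r < Rc k) : (c * Rc k + r) / Rc k = c := by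
  rw [mul_comm, Nat.mul_add_div (Rc_pos k), Nat.div_eq_of_lt hr, add_zero]

theorem P_mod {k c r : ℕ} (hr : r < Rc k) : (c * Rc k + r) % Rc k = r := by
  rw [mul_comm, Nat.mul_add_mod, Nat.mod_eq_of_lt hr]

/-- the value of `eN` in digits -/
theorem P_eN {A k j c o i : ℕ} (ho : o < bc k) (hi : i < qc k) :
    eN A k j (c * Rc k + o * qc k + i) =
      c * Rc k + (o / ell k (typ A k j c) * qc k + i) * ell k (typ A k j c)
        + o % ell k (typ A k j c) := by
  have hq := qc_pos k
  have h1 : (c * Rc k + o * qc k + i) / Rc k = c := by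
    rw [add_assoc]; exact P_div (P_lt_Rc ho hi)
  have h2 : (c * Rc k + o * qc k + i) / qc k = c * bc k + o := by
    have : c * Rc k + o * qc k + i = qc k * (c * bc k + o) + i := by
      unfold Rc; ring
    rw [this, Nat.mul_add_div hq, Nat.div_eq_of_lt hi, add_zero]
  have h3 : (c * Rc k + o * qc k + i) / qc k % bc k = o := by
    rw [h2, mul_comm, Nat.mul_add_mod, Nat.mod_eq_of_lt ho]
  have h4 : (c * Rc k + o * qc k + i) % qc k = i := by
    have : c * Rc k + o * qc k + i = qc k * (c * bc k + o) + i := by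
      unfold Rc; ring
    rw [this, Nat.mul_add_mod, Nat.mod_eq_of_lt hi]
  unfold eN
  rw [h1, h3, h4]
  ring

/-- the value of `psym` in digits -/
theorem P_psym {A k j c u i v : ℕ} (hu : u * ell k (typ A k j c) < bc k) (hi : i < qc k)
    (hv : v < ell k (typ A k j c)) :
    psym A k j (c * Rc k + (u * qc k + i) * ell k (typ A k j c) + v) = i := by
  obtain ⟨m, hm, hm0⟩ := P_ell_mul k (typ A k j c)
  have h1 : (c * Rc k + (u * qc k + i) * ell k (typ A k j c) + v) / Rc k = c := by
    rw [add_assoc]; exact P_div (P_place_lt hu hi hv)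
  unfold psym
  rw [h1]
  have h2 : c * Rc k + (u * qc k + i) * ell k (typ A k j c) + v
      = ell k (typ A k j c) * (qc k * (c * m + u) + i) + v := by
    unfold Rc; rw [hm]; ring
  rw [h2, Nat.mul_add_div (ell_pos _ _), Nat.div_eq_of_lt hv, add_zero, Nat.mul_add_mod,
    Nat.mod_eq_of_lt hi]

/-- the value of `eI` in digits -/
theorem P_eI {A k j c u i v : ℕ} (hu : u * ell k (typ A k j c) < bc k) (hi : i < qc k)
    (hv : v < ell k (typ A k j c)) :
    eI A k j (c * Rc k + (u * qc k + i) * ell k (typ A k j c) + v) =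
      c * Rc k + (u * ell k (typ A k j c) + v) * qc k + i := by
  have hl := ell_pos k (typ A k j c)
  have hq := qc_pos k
  have hr := P_place_lt hu hi hv
  have h1 : (c * Rc k + (u * qc k + i) * ell k (typ A k j c) + v) / Rc k = c := by
    rw [add_assoc]; exact P_div hr
  have h2 : (c * Rc k + (u * qc k + i) * ell k (typ A k j c) + v) % Rc k
      = (u * qc k + i) * ell k (typ A k j c) + v := by
    rw [add_assoc]; exact P_mod hr
  have h3 : ((u * qc k + i) * ell k (typ A k j c) + v) / (qc k * ell k (typ A k j c)) = u := by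
    have : (u * qc k + i) * ell k (typ A k j c) + v
        = (qc k * ell k (typ A k j c)) * u + (i * ell k (typ A k j c) + v) := by ring
    rw [this, Nat.mul_add_div (by positivity), Nat.div_eq_of_lt, add_zero]
    nlinarith
  have h4 : ((u * qc k + i) * ell k (typ A k j c) + v) % ell k (typ A k j c) = v := by
    rw [mul_comm, Nat.mul_add_mod, Nat.mod_eq_of_lt hv]
  unfold eI
  rw [P_psym hu hi hv, h1, h2, h3, h4]

theorem P_o_bound {k s o : ℕ} (ho : o < bc k) : o / ell k s * ell k s < bc k :=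
  lt_of_le_of_lt (Nat.div_mul_le_self _ _) ho

theorem P_v_bound {k s u v : ℕ} (hu : u * ell k s < bc k) (hv : v < ell k s) :
    u * ell k s + v < bc k := by
  obtain ⟨m, hm, hm0⟩ := P_ell_mul k s
  have h1 : u < m := by
    rw [hm, mul_comm] at hu
    exact Nat.lt_of_mul_lt_mul_left hu
  rw [hm]
  nlinarith

theorem P_Mc {k c r : ℕ} (h : c * Rc k + r < Mc k) : c < Lc k := by
  unfold Mc at h
  have hR := Rc_pos k
  by_contra hc
  push Not at hc
  have : Lc k * Rc k ≤ c * Rc k := Nat.mul_le_mul_right _ hc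
  omega

theorem P_lt_Mc {k c r : ℕ} (hc : c < Lc k) (hr : r < Rc k) : c * Rc k + r < Mc k := by
  unfold Mc
  nlinarith

theorem eN_lt {A k j y : ℕ} (hy : y < Mc k) : eN A k j y < Mc k := by
  obtain ⟨c, o, i, rfl, ho, hi⟩ := P_digits k y
  rw [P_eN ho hi, add_assoc]
  rw [add_assoc] at hy
  exact P_lt_Mc (P_Mc hy) (P_place_lt (P_o_bound ho) hi (Nat.mod_lt _ (ell_pos _ _)))

theorem eI_lt {A k j n : ℕ} (hn : n < Mc k) : eI A k j n < Mc k := by
  obtain ⟨c, u, i, v, h, hu, hi, hv⟩ := P_places k (typ A k j (n / Rc k)) n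
  have hc : n / Rc k = c := by
    rw [h, add_assoc]; exact P_div (P_place_lt hu hi hv)
  rw [hc] at h hu hv
  rw [h, P_eI hu hi hv, add_assoc]
  rw [h, add_assoc] at hn
  exact P_lt_Mc (P_Mc hn) (P_lt_Rc (P_v_bound hu hv) hi)

theorem eI_eN {A k j y : ℕ} (hy : y < Mc k) : eI A k j (eN A k j y) = y := by
  obtain ⟨c, o, i, rfl, ho, hi⟩ := P_digits k y
  rw [P_eN ho hi, P_eI (P_o_bound ho) hi (Nat.mod_lt _ (ell_pos _ _)), Nat.div_add_mod']

theorem eN_eI {A k j n : ℕ} (hn : n < Mc k) : eN A k j (eI A k j n) = n := by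
  obtain ⟨c, u, i, v, h, hu, hi, hv⟩ := P_places k (typ A k j (n / Rc k)) n
  have hc : n / Rc k = c := by
    rw [h, add_assoc]; exact P_div (P_place_lt hu hi hv)
  rw [hc] at h hu hv
  have hl := ell_pos k (typ A k j c)
  have h1 : (u * ell k (typ A k j c) + v) / ell k (typ A k j c) = u := by
    rw [mul_comm, Nat.mul_add_div hl, Nat.div_eq_of_lt hv, add_zero]
  have h2 : (u * ell k (typ A k j c) + v) % ell k (typ A k j c) = v := by
    rw [mul_comm, Nat.mul_add_mod, Nat.mod_eq_of_lt hv]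
  rw [h, P_eI hu hi hv, P_eN (P_v_bound hu hv) hi, h1, h2]

/-- the symbol of the coordinate is the symbol of the pattern at its place -/
theorem psym_eN {A k j y : ℕ} (hy : y < Mc k) : psym A k j (eN A k j y) = y % qc k := by
  obtain ⟨c, o, i, rfl, ho, hi⟩ := P_digits k y
  have h4 : (c * Rc k + o * qc k + i) % qc k = i := by
    have : c * Rc k + o * qc k + i = qc k * (c * bc k + o) + i := by
      unfold Rc; ring
    rw [this, Nat.mul_add_mod, Nat.mod_eq_of_lt hi]
  rw [P_eN ho hi, P_psym (P_o_bound ho) hi (Nat.mod_lt _ (ell_pos _ _)), h4]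

theorem eN_zero_iff {A k j y : ℕ} (hy : y < Mc k) : eN A k j y = 0 ↔ y = 0 := by
  have h0 : eN A k j 0 = 0 := by
    unfold eN
    simp
  constructor
  · intro h
    have h1 := eI_eN (A := A) (j := j) hy
    have h2 := eI_eN (A := A) (j := j) (y := 0) (lt_of_le_of_lt (Nat.zero_le _) hy)
    rw [h0] at h2
    rw [h] at h1
    rw [← h1, h2]
  · rintro rfl
    exact h0

theorem P_eN_last {A k j : ℕ} : eN A k j (Mc k - 1) = Mc k - 1 := by
  obtain ⟨L, hL⟩ : ∃ L, Lc k = L + 1 := ⟨Lc k - 1, by have := Lc_pos k; omega⟩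
  obtain ⟨b, hb⟩ : ∃ b, bc k = b + 1 := ⟨bc k - 1, by have := bc_pos k; omega⟩
  obtain ⟨q, hq⟩ : ∃ q, qc k = q + 1 := ⟨qc k - 1, by have := qc_pos k; omega⟩
  have h1 : Mc k - 1 = L * Rc k + b * qc k + q := by
    have : Mc k = L * Rc k + b * qc k + q + 1 := by
      unfold Mc
      rw [hL]
      unfold Rc
      rw [hb, hq]
      ring
    omega
  rw [h1, P_eN (by omega) (by omega)]
  set s := typ A k j L
  obtain ⟨m, hm, hm0⟩ := P_ell_mul k s
  have hl := ell_pos k s
  obtain ⟨m', rfl⟩ : ∃ m', m = m' + 1 := ⟨m - 1, by omega⟩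
  obtain ⟨l, hl'⟩ : ∃ l, ell k s = l + 1 := ⟨ell k s - 1, by omega⟩
  have h2 : b = ell k s * m' + l := by
    have : b + 1 = ell k s * m' + l + 1 := by
      rw [← hb, hm, hl']; ring
    omega
  have h3 : b / ell k s = m' := by
    rw [h2, Nat.mul_add_div hl, Nat.div_eq_of_lt (by omega), add_zero]
  have h4 : b % ell k s = l := by
    rw [h2, Nat.mul_add_mod, Nat.mod_eq_of_lt (by omega)]
  rw [h3, h4, h2, hl', hq]
  ring

theorem eN_last_iff {A k j y : ℕ} (hy : y < Mc k) : eN A k j y + 1 = Mc k ↔ y + 1 = Mc k := by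
  have h0 := P_eN_last (A := A) (k := k) (j := j)
  have hlast : Mc k - 1 < Mc k := by omega
  constructor
  · intro h
    have h1 := eI_eN (A := A) (j := j) hy
    have h2 := eI_eN (A := A) (j := j) hlast
    rw [h0] at h2
    have h3 : eN A k j y = Mc k - 1 := by omega
    rw [h3, h2] at h1
    omega
  · intro h
    have h3 : y = Mc k - 1 := by omega
    rw [h3, h0]
    omega

/-- adjacent numbers of high cells: only the cell `min A A'` changes -/
theorem eN_adj {A A' k j y : ℕ} (h1 : A ≤ A' + 1) (h2 : A' ≤ A + 1) (hy : y / Rc k ≠ min A A') :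
    eN A k j y = eN A' k j y := by
  have : typ A k j (y / Rc k) = typ A' k j (y / Rc k) := by
    unfold typ
    split_ifs <;> first | rfl | omega
  unfold eN
  rw [this]

theorem P_typ_low {k j j' c : ℕ} (h : j / rc (k + 1) = j' / rc (k + 1)) :
    typ 0 k j c = typ 0 k j' c := by
  unfold typ
  simp [h]

theorem psym_low {k j j' n : ℕ} (h : j / rc (k + 1) = j' / rc (k + 1)) :
    psym 0 k j n = psym 0 k j' n := by
  unfold psym
  rw [P_typ_low h]

theorem eN_low {k j j' y : ℕ} (h : j / rc (k + 1) = j' / rc (k + 1)) :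
    eN 0 k j y = eN 0 k j' y := by
  unfold eN
  rw [P_typ_low h]

/-- `eN` as a permutation -/
def ePerm (A k j : ℕ) : Equiv.Perm (Fin (Mc k)) where
  toFun x := ⟨eN A k j x, eN_lt x.2⟩
  invFun x := ⟨eI A k j x, eI_lt x.2⟩
  left_inv x := Fin.ext (eI_eN x.2)
  right_inv x := Fin.ext (eN_eI x.2)

/-- the transformation of the paper -/
def adic (a : ℕ → ℕ) : Adic Mc where
  sym k x := (x : ℕ) % qc k
  e k j := ePerm (a k) k j
  e_zero _ _ x := eN_zero_iff x.2
  e_last _ _ x := eN_last_iff x.2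

end Pool.Agent.KAut
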