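import Pool.Agent.Work.MP_2cfc43_lc.N
import Pool.Agent.Work.MP_2cfc43_lc.P
import Pool.Agent.Work.MP_2cfc43_lc.C2

/-! MP_2cfc43_lc: module B5 (laws of the symbol and of the position). -/

namespace Pool.Agent.KAut

open MeasureTheory Set Filter Topology
open scoped ENNReal

/-- number of elements of `Fin (q * m)` whose residue mod `q` is in `S` -/
theorem B5_count (q m : ℕ) (n : ℕ) (hn : n = q * m) (S : Finset ℕ) :
    (Finset.univ.filter (fun x : Fin n => (x : ℕ) % q ∈ S)).card ≤ S.card * m := by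
  have hcard : S.card * m = (S ×ˢ Finset.range m).card := by
    rw [Finset.card_product, Finset.card_range]
  rw [hcard]
  refine Finset.card_le_card_of_injOn (fun x : Fin n => ((x : ℕ) % q, (x : ℕ) / q)) ?_ ?_
  · intro x hx
    have hx' := (Finset.mem_filter.1 (Finset.mem_coe.1 hx)).2
    refine Finset.mem_coe.2 (Finset.mem_product.2 ⟨hx', Finset.mem_range.2 ?_⟩)
    exact Nat.div_lt_of_lt_mul (hn ▸ x.2)
  · intro x _ x' _ h
    have h1 : (x : ℕ) % q = (x' : ℕ) % q := congrArg Prod.fst h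
    have h2 : (x : ℕ) / q = (x' : ℕ) / q := congrArg Prod.snd h
    refine Fin.ext ?_
    rw [← Nat.mod_add_div (x : ℕ) q, ← Nat.mod_add_div (x' : ℕ) q, h1, h2]

/-- law of a coordinate -/
theorem B5_unif {n : ℕ} [NeZero n] (P : Finset (Fin n)) :
    (unif (Fin n)).real (P : Set (Fin n)) = P.card / n := by
  rw [measureReal_def]
  have h : unif (Fin n) (P : Set (Fin n)) = ∑ _x ∈ P, (n : ℝ≥0∞)⁻¹ := by
    rw [← sum_measure_singleton]
    refine Finset.sum_congr rfl fun x _ => ?_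
    rw [C2_unif_singleton, Fintype.card_fin]
  rw [h, Finset.sum_const, nsmul_eq_mul, ENNReal.toReal_mul, ENNReal.toReal_natCast,
    ENNReal.toReal_inv, ENNReal.toReal_natCast, div_eq_mul_inv]

/-- law of the residue of a coordinate -/
theorem B5_law {n q m : ℕ} [NeZero n] (hq : 0 < q) (hn : n = q * m) (S : Finset ℕ) :
    (unif (Fin n)).real {x : Fin n | (x : ℕ) % q ∈ S} ≤ S.card / q := by
  have h1 : {x : Fin n | (x : ℕ) % q ∈ S}
      = ((Finset.univ.filter (fun x : Fin n => (x : ℕ) % q ∈ S) : Finset (Fin n)) :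
        Set (Fin n)) := by
    ext x; simp
  have hc := B5_count q m n hn S
  have hn0 : 0 < n := Nat.pos_of_ne_zero (NeZero.ne n)
  rw [h1, B5_unif]
  have hn0' : (0 : ℝ) < n := by exact_mod_cast hn0
  have hq' : (0 : ℝ) < q := by exact_mod_cast hq
  rw [div_le_div_iff₀ hn0' hq']
  have h2 : (Finset.univ.filter (fun x : Fin n => (x : ℕ) % q ∈ S)).card * q ≤ S.card * n := by
    calc (Finset.univ.filter (fun x : Fin n => (x : ℕ) % q ∈ S)).card * q
        ≤ S.card * m * q := Nat.mul_le_mul_right _ hc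
      _ = S.card * n := by rw [hn]; ring
  exact_mod_cast h2

theorem law_sym (k : ℕ) (S : Finset ℕ) :
    (nuM Mc).real {y : Prd Mc | ((y k : Fin (Mc k)) : ℕ) % qc k ∈ S} ≤ S.card / qc k := by
  have hev : MeasurePreserving (Function.eval k) (nuM Mc) (unif (Fin (Mc k))) :=
    measurePreserving_eval_infinitePi (fun k => unif (Fin (Mc k))) k
  have hM : Mc k = qc k * (Lc k * bc k) := by unfold Mc Rc; ring
  have h2 : (nuM Mc).real (Function.eval k ⁻¹' {x : Fin (Mc k) | (x : ℕ) % qc k ∈ S})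
      = (unif (Fin (Mc k))).real {x : Fin (Mc k) | (x : ℕ) % qc k ∈ S} :=
    hev.measureReal_preimage (Set.Finite.measurableSet (Set.toFinite _)).nullMeasurableSet
  calc (nuM Mc).real {y : Prd Mc | ((y k : Fin (Mc k)) : ℕ) % qc k ∈ S}
      = (nuM Mc).real (Function.eval k ⁻¹' {x : Fin (Mc k) | (x : ℕ) % qc k ∈ S}) := by
        rfl
    _ = (unif (Fin (Mc k))).real {x : Fin (Mc k) | (x : ℕ) % qc k ∈ S} := h2
    _ ≤ S.card / qc k := B5_law (qc_pos k) hM S

theorem law_pos (a : ℕ → ℕ) (K m : ℕ) :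
    (nuM Mc).real {y : Prd Mc | hc K ≤ (adic a).pos K y + m} ≤ m / hc K := by
  have hsub : {y : Prd Mc | hc K ≤ (adic a).pos K y + m}
      ⊆ ⋃ n ∈ (Finset.Ico (hc K - m) (hc K)), {y : Prd Mc | (adic a).pos K y = n} := by
    intro y hy
    have h1 := (adic a).pos_lt K y
    have hy' : hc K ≤ (adic a).pos K y + m := hy
    refine mem_iUnion₂.2 ⟨(adic a).pos K y, Finset.mem_Ico.2 ⟨by omega, h1⟩, rfl⟩
  have hone : ∀ n ∈ Finset.Ico (hc K - m) (hc K),
      (nuM Mc).real {y : Prd Mc | (adic a).pos K y = n} = (hc K : ℝ)⁻¹ := by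
    intro n hn
    have h2 := (adic a).pos_indep (K := K) (n := n) (Finset.mem_Ico.1 hn).2
      (S := univ) MeasurableSet.univ (fun _ _ _ => Iff.rfl)
    rw [inter_univ, measure_univ, mul_one] at h2
    rw [measureReal_def, h2, ENNReal.toReal_inv, ENNReal.toReal_natCast, hc_eq_hM]
  calc (nuM Mc).real {y : Prd Mc | hc K ≤ (adic a).pos K y + m}
      ≤ (nuM Mc).real (⋃ n ∈ (Finset.Ico (hc K - m) (hc K)),
          {y : Prd Mc | (adic a).pos K y = n}) := measureReal_mono hsub (measure_ne_top _ _)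
    _ ≤ ∑ n ∈ Finset.Ico (hc K - m) (hc K),
          (nuM Mc).real {y : Prd Mc | (adic a).pos K y = n} := measureReal_biUnion_finset_le _ _
    _ = ∑ n ∈ Finset.Ico (hc K - m) (hc K), (hc K : ℝ)⁻¹ := Finset.sum_congr rfl hone
    _ = ((hc K - (hc K - m) : ℕ) : ℝ) * (hc K : ℝ)⁻¹ := by
        rw [Finset.sum_const, Nat.card_Ico, nsmul_eq_mul]
    _ ≤ m / hc K := by
        rw [div_eq_mul_inv]
        refine mul_le_mul_of_nonneg_right ?_ (by positivity)
        exact_mod_cast (by omega : hc K - (hc K - m) ≤ m)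

end Pool.Agent.KAut
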