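import Pool.Agent.Work.MP_2cfc43_lc.Defs

/-! MP_2cfc43_lc, module C1: the adic map, its inverse, measurability, invariance of the uniform
measure. -/

namespace Pool.Agent.KAut

open MeasureTheory Set Filter Topology
open scoped ENNReal

/-! ### The full group argument -/

/-- An invertible measurable map which coincides at almost every point with one of countably many
injective measure preserving maps is measure preserving. -/
theorem C1_full {α G : Type*} [MeasurableSpace α] [Countable G] {μ : Measure α}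
    [IsFiniteMeasure μ] {σ : G → α → α} (hσ : ∀ g, MeasurePreserving (σ g) μ μ)
    (hinj : ∀ g, Function.Injective (σ g)) {φ ψ : α → α} (hφ : Measurable φ) (hψ : Measurable ψ)
    (h1 : ∀ x, ψ (φ x) = x) (h2 : ∀ x, φ (ψ x) = x)
    (hE : ∀ g, MeasurableSet {x | φ x = σ g x}) (hg : ∀ᵐ x ∂μ, ∃ g, φ x = σ g x) :
    MeasurePreserving φ μ μ := by
  classical
  cases isEmpty_or_nonempty G with
  | inl hG =>
    have h0 : μ = 0 := by
      rw [← Measure.measure_univ_eq_zero]
      have : {x : α | ¬ ∃ g : G, φ x = σ g x} = univ := by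
        ext x; simp
      rw [← this]
      exact hg
    subst h0
    exact ⟨hφ, by simp⟩
  | inr hG =>
  obtain ⟨en, hen⟩ := exists_surjective_nat G
  set E : ℕ → Set α := fun n => {x | φ x = σ (en n) x} with hEdef
  have hEm : ∀ n, MeasurableSet (E n) := fun n => hE _
  set E' : ℕ → Set α := disjointed E with hE'def
  have hE'm : ∀ n, MeasurableSet (E' n) := fun n => MeasurableSet.disjointed hEm n
  have hE'sub : ∀ n, E' n ⊆ E n := fun n => disjointed_subset E n
  have hdis : Pairwise (Function.onFun Disjoint E') := disjoint_disjointed E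
  have hU : ⋃ n, E' n = ⋃ n, E n := iUnion_disjointed
  have hUae : μ (⋃ n, E' n)ᶜ = 0 := by
    rw [hU]
    refine measure_mono_null ?_ (ae_iff.1 hg)
    intro x hx hx'
    obtain ⟨g, hg'⟩ := hx'
    obtain ⟨n, rfl⟩ := hen g
    exact hx (mem_iUnion.2 ⟨n, hg'⟩)
  -- key inequality
  have key : ∀ B, MeasurableSet B → μ (φ ⁻¹' B) ≤ μ B := by
    intro B hB
    have e1 : ∀ n, E' n ∩ φ ⁻¹' B = σ (en n) ⁻¹' (B ∩ ψ ⁻¹' (E' n)) := by
      intro n
      ext x
      constructor
      · rintro ⟨hx, hxB⟩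
        have hx' : φ x = σ (en n) x := hE'sub n hx
        refine ⟨?_, ?_⟩
        · show σ (en n) x ∈ B
          rw [← hx']; exact hxB
        · show ψ (σ (en n) x) ∈ E' n
          rw [← hx', h1]; exact hx
      · rintro ⟨hxB, hx⟩
        have hz : φ (ψ (σ (en n) x)) = σ (en n) (ψ (σ (en n) x)) := hE'sub n hx
        rw [h2] at hz
        have hz' := hinj _ hz
        have hx2 : x ∈ E' n := by rw [hz']; exact hx
        refine ⟨hx2, ?_⟩
        show φ x ∈ B
        have : φ x = σ (en n) x := hE'sub n hx2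
        rw [this]; exact hxB
    have e2 : ∀ n, μ (E' n ∩ φ ⁻¹' B) = μ (B ∩ ψ ⁻¹' (E' n)) := by
      intro n
      rw [e1 n]
      exact (hσ _).measure_preimage (hB.inter (hψ (hE'm n))).nullMeasurableSet
    calc μ (φ ⁻¹' B) ≤ μ ((⋃ n, E' n) ∩ φ ⁻¹' B) + μ ((⋃ n, E' n)ᶜ) := by
          refine (measure_mono ?_).trans (measure_union_le _ _)
          intro x hx
          by_cases hxU : x ∈ ⋃ n, E' n
          · exact Or.inl ⟨hxU, hx⟩
          · exact Or.inr hxU
      _ = μ (⋃ n, (E' n ∩ φ ⁻¹' B)) := by rw [hUae, add_zero, iUnion_inter]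
      _ = ∑' n, μ (E' n ∩ φ ⁻¹' B) := by
          refine measure_iUnion ?_ fun n => (hE'm n).inter (hφ hB)
          intro i j hij
          exact (hdis hij).mono inter_subset_left inter_subset_left
      _ = ∑' n, μ (B ∩ ψ ⁻¹' (E' n)) := by simp only [e2]
      _ = μ (⋃ n, (B ∩ ψ ⁻¹' (E' n))) := by
          refine (measure_iUnion ?_ fun n => hB.inter (hψ (hE'm n))).symm
          intro i j hij
          exact ((hdis hij).preimage ψ).mono inter_subset_right inter_subset_right
      _ ≤ μ B := measure_mono (iUnion_subset fun n => inter_subset_left)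
  refine ⟨hφ, ?_⟩
  ext B hB
  rw [Measure.map_apply hφ hB]
  refine le_antisymm (key B hB) ?_
  have h3 := key Bᶜ hB.compl
  rw [preimage_compl, measure_compl (hφ hB) (measure_ne_top _ _),
    measure_compl hB (measure_ne_top _ _)] at h3
  have hle1 : μ (φ ⁻¹' B) ≤ μ univ := measure_mono (subset_univ _)
  have hle2 : μ B ≤ μ univ := measure_mono (subset_univ _)
  have hfin : μ univ ≠ ∞ := measure_ne_top _ _
  have h4 : μ univ ≤ μ univ - μ B + μ (φ ⁻¹' B) := by
    calc μ univ = μ univ - μ (φ ⁻¹' B) + μ (φ ⁻¹' B) := (tsub_add_cancel_of_le hle1).symm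
      _ ≤ μ univ - μ B + μ (φ ⁻¹' B) := by gcongr
  have h5 : μ B + μ univ ≤ μ univ + μ (φ ⁻¹' B) := by
    calc μ B + μ univ ≤ μ B + (μ univ - μ B + μ (φ ⁻¹' B)) := by gcongr
      _ = (μ B + (μ univ - μ B)) + μ (φ ⁻¹' B) := by rw [add_assoc]
      _ = μ univ + μ (φ ⁻¹' B) := by rw [add_tsub_cancel_of_le hle2]
  rw [add_comm (μ B)] at h5
  exact (ENNReal.add_le_add_iff_left hfin).1 h5

/-! ### Uniform measures and translations -/

theorem C1_unif_map {α : Type*} [Fintype α] [Nonempty α] [MeasurableSpace α]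
    [MeasurableSingletonClass α] (e : α ≃ α) : (unif α).map e = unif α := by
  ext s hs
  rw [Measure.map_apply (measurable_of_countable _) hs]
  unfold unif
  classical
  rw [PMF.toMeasure_uniformOfFintype_apply _ hs,
    PMF.toMeasure_uniformOfFintype_apply _ (measurable_of_countable (e : α → α) hs)]
  congr 2
  exact Fintype.card_congr (e.subtypeEquiv fun a => Iff.rfl)

variable {M : ℕ → ℕ} [∀ k, NeZero (M k)]

/-- Coordinatewise permutations preserve the measure. -/
theorem C1_coord (σ : ∀ k, Equiv.Perm (Fin (M k))) :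
    MeasurePreserving (fun y : Prd M => fun k => σ k (y k)) (nuM M) (nuM M) := by
  refine ⟨measurable_pi_iff.2 fun k =>
    (measurable_of_countable (σ k)).comp (measurable_pi_apply k), ?_⟩
  unfold nuM
  rw [Measure.infinitePi_map_pi (fun k => unif (Fin (M k)))
    (f := fun k => (σ k : Fin (M k) → Fin (M k))) (fun k => measurable_of_countable _)]
  congr 1
  funext k
  exact C1_unif_map (σ k)

/-- An invertible measurable map of the product which changes only finitely many coordinates of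
almost every point preserves the measure. -/
theorem C1_finite_change {φ ψ : Prd M → Prd M} (hφ : Measurable φ) (hψ : Measurable ψ)
    (h1 : ∀ x, ψ (φ x) = x) (h2 : ∀ x, φ (ψ x) = x)
    (hfin : ∀ᵐ x ∂nuM M, ∃ K, ∀ k, K ≤ k → φ x k = x k) :
    MeasurePreserving φ (nuM M) (nuM M) := by
  classical
  -- the countable group
  let G := Σ K : ℕ, ((∀ k : Fin K, Fin (M k)))
  let τ : G → Prd M := fun g k => if h : k < g.1 then g.2 ⟨k, h⟩ else 0
  let σ : G → Prd M → Prd M := fun g y k => y k + τ g k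
  have hσ : ∀ g, MeasurePreserving (σ g) (nuM M) (nuM M) := fun g =>
    C1_coord (fun k => Equiv.addRight (τ g k))
  have hinj : ∀ g, Function.Injective (σ g) := by
    intro g y y' h
    funext k
    have := congrFun h k
    exact add_right_cancel this
  refine C1_full (G := G) hσ hinj hφ hψ h1 h2 ?_ ?_
  · intro g
    exact measurableSet_eq_fun hφ (hσ g).measurable
  · filter_upwards [hfin] with x hx
    obtain ⟨K, hK⟩ := hx
    refine ⟨⟨K, fun k => φ x k - x k⟩, ?_⟩
    funext k
    show φ x k = x k + (if h : k < K then φ x k - x k else 0)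
    split_ifs with h
    · abel
    · rw [add_zero]; exact hK k (not_lt.1 h)

/-! ### Elementary facts on `Fin` -/

theorem C1_add_one_eq_zero {n : ℕ} [NeZero n] (x : Fin n) : x + 1 = 0 ↔ (x : ℕ) + 1 = n := by
  have hn : 0 < n := Nat.pos_of_ne_zero (NeZero.ne n)
  rw [Fin.ext_iff, Fin.val_add, Fin.val_one']
  simp only [Fin.val_zero]
  rcases Nat.lt_or_ge 1 n with h | h
  · rw [Nat.mod_eq_of_lt h]
    constructor
    · intro h0
      have hx := x.2
      by_contra hne
      have : (x : ℕ) + 1 < n := by omega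
      rw [Nat.mod_eq_of_lt this] at h0
      omega
    · intro h0
      rw [h0, Nat.mod_self]
  · have h1 : n = 1 := by omega
    subst h1
    have hx := x.2
    omega

theorem C1_sub_one_of_zero {n : ℕ} [NeZero n] (x : Fin n) (hx : (x : ℕ) + 1 = n) :
    (0 : Fin n) - 1 = x := by
  have := (C1_add_one_eq_zero x).2 hx
  rw [← this]
  abel

/-! ### The map and its inverse -/

/-- Below the first coordinate which is not last, the image is zero. -/
theorem C1_fwd_zero (D : Adic M) {y : Prd M} {k : ℕ} (h : ∀ l, l ≤ k → (y l : ℕ) + 1 = M l) :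
    D.fwd y k = 0 := by
  have h1 : D.fwd y k = (D.e k (D.sym (k + 1) (y (k + 1)))).symm
      (D.e k (D.sym (k + 1) (y (k + 1))) (y k) + 1) := if_pos fun l hl => h l hl.le
  rw [h1]
  have h2 := (D.e_last k (D.sym (k + 1) (y (k + 1))) (y k)).2 (h k le_rfl)
  have h3 := (C1_add_one_eq_zero _).2 h2
  rw [h3]
  have h4 : D.e k (D.sym (k + 1) (y (k + 1))) 0 = 0 := by
    apply Fin.ext
    exact (D.e_zero k (D.sym (k + 1) (y (k + 1))) 0).2 rfl
  rw [Equiv.symm_apply_eq]
  exact h4.symm

theorem C1_bwd_last (D : Adic M) {y : Prd M} {k : ℕ} (h : ∀ l, l ≤ k → (y l : ℕ) = 0) :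
    ((D.bwd y k : Fin (M k)) : ℕ) + 1 = M k := by
  have h1 : D.bwd y k = (D.e k (D.sym (k + 1) (y (k + 1)))).symm
      (D.e k (D.sym (k + 1) (y (k + 1))) (y k) - 1) := if_pos fun l hl => h l hl.le
  rw [h1]
  rw [← D.e_last k (D.sym (k + 1) (y (k + 1))), Equiv.apply_symm_apply]
  have h2 : D.e k (D.sym (k + 1) (y (k + 1))) (y k) = 0 := by
    apply Fin.ext
    exact (D.e_zero k _ _).2 (h k le_rfl)
  rw [h2, ← C1_add_one_eq_zero, sub_add_cancel]

theorem C1_fwd_at (D : Adic M) {y : Prd M} {k : ℕ} (h : ∀ l, l < k → (y l : ℕ) + 1 = M l) :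
    D.fwd y k = (D.e k (D.sym (k + 1) (y (k + 1)))).symm
      (D.e k (D.sym (k + 1) (y (k + 1))) (y k) + 1) := if_pos h

theorem C1_bwd_at (D : Adic M) {y : Prd M} {k : ℕ} (h : ∀ l, l < k → (y l : ℕ) = 0) :
    D.bwd y k = (D.e k (D.sym (k + 1) (y (k + 1)))).symm
      (D.e k (D.sym (k + 1) (y (k + 1))) (y k) - 1) := if_pos h

theorem C1_fwd_above (D : Adic M) {y : Prd M} {k l : ℕ} (hl : l < k) (h : (y l : ℕ) + 1 ≠ M l) :
    D.fwd y k = y k := if_neg fun h' => h (h' l hl)

theorem C1_bwd_above (D : Adic M) {y : Prd M} {k l : ℕ} (hl : l < k) (h : (y l : ℕ) ≠ 0) :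
    D.bwd y k = y k := if_neg fun h' => h (h' l hl)

/-- At the first coordinate which is not last the image is not zero. -/
theorem C1_fwd_ne_zero (D : Adic M) {y : Prd M} {k : ℕ} (h : ∀ l, l < k → (y l : ℕ) + 1 = M l)
    (hk : (y k : ℕ) + 1 ≠ M k) : ((D.fwd y k : Fin (M k)) : ℕ) ≠ 0 := by
  rw [C1_fwd_at D h]
  intro h0
  rw [← D.e_zero k (D.sym (k + 1) (y (k + 1))), Equiv.apply_symm_apply] at h0
  have h1 : D.e k (D.sym (k + 1) (y (k + 1))) (y k) + 1 = 0 := Fin.ext h0
  rw [C1_add_one_eq_zero, D.e_last] at h1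
  exact hk h1

theorem C1_bwd_ne_last (D : Adic M) {y : Prd M} {k : ℕ} (h : ∀ l, l < k → (y l : ℕ) = 0)
    (hk : (y k : ℕ) ≠ 0) : ((D.bwd y k : Fin (M k)) : ℕ) + 1 ≠ M k := by
  rw [C1_bwd_at D h]
  intro h0
  rw [← D.e_last k (D.sym (k + 1) (y (k + 1))), Equiv.apply_symm_apply, ← C1_add_one_eq_zero,
    sub_add_cancel] at h0
  exact hk ((D.e_zero k _ _).1 (congrArg Fin.val h0))

theorem Adic.bwd_fwd (D : Adic M) (y : Prd M) : D.bwd (D.fwd y) = y := by
  classical
  funext k
  by_cases h : ∀ l, l < k → (y l : ℕ) + 1 = M l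
  · have hz : ∀ l, l < k → ((D.fwd y l : Fin (M l)) : ℕ) = 0 := by
      intro l hl
      rw [C1_fwd_zero D fun l' hl' => h l' (by omega)]
      rfl
    rw [C1_bwd_at D hz]
    by_cases hk : (y k : ℕ) + 1 = M k
    · have h0 : D.fwd y k = 0 := C1_fwd_zero D fun l hl => by
        rcases lt_or_eq_of_le hl with h' | rfl
        · exact h l h'
        · exact hk
      rw [h0]
      have h2 : D.e k (D.sym (k + 1) (D.fwd y (k + 1))) 0 = 0 := by
        apply Fin.ext
        exact (D.e_zero k _ 0).2 rfl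
      rw [h2, Equiv.symm_apply_eq]
      have h3 := (D.e_last k (D.sym (k + 1) (D.fwd y (k + 1))) (y k)).2 hk
      exact C1_sub_one_of_zero _ h3
    · have e1 : D.fwd y (k + 1) = y (k + 1) := C1_fwd_above D (Nat.lt_succ_self k) hk
      rw [e1, C1_fwd_at D h, Equiv.apply_symm_apply, add_sub_cancel_right, Equiv.symm_apply_apply]
  · have hex : ∃ l, (y l : ℕ) + 1 ≠ M l := by
      push Not at h
      obtain ⟨l, _, hl⟩ := h
      exact ⟨l, hl⟩
    have hlt : Nat.find hex < k := by
      push Not at h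
      obtain ⟨l, hl, hl'⟩ := h
      exact lt_of_le_of_lt (Nat.find_min' hex hl') hl
    have hne : ((D.fwd y (Nat.find hex) : Fin (M (Nat.find hex))) : ℕ) ≠ 0 :=
      C1_fwd_ne_zero D (fun l hl => not_not.1 (Nat.find_min hex hl)) (Nat.find_spec hex)
    rw [C1_bwd_above D hlt hne, C1_fwd_above D hlt (Nat.find_spec hex)]

theorem Adic.fwd_bwd (D : Adic M) (y : Prd M) : D.fwd (D.bwd y) = y := by
  classical
  funext k
  by_cases h : ∀ l, l < k → (y l : ℕ) = 0
  · have hz : ∀ l, l < k → ((D.bwd y l : Fin (M l)) : ℕ) + 1 = M l := by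
      intro l hl
      exact C1_bwd_last D fun l' hl' => h l' (by omega)
    rw [C1_fwd_at D hz]
    by_cases hk : (y k : ℕ) = 0
    · have h0 : ((D.bwd y k : Fin (M k)) : ℕ) + 1 = M k := C1_bwd_last D fun l hl => by
        rcases lt_or_eq_of_le hl with h' | rfl
        · exact h l h'
        · exact hk
      have h3 := (D.e_last k (D.sym (k + 1) (D.bwd y (k + 1))) (D.bwd y k)).2 h0
      rw [(C1_add_one_eq_zero _).2 h3, Equiv.symm_apply_eq]
      apply Fin.ext
      rw [(D.e_zero k (D.sym (k + 1) (D.bwd y (k + 1))) (y k)).2 hk]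
      rfl
    · have e1 : D.bwd y (k + 1) = y (k + 1) := C1_bwd_above D (Nat.lt_succ_self k) hk
      rw [e1, C1_bwd_at D h, Equiv.apply_symm_apply, sub_add_cancel, Equiv.symm_apply_apply]
  · have hex : ∃ l, (y l : ℕ) ≠ 0 := by
      push Not at h
      obtain ⟨l, _, hl⟩ := h
      exact ⟨l, hl⟩
    have hlt : Nat.find hex < k := by
      push Not at h
      obtain ⟨l, hl, hl'⟩ := h
      exact lt_of_le_of_lt (Nat.find_min' hex hl') hl
    have hne : ((D.bwd y (Nat.find hex) : Fin (M (Nat.find hex))) : ℕ) + 1 ≠ M (Nat.find hex) :=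
      C1_bwd_ne_last D (fun l hl => not_not.1 (Nat.find_min hex hl)) (Nat.find_spec hex)
    rw [C1_fwd_above D hlt hne, C1_bwd_above D hlt (Nat.find_spec hex)]

/-! ### Measurability -/

omit [∀ k, NeZero (M k)] in
theorem C1_meas_all (P : ∀ l, Fin (M l) → Prop) (k : ℕ) :
    MeasurableSet {y : Prd M | ∀ l < k, P l (y l)} := by
  have : {y : Prd M | ∀ l < k, P l (y l)} = ⋂ l ∈ Finset.range k, {y : Prd M | P l (y l)} := by
    ext y; simp
  rw [this]
  refine Finset.measurableSet_biInter _ fun l _ => ?_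
  exact (measurable_pi_apply (X := fun k => Fin (M k)) l) (MeasurableSet.of_discrete
    (s := {x : Fin (M l) | P l x}))

omit [∀ k, NeZero (M k)] in
theorem C1_meas_pair (k : ℕ) : Measurable (fun y : Prd M => (y k, y (k + 1))) :=
  (measurable_pi_apply k).prodMk (measurable_pi_apply (k + 1))

theorem Adic.measurable_fwd (D : Adic M) : Measurable D.fwd := by
  classical
  refine measurable_pi_iff.2 fun k => ?_
  unfold Adic.fwd
  refine Measurable.ite (C1_meas_all (fun l x => (x : ℕ) + 1 = M l) k) ?_ (measurable_pi_apply k)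
  exact (measurable_of_countable (fun p : Fin (M k) × Fin (M (k + 1)) =>
    (D.e k (D.sym (k + 1) p.2)).symm (D.e k (D.sym (k + 1) p.2) p.1 + 1))).comp
    (C1_meas_pair k)

theorem Adic.measurable_bwd (D : Adic M) : Measurable D.bwd := by
  classical
  refine measurable_pi_iff.2 fun k => ?_
  unfold Adic.bwd
  refine Measurable.ite (C1_meas_all (fun l x => (x : ℕ) = 0) k) ?_ (measurable_pi_apply k)
  exact (measurable_of_countable (fun p : Fin (M k) × Fin (M (k + 1)) =>
    (D.e k (D.sym (k + 1) p.2)).symm (D.e k (D.sym (k + 1) p.2) p.1 - 1))).comp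
    (C1_meas_pair k)

/-! ### Measure of cylinders -/

theorem C1_unif_singleton {n : ℕ} [NeZero n] (x : Fin n) : unif (Fin n) {x} = (n : ℝ≥0∞)⁻¹ := by
  unfold unif
  rw [PMF.toMeasure_apply_singleton _ _ (measurableSet_singleton _), PMF.uniformOfFintype_apply,
    Fintype.card_fin]

/-- Cylinders of length `K` have measure `1 / h_K`. -/
theorem C1_cyl (t : Prd M) (K : ℕ) :
    nuM M {y : Prd M | ∀ l < K, y l = t l} = (hM M K : ℝ≥0∞)⁻¹ := by
  have h1 : {y : Prd M | ∀ l < K, y l = t l}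
      = Set.pi (Finset.range K : Set ℕ) (fun l => ({t l} : Set (Fin (M l)))) := by
    ext y; simp [Set.mem_pi]
  rw [h1]
  unfold nuM
  rw [Measure.infinitePi_pi _ (fun l _ => measurableSet_singleton _)]
  unfold hM
  rw [Nat.cast_prod, ENNReal.prod_inv_distrib]
  · exact Finset.prod_congr rfl fun l _ => C1_unif_singleton _
  · intro i _ j _ _
    exact Or.inl (by exact_mod_cast NeZero.ne (M i))

omit [∀ k, NeZero (M k)] in
theorem C1_hM_ge (hM2 : ∀ k, 2 ≤ M k) (K : ℕ) : 2 ^ K ≤ hM M K := by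
  unfold hM
  calc 2 ^ K = ∏ _l ∈ Finset.range K, 2 := by rw [Finset.prod_const, Finset.card_range]
    _ ≤ ∏ l ∈ Finset.range K, M l := Finset.prod_le_prod' fun l _ => hM2 l

/-- Points of the product have measure zero. -/
theorem C1_tail_null (hM2 : ∀ k, 2 ≤ M k) (t : Prd M) :
    nuM M {y : Prd M | ∀ l, y l = t l} = 0 := by
  have h1 : ∀ K : ℕ, nuM M {y : Prd M | ∀ l, y l = t l} ≤ ((2 : ℝ≥0∞) ^ K)⁻¹ := by
    intro K
    have hsub : {y : Prd M | ∀ l, y l = t l} ⊆ {y : Prd M | ∀ l < K, y l = t l} :=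
      fun y hy l _ => hy l
    refine (measure_mono hsub).trans ?_
    rw [C1_cyl]
    refine ENNReal.inv_le_inv.2 ?_
    exact_mod_cast C1_hM_ge hM2 K
  refine le_antisymm ?_ bot_le
  have h2 : Tendsto (fun K : ℕ => ((2 : ℝ≥0∞) ^ K)⁻¹) atTop (𝓝 0) := by
    have h3 : (fun K : ℕ => ((2 : ℝ≥0∞) ^ K)⁻¹) = fun K : ℕ => ((2 : ℝ≥0∞)⁻¹) ^ K := by
      funext K
      exact ENNReal.inv_pow
    rw [h3]
    exact ENNReal.tendsto_pow_atTop_nhds_zero_of_lt_one (by simp)
  exact ge_of_tendsto' h2 h1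

theorem Adic.mp_fwd (D : Adic M) (hM2 : ∀ k, 2 ≤ M k) :
    MeasurePreserving D.fwd (nuM M) (nuM M) := by
  refine C1_finite_change D.measurable_fwd D.measurable_bwd D.bwd_fwd D.fwd_bwd ?_
  have hlast : ∀ l, ∃ x : Fin (M l), (x : ℕ) + 1 = M l := fun l =>
    ⟨⟨M l - 1, by have := hM2 l; omega⟩, by have := hM2 l; simp only; omega⟩
  choose t ht using hlast
  have h0 : ∀ᵐ y ∂nuM M, y ∉ {y : Prd M | ∀ l, y l = t l} :=
    measure_eq_zero_iff_ae_notMem.1 (C1_tail_null hM2 t)
  filter_upwards [h0] with y hy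
  have : ∃ l, (y l : ℕ) + 1 ≠ M l := by
    by_contra hcon
    push Not at hcon
    refine hy fun l => Fin.ext ?_
    have h1 := hcon l
    have h2 := ht l
    omega
  obtain ⟨l, hl⟩ := this
  exact ⟨l + 1, fun k hk => C1_fwd_above D (by omega) hl⟩

theorem Adic.mp_bwd (D : Adic M) (hM2 : ∀ k, 2 ≤ M k) :
    MeasurePreserving D.bwd (nuM M) (nuM M) := by
  refine C1_finite_change D.measurable_bwd D.measurable_fwd D.fwd_bwd D.bwd_fwd ?_
  have h0 : ∀ᵐ y ∂nuM M, y ∉ {y : Prd M | ∀ l, y l = (0 : Prd M) l} :=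
    measure_eq_zero_iff_ae_notMem.1 (C1_tail_null hM2 0)
  filter_upwards [h0] with y hy
  have : ∃ l, (y l : ℕ) ≠ 0 := by
    by_contra hcon
    push Not at hcon
    exact hy fun l => Fin.ext (hcon l)
  obtain ⟨l, hl⟩ := this
  exact ⟨l + 1, fun k hk => C1_bwd_above D (by omega) hl⟩

end Pool.Agent.KAut
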