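import Pool.Agent.Work.MP_2cfc43_lc.Defs

/-! MP_2cfc43_lc, module F0: longest common subsequences. -/

namespace Pool.Agent.KAut

theorem F0_le {u v c : List ℕ} (hu : c.Sublist u) (hv : c.Sublist v) : c.length ≤ lcs u v := by
  classical
  unfold lcs
  have : c ∈ u.sublists.toFinset.filter (fun c => c.Sublist v) := by
    simp [hu, hv]
  convert Finset.le_sup (f := List.length) this

theorem exists_lcs (u v : List ℕ) :
    ∃ c : List ℕ, c.Sublist u ∧ c.Sublist v ∧ c.length = lcs u v := by
  classical
  have hne : (u.sublists.toFinset.filter (fun c => c.Sublist v)).Nonempty :=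
    ⟨[], by simp⟩
  obtain ⟨c, hc, hs⟩ := Finset.exists_mem_eq_sup _ hne List.length
  simp only [Finset.mem_filter, List.mem_toFinset, List.mem_sublists] at hc
  refine ⟨c, hc.1, hc.2, ?_⟩
  unfold lcs
  rw [← hs]

theorem lcs_le_iff {u v : List ℕ} {m : ℕ} :
    lcs u v ≤ m ↔ ∀ c : List ℕ, c.Sublist u → c.Sublist v → c.length ≤ m := by
  constructor
  · intro h c hA hB
    exact (F0_le hA hB).trans h
  · intro h
    obtain ⟨c, hA, hB, hc⟩ := exists_lcs u v
    rw [← hc]; exact h c hA hB

theorem lcs_comm (u v : List ℕ) : lcs u v = lcs v u := by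
  apply le_antisymm <;> · rw [lcs_le_iff]; intro c h1 h2; exact F0_le h2 h1

theorem lcs_mono {u u' v v' : List ℕ} (h : u.Sublist u') (h' : v.Sublist v') :
    lcs u v ≤ lcs u' v' :=
  lcs_le_iff.2 fun _ h1 h2 => F0_le (h1.trans h) (h2.trans h')

theorem lcs_le_left (u v : List ℕ) : lcs u v ≤ u.length :=
  lcs_le_iff.2 fun _ hA _ => hA.length_le

theorem F0_le_right (u v : List ℕ) : lcs u v ≤ v.length :=
  lcs_le_iff.2 fun _ _ hB => hB.length_le

@[simp] theorem F0_nil_left (v : List ℕ) : lcs [] v = 0 :=
  Nat.le_zero.1 (by simpa using lcs_le_left ([] : List ℕ) v)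

@[simp] theorem F0_nil_right (u : List ℕ) : lcs u [] = 0 :=
  Nat.le_zero.1 (by simpa using F0_le_right u ([] : List ℕ))

theorem lcs_cons_cons (x : ℕ) (u v : List ℕ) : lcs u v + 1 ≤ lcs (x :: u) (x :: v) := by
  obtain ⟨c, hA, hB, hc⟩ := exists_lcs u v
  rw [← hc]
  exact F0_le (c := x :: c) (hA.cons_cons x) (hB.cons_cons x)

theorem lcs_append_le (u u' v v' : List ℕ) :
    lcs (u ++ u') (v ++ v') ≤ lcs u v + lcs u v' + lcs u' v + lcs u' v' := by
  rw [lcs_le_iff]
  intro c hA hB
  obtain ⟨p, q, rfl, hp, hq⟩ := List.sublist_append_iff.1 hA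
  obtain ⟨p', q', hpq, hp', hq'⟩ := List.sublist_append_iff.1 hB
  rcases List.append_eq_append_iff.1 hpq with ⟨r, hr1, hr2⟩ | ⟨r, hr1, hr2⟩
  · subst hr1; subst hr2
    have h1 : p.length ≤ lcs u v := F0_le hp ((List.sublist_append_left p r).trans hp')
    have h2 : r.length ≤ lcs u' v :=
      F0_le ((List.sublist_append_left r q').trans hq) ((List.sublist_append_right p r).trans hp')
    have h3 : q'.length ≤ lcs u' v' := F0_le ((List.sublist_append_right r q').trans hq) hq'
    simp only [List.length_append]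
    omega
  · subst hr1; subst hr2
    have h1 : p'.length ≤ lcs u v := F0_le ((List.sublist_append_left p' r).trans hp) hp'
    have h2 : r.length ≤ lcs u v' :=
      F0_le ((List.sublist_append_right p' r).trans hp) ((List.sublist_append_left r q).trans hq')
    have h3 : q.length ≤ lcs u' v' := F0_le hq ((List.sublist_append_right r q).trans hq')
    simp only [List.length_append]
    omega

theorem F0_restrict {u u' : List ℕ} (h : u.Sublist u') :
    ∀ c : List ℕ, c.Sublist u' →
      ∃ c' : List ℕ, c'.Sublist c ∧ c'.Sublist u ∧ c.length + u.length ≤ c'.length + u'.length := by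
  induction h with
  | slnil =>
    intro c hc
    exact ⟨[], List.nil_sublist _, List.nil_sublist _, by simpa using hc.length_le⟩
  | cons a h ih =>
    intro c hc
    rcases List.sublist_cons_iff.1 hc with hc | ⟨r, rfl, hr⟩
    · obtain ⟨c', h1, h2, h3⟩ := ih c hc
      exact ⟨c', h1, h2, by simp only [List.length_cons]; omega⟩
    · obtain ⟨c', h1, h2, h3⟩ := ih r hr
      exact ⟨c', h1.cons a, h2, by simp only [List.length_cons]; omega⟩
  | cons_cons a h ih =>
    intro c hc
    rcases List.sublist_cons_iff.1 hc with hc | ⟨r, rfl, hr⟩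
    · obtain ⟨c', h1, h2, h3⟩ := ih c hc
      exact ⟨c', h1, h2.cons a, by simp only [List.length_cons]; omega⟩
    · obtain ⟨c', h1, h2, h3⟩ := ih r hr
      exact ⟨a :: c', h1.cons_cons a, h2.cons_cons a, by simp only [List.length_cons]; omega⟩

/-- deleting letters decreases the lcs at most by the number of deleted letters -/
theorem F0_sub {u u' : List ℕ} (h : u.Sublist u') (v : List ℕ) :
    lcs u' v + u.length ≤ lcs u v + u'.length := by
  obtain ⟨c, h1, h2, h3⟩ := exists_lcs u' v
  obtain ⟨c', h4, h5, h6⟩ := F0_restrict h c h1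
  have := F0_le h5 (h4.trans h2)
  omega

theorem F0_collapse_len {X Y : List (Bool × ℕ)} (h : X.Sublist Y) :
    (collapse Y).length + X.length ≤ (collapse X).length + Y.length := by
  unfold collapse
  simp only [List.length_map]
  induction h with
  | slnil => simp
  | cons a h ih =>
    rcases a with ⟨_ | _, n⟩ <;> simp only [List.filter_cons, List.length_cons] <;> simp <;> omega
  | cons_cons a h ih =>
    rcases a with ⟨_ | _, n⟩ <;> simp only [List.filter_cons, List.length_cons] <;> simp <;> omega

/-- the functionals `F_j` -/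
theorem subLip_lcs (w : List ℕ) : SubLip (fun Z => lcs (collapse Z) w) := by
  intro X Y h
  have h1 : (collapse X).Sublist (collapse Y) := by
    unfold collapse
    exact (h.filter _).map _
  refine ⟨lcs_mono h1 (List.Sublist.refl _), ?_⟩
  have h2 := F0_sub h1 w
  have h3 := F0_collapse_len h
  show lcs (collapse Y) w + X.length ≤ lcs (collapse X) w + Y.length
  omega

end Pool.Agent.KAut
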