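import Pool.Agent.Work.MP_2cfc43_lc.N
import Pool.Agent.Work.MP_2cfc43_lc.P
import Pool.Agent.Work.MP_2cfc43_lc.C1
import Pool.Agent.Work.MP_2cfc43_lc.C2
import Pool.Agent.Work.MP_2cfc43_lc.F0
import Pool.Agent.Work.MP_2cfc43_lc.V
import Pool.Agent.Work.MP_2cfc43_lc.S
import Pool.Agent.Work.MP_2cfc43_lc.B1
import Pool.Agent.Work.MP_2cfc43_lc.B2
import Pool.Agent.Work.MP_2cfc43_lc.B3
import Pool.Agent.Work.MP_2cfc43_lc.B4
import Pool.Agent.Work.MP_2cfc43_lc.B5

/-!
# Part B6: the skew product of one transformation is not a factor of that of another one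
-/

namespace Pool.Agent.KAut

open MeasureTheory Set Filter Topology
open scoped ENNReal

namespace B6

/-- A function of a countable measurable code is measurable. -/
theorem measurable_of_code {Ω δ γ : Type*} [MeasurableSpace Ω] [MeasurableSpace δ] [Countable δ]
    [MeasurableSingletonClass δ] [MeasurableSpace γ] {π : Ω → δ} (hπ : Measurable π) {f : Ω → γ}
    (h : ∀ w w', π w = π w' → f w = f w') : Measurable f := by
  intro S _
  have e : f ⁻¹' S = π ⁻¹' (π '' (f ⁻¹' S)) := by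
    ext w
    constructor
    · intro hw; exact ⟨w, hw, rfl⟩
    · rintro ⟨w', hw', e⟩
      show f w ∈ S
      rw [← h w' w e]; exact hw'
  rw [e]
  exact hπ (Set.to_countable _).measurableSet

/-- The finite code of a point: bits and coordinates of the scenery. -/
def code (T : Prd Mc → Prd Mc) (W L : ℕ) (w : BB × Prd Mc) :
    (Fin L → Bool) × (∀ (_ : Fin L) (c : Fin W), Fin (Mc c)) :=
  (fun i => w.1 ((i : ℕ) : ℤ), fun i c => (T^[i] w.2) c)

theorem measurable_code {T : Prd Mc → Prd Mc} (hT : Measurable T) (W L : ℕ) :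
    Measurable (code T W L) := by
  refine Measurable.prodMk ?_ ?_
  · exact measurable_pi_lambda _ fun i => (measurable_pi_apply _).comp measurable_fst
  · refine measurable_pi_lambda _ fun i => measurable_pi_lambda _ fun c => ?_
    exact (measurable_pi_apply (c : ℕ)).comp ((hT.iterate i).comp measurable_snd)

theorem bitsL_of_code {T : Prd Mc → Prd Mc} {W L : ℕ} {w w' : BB × Prd Mc}
    (h : code T W L w = code T W L w') {n m : ℕ} (hm : n + m ≤ L) :
    bitsL w.1 n m = bitsL w'.1 n m := by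
  unfold bitsL
  refine List.map_congr_left fun i hi => ?_
  rw [List.mem_range] at hi
  have := congrFun (congrArg Prod.fst h) ⟨n + i, by omega⟩
  exact this

theorem scen_of_code {T : Prd Mc → Prd Mc} {W L : ℕ} {w w' : BB × Prd Mc}
    (h : code T W L w = code T W L w') {i c : ℕ} (hi : i < L) (hc : c < W) :
    (T^[i] w.2) c = (T^[i] w'.2) c :=
  congrFun (congrFun (congrArg Prod.snd h) ⟨i, hi⟩) ⟨c, hc⟩

section
variable {β : Type*} {W : ℕ} {ψ : List Bool → (ℕ → Prd Mc) → β}

theorem readL_of_code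
    (hψ : ∀ (bs : List Bool) (s s' : ℕ → Prd Mc), (∀ i < W, ∀ c < W, s i c = s' i c) →
        ψ bs s = ψ bs s')
    {T : Prd Mc → Prd Mc} {N : ℕ} {w w' : BB × Prd Mc}
    (h : code T W (N + W) w = code T W (N + W) w') (bs : List Bool) :
    readL W ψ N bs (fun i => T^[i] w.2) = readL W ψ N bs (fun i => T^[i] w'.2) :=
  readL_congr (R := fun u v => ∀ c < W, u c = v c) hψ bs
    (fun _ hi _ hc => scen_of_code h hi hc)

theorem prod_concentration
    (hψ : ∀ (bs : List Bool) (s s' : ℕ → Prd Mc), (∀ i < W, ∀ c < W, s i c = s' i c) →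
        ψ bs s = ψ bs s')
    {T : Prd Mc → Prd Mc} (hT : Measurable T) (N : ℕ) {F : List β → ℕ} (hF : SubLip F)
    {t : ℝ} (ht : 0 < t) :
    (muB.prod (nuM Mc)).real {w | t < |(F (readL W ψ N (bitsL w.1 0 (N + W))
        (fun i => T^[i] w.2)) : ℝ) - mF T W N ψ F w.2|} ≤ (N + W) * (2 * W + 8) ^ 2 / t ^ 2 := by
  set A := {w : BB × Prd Mc | t < |(F (readL W ψ N (bitsL w.1 0 (N + W))
        (fun i => T^[i] w.2)) : ℝ) - mF T W N ψ F w.2|} with hA
  have hmeas : MeasurableSet A := by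
    have h1 : Measurable fun w : BB × Prd Mc => (w ∈ A) := by
      refine measurable_of_code (measurable_code hT W (N + W)) fun w w' hw => ?_
      have e1 : bitsL w.1 0 (N + W) = bitsL w'.1 0 (N + W) := bitsL_of_code hw (by omega)
      have e2 : ∀ bs, readL W ψ N bs (fun i => T^[i] w.2) = readL W ψ N bs (fun i => T^[i] w'.2) :=
        readL_of_code hψ hw
      have e3 : mF T W N ψ F w.2 = mF T W N ψ F w'.2 := by
        unfold mF
        simp only [e2]
      show (t < |(F (readL W ψ N (bitsL w.1 0 (N + W))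
        (fun i => T^[i] w.2)) : ℝ) - mF T W N ψ F w.2|) = (t < |(F (readL W ψ N (bitsL w'.1 0 (N + W))
        (fun i => T^[i] w'.2)) : ℝ) - mF T W N ψ F w'.2|)
      rw [e1, e2, e3]
    exact measurableSet_setOfPred.2 h1
  have hb : 0 ≤ (N + W) * (2 * W + 8) ^ 2 / t ^ 2 := by positivity
  rw [Measure.real, Measure.prod_apply_symm hmeas]
  refine ENNReal.toReal_le_of_le_ofReal hb ?_
  calc ∫⁻ y, muB ((fun x => (x, y)) ⁻¹' A) ∂(nuM Mc)
      ≤ ∫⁻ _, ENNReal.ofReal ((N + W) * (2 * W + 8) ^ 2 / t ^ 2) ∂(nuM Mc) := by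
        refine lintegral_mono fun y => ?_
        have h2 := concentration T W N ψ hF y ht
        rw [Measure.real] at h2
        exact (ENNReal.le_ofReal_iff_toReal_le (measure_ne_top _ _) hb).2 h2
    _ = ENNReal.ofReal ((N + W) * (2 * W + 8) ^ 2 / t ^ 2) := by simp

theorem measurableSet_errors [Countable β] [MeasurableSpace β] [MeasurableSingletonClass β]
    (hψ : ∀ (bs : List Bool) (s s' : ℕ → Prd Mc), (∀ i < W, ∀ c < W, s i c = s' i c) →
        ψ bs s = ψ bs s')
    {T : Prd Mc → Prd Mc} (hT : Measurable T) {f : BB × Prd Mc → β} (hf : Measurable f) (n : ℕ) :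
    MeasurableSet {w : BB × Prd Mc | f w ≠
      ψ (bitsL w.1 n W) (fun i => T^[i] (((skew T)^[n] w).2))} := by
  have hg : Measurable fun w : BB × Prd Mc =>
      ψ (bitsL w.1 n W) (fun i => T^[i] (((skew T)^[n] w).2)) := by
    refine measurable_of_code (measurable_code hT W (n + W)) fun w w' hw => ?_
    have e1 : bitsL w.1 n W = bitsL w'.1 n W := bitsL_of_code hw le_rfl
    have e2 : bitsL w.1 0 n = bitsL w'.1 0 n := bitsL_of_code hw (by omega)
    simp only [e1]
    refine hψ _ _ _ fun i hi c hc => ?_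
    have hle : (bitsL w'.1 0 n).count true ≤ n := by
      refine List.count_le_length.trans ?_
      simp [bitsL]
    rw [skew_iter_snd, skew_iter_snd, e2, ← Function.iterate_add_apply,
      ← Function.iterate_add_apply]
    exact scen_of_code hw (by omega) hc
  have h1 : Measurable fun w : BB × Prd Mc => (f w ≠
      ψ (bitsL w.1 n W) (fun i => T^[i] (((skew T)^[n] w).2))) := by
    refine measurable_of_code (hf.prodMk hg) fun w w' hw => ?_
    have e1 := congrArg Prod.fst hw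
    have e2 := congrArg Prod.snd hw
    simp only at e1 e2
    simp only [e1, e2]
  exact measurableSet_setOfPred.2 h1

end

open Classical in
/-- Markov for the number of events that happen. -/
theorem markov {Ω : Type*} [MeasurableSpace Ω] {μ : Measure Ω} [IsProbabilityMeasure μ]
    {A : ℕ → Set Ω} (hA : ∀ n, MeasurableSet (A n)) {η δ : ℝ} (hδ : 0 < δ)
    (h : ∀ n, μ.real (A n) ≤ η) {N : ℕ} (hN : 0 < N) :
    μ.real {w | δ * N ≤ (((Finset.range N).filter (fun n => w ∈ A n)).card : ℝ)} ≤ η / δ := by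
  have e : ∀ w, (((Finset.range N).filter (fun n => w ∈ A n)).card : ℝ) =
      ∑ n ∈ Finset.range N, (A n).indicator (fun _ => (1 : ℝ)) w := by
    intro w
    rw [Finset.card_filter]
    push_cast
    refine Finset.sum_congr rfl fun n _ => ?_
    by_cases hw : w ∈ A n <;> simp [hw]
  have hint : ∀ n, Integrable ((A n).indicator (fun _ => (1 : ℝ))) μ := fun n =>
    (integrable_const 1).indicator (hA n)
  have h1 := mul_meas_ge_le_integral_of_nonneg (μ := μ)
    (f := fun w => ∑ n ∈ Finset.range N, (A n).indicator (fun _ => (1 : ℝ)) w)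
    (Eventually.of_forall fun w => Finset.sum_nonneg fun n _ =>
      Set.indicator_nonneg (fun _ _ => zero_le_one) w)
    (integrable_finsetSum _ fun n _ => hint n) (δ * N)
  rw [integral_finsetSum _ fun n _ => hint n] at h1
  have h2 : ∑ n ∈ Finset.range N, ∫ w, (A n).indicator (fun _ => (1 : ℝ)) w ∂μ ≤ N * η := by
    calc ∑ n ∈ Finset.range N, ∫ w, (A n).indicator (fun _ => (1 : ℝ)) w ∂μ
        ≤ ∑ n ∈ Finset.range N, η := by
          refine Finset.sum_le_sum fun n _ => ?_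
          rw [integral_indicator_const _ (hA n)]
          simpa using h n
      _ = N * η := by simp
  simp only [e]
  have hN' : (0 : ℝ) < N := by exact_mod_cast hN
  have h3 := h1.trans h2
  rw [le_div_iff₀ hδ]
  have : N * (μ.real {w | δ * N ≤ ∑ n ∈ Finset.range N, (A n).indicator (fun _ => (1 : ℝ)) w} * δ)
      ≤ N * η := by
    calc _ = δ * N * μ.real {w | δ * N ≤
            ∑ n ∈ Finset.range N, (A n).indicator (fun _ => (1 : ℝ)) w} := by ring
      _ ≤ _ := h3
  exact le_of_mul_le_mul_left this hN'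

/-- the functional of the symbol `j` -/
noncomputable def Fj (a' : ℕ → ℕ) (k j : ℕ) (Z : List (Bool × Fin (Mc 0))) : ℕ :=
  lcs (collapse (Z.map (fun z => (z.1, (z.2 : ℕ) % qc 0)))) (word a' (k + 1) j)

theorem subLip_Fj (a' : ℕ → ℕ) (k j : ℕ) : SubLip (Fj a' k j) := by
  intro X Y h
  unfold Fj
  have := subLip_lcs (word a' (k + 1) j) _ _ (h.map (fun z => (z.1, (z.2 : ℕ) % qc 0)))
  simpa only [List.length_map] using this

/-- Values of the functional on the true name. -/
theorem values (a' : ℕ → ℕ) {k N : ℕ} (ha : Lc k ≤ a' k) (hN : hc (k + 1) = 8 * N)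
    (v : BB × Prd Mc) (Q : List (Bool × Fin (Mc 0)))
    (hQ : Q.map (fun z => (z.1, (z.2 : ℕ) % qc 0)) = nameL (adic a').fwd N v)
    (hpos : (adic a').pos (k + 1) v.2 + N ≤ hc (k + 1))
    (hcount : N ≤ 4 * (bitsL v.1 0 N).count true) :
    ((N : ℝ) / 4 ≤ Fj a' k (((v.2 (k + 1) : Fin (Mc (k + 1))) : ℕ) % qc (k + 1)) Q) ∧
    ∀ j < qc (k + 1), j ≠ ((v.2 (k + 1) : Fin (Mc (k + 1))) : ℕ) % qc (k + 1) →
      (Fj a' k j Q : ℝ) ≤ N / 8 := by
  constructor
  · unfold Fj
    rw [hQ, name_own a' v hpos]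
    have : (N : ℝ) ≤ 4 * ((bitsL v.1 0 N).count true : ℝ) := by exact_mod_cast hcount
    linarith
  · intro j hj hne
    have h1 := name_other a' (k := k) (N := N) ha (by omega) v hpos hj hne
    unfold Fj
    rw [hQ]
    rw [hN] at h1
    have : (64 : ℝ) * (lcs (collapse (nameL (adic a').fwd N v)) (word a' (k + 1) j) : ℝ) ≤ 8 * N := by
      exact_mod_cast h1
    linarith

/-- the level `k + 1` symbol -/
def js (k : ℕ) (y : Prd Mc) : ℕ := ((y (k + 1) : Fin (Mc (k + 1))) : ℕ) % qc (k + 1)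

theorem js_lt (k : ℕ) (y : Prd Mc) : js k y < qc (k + 1) := Nat.mod_lt _ (qc_pos _)

/-- The code of the place determines the symbol. -/
theorem symbol_determined (a a' : ℕ → ℕ) {k W N ℓ : ℕ} (ha : a k = 0) (hW : W ≤ k)
    {ψ : List Bool → (ℕ → Prd Mc) → Bool × Fin (Mc 0)}
    (hψ : ∀ (bs : List Bool) (s s' : ℕ → Prd Mc), (∀ i < W, ∀ c < W, s i c = s' i c) →
      ψ bs s = ψ bs s')
    (hℓ : 0 < ℓ) (hℓN : 100 * ℓ ≤ N) {y y' : Prd Mc}
    (hp : (adic a).pos (k + 1) y + N + W < hc (k + 1))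
    (hp' : (adic a).pos (k + 1) y' + N + W < hc (k + 1))
    (hcl : js k y / rc (k + 1) = js k y' / rc (k + 1))
    (hpos : (adic a).pos (k + 1) y / ℓ = (adic a).pos (k + 1) y' / ℓ)
    {j j' : ℕ} (hj' : j' < qc (k + 1)) (hj : j < qc (k + 1))
    (h1 : ((N : ℝ) / 4 - N / 50 ≤ mF (adic a).fwd W N ψ (Fj a' k j) y))
    (h1' : ∀ i < qc (k + 1), i ≠ j → mF (adic a).fwd W N ψ (Fj a' k i) y ≤ N / 8 + N / 50)
    (h2 : ((N : ℝ) / 4 - N / 50 ≤ mF (adic a).fwd W N ψ (Fj a' k j') y'))
    (h2' : ∀ i < qc (k + 1), i ≠ j' → mF (adic a).fwd W N ψ (Fj a' k i) y' ≤ N / 8 + N / 50) :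
    j = j' := by
  by_contra hne
  have hℓ' : (0 : ℝ) < ℓ := by exact_mod_cast hℓ
  have hN' : (100 : ℝ) * ℓ ≤ N := by exact_mod_cast hℓN
  rcases le_total ((adic a).pos (k + 1) y) ((adic a).pos (k + 1) y') with hle | hle
  · have h3 := mF_low a ha hW hψ (subLip_Fj a' k j) (y := y) (y' := y') hcl hle hp'
    have h4 : ((adic a).pos (k + 1) y' : ℝ) - (adic a).pos (k + 1) y ≤ ℓ := by
      have := Nat.div_add_mod ((adic a).pos (k + 1) y) ℓ
      have := Nat.div_add_mod ((adic a).pos (k + 1) y') ℓ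
      have := Nat.mod_lt ((adic a).pos (k + 1) y') hℓ
      rw [hpos] at *
      have h5 : (adic a).pos (k + 1) y' ≤ (adic a).pos (k + 1) y + ℓ := by omega
      have : ((adic a).pos (k + 1) y' : ℝ) ≤ (adic a).pos (k + 1) y + ℓ := by exact_mod_cast h5
      linarith
    have h5 := h2' j hj hne
    rw [abs_le] at h3
    linarith [h3.2]
  · have h3 := mF_low a ha hW hψ (subLip_Fj a' k j') (y := y') (y' := y) hcl.symm hle hp
    have h4 : ((adic a).pos (k + 1) y : ℝ) - (adic a).pos (k + 1) y' ≤ ℓ := by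
      have := Nat.div_add_mod ((adic a).pos (k + 1) y) ℓ
      have := Nat.div_add_mod ((adic a).pos (k + 1) y') ℓ
      have := Nat.mod_lt ((adic a).pos (k + 1) y) hℓ
      rw [hpos] at *
      have h5 : (adic a).pos (k + 1) y ≤ (adic a).pos (k + 1) y' + ℓ := by omega
      have : ((adic a).pos (k + 1) y : ℝ) ≤ (adic a).pos (k + 1) y' + ℓ := by exact_mod_cast h5
      linarith
    have h5 := h1' j' hj' (Ne.symm hne)
    rw [abs_le] at h3
    linarith [h3.2]

open Classical in
/-- Counting: a set on which the symbol is a function of a code with few values is small. -/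
theorem count_bound {Ω : Type*} [MeasurableSpace Ω] {μ : Measure Ω} [IsProbabilityMeasure μ]
    {J : Ω → ℕ} {q : ℝ} (hlaw : ∀ S : Finset ℕ, μ.real {w | J w ∈ S} ≤ S.card / q)
    (hq : 0 < q) {G : Set Ω} {δ : Type*} [DecidableEq δ] (κ : Ω → δ) (K : Finset δ)
    (hκ : ∀ w ∈ G, κ w ∈ K) (hdet : ∀ w ∈ G, ∀ w' ∈ G, κ w = κ w' → J w = J w') :
    μ.real G ≤ K.card / q := by
  let j : δ → ℕ := fun d => if h : ∃ w ∈ G, κ w = d then J h.choose else 0
  have h1 : G ⊆ {w | J w ∈ K.image j} := by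
    intro w hw
    have hex : ∃ w' ∈ G, κ w' = κ w := ⟨w, hw, rfl⟩
    refine Finset.mem_image.2 ⟨κ w, hκ w hw, ?_⟩
    simp only [j, dif_pos hex]
    exact hdet _ hex.choose_spec.1 _ hw hex.choose_spec.2
  calc μ.real G ≤ μ.real {w | J w ∈ K.image j} := measureReal_mono h1
    _ ≤ (K.image j).card / q := hlaw _
    _ ≤ K.card / q := by
      gcongr
      exact Finset.card_image_le

/-- numbers -/
theorem numerics {W k N : ℕ} (hk : 2560000 * (2 * W + 8) ^ 2 ≤ k)
    (hN : hc (k + 1) = 8 * N) :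
    (qc (k + 1) : ℝ) * ((N + W) * (2 * W + 8) ^ 2 / ((N : ℝ) / 100) ^ 2) ≤ 1 / 16 ∧
    (4 : ℝ) / N ≤ 1 / 16 ∧ (((N + W : ℕ) : ℝ)) / hc (k + 1) ≤ 1 / 8 + 1 / 64 ∧
    (N : ℝ) / hc (k + 1) ≤ 1 / 8 ∧ 100 ≤ N ∧ 0 < N ∧ 12 ≤ k ∧ W ≤ k := by
  have h1 : k < 2 ^ k := Nat.lt_two_pow_self
  have h2 := hc_large k
  have hq := qc_pos (k + 1)
  have hW : 2560000 * (2 * W + 8) ≤ k := by
    refine le_trans ?_ hk
    nlinarith
  have h8 : 8 ≤ qc (k + 1) := by
    unfold qc pc rc
    have : 8 ≤ 2 ^ (k + 1 + 12) := by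
      calc 8 = 2 ^ 3 := by norm_num
        _ ≤ 2 ^ (k + 1 + 12) := Nat.pow_le_pow_right (by norm_num) (by omega)
    have h' : 1 ≤ 2 ^ (k + 1) := Nat.one_le_two_pow
    nlinarith
  have hNk : 2 ^ k ≤ N := by
    have : 2 ^ k * 8 ≤ 2 ^ k * qc (k + 1) := Nat.mul_le_mul_left _ h8
    omega
  have hN0 : 0 < N := by omega
  have hNr : (0 : ℝ) < N := by exact_mod_cast hN0
  have hWN : 64 * (N + W) ≤ 64 * N + N := by omega
  refine ⟨?_, ?_, ?_, ?_, by omega, hN0, by omega, by omega⟩
  · have h3 : (qc (k + 1) : ℝ) * 2 ^ k ≤ 8 * N := by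
      rw [hN] at h2
      have : ((2 ^ k * qc (k + 1) : ℕ) : ℝ) ≤ ((8 * N : ℕ) : ℝ) := by exact_mod_cast h2
      push_cast at this
      linarith
    have h4 : (2560000 * (2 * W + 8) ^ 2 : ℝ) ≤ 2 ^ k := by
      have : 2560000 * (2 * W + 8) ^ 2 ≤ 2 ^ k := hk.trans h1.le
      exact_mod_cast this
    have h5 : ((N : ℝ) + W) ≤ 2 * N := by
      have : W ≤ N := by omega
      have : (W : ℝ) ≤ N := by exact_mod_cast this
      linarith
    have e : (qc (k + 1) : ℝ) * ((N + W) * (2 * W + 8) ^ 2 / ((N : ℝ) / 100) ^ 2) =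
        (10000 * (2 * W + 8) ^ 2 * qc (k + 1)) * (N + W) / (N * N) := by
      field_simp
      ring
    rw [e, div_le_iff₀ (by positivity)]
    have h6 : (0 : ℝ) ≤ 10000 * (2 * W + 8) ^ 2 * qc (k + 1) := by positivity
    calc (10000 * (2 * (W : ℝ) + 8) ^ 2 * qc (k + 1)) * (N + W)
        ≤ (10000 * (2 * (W : ℝ) + 8) ^ 2 * qc (k + 1)) * (2 * N) := by gcongr
      _ = (2560000 * (2 * (W : ℝ) + 8) ^ 2) * (qc (k + 1) : ℝ) * (N : ℝ) / 128 := by ring
      _ ≤ 2 ^ k * (qc (k + 1) : ℝ) * (N : ℝ) / 128 := by gcongr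
      _ = ((qc (k + 1) : ℝ) * 2 ^ k) * (N : ℝ) / 128 := by ring
      _ ≤ (8 * (N : ℝ)) * (N : ℝ) / 128 := by gcongr
      _ ≤ 1 / 16 * ((N : ℝ) * N) := by linarith
  · rw [div_le_iff₀ hNr]
    have : 64 ≤ N := by omega
    have : (64 : ℝ) ≤ N := by exact_mod_cast this
    linarith
  · rw [hN, div_le_iff₀ (by push_cast; positivity)]
    have : ((64 * (N + W) : ℕ) : ℝ) ≤ ((64 * N + N : ℕ) : ℝ) := by exact_mod_cast hWN
    push_cast at this ⊢
    linarith
  · rw [hN, div_le_iff₀ (by push_cast; positivity)]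
    push_cast
    linarith

theorem last_bound {k : ℕ} (hk12 : 12 ≤ k) :
    ((pc (k + 1) * 1601 : ℕ) : ℝ) / qc (k + 1) ≤ 1 / 4 := by
  have hq0 : (0 : ℝ) < qc (k + 1) := by exact_mod_cast qc_pos (k + 1)
  rw [div_le_iff₀ hq0]
  have h1 : 4 * (pc (k + 1) * 1601) ≤ qc (k + 1) := by
    have h2 : 4 * 1601 ≤ rc (k + 1) := by
      unfold rc
      calc 4 * 1601 ≤ 2 ^ 13 := by norm_num
        _ ≤ 2 ^ (k + 1) := Nat.pow_le_pow_right (by norm_num) (by omega)
    unfold qc
    nlinarith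
  have : ((4 * (pc (k + 1) * 1601) : ℕ) : ℝ) ≤ qc (k + 1) := by exact_mod_cast h1
  push_cast at this ⊢
  linarith

/-- a measure preserving map does not decrease the (outer) measure of sets -/
theorem preimage_le {Ω Ω' : Type*} [MeasurableSpace Ω] [MeasurableSpace Ω'] {μ : Measure Ω}
    {μ' : Measure Ω'} [IsFiniteMeasure μ'] {v : Ω → Ω'} (hv : MeasurePreserving v μ μ')
    (B : Set Ω') : μ.real (v ⁻¹' B) ≤ μ'.real B := by
  have h1 := Measure.le_map_apply hv.measurable.aemeasurable B (μ := μ)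
  rw [hv.map_eq] at h1
  exact ENNReal.toReal_mono (measure_ne_top _ _) h1

theorem snd_le (B : Set (Prd Mc)) :
    (muB.prod (nuM Mc)).real {w | w.2 ∈ B} ≤ (nuM Mc).real B :=
  preimage_le measurePreserving_snd B

theorem fst_le (B : Set BB) :
    (muB.prod (nuM Mc)).real {w | w.1 ∈ B} ≤ muB.real B :=
  preimage_le measurePreserving_fst B

end B6

open B6 in
open Classical in
theorem not_factor (a a' : ℕ → ℕ) (h : ∀ n, ∃ k ≥ n, a k = 0 ∧ Lc k ≤ a' k)
    (Φ : BB × Prd Mc → BB × Prd Mc)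
    (hΦ : MeasurePreserving Φ (muB.prod (nuM Mc)) (muB.prod (nuM Mc)))
    (hfac : ∀ᵐ w ∂(muB.prod (nuM Mc)), Φ (skew (adic a).fwd w) = skew (adic a').fwd (Φ w)) :
    False := by
  set μ := muB.prod (nuM Mc) with hμ
  set T := (adic a).fwd with hTdef
  set T' := (adic a').fwd with hT'def
  have hT : MeasurePreserving T (nuM Mc) (nuM Mc) := (adic a).mp_fwd two_le_Mc
  have hK : MeasurePreserving (skew T) μ μ := mp_skew hT
  -- the letter
  let q : BB × Prd Mc → Bool × Fin (Mc 0) := fun w => ((Φ w).1 0, (Φ w).2 0)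
  have hq : Measurable q := by
    refine Measurable.prodMk ?_ ?_
    · exact (measurable_pi_apply 0).comp (measurable_fst.comp hΦ.measurable)
    · exact (measurable_pi_apply 0).comp (measurable_snd.comp hΦ.measurable)
  obtain ⟨m, W, ψ, hψ, herr⟩ := code_stream two_le_Mc (adic a) q hq (η := 1 / 1600) (by norm_num)
  obtain ⟨k, hk, hak, hak'⟩ := h (2560000 * (2 * W + 8) ^ 2)
  obtain ⟨N, hN⟩ := eight_dvd_hc k
  obtain ⟨n1, n2, n3, n4, hN100, hN0, hk12, hWk⟩ := numerics hk hN
  have hNr : (0 : ℝ) < N := by exact_mod_cast hN0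
  -- the orbit of the factor map
  have hΦall : ∀ᵐ w ∂μ, ∀ n : ℕ, Φ ((skew T)^[n] w) = (skew T')^[n] (Φ w) := by
    have h1 : ∀ᵐ w ∂μ, ∀ n : ℕ, Φ (skew T ((skew T)^[n] w)) = skew T' (Φ ((skew T)^[n] w)) := by
      rw [ae_all_iff]
      intro n
      exact (hK.iterate n).quasiMeasurePreserving.ae hfac
    filter_upwards [h1] with w hw
    intro n
    induction n with
    | zero => rfl
    | succ n ih => rw [Function.iterate_succ_apply', Function.iterate_succ_apply', hw n, ih]
  -- the notation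
  let v : BB × Prd Mc → BB × Prd Mc := fun w => Φ ((skew T)^[m] w)
  have hv : MeasurePreserving v μ μ := hΦ.comp (hK.iterate m)
  let Q : BB × Prd Mc → List (Bool × Fin (Mc 0)) := fun w =>
    (List.range N).map (fun n => q ((skew T)^[m + n] w))
  let Z : BB × Prd Mc → List (Bool × Fin (Mc 0)) := fun w =>
    (List.range N).map (fun n => ψ (bitsL w.1 n W) (fun i => T^[i] (((skew T)^[n] w).2)))
  have hZ : ∀ w, readL W ψ N (bitsL w.1 0 (N + W)) (fun i => T^[i] w.2) = Z w :=
    fun w => readL_stream T W N ψ w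
  obtain ⟨A, hAdef⟩ : ∃ A : ℕ → Set (BB × Prd Mc), ∀ n, A n = {w | q ((skew T)^[m + n] w) ≠
    ψ (bitsL w.1 n W) (fun i => T^[i] (((skew T)^[n] w).2))} := ⟨_, fun _ => rfl⟩
  have hA : ∀ n, MeasurableSet (A n) := fun n => by
    rw [hAdef n]
    exact measurableSet_errors hψ hT.measurable (hq.comp (hK.measurable.iterate (m + n))) n
  have hAerr : ∀ n, μ.real (A n) ≤ 1 / 1600 := fun n => by
    rw [hAdef n]; exact herr n
  -- the bad sets
  set B1 : Set (BB × Prd Mc) := {w | ¬ ∀ n : ℕ, Φ ((skew T)^[n] w) = (skew T')^[n] (Φ w)} with hB1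
  set B2 : Set (BB × Prd Mc) :=
    {w | 1 / 100 * (N : ℝ) ≤ (((Finset.range N).filter (fun n => w ∈ A n)).card : ℝ)} with hB2
  set B3 : Set (BB × Prd Mc) := ⋃ j ∈ Finset.range (qc (k + 1)),
    {w | (N : ℝ) / 100 < |(Fj a' k j (readL W ψ N (bitsL w.1 0 (N + W))
        (fun i => T^[i] w.2)) : ℝ) - mF T W N ψ (Fj a' k j) w.2|} with hB3
  set B4 : Set (BB × Prd Mc) := v ⁻¹' {w | w.2 ∈ {y | hc (k + 1) ≤ (adic a').pos (k + 1) y + N}}
    with hB4
  set B5 : Set (BB × Prd Mc) := v ⁻¹' {w | w.1 ∈ {ξ | 4 * (bitsL ξ 0 N).count true < N}} with hB5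
  set B6 : Set (BB × Prd Mc) := {w | w.2 ∈ {y | hc (k + 1) ≤ (adic a).pos (k + 1) y + (N + W)}}
    with hB6
  have b1 : μ.real B1 = 0 := by
    have : μ B1 = 0 := hΦall
    rw [Measure.real, this, ENNReal.toReal_zero]
  have b2 : μ.real B2 ≤ 1 / 16 := by
    have := markov (μ := μ) hA (η := 1 / 1600) (δ := 1 / 100) (by norm_num) hAerr hN0
    refine this.trans ?_
    norm_num
  have b3 : μ.real B3 ≤ 1 / 16 := by
    refine (measureReal_biUnion_finset_le _ _).trans ?_
    refine le_trans (Finset.sum_le_card_nsmul _ _ _ fun j _ =>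
      prod_concentration hψ hT.measurable N (subLip_Fj a' k j) (t := (N : ℝ) / 100)
        (by positivity)) ?_
    rw [Finset.card_range, nsmul_eq_mul]
    exact n1
  have b4 : μ.real B4 ≤ 1 / 8 :=
    (preimage_le hv _).trans ((snd_le _).trans ((law_pos a' (k + 1) N).trans n4))
  have b5 : μ.real B5 ≤ 1 / 16 :=
    (preimage_le hv _).trans ((fst_le _).trans ((count_ge N hN0).trans n2))
  have b6 : μ.real B6 ≤ 1 / 8 + 1 / 64 :=
    (snd_le _).trans ((law_pos a (k + 1) (N + W)).trans n3)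
  set G : Set (BB × Prd Mc) := (B1 ∪ B2 ∪ B3 ∪ B4 ∪ B5 ∪ B6)ᶜ with hG
  have hGlow : 1 / 4 < μ.real G := by
    have h1 : (1 : ℝ) ≤ μ.real (B1 ∪ B2 ∪ B3 ∪ B4 ∪ B5 ∪ B6) + μ.real G := by
      have := measureReal_union_le (μ := μ) (B1 ∪ B2 ∪ B3 ∪ B4 ∪ B5 ∪ B6) G
      rw [hG, union_compl_self, probReal_univ] at this
      exact this
    have h2 := measureReal_union_le (μ := μ) (B1 ∪ B2 ∪ B3 ∪ B4 ∪ B5) B6
    have h3 := measureReal_union_le (μ := μ) (B1 ∪ B2 ∪ B3 ∪ B4) B5
    have h4 := measureReal_union_le (μ := μ) (B1 ∪ B2 ∪ B3) B4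
    have h5 := measureReal_union_le (μ := μ) (B1 ∪ B2) B3
    have h6 := measureReal_union_le (μ := μ) B1 B2
    linarith
  -- the values on the good set
  have key : ∀ w ∈ G, ((N : ℝ) / 4 - N / 50 ≤ mF T W N ψ (Fj a' k (js k (v w).2)) w.2) ∧
      (∀ i < qc (k + 1), i ≠ js k (v w).2 → mF T W N ψ (Fj a' k i) w.2 ≤ N / 8 + N / 50) ∧
      (adic a).pos (k + 1) w.2 + N + W < hc (k + 1) := by
    intro w hw
    simp only [hG, mem_compl_iff, mem_union, not_or] at hw
    obtain ⟨⟨⟨⟨⟨g1, g2⟩, g3⟩, g4⟩, g5⟩, g6⟩ := hw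
    simp only [hB1, mem_ofPred_eq, not_not] at g1
    simp only [hB2, mem_ofPred_eq, not_le] at g2
    simp only [hB3, mem_iUnion, mem_ofPred_eq, not_exists, not_lt, Finset.mem_range] at g3
    simp only [hB4, mem_preimage, mem_ofPred_eq, not_le] at g4
    simp only [hB5, mem_preimage, mem_ofPred_eq, not_lt] at g5
    simp only [hB6, mem_ofPred_eq, not_le] at g6
    have hQ : (Q w).map (fun z => (z.1, (z.2 : ℕ) % qc 0)) = nameL T' N (v w) := by
      simp only [Q, nameL, List.map_map]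
      refine List.map_congr_left fun n _ => ?_
      have e1 : Φ ((skew T)^[m + n] w) = (skew T')^[n] (v w) := by
        show Φ ((skew T)^[m + n] w) = (skew T')^[n] (Φ ((skew T)^[m] w))
        rw [g1 (m + n), g1 m, add_comm m n, Function.iterate_add_apply]
      simp only [Function.comp, q, e1]
    obtain ⟨v1, v2⟩ := values a' hak' hN (v w) (Q w) hQ g4.le g5
    have hZQ : ∀ j, |(Fj a' k j (Z w) : ℝ) - Fj a' k j (Q w)| ≤ N / 100 := by
      intro j
      have e1 := (subLip_Fj a' k j).errors N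
        (fun n => ψ (bitsL w.1 n W) (fun i => T^[i] (((skew T)^[n] w).2)))
        (fun n => q ((skew T)^[m + n] w))
      have e2 := (subLip_Fj a' k j).errors N (fun n => q ((skew T)^[m + n] w))
        (fun n => ψ (bitsL w.1 n W) (fun i => T^[i] (((skew T)^[n] w).2)))
      have c1 : (Finset.range N).filter (fun n =>
          ψ (bitsL w.1 n W) (fun i => T^[i] (((skew T)^[n] w).2)) ≠ q ((skew T)^[m + n] w)) =
          (Finset.range N).filter (fun n => w ∈ A n) := by
        ext n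
        simp only [Finset.mem_filter, hAdef, mem_ofPred_eq]
        exact and_congr_right fun _ => ne_comm
      have c2 : (Finset.range N).filter (fun n =>
          q ((skew T)^[m + n] w) ≠ ψ (bitsL w.1 n W) (fun i => T^[i] (((skew T)^[n] w).2))) =
          (Finset.range N).filter (fun n => w ∈ A n) := by
        ext n
        simp only [Finset.mem_filter, hAdef, mem_ofPred_eq]
      rw [c1] at e1
      rw [c2] at e2
      have f1 : (Fj a' k j (Z w) : ℝ) ≤ Fj a' k j (Q w) +
          ((Finset.range N).filter (fun n => w ∈ A n)).card := by exact_mod_cast e1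
      have f2 : (Fj a' k j (Q w) : ℝ) ≤ Fj a' k j (Z w) +
          ((Finset.range N).filter (fun n => w ∈ A n)).card := by exact_mod_cast e2
      rw [abs_le]
      constructor <;> linarith
    have hmF : ∀ j < qc (k + 1), |(Fj a' k j (Z w) : ℝ) - mF T W N ψ (Fj a' k j) w.2| ≤ N / 100 := by
      intro j hj
      have := g3 j hj
      rw [hZ w] at this
      exact this
    refine ⟨?_, ?_, by omega⟩
    · have e1 := abs_le.1 (hZQ (js k (v w).2))
      have e2 := abs_le.1 (hmF (js k (v w).2) (js_lt k _))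
      have v1' : (N : ℝ) / 4 ≤ Fj a' k (js k (v w).2) (Q w) := v1
      linarith [e1.1, e1.2, e2.1, e2.2]
    · intro i hi hne
      have e1 := abs_le.1 (hZQ i)
      have e2 := abs_le.1 (hmF i hi)
      have v2' := v2 i hi hne
      linarith [e1.1, e1.2, e2.1, e2.2]
  -- counting
  obtain ⟨c1, hc1⟩ : ∃ c : ℕ, c = 1601 := ⟨_, rfl⟩
  have hcnt : μ.real G ≤ ((Finset.range (pc (k + 1)) ×ˢ Finset.range c1).card : ℝ) / qc (k + 1) := by
    refine count_bound (J := fun w => js k (v w).2) (fun S => ?_)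
      (by exact_mod_cast qc_pos (k + 1))
      (fun w => (js k w.2 / rc (k + 1), (adic a).pos (k + 1) w.2 / (N / 100)))
      (Finset.range (pc (k + 1)) ×ˢ Finset.range c1) ?_ ?_
    · exact (preimage_le hv {x | js k x.2 ∈ S}).trans
        ((snd_le {y | js k y ∈ S}).trans (law_sym (k + 1) S))
    · intro w hw
      have h3 := (key w hw).2.2
      rw [Finset.mem_product, Finset.mem_range, Finset.mem_range]
      refine ⟨?_, ?_⟩
      · refine Nat.div_lt_of_lt_mul ?_
        have := js_lt k w.2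
        unfold qc at this
        rwa [mul_comm] at this
      · refine Nat.div_lt_of_lt_mul ?_
        have h4 : N / 100 * c1 = N / 100 * 1601 := by rw [hc1]
        rw [h4]
        omega
    · intro w hw w' hw' he
      exact symbol_determined a a' hak hWk hψ (ℓ := N / 100) (by omega) (by omega)
        (key w hw).2.2 (key w' hw').2.2 (congrArg Prod.fst he) (congrArg Prod.snd he)
        (js_lt k _) (js_lt k _) (key w hw).1 (key w hw).2.1 (key w' hw').1 (key w' hw').2.1
  rw [Finset.card_product, Finset.card_range, Finset.card_range] at hcnt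
  have hlast := last_bound hk12
  rw [← hc1] at hlast
  linarith

end Pool.Agent.KAut
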