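import Pool.Agent.Work.MP_2cfc43_lc.C1
import Pool.Agent.Work.MP_2cfc43_lc.C2

/-! MP_2cfc43_lc, module C3: the adic transformation is ergodic. -/

namespace Pool.Agent.KAut

open MeasureTheory Set Filter Topology
open scoped ENNReal

section generic

variable {M : ℕ → ℕ} [∀ k, NeZero (M k)]

omit [∀ k, NeZero (M k)] in
/-- the position only depends on the first coordinates -/
theorem C3_pos_congr (D : Adic M) {K : ℕ} {y y' : Prd M} (h : ∀ k ≤ K, y k = y' k) :
    D.pos K y = D.pos K y' := by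
  unfold Adic.pos
  refine Finset.sum_congr rfl fun k hk => ?_
  have hk' := Finset.mem_range.1 hk
  rw [h k hk'.le, h (k + 1) hk']

omit [∀ k, NeZero (M k)] in
theorem C3_meas_coord (K : ℕ) (x : Fin (M K)) : MeasurableSet {y : Prd M | y K = x} :=
  (measurable_pi_apply (X := fun k => Fin (M k)) K) (measurableSet_singleton x)

theorem C3_meas_pos (D : Adic M) (K n : ℕ) : MeasurableSet {y : Prd M | D.pos K y = n} :=
  (D.measurable_pos K) (measurableSet_singleton n)

/-- an invariant set meets all levels of a tower in sets of the same measure -/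
theorem C3_level (D : Adic M) (hM2 : ∀ k, 2 ≤ M k) {s : Set (Prd M)} (hs : MeasurableSet s)
    (hinv : D.fwd ⁻¹' s = s) (K : ℕ) (x : Fin (M K)) {n : ℕ} (hn : n < hM M K) :
    nuM M (s ∩ ({y | D.pos K y = n} ∩ {y | y K = x})) =
      nuM M (s ∩ ({y | D.pos K y = 0} ∩ {y | y K = x})) := by
  have h0 : 0 < hM M K := lt_of_le_of_lt (Nat.zero_le n) hn
  have hmp : MeasurePreserving (D.fwd^[n]) (nuM M) (nuM M) := (D.mp_fwd hM2).iterate n
  have hinv' : D.fwd^[n] ⁻¹' s = s := by
    clear hn
    induction n with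
    | zero => rfl
    | succ n ih => rw [Function.iterate_succ, preimage_comp, ih ((D.mp_fwd hM2).iterate n), hinv]
  have hS := C3_meas_coord (M := M) K x
  have hdep : ∀ y y' : Prd M, (∀ k, K ≤ k → y k = y' k) →
      (y ∈ {y : Prd M | y K = x} ↔ y' ∈ {y : Prd M | y K = x}) := by
    intro y y' h
    exact Eq.congr_left (h K le_rfl)
  have hE : MeasurableSet ({y : Prd M | D.pos K y = n} ∩ {y | y K = x}) :=
    (C3_meas_pos D K n).inter hS
  have hsub : ({y : Prd M | D.pos K y = 0} ∩ {y | y K = x}) ⊆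
      D.fwd^[n] ⁻¹' ({y : Prd M | D.pos K y = n} ∩ {y | y K = x}) := by
    rintro y ⟨h1, h2⟩
    have h1' : D.pos K y = 0 := h1
    have h3 := D.iter_tower (K := K) (n := n) (y := y) (by rw [h1', zero_add]; exact hn)
    refine ⟨?_, ?_⟩
    · show D.pos K (D.fwd^[n] y) = n
      rw [h3.1, h1', zero_add]
    · show D.fwd^[n] y K = x
      rw [h3.2 K le_rfl]
      exact h2
  have hm : nuM M (D.fwd^[n] ⁻¹' ({y : Prd M | D.pos K y = n} ∩ {y | y K = x})) =
      nuM M ({y : Prd M | D.pos K y = 0} ∩ {y | y K = x}) := by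
    rw [hmp.measure_preimage hE.nullMeasurableSet, D.pos_indep hn hS hdep,
      D.pos_indep h0 hS hdep]
  have hae : ({y : Prd M | D.pos K y = 0} ∩ {y | y K = x} : Set (Prd M)) =ᵐ[nuM M]
      (D.fwd^[n] ⁻¹' ({y : Prd M | D.pos K y = n} ∩ {y | y K = x}) : Set (Prd M)) :=
    ae_eq_of_subset_of_measure_ge hsub hm.le ((C3_meas_pos D K 0).inter hS).nullMeasurableSet
      (measure_ne_top _ _)
  calc nuM M (s ∩ ({y | D.pos K y = n} ∩ {y | y K = x}))
      = nuM M (D.fwd^[n] ⁻¹' (s ∩ ({y | D.pos K y = n} ∩ {y | y K = x}))) :=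
        (hmp.measure_preimage (hs.inter hE).nullMeasurableSet).symm
    _ = nuM M (s ∩ D.fwd^[n] ⁻¹' ({y | D.pos K y = n} ∩ {y | y K = x})) := by
        rw [preimage_inter, hinv']
    _ = nuM M (s ∩ ({y | D.pos K y = 0} ∩ {y | y K = x})) :=
        measure_congr ((ae_eq_refl _).inter hae.symm)

/-- the points of a cylinder with a given next coordinate are a level of the tower -/
theorem C3_cyl (D : Adic M) (K : ℕ) (c : Prd M) :
    ({y : Prd M | y ∈ PiNat.cylinder c K} ∩ {y | y K = c K} : Set (Prd M)) =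
      {y | D.pos K y = D.pos K c} ∩ {y | y K = c K} := by
  ext y
  constructor
  · rintro ⟨h1, h2⟩
    refine ⟨?_, h2⟩
    refine C3_pos_congr D fun k hk => ?_
    rcases hk.lt_or_eq with h | h
    · exact (PiNat.mem_cylinder_iff.1 h1) k h
    · rw [h]; exact h2
  · rintro ⟨h1, h2⟩
    refine ⟨PiNat.mem_cylinder_iff.2 fun k hk => ?_, h2⟩
    have h2' : y K = c K := h2
    exact D.pos_inj (by rw [h2']) h1 k hk

/-- cutting a set along a coordinate -/
theorem C3_sum (K : ℕ) {t : Set (Prd M)} (_ht : MeasurableSet t) :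
    nuM M t = ∑ x : Fin (M K), nuM M (t ∩ {y | y K = x}) := by
  have h := sum_measure_preimage_singleton (μ := (nuM M).restrict t) (Finset.univ : Finset (Fin (M K)))
    (f := fun y : Prd M => y K) (fun x _ => C3_meas_coord K x)
  rw [Finset.coe_univ, preimage_univ, Measure.restrict_apply_univ] at h
  rw [← h]
  refine Finset.sum_congr rfl fun x _ => ?_
  show ((nuM M).restrict t) {y : Prd M | y K = x} = _
  rw [Measure.restrict_apply (C3_meas_coord K x), inter_comm]

omit [∀ k, NeZero (M k)] in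
theorem C3_meas_cyl (c : Prd M) (K : ℕ) : MeasurableSet (PiNat.cylinder c K : Set (Prd M)) := by
  have e : (PiNat.cylinder c K : Set (Prd M)) = ⋂ k ∈ Finset.range K, {y : Prd M | y k = c k} := by
    ext y
    simp [PiNat.mem_cylinder_iff]
  rw [e]
  exact Finset.measurableSet_biInter _ fun k _ => C3_meas_coord k (c k)

omit [∀ k, NeZero (M k)] in
open Classical in
theorem C3_cyl_update (K : ℕ) (c : Prd M) (x : Fin (M K)) :
    (PiNat.cylinder (Function.update c K x) K : Set (Prd M)) = PiNat.cylinder c K := by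
  ext y
  simp only [PiNat.mem_cylinder_iff]
  refine forall₂_congr fun k hk => ?_
  rw [Function.update_of_ne (ne_of_lt hk)]

omit [∀ k, NeZero (M k)] in
open Classical in
theorem C3_cyl_succ (K : ℕ) (c : Prd M) (x : Fin (M K)) :
    (PiNat.cylinder (Function.update c K x) (K + 1) : Set (Prd M)) =
      PiNat.cylinder c K ∩ {y | y K = x} := by
  ext y
  constructor
  · intro h
    have h' := PiNat.mem_cylinder_iff.1 h
    refine ⟨PiNat.mem_cylinder_iff.2 fun k hk => ?_, ?_⟩
    · rw [h' k (hk.trans (Nat.lt_succ_self K)), Function.update_of_ne (ne_of_lt hk)]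
    · show y K = x
      rw [h' K (Nat.lt_succ_self K), Function.update_self]
  · rintro ⟨h1, h2⟩
    refine PiNat.mem_cylinder_iff.2 fun k hk => ?_
    rcases (Nat.lt_succ_iff.1 hk).lt_or_eq with h | h
    · rw [Function.update_of_ne (ne_of_lt h)]
      exact (PiNat.mem_cylinder_iff.1 h1) k h
    · subst h
      rw [Function.update_self]
      exact h2

/-- the common measure of the pieces of an invariant set -/
theorem C3_common (D : Adic M) (hM2 : ∀ k, 2 ≤ M k) {s : Set (Prd M)} (hs : MeasurableSet s)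
    (hinv : D.fwd ⁻¹' s = s) (K : ℕ) (c : Prd M) :
    nuM M (s ∩ PiNat.cylinder c K) =
      ∑ x : Fin (M K), nuM M (s ∩ ({y | D.pos K y = 0} ∩ {y | y K = x})) := by
  classical
  rw [C3_sum K (hs.inter (C3_meas_cyl c K))]
  refine Finset.sum_congr rfl fun x _ => ?_
  have e : (PiNat.cylinder c K ∩ {y | y K = x} : Set (Prd M)) =
      {y | D.pos K y = D.pos K (Function.update c K x)} ∩ {y | y K = x} := by
    have h := C3_cyl D K (Function.update c K x)
    rw [C3_cyl_update, Function.update_self] at h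
    exact h
  rw [inter_assoc, e]
  exact C3_level D hM2 hs hinv K x (D.pos_lt K _)

theorem C3_const (D : Adic M) (hM2 : ∀ k, 2 ≤ M k) {s : Set (Prd M)} (hs : MeasurableSet s)
    (hinv : D.fwd ⁻¹' s = s) (K : ℕ) (c : Prd M) :
    (hM M K : ℝ≥0∞) * nuM M (s ∩ PiNat.cylinder c K) = nuM M s := by
  classical
  induction K with
  | zero =>
    have e : (PiNat.cylinder c 0 : Set (Prd M)) = univ := by
      ext y; simp
    rw [e, inter_univ]
    simp [hM]
  | succ K ih =>
    rw [← ih]
    have h1 : nuM M (s ∩ PiNat.cylinder c K) = (M K : ℝ≥0∞) * nuM M (s ∩ PiNat.cylinder c (K + 1)) := by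
      rw [C3_sum K (hs.inter (C3_meas_cyl c K))]
      have h2 : ∀ x : Fin (M K), nuM M ((s ∩ PiNat.cylinder c K) ∩ {y | y K = x}) =
          nuM M (s ∩ PiNat.cylinder c (K + 1)) := by
        intro x
        rw [inter_assoc, ← C3_cyl_succ, C3_common D hM2 hs hinv, C3_common D hM2 hs hinv]
      rw [Finset.sum_congr rfl fun x _ => h2 x, Finset.sum_const, Finset.card_univ, Fintype.card_fin,
        nsmul_eq_mul]
    rw [h1, hM, Finset.prod_range_succ, ← hM]
    push_cast
    ring

theorem C3_indep (D : Adic M) (hM2 : ∀ k, 2 ≤ M k) {s : Set (Prd M)} (hs : MeasurableSet s)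
    (hinv : D.fwd ⁻¹' s = s) (K : ℕ) (c : Prd M) :
    nuM M (s ∩ PiNat.cylinder c K) = nuM M s * nuM M (PiNat.cylinder c K) := by
  have hh : 0 < hM M K := Finset.prod_pos fun k _ => by have := hM2 k; omega
  have h1 := C3_const D hM2 hs hinv K c
  have h2 := C3_const D hM2 MeasurableSet.univ preimage_univ K c
  rw [univ_inter, measure_univ] at h2
  have hne : (hM M K : ℝ≥0∞) ≠ 0 := by exact_mod_cast hh.ne'
  have hnt : (hM M K : ℝ≥0∞) ≠ ∞ := ENNReal.natCast_ne_top _
  have h3 : (hM M K : ℝ≥0∞) * nuM M (s ∩ PiNat.cylinder c K) =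
      (hM M K : ℝ≥0∞) * (nuM M s * nuM M (PiNat.cylinder c K)) := by
    rw [h1]
    calc nuM M s = nuM M s * ((hM M K : ℝ≥0∞) * nuM M (PiNat.cylinder c K)) := by rw [h2, mul_one]
      _ = _ := by ring
  exact (ENNReal.mul_right_inj hne hnt).1 h3

theorem C3_zero_one (D : Adic M) (hM2 : ∀ k, 2 ≤ M k) {s : Set (Prd M)} (hs : MeasurableSet s)
    (hinv : D.fwd ⁻¹' s = s) : nuM M s = 0 ∨ nuM M s = 1 := by
  have hgen : (inferInstance : MeasurableSpace (Prd M)) = MeasurableSpace.generateFrom
      {t : Set (Prd M) | ∃ (x : Prd M) (n : ℕ), t = PiNat.cylinder x n} := by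
    have h1 := (PiNat.isTopologicalBasis_cylinders (fun k => Fin (M k))).borel_eq_generateFrom
    rw [← h1]
    exact BorelSpace.measurable_eq
  have hpi : IsPiSystem {t : Set (Prd M) | ∃ (x : Prd M) (n : ℕ), t = PiNat.cylinder x n} := by
    rintro _ ⟨x, n, rfl⟩ _ ⟨x', n', rfl⟩ ⟨y, hy, hy'⟩
    refine ⟨y, max n n', ?_⟩
    ext z
    simp only [mem_inter_iff, PiNat.mem_cylinder_iff] at *
    constructor
    · rintro ⟨h1, h2⟩ i hi
      rcases lt_max_iff.1 hi with h | h
      · rw [h1 i h, hy i h]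
      · rw [h2 i h, hy' i h]
    · intro h
      exact ⟨fun i hi => by rw [h i (lt_max_of_lt_left hi), hy i hi],
        fun i hi => by rw [h i (lt_max_of_lt_right hi), hy' i hi]⟩
  have hm : (nuM M).restrict s = nuM M s • nuM M := by
    refine ext_of_generate_finite _ hgen hpi ?_ ?_
    · rintro _ ⟨x, n, rfl⟩
      rw [Measure.restrict_apply (C3_meas_cyl x n), inter_comm, C3_indep D hM2 hs hinv]
      rfl
    · rw [Measure.restrict_apply_univ, Measure.smul_apply, measure_univ, smul_eq_mul, mul_one]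
  have h := congrArg (fun μ : Measure (Prd M) => μ s) hm
  simp only [Measure.restrict_apply hs, inter_self, Measure.smul_apply, smul_eq_mul] at h
  by_cases h0 : nuM M s = 0
  · exact Or.inl h0
  · right
    have hnt : nuM M s ≠ ∞ := measure_ne_top _ _
    have h' : nuM M s * 1 = nuM M s * nuM M s := by rw [mul_one]; exact h
    exact ((ENNReal.mul_right_inj h0 hnt).1 h').symm

theorem Adic.ergodic_fwd (D : Adic M) (hM2 : ∀ k, 2 ≤ M k) : Ergodic D.fwd (nuM M) := by
  refine ⟨D.mp_fwd hM2, ⟨fun s hs hinv => ?_⟩⟩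
  rw [Filter.eventuallyConst_set']
  rcases C3_zero_one D hM2 hs hinv with h | h
  · left
    exact ae_eq_empty.2 h
  · right
    exact ae_eq_univ_iff_measure_eq hs.nullMeasurableSet |>.2 (by rw [h, measure_univ])

end generic

end Pool.Agent.KAut
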