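import Pool.Agent.Work.MP_2cfc43_lc.Defs

/-! MP_2cfc43_lc, module C4: two adic transformations with the same symbols whose orders differ
only on a summable family of sets of coordinates are isomorphic. -/

namespace Pool.Agent.KAut

open MeasureTheory Set Filter Topology
open scoped ENNReal

section generic

variable {M : ℕ → ℕ}

/-! ### Fibrewise permutations -/

/-- permute the coordinate `k` in dependence of the coordinate `k + 1` -/
def C4_G (k : ℕ) (σ : Fin (M (k + 1)) → Equiv.Perm (Fin (M k))) : Prd M ≃ Prd M where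
  toFun y := Function.update y k (σ (y (k + 1)) (y k))
  invFun y := Function.update y k ((σ (y (k + 1))).symm (y k))
  left_inv y := by
    funext i
    by_cases hi : i = k
    · subst hi
      simp
    · simp [Function.update_of_ne hi]
  right_inv y := by
    funext i
    by_cases hi : i = k
    · subst hi
      simp
    · simp [Function.update_of_ne hi]

theorem C4_G_symm (k : ℕ) (σ : Fin (M (k + 1)) → Equiv.Perm (Fin (M k))) :
    (C4_G k σ).symm = C4_G k (fun c => (σ c).symm) := rfl

theorem C4_G_self (k : ℕ) (σ : Fin (M (k + 1)) → Equiv.Perm (Fin (M k))) (y : Prd M) :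
    C4_G k σ y k = σ (y (k + 1)) (y k) := by
  simp [C4_G]

theorem C4_G_of_ne (k : ℕ) (σ : Fin (M (k + 1)) → Equiv.Perm (Fin (M k))) (y : Prd M) {i : ℕ}
    (h : i ≠ k) : C4_G k σ y i = y i := by
  simp [C4_G, Function.update_of_ne h]

theorem C4_G_measurable (k : ℕ) (σ : Fin (M (k + 1)) → Equiv.Perm (Fin (M k))) :
    Measurable (C4_G k σ) := by
  rw [measurable_pi_iff]
  intro i
  by_cases hi : i = k
  · subst hi
    have h1 : Measurable fun p : Fin (M (i + 1)) × Fin (M i) => σ p.1 p.2 := Measurable.of_discrete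
    have h2 : Measurable fun y : Prd M => (y (i + 1), y i) := by fun_prop
    have h3 := h1.comp h2
    have : (fun y : Prd M => C4_G i σ y i) = fun y => σ (y (i + 1)) (y i) := by
      funext y; exact C4_G_self i σ y
    rw [this]
    exact h3
  · have : (fun y : Prd M => C4_G k σ y i) = fun y => y i := by
      funext y; exact C4_G_of_ne k σ y hi
    rw [this]
    exact measurable_pi_apply i

theorem C4_unif_preimage {α : Type*} [Fintype α] [Nonempty α] [MeasurableSpace α]
    [MeasurableSingletonClass α] (e : Equiv.Perm α) (A : Set α) :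
    unif α (e ⁻¹' A) = unif α A := by
  classical
  unfold unif
  rw [PMF.toMeasure_uniformOfFintype_apply _ (Set.toFinite _).measurableSet,
    PMF.toMeasure_uniformOfFintype_apply _ (Set.toFinite _).measurableSet]
  congr 2
  exact Fintype.card_congr (e.subtypeEquiv fun a => Iff.rfl)

set_option linter.unusedSectionVars false

variable [∀ k, NeZero (M k)]

theorem C4_G_mp (k : ℕ) (σ : Fin (M (k + 1)) → Equiv.Perm (Fin (M k))) :
    MeasurePreserving (C4_G k σ) (nuM M) (nuM M) := by
  classical
  refine ⟨C4_G_measurable k σ, ?_⟩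
  unfold nuM
  refine Measure.eq_infinitePi _ fun s t ht => ?_
  rw [Measure.map_apply (C4_G_measurable k σ) (.pi s.countable_toSet fun i _ => ht i)]
  -- enlarge the set of coordinates
  set s' : Finset ℕ := insert k (insert (k + 1) s) with hs'
  set t' : ∀ i, Set (Fin (M i)) := fun i => if i ∈ s then t i else univ with ht'
  have hpi : Set.pi (s : Set ℕ) t = Set.pi (s' : Set ℕ) t' := by
    ext y
    simp only [Set.mem_pi, hs', ht']
    constructor
    · intro h i _
      by_cases hi : i ∈ s
      · simpa [hi] using h i hi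
      · simp [hi]
    · intro h i hi
      have := h i (by simp; right; right; exact hi)
      simpa [show i ∈ s from hi] using this
  have hprod : ∏ i ∈ s, (fun k => unif (Fin (M k))) i (t i) =
      ∏ i ∈ s', (fun k => unif (Fin (M k))) i (t' i) := by
    have hsub : s ⊆ s' := fun i hi => Finset.mem_insert_of_mem (Finset.mem_insert_of_mem hi)
    rw [← Finset.prod_subset hsub (f := fun i => (fun k => unif (Fin (M k))) i (t' i))]
    · refine Finset.prod_congr rfl fun i hi => ?_
      simp [ht', hi]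
    · intro i _ hi
      simp [ht', hi]
  have hks : k ∈ s' := Finset.mem_insert_self _ _
  have hks1 : k + 1 ∈ s' := Finset.mem_insert_of_mem (Finset.mem_insert_self _ _)
  have hne : k + 1 ≠ k := by omega
  -- the two families of boxes
  let T1 : Fin (M (k + 1)) → ∀ i, Set (Fin (M i)) := fun c =>
    Function.update (Function.update t' (k + 1) (t' (k + 1) ∩ {c})) k ((σ c) ⁻¹' (t' k))
  let T2 : Fin (M (k + 1)) → ∀ i, Set (Fin (M i)) := fun c =>
    Function.update t' (k + 1) (t' (k + 1) ∩ {c})
  have hms : ∀ (i : ℕ) (A : Set (Fin (M i))), MeasurableSet A := fun i A => (Set.toFinite A).measurableSet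
  have h1 : (C4_G k σ) ⁻¹' (Set.pi (s' : Set ℕ) t') = ⋃ c, Set.pi (s' : Set ℕ) (T1 c) := by
    ext y
    simp only [mem_preimage, Set.mem_pi, mem_iUnion]
    constructor
    · intro h
      refine ⟨y (k + 1), fun i hi => ?_⟩
      have hi' := h i hi
      by_cases hik : i = k
      · subst hik
        rw [C4_G_self] at hi'
        simpa [T1] using hi'
      · rw [C4_G_of_ne k σ y hik] at hi'
        by_cases hik1 : i = k + 1
        · subst hik1
          simp only [T1, Function.update_of_ne hik, Function.update_self]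
          exact ⟨hi', rfl⟩
        · simp only [T1, Function.update_of_ne hik, Function.update_of_ne hik1]
          exact hi'
    · rintro ⟨c, hc⟩ i hi
      have hck : y (k + 1) = c := by
        have := hc (k + 1) hks1
        simp only [T1, Function.update_of_ne hne, Function.update_self] at this
        exact this.2
      have hi' := hc i hi
      by_cases hik : i = k
      · subst hik
        rw [C4_G_self, hck]
        simpa [T1] using hi'
      · rw [C4_G_of_ne k σ y hik]
        by_cases hik1 : i = k + 1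
        · subst hik1
          simp only [T1, Function.update_of_ne hik, Function.update_self] at hi'
          exact hi'.1
        · simpa only [T1, Function.update_of_ne hik, Function.update_of_ne hik1] using hi'
  have h2 : Set.pi (s' : Set ℕ) t' = ⋃ c, Set.pi (s' : Set ℕ) (T2 c) := by
    ext y
    simp only [Set.mem_pi, mem_iUnion]
    constructor
    · intro h
      refine ⟨y (k + 1), fun i hi => ?_⟩
      have hi' := h i hi
      by_cases hik1 : i = k + 1
      · subst hik1
        simp only [T2, Function.update_self]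
        exact ⟨hi', rfl⟩
      · simp only [T2, Function.update_of_ne hik1]
        exact hi'
    · rintro ⟨c, hc⟩ i hi
      have hi' := hc i hi
      by_cases hik1 : i = k + 1
      · subst hik1
        simp only [T2, Function.update_self] at hi'
        exact hi'.1
      · simpa only [T2, Function.update_of_ne hik1] using hi'
  have hd1 : Pairwise (Function.onFun Disjoint fun c => Set.pi (s' : Set ℕ) (T1 c)) := by
    intro c c' hcc
    rw [Function.onFun, Set.disjoint_left]
    intro y hy hy'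
    have e1 := hy (k + 1) hks1
    have e2 := hy' (k + 1) hks1
    simp only [T1, Function.update_of_ne hne, Function.update_self] at e1 e2
    exact hcc (e1.2.symm.trans e2.2)
  have hd2 : Pairwise (Function.onFun Disjoint fun c => Set.pi (s' : Set ℕ) (T2 c)) := by
    intro c c' hcc
    rw [Function.onFun, Set.disjoint_left]
    intro y hy hy'
    have e1 := hy (k + 1) hks1
    have e2 := hy' (k + 1) hks1
    simp only [T2, Function.update_self] at e1 e2
    exact hcc (e1.2.symm.trans e2.2)
  have hm : ∀ T : ∀ i, Set (Fin (M i)), MeasurableSet (Set.pi (s' : Set ℕ) T) := fun T =>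
    .pi s'.countable_toSet fun i _ => hms i _
  rw [hpi, hprod, h1, measure_iUnion hd1 fun c => hm _]
  rw [← Measure.infinitePi_pi (μ := fun k => unif (Fin (M k))) (s := s') (t := t')
    (fun i _ => hms i _)]
  conv_rhs => rw [h2, measure_iUnion hd2 fun c => hm _]
  refine tsum_congr fun c => ?_
  rw [Measure.infinitePi_pi (μ := fun k => unif (Fin (M k))) (s := s') (fun i _ => hms i _),
    Measure.infinitePi_pi (μ := fun k => unif (Fin (M k))) (s := s') (fun i _ => hms i _)]
  refine Finset.prod_congr rfl fun i hi => ?_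
  by_cases hik : i = k
  · subst hik
    simp only [T1, T2, Function.update_self, Function.update_of_ne hne.symm]
    exact C4_unif_preimage (σ c) (t' i)
  · simp only [T1, T2, Function.update_of_ne hik]

/-! ### Coding by digits -/

/-- the digit number `k` -/
def C4_dig (D : Adic M) (k : ℕ) (y : Prd M) : Fin (M k) := D.e k (D.sym (k + 1) (y (k + 1))) (y k)

/-- digits below `K`, coordinates from `K` on -/
def C4_cod (D : Adic M) : ℕ → (Prd M ≃ Prd M)
  | 0 => Equiv.refl _
  | K + 1 => (C4_cod D K).trans (C4_G K (fun c => D.e K (D.sym (K + 1) c)))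

theorem C4_cod_apply (D : Adic M) (K : ℕ) (y : Prd M) (k : ℕ) :
    C4_cod D K y k = if k < K then C4_dig D k y else y k := by
  induction K generalizing k with
  | zero => simp [C4_cod]
  | succ K ih =>
    change C4_G K (fun c => D.e K (D.sym (K + 1) c)) (C4_cod D K y) k = _
    by_cases hk : k = K
    · subst hk
      rw [C4_G_self, ih, ih, if_neg (by omega), if_neg (by omega), if_pos (by omega)]
      rfl
    · rw [C4_G_of_ne K _ _ hk, ih]
      by_cases hk' : k < K
      · rw [if_pos hk', if_pos (by omega)]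
      · rw [if_neg hk', if_neg (by omega)]

theorem C4_cod_mp (D : Adic M) (K : ℕ) : MeasurePreserving (C4_cod D K) (nuM M) (nuM M) := by
  induction K with
  | zero => exact MeasurePreserving.id _
  | succ K ih => exact (C4_G_mp K (fun c => D.e K (D.sym (K + 1) c))).comp ih

theorem C4_cod_symm_mp (D : Adic M) (K : ℕ) :
    MeasurePreserving (C4_cod D K).symm (nuM M) (nuM M) := by
  induction K with
  | zero => exact MeasurePreserving.id _
  | succ K ih => exact ih.comp (C4_G_mp K (fun c => (D.e K (D.sym (K + 1) c)).symm))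

/-- a point is determined by its digits below `K` and its coordinates from `K` on -/
theorem C4_cod_inj (D : Adic M) {K : ℕ} {y z : Prd M} (h : ∀ k, K ≤ k → y k = z k)
    (h' : ∀ k < K, C4_dig D k y = C4_dig D k z) : y = z := by
  refine (C4_cod D K).injective ?_
  funext k
  rw [C4_cod_apply, C4_cod_apply]
  by_cases hk : k < K
  · rw [if_pos hk, if_pos hk, h' k hk]
  · rw [if_neg hk, if_neg hk, h k (by omega)]

/-- the map which replaces the digits below `K` with respect to `D` by the same digits with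
respect to `D'` -/
def C4_phi (D D' : Adic M) (K : ℕ) : Prd M ≃ Prd M := (C4_cod D K).trans (C4_cod D' K).symm

theorem C4_phi_mp (D D' : Adic M) (K : ℕ) : MeasurePreserving (C4_phi D D' K) (nuM M) (nuM M) :=
  (C4_cod_symm_mp D' K).comp (C4_cod_mp D K)

theorem C4_phi_symm (D D' : Adic M) (K : ℕ) : (C4_phi D D' K).symm = C4_phi D' D K := rfl

theorem C4_cod_phi (D D' : Adic M) (K : ℕ) (y : Prd M) :
    C4_cod D' K (C4_phi D D' K y) = C4_cod D K y := by
  simp [C4_phi]

theorem C4_phi_ge (D D' : Adic M) {K k : ℕ} (y : Prd M) (hk : K ≤ k) : C4_phi D D' K y k = y k := by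
  have h := congrFun (C4_cod_phi D D' K y) k
  rwa [C4_cod_apply, C4_cod_apply, if_neg (by omega), if_neg (by omega)] at h

theorem C4_phi_dig (D D' : Adic M) {K k : ℕ} (y : Prd M) (hk : k < K) :
    C4_dig D' k (C4_phi D D' K y) = C4_dig D k y := by
  have h := congrFun (C4_cod_phi D D' K y) k
  rwa [C4_cod_apply, C4_cod_apply, if_pos hk, if_pos hk] at h

/-- the good set of level `K` -/
def C4_gd (B : ∀ k, Finset (Fin (M k))) (K : ℕ) : Set (Prd M) := {y | ∀ k, K ≤ k → y k ∉ B k}

theorem C4_gd_mono (B : ∀ k, Finset (Fin (M k))) : Monotone (C4_gd B) :=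
  fun _ _ h _ hy k hk => hy k (h.trans hk)

theorem C4_gd_phi (D D' : Adic M) (B : ∀ k, Finset (Fin (M k))) (K : ℕ) (y : Prd M) :
    C4_phi D D' K y ∈ C4_gd B K ↔ y ∈ C4_gd B K := by
  constructor
  · intro h k hk
    have := h k hk
    rwa [C4_phi_ge D D' y hk] at this
  · intro h k hk
    rw [C4_phi_ge D D' y hk]
    exact h k hk

theorem C4_gd_measurable (B : ∀ k, Finset (Fin (M k))) (K : ℕ) : MeasurableSet (C4_gd B K) := by
  have : C4_gd B K = ⋂ k, {y : Prd M | K ≤ k → y k ∉ B k} := by
    ext y; simp [C4_gd]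
  rw [this]
  refine MeasurableSet.iInter fun k => ?_
  by_cases hk : K ≤ k
  · have h1 : {y : Prd M | K ≤ k → y k ∉ B k} = (fun y : Prd M => y k) ⁻¹' ((B k : Set (Fin (M k))))ᶜ := by
      ext y; simp [hk]
    rw [h1]
    exact (measurable_pi_apply k) ((Set.toFinite _).measurableSet)
  · have h1 : {y : Prd M | K ≤ k → y k ∉ B k} = univ := by
      ext y; simp [hk]
    rw [h1]
    exact MeasurableSet.univ

theorem C4_phi_succ (D D' : Adic M) (hsym : ∀ k x, D.sym k x = D'.sym k x)
    (B : ∀ k, Finset (Fin (M k))) (hBe : ∀ k j x, x ∉ B k → D.e k j x = D'.e k j x)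
    (K : ℕ) (y : Prd M) (hy : y K ∉ B K) : C4_phi D D' (K + 1) y = C4_phi D D' K y := by
  refine C4_cod_inj D' (K := K + 1) (fun k hk => ?_) (fun k hk => ?_)
  · rw [C4_phi_ge D D' y hk, C4_phi_ge D D' y (by omega)]
  · rw [C4_phi_dig D D' y hk]
    by_cases hkK : k = K
    · subst hkK
      unfold C4_dig
      rw [C4_phi_ge D D' y le_rfl, C4_phi_ge D D' y (Nat.le_succ k), ← hsym, hBe _ _ _ hy]
    · rw [C4_phi_dig D D' y (by omega)]

theorem C4_phi_stable (D D' : Adic M) (hsym : ∀ k x, D.sym k x = D'.sym k x)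
    (B : ∀ k, Finset (Fin (M k))) (hBe : ∀ k j x, x ∉ B k → D.e k j x = D'.e k j x)
    {K K' : ℕ} (h : K ≤ K') (y : Prd M) (hy : y ∈ C4_gd B K) :
    C4_phi D D' K' y = C4_phi D D' K y := by
  induction K', h using Nat.le_induction with
  | base => rfl
  | succ n hn ih => rw [C4_phi_succ D D' hsym B hBe n y (hy n hn), ih]

theorem C4_ex (B : ∀ k, Finset (Fin (M k))) (y : Prd M) :
    ∃ K, y ∈ C4_gd B K ∨ ∀ K', y ∉ C4_gd B K' := by
  by_cases h : ∃ K, y ∈ C4_gd B K
  · exact ⟨h.choose, Or.inl h.choose_spec⟩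
  · exact ⟨0, Or.inr (fun K' hK' => h ⟨K', hK'⟩)⟩

open Classical in
/-- the limit map -/
noncomputable def C4_lim (D D' : Adic M) (B : ∀ k, Finset (Fin (M k))) (y : Prd M) : Prd M :=
  C4_phi D D' (Nat.find (C4_ex B y)) y

theorem C4_lim_eq (D D' : Adic M) (hsym : ∀ k x, D.sym k x = D'.sym k x)
    (B : ∀ k, Finset (Fin (M k))) (hBe : ∀ k j x, x ∉ B k → D.e k j x = D'.e k j x)
    {K : ℕ} {y : Prd M} (hy : y ∈ C4_gd B K) : C4_lim D D' B y = C4_phi D D' K y := by
  classical
  unfold C4_lim
  have h1 : Nat.find (C4_ex B y) ≤ K := Nat.find_min' _ (Or.inl hy)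
  rcases Nat.find_spec (C4_ex B y) with h2 | h2
  · exact (C4_phi_stable D D' hsym B hBe h1 y h2).symm
  · exact absurd hy (h2 K)

theorem C4_lim_measurable (D D' : Adic M) (B : ∀ k, Finset (Fin (M k))) :
    Measurable (C4_lim D D' B) := by
  classical
  unfold C4_lim
  refine Measurable.find (f := fun K y => C4_phi D D' K y) (fun K => (C4_phi_mp D D' K).measurable)
    (fun K => ?_) _
  have h1 : {y : Prd M | y ∈ C4_gd B K ∨ ∀ K', y ∉ C4_gd B K'} =
      C4_gd B K ∪ ⋂ K', (C4_gd B K')ᶜ := by
    ext y; simp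
  rw [h1]
  exact (C4_gd_measurable B K).union (MeasurableSet.iInter fun K' => (C4_gd_measurable B K').compl)

theorem C4_gd_ae (B : ∀ k, Finset (Fin (M k))) (hB : Summable fun k => ((B k).card : ℝ) / M k) :
    ∀ᵐ y ∂nuM M, ∃ K, y ∈ C4_gd B K := by
  have hmeas : ∀ k, nuM M {y | y k ∈ B k} = ENNReal.ofReal (((B k).card : ℝ) / M k) := by
    intro k
    have h1 : {y : Prd M | y k ∈ B k} = (Function.eval k) ⁻¹' ((B k : Set (Fin (M k)))) := rfl
    unfold nuM
    rw [h1, (measurePreserving_eval_infinitePi (fun k => unif (Fin (M k))) k).measure_preimage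
      ((Set.toFinite _).measurableSet.nullMeasurableSet)]
    unfold unif
    rw [PMF.toMeasure_uniformOfFintype_apply _ (Set.toFinite _).measurableSet]
    have hM : (0 : ℝ) < M k := by
      have := NeZero.pos (M k)
      exact_mod_cast this
    rw [ENNReal.ofReal_div_of_pos hM, ENNReal.ofReal_natCast, ENNReal.ofReal_natCast]
    simp
  have hsum : ∑' k, nuM M {y | y k ∈ B k} ≠ ∞ := by
    simp_rw [hmeas]
    rw [← ENNReal.ofReal_tsum_of_nonneg (fun k => by positivity) hB]
    exact ENNReal.ofReal_ne_top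
  have h2 := ae_eventually_notMem hsum
  filter_upwards [h2] with y hy
  obtain ⟨K, hK⟩ := eventually_atTop.1 hy
  exact ⟨K, fun k hk => hK k hk⟩

theorem C4_lim_mp (D D' : Adic M) (hsym : ∀ k x, D.sym k x = D'.sym k x)
    (B : ∀ k, Finset (Fin (M k))) (hB : Summable fun k => ((B k).card : ℝ) / M k)
    (hBe : ∀ k j x, x ∉ B k → D.e k j x = D'.e k j x) :
    MeasurePreserving (C4_lim D D' B) (nuM M) (nuM M) := by
  refine ⟨C4_lim_measurable D D' B, ?_⟩
  ext A hA
  rw [Measure.map_apply (C4_lim_measurable D D' B) hA]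
  have hae : ∀ᵐ y ∂nuM M, y ∈ ⋃ K, C4_gd B K := by
    filter_upwards [C4_gd_ae B hB] with y hy
    exact mem_iUnion.2 hy
  have key : ∀ S : Set (Prd M), nuM M S = ⨆ K, nuM M (S ∩ C4_gd B K) := by
    intro S
    have hmono : Monotone fun K => S ∩ C4_gd B K :=
      fun K L h => inter_subset_inter_right S (C4_gd_mono B h)
    rw [← hmono.measure_iUnion, ← inter_iUnion, inter_comm]
    exact (Measure.measure_inter_eq_of_ae hae).symm
  rw [key A, key (C4_lim D D' B ⁻¹' A)]
  congr 1
  funext K
  have h1 : C4_lim D D' B ⁻¹' A ∩ C4_gd B K = (C4_phi D D' K) ⁻¹' (A ∩ C4_gd B K) := by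
    ext y
    constructor
    · rintro ⟨h1, h2⟩
      refine ⟨?_, (C4_gd_phi D D' B K y).2 h2⟩
      rw [mem_preimage, C4_lim_eq D D' hsym B hBe h2] at h1
      exact h1
    · rintro ⟨h1, h2⟩
      have h3 := (C4_gd_phi D D' B K y).1 h2
      refine ⟨?_, h3⟩
      rw [mem_preimage, C4_lim_eq D D' hsym B hBe h3]
      exact h1
  rw [h1]
  exact (C4_phi_mp D D' K).measure_preimage ((hA.inter (C4_gd_measurable B K)).nullMeasurableSet)

/-! ### Equivariance -/

theorem C4_last (D : Adic M) (k : ℕ) (y : Prd M) :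
    ((C4_dig D k y : Fin (M k)) : ℕ) + 1 = M k ↔ (y k : ℕ) + 1 = M k := D.e_last _ _ _

open Classical in
theorem C4_dig_fwd (D : Adic M) (k : ℕ) (y : Prd M) :
    C4_dig D k (D.fwd y) = if ∀ l < k, (y l : ℕ) + 1 = M l then C4_dig D k y + 1
      else C4_dig D k y := by
  by_cases h : ∀ l < k, (y l : ℕ) + 1 = M l
  · rw [if_pos h]
    have e1 : D.fwd y k = (D.e k (D.sym (k + 1) (y (k + 1)))).symm
        (D.e k (D.sym (k + 1) (y (k + 1))) (y k) + 1) := by
      unfold Adic.fwd
      rw [if_pos h]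
    by_cases hk : (y k : ℕ) + 1 = M k
    · -- the coordinate is last: everything becomes zero
      have hz : D.e k (D.sym (k + 1) (y (k + 1))) (y k) + 1 = 0 := by
        have h1 := (D.e_last k (D.sym (k + 1) (y (k + 1))) (y k)).2 hk
        apply Fin.ext
        rw [Fin.val_add, Fin.val_one', Nat.add_mod_mod, h1, Nat.mod_self]
        rfl
      have hz2 : ((D.fwd y k : Fin (M k)) : ℕ) = 0 := by
        rw [e1, hz]
        have h5 := (D.e_zero k (D.sym (k + 1) (y (k + 1)))
          ((D.e k (D.sym (k + 1) (y (k + 1)))).symm 0)).1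
        rw [Equiv.apply_symm_apply] at h5
        exact h5 rfl
      unfold C4_dig
      rw [hz]
      apply Fin.ext
      exact (D.e_zero _ _ _).2 hz2
    · have e2 : D.fwd y (k + 1) = y (k + 1) := by
        unfold Adic.fwd
        rw [if_neg]
        intro h'
        exact hk (h' k (Nat.lt_succ_self k))
      unfold C4_dig
      rw [e2, e1, Equiv.apply_symm_apply]
  · rw [if_neg h]
    have e1 : D.fwd y k = y k := by
      unfold Adic.fwd
      rw [if_neg h]
    have e2 : D.fwd y (k + 1) = y (k + 1) := by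
      unfold Adic.fwd
      rw [if_neg]
      intro h'
      exact h fun l hl => h' l (by omega)
    unfold C4_dig
    rw [e1, e2]

theorem C4_fwd_ge (D : Adic M) {l k : ℕ} (y : Prd M) (hl : (y l : ℕ) + 1 ≠ M l) (hk : l < k) :
    D.fwd y k = y k := by
  unfold Adic.fwd
  rw [if_neg]
  intro h'
  exact hl (h' l hk)

theorem C4_equivariant (D D' : Adic M) (hsym : ∀ k x, D.sym k x = D'.sym k x)
    (B : ∀ k, Finset (Fin (M k))) (hBe : ∀ k j x, x ∉ B k → D.e k j x = D'.e k j x)
    {K : ℕ} {y : Prd M} (hy : y ∈ C4_gd B K) {l : ℕ} (hl : (y l : ℕ) + 1 ≠ M l) :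
    C4_lim D D' B (D.fwd y) = D'.fwd (C4_lim D D' B y) := by
  classical
  set L := max K (l + 1) with hL
  have hyL : y ∈ C4_gd B L := C4_gd_mono B (le_max_left _ _) hy
  have hTy : D.fwd y ∈ C4_gd B L := by
    intro k hk
    rw [C4_fwd_ge D y hl (by omega)]
    exact hyL k hk
  rw [C4_lim_eq D D' hsym B hBe hyL, C4_lim_eq D D' hsym B hBe hTy]
  have hlast : ∀ k < L, (((C4_phi D D' L y k : Fin (M k)) : ℕ) + 1 = M k ↔ (y k : ℕ) + 1 = M k) := by
    intro k hk
    rw [← C4_last D' k, C4_phi_dig D D' y hk, C4_last D k]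
  have hl' : ((C4_phi D D' L y l : Fin (M l)) : ℕ) + 1 ≠ M l := fun h =>
    hl ((hlast l (by omega)).1 h)
  refine C4_cod_inj D' (K := L) (fun k hk => ?_) (fun k hk => ?_)
  · rw [C4_phi_ge D D' _ hk, C4_fwd_ge D y hl (by omega), C4_fwd_ge D' _ hl' (by omega),
      C4_phi_ge D D' _ hk]
  · rw [C4_phi_dig D D' _ hk, C4_dig_fwd, C4_dig_fwd, C4_phi_dig D D' _ hk]
    have hiff : (∀ i < k, (y i : ℕ) + 1 = M i) ↔
        ∀ i < k, ((C4_phi D D' L y i : Fin (M i)) : ℕ) + 1 = M i :=
      forall₂_congr fun i hi => (hlast i (hi.trans hk)).symm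
    simp only [hiff]

/-- almost surely some coordinate is not the last one -/
theorem C4_not_last (hM2 : ∀ k, 2 ≤ M k) : ∀ᵐ y ∂nuM M, ∃ l, (y l : ℕ) + 1 ≠ M l := by
  have h0 : ∀ n : ℕ, nuM M {y | ∀ l, (y l : ℕ) + 1 = M l} ≤ (2⁻¹ : ℝ≥0∞) ^ n := by
    intro n
    have hsub : {y : Prd M | ∀ l, (y l : ℕ) + 1 = M l} ⊆
        Set.pi (Finset.range n : Set ℕ) (fun l => {x : Fin (M l) | (x : ℕ) + 1 = M l}) :=
      fun y hy l _ => hy l
    refine (measure_mono hsub).trans ?_
    unfold nuM
    rw [Measure.infinitePi_pi (μ := fun k => unif (Fin (M k)))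
      (fun i _ => (Set.toFinite _).measurableSet)]
    refine (Finset.prod_le_prod' fun i _ => ?_).trans (by simp : ∏ _i ∈ Finset.range n, (2⁻¹ : ℝ≥0∞) ≤ _)
    unfold unif
    rw [PMF.toMeasure_uniformOfFintype_apply _ (Set.toFinite _).measurableSet]
    have hc : Fintype.card {x : Fin (M i) | (x : ℕ) + 1 = M i} ≤ 1 := by
      rw [Fintype.card_le_one_iff]
      rintro ⟨a, ha⟩ ⟨b, hb⟩
      simp only [Set.mem_ofPred_eq] at ha hb
      exact Subtype.ext (Fin.ext (by simp only; omega))
    rw [Fintype.card_fin]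
    calc (Fintype.card {x : Fin (M i) | (x : ℕ) + 1 = M i} : ℝ≥0∞) / (M i : ℝ≥0∞)
        ≤ 1 / (M i : ℝ≥0∞) := ENNReal.div_le_div_right (by exact_mod_cast hc) _
      _ ≤ 1 / 2 := ENNReal.div_le_div_left (by exact_mod_cast hM2 i) _
      _ = 2⁻¹ := by rw [one_div]
  have h1 : nuM M {y | ∀ l, (y l : ℕ) + 1 = M l} = 0 := by
    refine le_antisymm ?_ bot_le
    refine ge_of_tendsto' (ENNReal.tendsto_pow_atTop_nhds_zero_of_lt_one ?_) h0
    exact ENNReal.inv_lt_one.2 ENNReal.one_lt_two
  rw [ae_iff]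
  simpa using h1

theorem Adic.iso_of_adjacent (hM2 : ∀ k, 2 ≤ M k) (D D' : Adic M)
    (hsym : ∀ k x, D.sym k x = D'.sym k x) (B : ∀ k, Finset (Fin (M k)))
    (hB : Summable fun k => ((B k).card : ℝ) / M k)
    (hBe : ∀ k j x, x ∉ B k → D.e k j x = D'.e k j x) :
    ∃ φ ψ : Prd M → Prd M, MeasurePreserving φ (nuM M) (nuM M) ∧
      MeasurePreserving ψ (nuM M) (nuM M) ∧ (∀ᵐ y ∂nuM M, ψ (φ y) = y) ∧
      (∀ᵐ y ∂nuM M, φ (ψ y) = y) ∧ ∀ᵐ y ∂nuM M, φ (D.fwd y) = D'.fwd (φ y) := by
  have hsym' : ∀ k x, D'.sym k x = D.sym k x := fun k x => (hsym k x).symm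
  have hBe' : ∀ k j x, x ∉ B k → D'.e k j x = D.e k j x := fun k j x hx => (hBe k j x hx).symm
  refine ⟨C4_lim D D' B, C4_lim D' D B, C4_lim_mp D D' hsym B hB hBe,
    C4_lim_mp D' D hsym' B hB hBe', ?_, ?_, ?_⟩
  · filter_upwards [C4_gd_ae B hB] with y ⟨K, hK⟩
    rw [C4_lim_eq D D' hsym B hBe hK, C4_lim_eq D' D hsym' B hBe' ((C4_gd_phi D D' B K y).2 hK),
      ← C4_phi_symm D D' K, Equiv.symm_apply_apply]
  · filter_upwards [C4_gd_ae B hB] with y ⟨K, hK⟩
    rw [C4_lim_eq D' D hsym' B hBe' hK, C4_lim_eq D D' hsym B hBe ((C4_gd_phi D' D B K y).2 hK),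
      ← C4_phi_symm D D' K, Equiv.apply_symm_apply]
  · filter_upwards [C4_gd_ae B hB, C4_not_last hM2] with y ⟨K, hK⟩ ⟨l, hl⟩
    exact C4_equivariant D D' hsym B hBe hK hl

end generic

end Pool.Agent.KAut
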