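import Pool.Agent.Work.MP_2cfc43_lc.C1

/-! MP_2cfc43_lc, module C5: dependence of the adic map on the data. -/

namespace Pool.Agent.KAut

open MeasureTheory Set Filter Topology
open scoped ENNReal

variable {M : ℕ → ℕ} [∀ k, NeZero (M k)]

theorem Adic.fwd_ne_measure (D D' : Adic M) (hsym : ∀ k x, D.sym k x = D'.sym k x) (K : ℕ)
    (he : ∀ k < K, ∀ j, D.e k j = D'.e k j) :
    nuM M {y | D.fwd y ≠ D'.fwd y} ≤ (hM M K : ℝ≥0∞)⁻¹ := by
  have hlast : ∀ l, ∃ x : Fin (M l), (x : ℕ) + 1 = M l := fun l =>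
    ⟨⟨M l - 1, by have := Nat.pos_of_ne_zero (NeZero.ne (M l)); omega⟩, by
      have := Nat.pos_of_ne_zero (NeZero.ne (M l)); simp only; omega⟩
  choose t ht using hlast
  have hsub : {y : Prd M | D.fwd y ≠ D'.fwd y} ⊆ {y : Prd M | ∀ l < K, y l = t l} := by
    intro y hy
    by_contra hcon
    apply hy
    have hex : ∃ l, l < K ∧ (y l : ℕ) + 1 ≠ M l := by
      by_contra hc
      push Not at hc
      exact hcon fun l hl => Fin.ext (by have h1 := hc l hl; have h2 := ht l; omega)
    obtain ⟨l, hlK, hl⟩ := hex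
    funext k
    by_cases hk : k < K
    · by_cases hall : ∀ l < k, (y l : ℕ) + 1 = M l
      · rw [C1_fwd_at D hall, C1_fwd_at D' hall, hsym (k + 1), he k hk]
      · push Not at hall
        obtain ⟨i, hi, hi'⟩ := hall
        rw [C1_fwd_above D hi hi', C1_fwd_above D' hi hi']
    · rw [C1_fwd_above D (by omega : l < k) hl, C1_fwd_above D' (by omega : l < k) hl]
  refine (measure_mono hsub).trans (le_of_eq ?_)
  exact C1_cyl t K

end Pool.Agent.KAut
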