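import Pool.Agent.Work.MP_2cfc43_lc.P
import Pool.Agent.Work.MP_2cfc43_lc.C2

/-! MP_2cfc43_lc, module C6: names of points are factors of the words. -/

namespace Pool.Agent.KAut

open MeasureTheory Set Filter Topology

attribute [local irreducible] Mc qc rc hc bc Rc ell

theorem C6_flatMap_length {α : Type*} (f : ℕ → List α) (h : ℕ) (hf : ∀ n, (f n).length = h)
    (M : ℕ) : ((List.range M).flatMap f).length = M * h := by
  induction M with
  | zero => simp
  | succ M ih =>
    rw [List.range_succ, List.flatMap_append, List.length_append, ih]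
    simp [hf, Nat.add_mul]

theorem C6_flatMap_get {α : Type*} (f : ℕ → List α) (h : ℕ) (hf : ∀ n, (f n).length = h)
    (M e p : ℕ) (he : e < M) (hp : p < h) :
    ((List.range M).flatMap f)[e * h + p]? = (f e)[p]? := by
  induction M with
  | zero => omega
  | succ M ih =>
    rw [List.range_succ, List.flatMap_append]
    have hl := C6_flatMap_length f h hf M
    rcases Nat.lt_succ_iff_lt_or_eq.1 he with h1 | h1
    · rw [List.getElem?_append_left]
      · exact ih h1
      · rw [hl]
        have : (e + 1) * h ≤ M * h := Nat.mul_le_mul_right h h1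
        have e1 : (e + 1) * h = e * h + h := by ring
        omega
    · subst h1
      rw [List.getElem?_append_right (by rw [hl]; omega), hl]
      simp

theorem word_length (a : ℕ → ℕ) (K j : ℕ) : (word a K j).length = hc K := by
  induction K generalizing j with
  | zero => simp [word, hc_zero]
  | succ K ih =>
    rw [word, C6_flatMap_length _ (hc K) (fun n => ih _), hc_succ, Nat.mul_comm]

theorem C6_pos_succ (a : ℕ → ℕ) (K : ℕ) (y : Prd Mc) :
    (adic a).pos (K + 1) y = (adic a).pos K y
      + eN (a K) K (((y (K + 1) : Fin (Mc (K + 1))) : ℕ) % qc (K + 1))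
          ((y K : Fin (Mc K)) : ℕ) * hc K := by
  unfold Adic.pos
  rw [Finset.sum_range_succ, hc_eq_hM]
  rfl

/-- The symbol of the coordinate `0` is the letter of the word of level `K` at the position. -/
theorem C6_letter (a : ℕ → ℕ) (K : ℕ) (y : Prd Mc) :
    (word a K (((y K : Fin (Mc K)) : ℕ) % qc K))[(adic a).pos K y]?
      = some (((y 0 : Fin (Mc 0)) : ℕ) % qc 0) := by
  induction K with
  | zero => simp [word, Adic.pos]
  | succ K ih =>
    have hp : (adic a).pos K y < hc K := by
      rw [hc_eq_hM]; exact (adic a).pos_lt K y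
    rw [C6_pos_succ, word, Nat.add_comm ((adic a).pos K y),
      C6_flatMap_get _ (hc K) (fun n => word_length a K _) (Mc K) _ _ (eN_lt (y K).2) hp,
      psym_eN (y K).2]
    exact ih

theorem names (a : ℕ → ℕ) {K m : ℕ} {y : Prd Mc} (h : (adic a).pos K y + m ≤ hc K) :
    (List.range m).map (fun i => (((adic a).fwd^[i] y 0 : Fin (Mc 0)) : ℕ) % qc 0)
      = ((word a K (((y K : Fin (Mc K)) : ℕ) % qc K)).drop ((adic a).pos K y)).take m := by
  apply List.ext_getElem?
  intro i
  rcases lt_or_ge i m with hi | hi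
  · rw [List.getElem?_take_of_lt hi, List.getElem?_drop]
    have h1 : (adic a).pos K y + i < hM Mc K := by rw [← hc_eq_hM]; omega
    obtain ⟨h2, h3⟩ := (adic a).iter_tower h1
    have h4 := C6_letter a K ((adic a).fwd^[i] y)
    rw [h2, h3 K le_rfl] at h4
    rw [h4]
    simp [hi]
  · rw [List.getElem?_eq_none (by simpa using hi), List.getElem?_eq_none]
    rw [List.length_take]
    omega

/-- the coordinates below `K` are determined by the class at level `K` and the position when
`a k = 0` (`K = k + 1`) -/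
theorem C6_low_inj (a : ℕ → ℕ) {k : ℕ} (ha : a k = 0) {z z' : Prd Mc}
    (hcl : ((z (k + 1) : Fin (Mc (k + 1))) : ℕ) % qc (k + 1) / rc (k + 1)
      = ((z' (k + 1) : Fin (Mc (k + 1))) : ℕ) % qc (k + 1) / rc (k + 1))
    (hp : (adic a).pos (k + 1) z = (adic a).pos (k + 1) z') :
    ∀ c ≤ k, z c = z' c := by
  have hz : (adic a).pos k z < hc k := by rw [hc_eq_hM]; exact (adic a).pos_lt k z
  have hz' : (adic a).pos k z' < hc k := by rw [hc_eq_hM]; exact (adic a).pos_lt k z'
  rw [C6_pos_succ, C6_pos_succ, ha] at hp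
  have hpos : 0 < hc k := lt_of_le_of_lt (Nat.zero_le _) hz
  have h1 : (adic a).pos k z = (adic a).pos k z' := by
    have := congrArg (fun t => t % hc k) hp
    simpa [Nat.add_mul_mod_self_right, Nat.mod_eq_of_lt hz, Nat.mod_eq_of_lt hz'] using this
  have h2 : eN 0 k (((z (k + 1) : Fin (Mc (k + 1))) : ℕ) % qc (k + 1)) ((z k : Fin (Mc k)) : ℕ)
      = eN 0 k (((z' (k + 1) : Fin (Mc (k + 1))) : ℕ) % qc (k + 1))
          ((z' k : Fin (Mc k)) : ℕ) := by
    have : ∀ u v : ℕ, (adic a).pos k z + u * hc k = (adic a).pos k z' + v * hc k → u = v := by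
      intro u v huv
      rw [h1] at huv
      exact Nat.eq_of_mul_eq_mul_right hpos (Nat.add_left_cancel huv)
    exact this _ _ hp
  rw [eN_low hcl] at h2
  have h3 : ((z k : Fin (Mc k)) : ℕ) = ((z' k : Fin (Mc k)) : ℕ) := by
    have := congrArg (eI 0 k (((z' (k + 1) : Fin (Mc (k + 1))) : ℕ) % qc (k + 1))) h2
    rwa [eI_eN (z k).2, eI_eN (z' k).2] at this
  have h4 : z k = z' k := Fin.ext h3
  intro c hc'
  rcases Nat.lt_or_eq_of_le hc' with h5 | h5
  · exact (adic a).pos_inj (by rw [h4]) h1 c h5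
  · subst h5; exact h4

/-- when `a k = 0` the scenery only depends on the class and on the position -/
theorem low_stream (a : ℕ → ℕ) {k : ℕ} (ha : a k = 0) {y y' : Prd Mc}
    (hcl : ((y (k + 1) : Fin (Mc (k + 1))) : ℕ) % qc (k + 1) / rc (k + 1)
      = ((y' (k + 1) : Fin (Mc (k + 1))) : ℕ) % qc (k + 1) / rc (k + 1))
    (hp : (adic a).pos (k + 1) y = (adic a).pos (k + 1) y')
    {i : ℕ} (hi : (adic a).pos (k + 1) y + i < hc (k + 1)) :
    ∀ c ≤ k, (adic a).fwd^[i] y c = (adic a).fwd^[i] y' c := by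
  rw [hc_eq_hM] at hi
  obtain ⟨h1, h2⟩ := (adic a).iter_tower hi
  obtain ⟨h3, h4⟩ := (adic a).iter_tower (hp ▸ hi)
  apply C6_low_inj a ha
  · rw [h2 (k + 1) le_rfl, h4 (k + 1) le_rfl]; exact hcl
  · rw [h1, h3, hp]

end Pool.Agent.KAut
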