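import Pool.Agent.Work.MP_2cfc43_lc.DDefs

/-!
# Part D2: analytic sets have the Baire property; the permutation group

The envelope `hull S` of a set with respect to the Baire property, and the Souslin operation.
-/

namespace Pool.Agent.KAut

open Topology Set Filter MeasureTheory

namespace BP

variable {X : Type*} [TopologicalSpace X]

/-- The points at which `S` is nowhere meager. -/
def core (S : Set X) : Set X := {x | ∀ U, IsOpen U → x ∈ U → ¬ IsMeagre (S ∩ U)}

/-- The envelope of `S`. -/
def hull (S : Set X) : Set X := core S ∪ S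

theorem subset_hull (S : Set X) : S ⊆ hull S := subset_union_right

theorem core_subset_closure (S : Set X) : core S ⊆ closure S := by
  intro x hx
  by_contra h
  refine hx _ isClosed_closure.isOpen_compl h ?_
  have e : S ∩ (closure S)ᶜ = ∅ := by
    ext y
    simp only [mem_inter_iff, mem_compl_iff, mem_empty_iff_false, iff_false, not_and, not_not]
    exact fun h => subset_closure h
  rw [e]; exact IsMeagre.empty

theorem hull_subset_closure (S : Set X) : hull S ⊆ closure S :=
  union_subset (core_subset_closure S) subset_closure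

theorem isClosed_core (S : Set X) : IsClosed (core S) := by
  rw [← isOpen_compl_iff, isOpen_iff_forall_mem_open]
  intro x hx
  simp only [core, mem_compl_iff, mem_ofPred_eq, not_forall, not_not] at hx
  obtain ⟨U, hU, hxU, hm⟩ := hx
  refine ⟨U, fun y hy h => h U hU hy hm, hU, hxU⟩

theorem isMeagre_diff_core [SecondCountableTopology X] (S : Set X) : IsMeagre (S \ core S) := by
  obtain ⟨b, hb, -, hbase⟩ := TopologicalSpace.exists_countable_basis X
  have h1 : S \ core S ⊆ ⋃ U : {U : Set X // U ∈ b ∧ IsMeagre (S ∩ U)}, S ∩ U.1 := by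
    rintro x ⟨hxS, hx⟩
    simp only [core, mem_ofPred_eq, not_forall, not_not] at hx
    obtain ⟨U, hU, hxU, hm⟩ := hx
    obtain ⟨V, hV, hxV, hVU⟩ := hbase.exists_subset_of_mem_open hxU hU
    exact mem_iUnion.2 ⟨⟨V, hV, hm.mono (inter_subset_inter_right S hVU)⟩, hxS, hxV⟩
  have h2 : Countable {U : Set X // U ∈ b ∧ IsMeagre (S ∩ U)} :=
    (hb.mono fun U hU => hU.1).to_subtype
  exact (isMeagre_iUnion fun U => U.2.2).mono h1

theorem bp_hull [SecondCountableTopology X] (S : Set X) : BaireMeasurableSet (hull S) := by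
  have e : hull S = core S ∪ S \ core S := by
    rw [union_sdiff_self]; rfl
  rw [e]
  exact (isClosed_core S).isOpen_compl.baireMeasurableSet.of_compl.union
    (isMeagre_diff_core S).baireMeasurableSet

theorem isMeagre_hull_diff {S B : Set X} (hB : BaireMeasurableSet B) (h : S ⊆ B)
    (hS : BaireMeasurableSet (core S)) : IsMeagre (hull S \ B) := by
  have e : hull S \ B ⊆ core S \ B := by
    rintro x ⟨h1 | h1, h2⟩
    · exact ⟨h1, h2⟩
    · exact absurd (h h1) h2
  refine IsMeagre.mono e ?_
  by_contra hm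
  obtain ⟨U, hU, hEU⟩ := (hS.diff hB).residualEq_isOpen
  have h3 : IsMeagre ((core S \ B) \ U) := by
    show _ ∈ residual X
    filter_upwards [hEU] with x hx
    intro h4
    exact h4.2 ((iff_of_eq hx).1 h4.1)
  have h4 : ((core S \ B) ∩ U).Nonempty := by
    apply nonempty_of_not_isMeagre
    intro h5
    apply hm
    have := h5.union h3
    rwa [inter_union_sdiff] at this
  obtain ⟨x, ⟨h5, _⟩, h6⟩ := h4
  refine h5 U hU h6 ?_
  show _ ∈ residual X
  filter_upwards [hEU] with y hy
  rintro ⟨h7, h8⟩
  exact ((iff_of_eq hy).2 h8).2 (h h7)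

/-- The image of a cylinder. -/
def cyl (f : (ℕ → ℕ) → X) (l : List ℕ) : Set X :=
  f '' {y | ∀ i (h : i < l.length), y i = l[i]}

theorem cyl_nil (f : (ℕ → ℕ) → X) : cyl f [] = range f := by
  unfold cyl
  rw [← image_univ]
  congr 1
  ext y
  simp

theorem cyl_subset (f : (ℕ → ℕ) → X) (l : List ℕ) : cyl f l ⊆ ⋃ n, cyl f (l ++ [n]) := by
  rintro x ⟨y, hy, rfl⟩
  refine mem_iUnion.2 ⟨y l.length, y, ?_, rfl⟩
  intro i hi
  rw [List.length_append, List.length_singleton] at hi
  rcases Nat.lt_succ_iff_lt_or_eq.1 hi with h | rfl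
  · rw [List.getElem_append_left h]
    exact hy i h
  · simp

end BP

open BP

/-- Analytic sets have the Baire property. -/
theorem analyticSet_bp {X : Type*} [TopologicalSpace X] [T2Space X] [SecondCountableTopology X]
    {A : Set X} (hA : AnalyticSet A) : BaireMeasurableSet A := by
  rw [AnalyticSet] at hA
  rcases hA with rfl | ⟨f, hf, rfl⟩
  · exact isOpen_empty.baireMeasurableSet
  have hc : ∀ l, BaireMeasurableSet (core (cyl f l)) := fun l =>
    (isClosed_core _).isOpen_compl.baireMeasurableSet.of_compl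
  have hM : ∀ l, IsMeagre (hull (cyl f l) \ ⋃ n, hull (cyl f (l ++ [n]))) := fun l =>
    isMeagre_hull_diff (BaireMeasurableSet.iUnion fun n => bp_hull _)
      ((cyl_subset f l).trans (iUnion_mono fun n => subset_hull _)) (hc l)
  have hM' : IsMeagre (⋃ l : List ℕ, hull (cyl f l) \ ⋃ n, hull (cyl f (l ++ [n]))) :=
    isMeagre_iUnion hM
  set M := ⋃ l : List ℕ, hull (cyl f l) \ ⋃ n, hull (cyl f (l ++ [n])) with hMdef
  have key : hull (cyl f []) \ range f ⊆ M := by
    rintro x ⟨hx, hxr⟩
    by_contra hxM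
    have step : ∀ l, x ∈ hull (cyl f l) → ∃ n, x ∈ hull (cyl f (l ++ [n])) := by
      intro l hl
      by_contra h
      exact hxM (mem_iUnion.2 ⟨l, hl, fun h' => h (mem_iUnion.1 h')⟩)
    choose! nx hnx using step
    let L : ℕ → List ℕ := fun k => Nat.rec [] (fun _ l => l ++ [nx l]) k
    have hL : ∀ k, x ∈ hull (cyl f (L k)) := by
      intro k
      induction k with
      | zero => exact hx
      | succ k ih => exact hnx _ ih
    have hlen : ∀ k, (L k).length = k := by
      intro k
      induction k with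
      | zero => rfl
      | succ k ih =>
        show (L k ++ [nx (L k)]).length = k + 1
        rw [List.length_append, ih, List.length_singleton]
    let y : ℕ → ℕ := fun k => nx (L k)
    have hget : ∀ k i (h : i < (L k).length), (L k)[i] = y i := by
      intro k
      induction k with
      | zero => intro i h; exact absurd h (Nat.not_lt_zero i)
      | succ k ih =>
        intro i h
        have e : L (k + 1) = L k ++ [nx (L k)] := rfl
        have hi : i < k + 1 := by rw [← hlen (k + 1)]; exact h
        simp only [e]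
        rcases Nat.lt_succ_iff_lt_or_eq.1 hi with h1 | h1
        · rw [List.getElem_append_left (by rw [hlen]; exact h1)]
          exact ih i _
        · subst h1
          rw [List.getElem_append_right (by rw [hlen])]
          simp [y]
    have hxy : x = f y := by
      by_contra hne
      obtain ⟨V, W, hV, hW, hxV, hyW, hVW⟩ := t2_separation hne
      have h1 : f ⁻¹' W ∈ 𝓝 y := hf.continuousAt (hW.mem_nhds hyW)
      obtain ⟨k, hk⟩ : ∃ k, {z : ℕ → ℕ | ∀ i < k, z i = y i} ⊆ f ⁻¹' W := by
        rw [nhds_pi, Filter.mem_pi] at h1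
        obtain ⟨I, hI, t, ht, hsub⟩ := h1
        obtain ⟨k, hk⟩ := hI.bddAbove
        refine ⟨k + 1, fun z hz => hsub fun i hi => ?_⟩
        have h2 : z i = y i := hz i (Nat.lt_succ_of_le (hk hi))
        rw [h2]
        exact mem_of_mem_nhds (ht i)
      have h2 : cyl f (L k) ⊆ W := by
        rintro _ ⟨z, hz, rfl⟩
        refine hk fun i hi => ?_
        have hi' : i < (L k).length := by rw [hlen]; exact hi
        rw [hz i hi', hget]
      have h3 : x ∈ closure W := closure_mono h2 (hull_subset_closure _ (hL k))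
      exact (hVW.closure_right hV).le_bot ⟨hxV, h3⟩
    exact hxr (hxy ▸ mem_range_self y)
  have e : range f =ᵇ hull (cyl f []) := by
    have h0 : range f ⊆ hull (cyl f []) := by
      rw [← cyl_nil]; exact subset_hull _
    rw [Filter.eventuallyEq_set]
    filter_upwards [hM'] with x hx
    exact ⟨fun h => h0 h, fun h => by_contra fun h' => hx (key ⟨h, h'⟩)⟩
  exact (bp_hull _).congr e.symm

/-! ### The group of permutations -/

/-- The embedding. -/
def permEmb (g : Equiv.Perm ℕ) : (ℕ → ℕ) × (ℕ → ℕ) := ((g : ℕ → ℕ), (g.symm : ℕ → ℕ))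

theorem permEmb_range : range permEmb =
    {p : (ℕ → ℕ) × (ℕ → ℕ) | (∀ n, p.2 (p.1 n) = n) ∧ ∀ n, p.1 (p.2 n) = n} := by
  ext p
  constructor
  · rintro ⟨g, rfl⟩
    exact ⟨fun n => g.symm_apply_apply n, fun n => g.apply_symm_apply n⟩
  · rintro ⟨h1, h2⟩
    exact ⟨⟨p.1, p.2, h1, h2⟩, rfl⟩

theorem isClosedEmbedding_permEmb : IsClosedEmbedding permEmb := by
  refine ⟨⟨⟨rfl⟩, fun g g' h => Equiv.ext fun n => congrFun (congrArg Prod.fst h) n⟩, ?_⟩
  rw [permEmb_range]
  have h : ∀ n : ℕ, Continuous fun p : (ℕ → ℕ) × (ℕ → ℕ) => p.2 (p.1 n) := by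
    intro n
    have h1 : Continuous fun q : (ℕ → ℕ) × ℕ => q.1 q.2 := by
      refine continuous_prod_of_discrete_right.2 fun b => ?_
      exact continuous_apply b
    exact h1.comp (continuous_snd.prodMk ((continuous_apply n).comp continuous_fst))
  have h' : ∀ n : ℕ, Continuous fun p : (ℕ → ℕ) × (ℕ → ℕ) => p.1 (p.2 n) := by
    intro n
    have h1 : Continuous fun q : (ℕ → ℕ) × ℕ => q.1 q.2 := by
      refine continuous_prod_of_discrete_right.2 fun b => ?_
      exact continuous_apply b
    exact h1.comp (continuous_fst.prodMk ((continuous_apply n).comp continuous_snd))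
  have e : {p : (ℕ → ℕ) × (ℕ → ℕ) | (∀ n, p.2 (p.1 n) = n) ∧ ∀ n, p.1 (p.2 n) = n} =
      (⋂ n, {p | p.2 (p.1 n) = n}) ∩ ⋂ n, {p | p.1 (p.2 n) = n} := by
    ext p; simp
  rw [e]
  exact (isClosed_iInter fun n => isClosed_eq (h n) continuous_const).inter
    (isClosed_iInter fun n => isClosed_eq (h' n) continuous_const)

instance perm_polish : PolishSpace (Equiv.Perm ℕ) := isClosedEmbedding_permEmb.polishSpace

theorem perm_tendsto_iff {gs : ℕ → Equiv.Perm ℕ} {g : Equiv.Perm ℕ} :
    Tendsto gs atTop (𝓝 g) ↔ ∀ a : ℕ, ∀ᶠ i in atTop, gs i a = g a ∧ (gs i).symm a = g.symm a := by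
  rw [isClosedEmbedding_permEmb.isEmbedding.tendsto_nhds_iff, Prod.tendsto_iff, tendsto_pi_nhds,
    tendsto_pi_nhds, ← forall_and]
  refine forall_congr' fun a => ?_
  rw [eventually_and]
  have h : ∀ (u : ℕ → ℕ) (c : ℕ), Tendsto u atTop (𝓝 c) ↔ ∀ᶠ i in atTop, u i = c := by
    intro u c
    rw [nhds_discrete, tendsto_pure]
  exact and_congr (h _ _) (h _ _)

end Pool.Agent.KAut
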