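import Pool.Agent.Work.MP_2cfc43_lc.D1
import Pool.Agent.Work.MP_2cfc43_lc.D2

/-!
# Part D3: the limit property (Vaught transforms)
-/

namespace Pool.Agent.KAut

open Topology Set Filter MeasureTheory

namespace Vau

/-- A set with the Baire property is locally constant relative to a comeager set. -/
theorem locally_constant {X : Type*} [TopologicalSpace X] {A : Set X} (hA : BaireMeasurableSet A) :
    ∃ C ∈ residual X, ∀ x ∈ C, ∀ᶠ x' in 𝓝 x, x' ∈ C → (x' ∈ A ↔ x ∈ A) := by
  obtain ⟨O, hO, hAO⟩ := hA.residualEq_isOpen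
  have h1 : O ∪ interior Oᶜ ∈ residual X := by
    refine residual_of_dense_open (hO.union isOpen_interior) ?_
    rw [interior_compl]
    intro x
    by_cases hx : x ∈ closure O
    · exact closure_mono subset_union_left hx
    · exact subset_closure (Or.inr hx)
  refine ⟨{x | (x ∈ A ↔ x ∈ O) ∧ x ∈ O ∪ interior Oᶜ}, ?_, ?_⟩
  · filter_upwards [hAO, h1] with x hx hx'
    exact ⟨iff_of_eq hx, hx'⟩
  · rintro x ⟨hx1, hx2⟩
    rcases hx2 with hx2 | hx2
    · filter_upwards [hO.mem_nhds hx2] with x' hx' hC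
      exact ⟨fun _ => hx1.2 hx2, fun _ => hC.1.2 hx'⟩
    · filter_upwards [isOpen_interior.mem_nhds hx2] with x' hx' hC
      have h3 : x ∉ O := interior_subset hx2
      have h4 : x' ∉ O := interior_subset hx'
      exact ⟨fun h => absurd (hC.1.1 h) h4, fun h => absurd (hx1.1 h) h3⟩

/-- The basic clopen set of permutations given by a finite list of values. -/
def U (l : List (ℕ × ℕ)) : Set (Equiv.Perm ℕ) := {g | ∀ p ∈ l, g p.1 = p.2}

theorem continuous_apply_perm (a : ℕ) : Continuous fun g : Equiv.Perm ℕ => g a :=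
  (continuous_apply a).comp (continuous_fst.comp isClosedEmbedding_permEmb.continuous)

theorem continuous_symm_apply_perm (a : ℕ) : Continuous fun g : Equiv.Perm ℕ => g.symm a :=
  (continuous_apply a).comp (continuous_snd.comp isClosedEmbedding_permEmb.continuous)

theorem isClopen_U (l : List (ℕ × ℕ)) : IsClopen (U l) := by
  induction l with
  | nil =>
    have : U [] = univ := by ext g; simp [U]
    rw [this]; exact isClopen_univ
  | cons p l ih =>
    have : U (p :: l) = {g | g p.1 = p.2} ∩ U l := by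
      ext g; simp [U]
    rw [this]
    exact ((isClopen_discrete {p.2}).preimage (continuous_apply_perm p.1)).inter ih

/-- Every neighbourhood of `g` contains some `U l` around `g`. -/
theorem exists_U {O : Set (Equiv.Perm ℕ)} (hO : IsOpen O) {g : Equiv.Perm ℕ} (hg : g ∈ O) :
    ∃ l, g ∈ U l ∧ U l ⊆ O := by
  by_contra hcon
  push Not at hcon
  let L : ℕ → List (ℕ × ℕ) := fun n =>
    (List.range n).map (fun a => (a, g a)) ++ (List.range n).map (fun a => (g.symm a, a))
  have h1 : ∀ n, g ∈ U (L n) := by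
    intro n p hp
    simp only [L, List.mem_append, List.mem_map] at hp
    rcases hp with ⟨a, -, rfl⟩ | ⟨a, -, rfl⟩
    · rfl
    · simp
  have h2 : ∀ n, ∃ k, k ∈ U (L n) ∧ k ∉ O := by
    intro n
    have := hcon (L n) (h1 n)
    rw [not_subset] at this
    obtain ⟨k, hk, hk'⟩ := this
    exact ⟨k, hk, hk'⟩
  choose k hk hkO using h2
  have h3 : Tendsto k atTop (𝓝 g) := by
    rw [perm_tendsto_iff]
    intro a
    filter_upwards [eventually_gt_atTop a] with i hi
    have e1 : k i a = g a := by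
      refine hk i (a, g a) ?_
      simp only [L, List.mem_append, List.mem_map, List.mem_range]
      exact Or.inl ⟨a, hi, rfl⟩
    have e2 : k i (g.symm a) = a := by
      refine hk i (g.symm a, a) ?_
      simp only [L, List.mem_append, List.mem_map, List.mem_range]
      exact Or.inr ⟨a, hi, rfl⟩
    refine ⟨e1, ?_⟩
    rw [Equiv.symm_apply_eq]; exact e2.symm
  obtain ⟨i, hi⟩ := (h3.eventually_mem (hO.mem_nhds hg)).exists
  exact hkO i hi

/-- Right multiplication. -/
def rmul (h : Equiv.Perm ℕ) : Equiv.Perm ℕ → Equiv.Perm ℕ := fun g => g * h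

theorem continuous_rmul (h : Equiv.Perm ℕ) : Continuous (rmul h) := by
  refine continuous_induced_rng.2 ?_
  refine Continuous.prodMk ?_ ?_
  · refine continuous_pi fun a => ?_
    exact continuous_apply_perm (h a)
  · refine continuous_pi fun a => ?_
    have : (fun g : Equiv.Perm ℕ => (rmul h g).symm a) = fun g => h.symm (g.symm a) := by
      funext g
      simp [rmul, Equiv.symm_apply_eq]
    exact (continuous_of_discreteTopology (f := fun b : ℕ => h.symm b)).comp
      (continuous_symm_apply_perm a)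

/-- Right multiplication as a homeomorphism. -/
def rhomeo (h : Equiv.Perm ℕ) : Equiv.Perm ℕ ≃ₜ Equiv.Perm ℕ where
  toFun := rmul h
  invFun := rmul h⁻¹
  left_inv g := by simp [rmul]
  right_inv g := by simp [rmul]
  continuous_toFun := continuous_rmul h
  continuous_invFun := continuous_rmul h⁻¹

theorem residual_rmul {p : Equiv.Perm ℕ → Prop} (h : Equiv.Perm ℕ) :
    (∀ᶠ g in residual (Equiv.Perm ℕ), p (g * h)) ↔ ∀ᶠ g in residual (Equiv.Perm ℕ), p g := by
  conv_rhs => rw [← Homeomorph.residual_map_eq (rhomeo h)]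
  rw [eventually_map]
  rfl

section
variable {Y : Type*} [MulAction (Equiv.Perm ℕ) Y]

/-- The Vaught transform. -/
def M (B : ℕ → Set Y) (y : Y) (n : ℕ) (l : List (ℕ × ℕ)) : Prop :=
  ∀ᶠ g in residual (Equiv.Perm ℕ), g ∈ U l → g • y ∈ B n

/-- Pull a list back. -/
def pull (h : Equiv.Perm ℕ) (l : List (ℕ × ℕ)) : List (ℕ × ℕ) :=
  l.map fun p => (h.symm p.1, p.2)

theorem mem_U_pull {g h : Equiv.Perm ℕ} {l : List (ℕ × ℕ)} : g * h ∈ U (pull h l) ↔ g ∈ U l := by
  simp only [U, pull, List.mem_map, mem_ofPred_eq, forall_exists_index, and_imp,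
    forall_apply_eq_imp_iff₂, Equiv.Perm.mul_apply, Equiv.apply_symm_apply]

theorem M_smul (B : ℕ → Set Y) (y : Y) (h : Equiv.Perm ℕ) (n : ℕ) (l : List (ℕ × ℕ)) :
    M B (h • y) n l ↔ M B y n (pull h l) := by
  unfold M
  rw [← residual_rmul h (p := fun g => g ∈ U (pull h l) → g • y ∈ B n)]
  simp only [mem_U_pull, mul_smul]

end

section
variable {Y : Type*} [TopologicalSpace Y] [PolishSpace Y] [MeasurableSpace Y] [BorelSpace Y]
  [MulAction (Equiv.Perm ℕ) Y]

omit [TopologicalSpace Y] [PolishSpace Y] [BorelSpace Y] in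
theorem measurable_orbit (hact : Measurable (fun p : Equiv.Perm ℕ × Y => p.1 • p.2)) (y : Y) :
    Measurable fun g : Equiv.Perm ℕ => g • y :=
  hact.comp (measurable_id.prodMk measurable_const)

omit [TopologicalSpace Y] [PolishSpace Y] [BorelSpace Y] in
theorem M_mono (hact : Measurable (fun p : Equiv.Perm ℕ × Y => p.1 • p.2)) (B : ℕ → Set Y)
    (hB : ∀ n, MeasurableSet (B n)) {y y' : Y} {n : ℕ} (h : ∀ l, M B y n l → M B y' n l) :
    ∀ᶠ g in residual (Equiv.Perm ℕ), g • y ∈ B n → g • y' ∈ B n := by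
  obtain ⟨O, hO, hAO⟩ := (measurable_orbit hact y (hB n)).residualEq_isOpen
  have h1 : ∀ l, U l ⊆ O → M B y n l := by
    intro l hl
    unfold M
    filter_upwards [hAO] with g hg hgl
    exact (iff_of_eq hg).2 (hl hgl)
  have h2 : ∀ᶠ g in residual (Equiv.Perm ℕ), ∀ l, U l ⊆ O → g ∈ U l → g • y' ∈ B n := by
    rw [eventually_countable_forall]
    intro l
    by_cases hl : U l ⊆ O
    · filter_upwards [h l (h1 l hl)] with g hg _ using hg
    · exact Eventually.of_forall fun g h => absurd h hl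
  filter_upwards [hAO, h2] with g hg hg2 hgy
  obtain ⟨l, hl, hlO⟩ := exists_U hO ((iff_of_eq hg).1 hgy)
  exact hg2 l hlO hl

omit [TopologicalSpace Y] [PolishSpace Y] [BorelSpace Y] in
theorem eq_of_M (hact : Measurable (fun p : Equiv.Perm ℕ × Y => p.1 • p.2)) (B : ℕ → Set Y)
    (hB : ∀ n, MeasurableSet (B n)) (hsep : ∀ y y' : Y, (∀ n, y ∈ B n ↔ y' ∈ B n) → y = y')
    {y y' : Y} (h : ∀ n l, M B y n l ↔ M B y' n l) : y = y' := by
  have h1 : ∀ᶠ g in residual (Equiv.Perm ℕ), ∀ n, (g • y ∈ B n ↔ g • y' ∈ B n) := by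
    rw [eventually_countable_forall]
    intro n
    filter_upwards [M_mono hact B hB (fun l => (h n l).1), M_mono hact B hB (fun l => (h n l).2)]
      with g h1 h2 using ⟨h1, h2⟩
  obtain ⟨g, hg⟩ := (dense_of_mem_residual h1).nonempty
  have := hsep _ _ hg
  exact smul_left_cancel g this

omit [TopologicalSpace Y] [PolishSpace Y] [BorelSpace Y] in
theorem bp_M (hact : Measurable (fun p : Equiv.Perm ℕ × Y => p.1 • p.2))
    {X : Type*} [TopologicalSpace X] [SecondCountableTopology X] [MeasurableSpace X] [BorelSpace X]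
    (F : X → Y) (hF : Measurable F) (B : ℕ → Set Y)
    (hB : ∀ n, MeasurableSet (B n)) (n : ℕ) (l : List (ℕ × ℕ)) :
    BaireMeasurableSet {x | M B (F x) n l} := by
  have hm : Measurable fun p : X × Equiv.Perm ℕ => p.2 • F p.1 :=
    hact.comp (measurable_snd.prodMk (hF.comp measurable_fst))
  obtain ⟨O, hO, hAO⟩ := (hm (hB n)).residualEq_isOpen
  have h1 : ∀ᶠ x in residual X, ∀ᶠ g in residual (Equiv.Perm ℕ), (g • F x ∈ B n ↔ (x, g) ∈ O) := by
    have h0 := ku (C := {p : X × Equiv.Perm ℕ | p.2 • F p.1 ∈ B n ↔ p ∈ O}) (by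
      filter_upwards [hAO] with p hp
      exact iff_of_eq hp)
    exact h0
  have h2 : {x | M B (F x) n l} =ᵇ
      ⋂ l' : {l' // (U l').Nonempty}, {x | ∃ g ∈ U l'.1, (g ∈ U l → (x, g) ∈ O)} := by
    filter_upwards [h1] with x hx
    refine propext ?_
    show M B (F x) n l ↔ x ∈ ⋂ l' : {l' // (U l').Nonempty}, {x | ∃ g ∈ U l'.1, (g ∈ U l → (x, g) ∈ O)}
    simp only [mem_iInter, mem_ofPred_eq]
    constructor
    · rintro hM ⟨l', hl'⟩
      have h3 : {g | g ∈ U l → (x, g) ∈ O} ∈ residual (Equiv.Perm ℕ) := by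
        filter_upwards [hx, hM] with g h4 h5 h6
        exact h4.1 (h5 h6)
      obtain ⟨g, hg1, hg2⟩ := (dense_of_mem_residual h3).inter_open_nonempty _ (isClopen_U l').isOpen hl'
      exact ⟨g, hg1, hg2⟩
    · intro h3
      have h4 : {g | g ∈ U l → (x, g) ∈ O} ∈ residual (Equiv.Perm ℕ) := by
        refine residual_of_dense_open ?_ ?_
        · have e : {g | g ∈ U l → (x, g) ∈ O} = (U l)ᶜ ∪ (fun g => (x, g)) ⁻¹' O := by
            ext g
            simp only [mem_ofPred_eq, mem_union, mem_compl_iff, mem_preimage, imp_iff_not_or]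
          rw [e]
          exact (isClopen_U l).compl.isOpen.union (hO.preimage (by fun_prop))
        · rw [dense_iff_inter_open]
          intro V hV hVne
          obtain ⟨g, hg⟩ := hVne
          obtain ⟨l', hl', hlV⟩ := exists_U hV hg
          obtain ⟨k, hk1, hk2⟩ := h3 ⟨l', g, hl'⟩
          exact ⟨k, hlV hk1, hk2⟩
      unfold M
      filter_upwards [hx, h4] with g h5 h6 h7
      exact h5.2 (h6 h7)
  refine BaireMeasurableSet.congr ?_ h2.symm
  refine BaireMeasurableSet.iInter fun l' => ?_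
  refine IsOpen.baireMeasurableSet ?_
  have e : {x | ∃ g ∈ U l'.1, (g ∈ U l → (x, g) ∈ O)} =
      ⋃ g ∈ U l'.1, (fun x => (x, g)) ⁻¹' (O ∪ (univ ×ˢ (U l)ᶜ)) := by
    ext x
    simp only [mem_ofPred_eq, mem_iUnion, mem_preimage, mem_union, mem_prod, mem_univ, true_and,
      mem_compl_iff, exists_prop, imp_iff_not_or]
    constructor
    · rintro ⟨g, h1, h2 | h2⟩
      · exact ⟨g, h1, Or.inr h2⟩
      · exact ⟨g, h1, Or.inl h2⟩
    · rintro ⟨g, h1, h2 | h2⟩
      · exact ⟨g, h1, Or.inr h2⟩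
      · exact ⟨g, h1, Or.inl h2⟩
  rw [e]
  refine isOpen_biUnion fun g _ => ?_
  exact (hO.union (isOpen_univ.prod (isClopen_U l).compl.isOpen)).preimage (by fun_prop)

end

end Vau

section
variable {Y : Type*} [TopologicalSpace Y] [PolishSpace Y] [MeasurableSpace Y] [BorelSpace Y]
  [MulAction (Equiv.Perm ℕ) Y]

/-- The limit property: on a comeager set, limits of translated pairs are translated pairs. -/
theorem limit_property
    (hact : Measurable (fun p : Equiv.Perm ℕ × Y => p.1 • p.2))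
    (F : (ℕ → ℤ) → Y) (hF : Measurable F) :
    ∃ C₀ ∈ residual (ℕ → ℤ), ∀ (x x' : ℕ → ℤ) (xs xs' : ℕ → ℕ → ℤ) (gs : ℕ → Equiv.Perm ℕ)
      (g : Equiv.Perm ℕ), x ∈ C₀ → x' ∈ C₀ → (∀ i, xs i ∈ C₀) → (∀ i, xs' i ∈ C₀) →
      Tendsto xs atTop (𝓝 x) → Tendsto xs' atTop (𝓝 x') → (∀ i, gs i • F (xs i) = F (xs' i)) →
      Tendsto gs atTop (𝓝 g) → g • F x = F x' := by
  obtain ⟨B, hB, hsep⟩ := exists_seq_separating Y (p := MeasurableSet) MeasurableSet.empty univ
  have hsep' : ∀ y y' : Y, (∀ n, y ∈ B n ↔ y' ∈ B n) → y = y' :=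
    fun y y' h => hsep y (mem_univ _) y' (mem_univ _) h
  have h1 : ∀ q : ℕ × List (ℕ × ℕ), ∃ C ∈ residual (ℕ → ℤ), ∀ x ∈ C, ∀ᶠ x' in 𝓝 x,
      x' ∈ C → (Vau.M B (F x') q.1 q.2 ↔ Vau.M B (F x) q.1 q.2) :=
    fun q => Vau.locally_constant (Vau.bp_M hact F hF B hB q.1 q.2)
  choose C hC hC' using h1
  refine ⟨⋂ q, C q, countable_iInter_mem.2 hC, ?_⟩
  intro x x' xs xs' gs g hx hx' hxs hxs' hlim hlim' hgs hg
  have key : ∀ (z : ℕ → ℤ) (zs : ℕ → ℕ → ℤ), z ∈ ⋂ q, C q → (∀ i, zs i ∈ ⋂ q, C q) →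
      Tendsto zs atTop (𝓝 z) → ∀ n l, ∀ᶠ i in atTop,
        (Vau.M B (F (zs i)) n l ↔ Vau.M B (F z) n l) := by
    intro z zs hz hzs ht n l
    filter_upwards [ht.eventually (hC' (n, l) z (mem_iInter.1 hz (n, l)))] with i hi
    exact hi (mem_iInter.1 (hzs i) (n, l))
  refine Vau.eq_of_M hact B hB hsep' fun n l => ?_
  rw [Vau.M_smul]
  have hpull : ∀ᶠ i in atTop, Vau.pull (gs i) l = Vau.pull g l := by
    rw [perm_tendsto_iff] at hg
    have : ∀ᶠ i in atTop, ∀ p ∈ l, (gs i).symm p.1 = g.symm p.1 := by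
      induction l with
      | nil => simp
      | cons p l ih =>
        filter_upwards [ih, hg p.1] with i h1 h2
        intro q hq
        rcases List.mem_cons.1 hq with rfl | hq
        · exact h2.2
        · exact h1 q hq
    filter_upwards [this] with i hi
    unfold Vau.pull
    refine List.map_congr_left fun p hp => ?_
    rw [hi p hp]
  obtain ⟨i, hi1, hi2, hi3⟩ := ((key x xs hx hxs hlim n (Vau.pull g l)).and
    ((key x' xs' hx' hxs' hlim' n l).and hpull)).exists
  rw [← hi1, ← hi2, ← hgs i, Vau.M_smul, hi3]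

end

end Pool.Agent.KAut
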