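import Pool.Agent.Work.MP_2cfc43_lc.D4

/-! MP_2cfc43_lc, part D, D7: the main theorem, from the limit property. -/

namespace Pool.Agent.KAut

open Topology Set Filter MeasureTheory

section
variable {Y : Type*} [MulAction (Equiv.Perm ℕ) Y]

/-- one state of the construction -/
structure St (F : (ℕ → ℤ) → Y) (C : Set (ℕ → ℤ)) where
  x : ℕ → ℤ
  x' : ℕ → ℤ
  g : Equiv.Perm ℕ
  n : ℕ
  hx : x ∈ C
  hx' : x' ∈ C
  hg : g • F x = F x'

/-- one step of the construction -/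
theorem exists_step (F : (ℕ → ℤ) → Y) {C : Set (ℕ → ℤ)}
    (h1 : ∀ z ∈ C, ∀ᶠ w in residual ((ℕ → Bool) × (ℕ → Bool)), mv z w.1 w.2 ∈ C)
    (h2 : ∀ z ∈ C, ∀ (E : Finset ℕ) (n : ℕ) (t : ℕ → ℤ) (s : ℕ → Bool), Star F E n t s →
        (∀ i < n, z i = t i) → ∀ᶠ w in residual ((ℕ → Bool) × (ℕ → Bool)),
          (∀ i < n, w.1 i = s i ∧ w.2 i = s i) →
            ∃ g : Equiv.Perm ℕ, (∀ a ∈ E, g a = a) ∧ g • F z = F (mv z w.1 w.2))
    (h3 : ∀ z ∈ C, ∀ E : Finset ℕ, ∃ (n : ℕ) (s : ℕ → Bool), Star F E n z s)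
    (O : ℕ → Set ((ℕ → ℤ) × (ℕ → ℤ))) (hOo : ∀ n, IsOpen (O n)) (hOd : ∀ n, Dense (O n))
    (k : ℕ) (σ : St F C) :
    ∃ τ : St F C, σ.n < τ.n ∧ (∀ i < σ.n, τ.x i = σ.x i) ∧ (∀ i < σ.n, τ.x' i = σ.x' i) ∧
      (∀ u u' : ℕ → ℤ, (∀ i < τ.n, u i = τ.x i) → (∀ i < τ.n, u' i = τ.x' i) → (u, u') ∈ O k) ∧
      (∀ a ≤ k, τ.g a = σ.g a) ∧ (∀ a ≤ k, τ.g.symm a = σ.g.symm a) := by
  classical
  set E : Finset ℕ := Finset.range (k + 1) ∪ (Finset.range (k + 1)).image σ.g.symm with hE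
  set E' : Finset ℕ := Finset.range (k + 1) ∪ (Finset.range (k + 1)).image σ.g with hE'
  obtain ⟨n1, s, hS⟩ := h3 σ.x σ.hx E
  obtain ⟨n2, s', hS'⟩ := h3 σ.x' σ.hx' E'
  set n := max σ.n (max n1 n2) with hn
  have hSn : Star F E n σ.x s := star_mono (by omega) hS
  have hSn' : Star F E' n σ.x' s' := star_mono (by omega) hS'
  -- the box
  obtain ⟨⟨u, u'⟩, ⟨hu, hu'⟩, huO⟩ := (hOd k).inter_open_nonempty
    ({z : ℕ → ℤ | ∀ i < n, z i = σ.x i} ×ˢ {z : ℕ → ℤ | ∀ i < n, z i = σ.x' i})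
    ((isOpen_cyl n _).prod (isOpen_cyl n _)) ⟨(σ.x, σ.x'), fun _ _ => rfl, fun _ _ => rfl⟩
  obtain ⟨U, U', hUo, hUo', huU, huU', hbox⟩ := isOpen_prod_iff.1 (hOo k) u u' huO
  obtain ⟨m1, hm1⟩ := cyl_of_isOpen hUo huU
  obtain ⟨m2, hm2⟩ := cyl_of_isOpen hUo' huU'
  set m := max (n + 1) (max m1 m2) with hm
  obtain ⟨y, hyC, hym, hyn, κ, hκE, hκ⟩ := movement F h1 h2 σ.hx hSn m u hu
  obtain ⟨y', hyC', hym', hyn', κ', hκE', hκ'⟩ := movement F h1 h2 σ.hx' hSn' m u' hu'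
  have hgy : (κ' * σ.g * κ⁻¹) • F y = F y' := by
    rw [mul_smul, mul_smul, ← hκ, inv_smul_smul, σ.hg, hκ']
  refine ⟨⟨y, y', κ' * σ.g * κ⁻¹, m, hyC, hyC', hgy⟩, ?_, ?_, ?_, ?_, ?_, ?_⟩
  · change σ.n < m
    omega
  · intro i hi
    exact hyn i (by omega)
  · intro i hi
    exact hyn' i (by omega)
  · intro v v' hv hv'
    refine hbox ⟨hm1 v fun i hi => ?_, hm2 v' fun i hi => ?_⟩
    · have him : i < m := by omega
      exact (hv i him).trans (hym i him)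
    · have him : i < m := by omega
      exact (hv' i him).trans (hym' i him)
  · intro a ha
    have haE : a ∈ E := Finset.mem_union_left _ (Finset.mem_range.2 (by omega))
    have hgaE : σ.g a ∈ E' := Finset.mem_union_right _ (Finset.mem_image.2
      ⟨a, Finset.mem_range.2 (by omega), rfl⟩)
    have e1 : κ⁻¹ a = a := by
      rw [Equiv.Perm.inv_eq_iff_eq]
      exact (hκE a haE).symm
    change (κ' * σ.g * κ⁻¹) a = σ.g a
    rw [Equiv.Perm.mul_apply, Equiv.Perm.mul_apply, e1, hκE' _ hgaE]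
  · intro a ha
    have haE : a ∈ E' := Finset.mem_union_left _ (Finset.mem_range.2 (by omega))
    have hgaE : σ.g.symm a ∈ E := Finset.mem_union_right _ (Finset.mem_image.2
      ⟨a, Finset.mem_range.2 (by omega), rfl⟩)
    change (κ' * σ.g * κ⁻¹).symm a = σ.g.symm a
    rw [Equiv.symm_apply_eq]
    have e1 : κ⁻¹ (σ.g.symm a) = σ.g.symm a := by
      rw [Equiv.Perm.inv_eq_iff_eq]
      exact (hκE _ hgaE).symm
    rw [Equiv.Perm.mul_apply, Equiv.Perm.mul_apply, e1, Equiv.apply_symm_apply, hκE' _ haE]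

/-- the limit of a sequence of permutations whose values stabilise -/
theorem exists_limit_perm (gs : ℕ → Equiv.Perm ℕ)
    (h : ∀ k, ∀ a ≤ k, gs (k + 1) a = gs k a)
    (h' : ∀ k, ∀ a ≤ k, (gs (k + 1)).symm a = (gs k).symm a) :
    ∃ g : Equiv.Perm ℕ, ∀ a : ℕ, ∀ k ≥ a, gs k a = g a ∧ (gs k).symm a = g.symm a := by
  have e : ∀ a : ℕ, ∀ k ≥ a, gs k a = gs a a := by
    intro a k hk
    induction k, hk using Nat.le_induction with
    | base => rfl
    | succ k hk ih => rw [h k a hk, ih]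
  have e' : ∀ a : ℕ, ∀ k ≥ a, (gs k).symm a = (gs a).symm a := by
    intro a k hk
    induction k, hk using Nat.le_induction with
    | base => rfl
    | succ k hk ih => rw [h' k a hk, ih]
  refine ⟨⟨fun a => gs a a, fun a => (gs a).symm a, fun a => ?_, fun a => ?_⟩, fun a k hk =>
    ⟨e a k hk, e' a k hk⟩⟩
  · change (gs (gs a a)).symm (gs a a) = a
    have hk1 : max a (gs a a) ≥ gs a a := le_max_right _ _
    have hk2 : max a (gs a a) ≥ a := le_max_left _ _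
    rw [← e' _ _ hk1, Equiv.symm_apply_eq]
    exact (e a _ hk2).symm
  · change gs ((gs a).symm a) ((gs a).symm a) = a
    have hk1 : max a ((gs a).symm a) ≥ (gs a).symm a := le_max_right _ _
    have hk2 : max a ((gs a).symm a) ≥ a := le_max_left _ _
    rw [← e _ _ hk1, ← Equiv.eq_symm_apply]
    exact (e' a _ hk2).symm

/-- the main theorem of part D from the limit property and the local closeness -/
theorem baire_main_aux (F : (ℕ → ℤ) → Y)
    (hlim : ∃ C₀ ∈ residual (ℕ → ℤ), ∀ (x x' : ℕ → ℤ) (xs xs' : ℕ → ℕ → ℤ)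
      (gs : ℕ → Equiv.Perm ℕ)
      (g : Equiv.Perm ℕ), x ∈ C₀ → x' ∈ C₀ → (∀ i, xs i ∈ C₀) → (∀ i, xs' i ∈ C₀) →
      Tendsto xs atTop (𝓝 x) → Tendsto xs' atTop (𝓝 x') → (∀ i, gs i • F (xs i) = F (xs' i)) →
      Tendsto gs atTop (𝓝 g) → g • F x = F x')
    (htend : ∀ {gs : ℕ → Equiv.Perm ℕ} {g : Equiv.Perm ℕ},
      Tendsto gs atTop (𝓝 g) ↔ ∀ a : ℕ, ∀ᶠ i in atTop, gs i a = g a ∧ (gs i).symm a = g.symm a)
    (hstar : ∀ (E : Finset ℕ) (n : ℕ) (t : ℕ → ℤ), ∃ n' ≥ n, ∃ (t' : ℕ → ℤ) (s : ℕ → Bool),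
      (∀ i < n, t' i = t i) ∧ Star F E n' t' s)
    (D : ℕ → Set ((ℕ → ℤ) × (ℕ → ℤ))) (hDo : ∀ n, IsOpen (D n)) (hDd : ∀ n, Dense (D n)) :
    ∃ x x' : ℕ → ℤ, (∀ n, (x, x') ∈ D n) ∧ ∃ g : Equiv.Perm ℕ, g • F x = F x' := by
  obtain ⟨C₀, hC₀, hC₀lim⟩ := hlim
  obtain ⟨C, hC, hCC₀, h1, h2, h3⟩ := good_set F hstar hC₀
  -- a sequence of dense open sets inside `C₀`
  obtain ⟨O, hOo, hOd, hOC⟩ : ∃ O : ℕ → Set (ℕ → ℤ), (∀ k, IsOpen (O k)) ∧ (∀ k, Dense (O k)) ∧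
      ∀ z, (∀ k, z ∈ O k) → z ∈ C₀ := by
    obtain ⟨S, hSo, hSd, hSc, hSC⟩ := mem_residual_iff.1 hC₀
    obtain ⟨f, hf⟩ := (hSc.insert univ).exists_eq_range (insert_nonempty _ _)
    have hfm : ∀ k, f k ∈ insert univ S := fun k => hf ▸ mem_range_self k
    refine ⟨f, fun k => ?_, fun k => ?_, fun z hz => hSC (mem_sInter.2 fun t ht => ?_)⟩
    · rcases hfm k with h | h
      · rw [h]; exact isOpen_univ
      · exact hSo _ h
    · rcases hfm k with h | h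
      · rw [h]; exact dense_univ
      · exact hSd _ h
    · have : t ∈ range f := hf ▸ mem_insert_of_mem _ ht
      obtain ⟨k, rfl⟩ := this
      exact hz k
  have hOO : ∀ k, IsOpen (D k ∩ (O k ×ˢ O k)) := fun k =>
    (hDo k).inter ((hOo k).prod (hOo k))
  have hOD : ∀ k, Dense (D k ∩ (O k ×ˢ O k)) := fun k =>
    (hDd k).inter_of_isOpen_left ((hOd k).prod (hOd k)) (hDo k)
  choose f hf using exists_step F h1 h2 h3 (fun k => D k ∩ (O k ×ˢ O k)) hOO hOD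
  -- the start
  obtain ⟨x0, hx0⟩ : C.Nonempty := (dense_of_mem_residual hC).nonempty
  let σ : ℕ → St F C := fun k => Nat.rec ⟨x0, x0, 1, 0, hx0, hx0, one_smul _ _⟩ (fun k τ => f k τ) k
  have hσ : ∀ k, σ (k + 1) = f k (σ k) := fun k => rfl
  have hn : ∀ k, k ≤ (σ k).n := by
    intro k
    induction k with
    | zero => exact Nat.zero_le _
    | succ k ih =>
      have := (hf k (σ k)).1
      rw [hσ]
      omega
  have hmono : ∀ k, (σ k).n < (σ (k + 1)).n := fun k => (hf k (σ k)).1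
  have hmono' : ∀ k j, k ≤ j → (σ k).n ≤ (σ j).n := by
    intro k j hkj
    induction j, hkj using Nat.le_induction with
    | base => exact le_rfl
    | succ j hj ih => exact ih.trans (hmono j).le
  have hx : ∀ k j, k ≤ j → ∀ i < (σ k).n, (σ j).x i = (σ k).x i := by
    intro k j hkj i hi
    induction j, hkj using Nat.le_induction with
    | base => rfl
    | succ j hj ih =>
      rw [hσ, (hf j (σ j)).2.1 i (hi.trans_le (hmono' k j hj)), ih]
  have hx' : ∀ k j, k ≤ j → ∀ i < (σ k).n, (σ j).x' i = (σ k).x' i := by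
    intro k j hkj i hi
    induction j, hkj using Nat.le_induction with
    | base => rfl
    | succ j hj ih =>
      rw [hσ, (hf j (σ j)).2.2.1 i (hi.trans_le (hmono' k j hj)), ih]
  let x : ℕ → ℤ := fun i => (σ (i + 1)).x i
  let x' : ℕ → ℤ := fun i => (σ (i + 1)).x' i
  have hxlim : ∀ k, ∀ i < (σ k).n, x i = (σ k).x i := by
    intro k i hi
    change (σ (i + 1)).x i = (σ k).x i
    have hi1 : i < (σ (i + 1)).n := hn (i + 1)
    rcases le_total k (i + 1) with h | h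
    · exact hx k (i + 1) h i hi
    · exact (hx (i + 1) k h i hi1).symm
  have hxlim' : ∀ k, ∀ i < (σ k).n, x' i = (σ k).x' i := by
    intro k i hi
    change (σ (i + 1)).x' i = (σ k).x' i
    have hi1 : i < (σ (i + 1)).n := hn (i + 1)
    rcases le_total k (i + 1) with h | h
    · exact hx' k (i + 1) h i hi
    · exact (hx' (i + 1) k h i hi1).symm
  have hmem : ∀ k, (x, x') ∈ D k ∩ (O k ×ˢ O k) := fun k =>
    (hf k (σ k)).2.2.2.1 x x' (hxlim (k + 1)) (hxlim' (k + 1))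
  obtain ⟨g, hg⟩ := exists_limit_perm (fun k => (σ k).g)
    (fun k a ha => (hf k (σ k)).2.2.2.2.1 a ha) (fun k a ha => (hf k (σ k)).2.2.2.2.2 a ha)
  refine ⟨x, x', fun k => (hmem k).1, g, ?_⟩
  refine hC₀lim x x' (fun k => (σ k).x) (fun k => (σ k).x') (fun k => (σ k).g) g
    (hOC x fun k => (hmem k).2.1) (hOC x' fun k => (hmem k).2.2) (fun k => hCC₀ (σ k).hx)
    (fun k => hCC₀ (σ k).hx') ?_ ?_ (fun k => (σ k).hg) ?_
  · rw [tendsto_pi_nhds]
    intro i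
    refine tendsto_const_nhds.congr' ?_
    filter_upwards [eventually_ge_atTop (i + 1)] with k hk
    exact hxlim k i (lt_of_lt_of_le (Nat.lt_of_succ_le hk) (hn k))
  · rw [tendsto_pi_nhds]
    intro i
    refine tendsto_const_nhds.congr' ?_
    filter_upwards [eventually_ge_atTop (i + 1)] with k hk
    exact hxlim' k i (lt_of_lt_of_le (Nat.lt_of_succ_le hk) (hn k))
  · rw [htend]
    intro a
    filter_upwards [eventually_ge_atTop a] with k hk
    exact hg a k hk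

end

end Pool.Agent.KAut
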