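import Pool.Agent.Work.MP_2cfc43_lc.D2
import Pool.Agent.Work.MP_2cfc43_lc.D3
import Pool.Agent.Work.MP_2cfc43_lc.D7

/-! MP_2cfc43_lc, part D, final theorem. -/

namespace Pool.Agent.KAut

open Topology Set Filter MeasureTheory

section
variable {Y : Type*} [TopologicalSpace Y] [PolishSpace Y] [MeasurableSpace Y] [BorelSpace Y]
  [MulAction (Equiv.Perm ℕ) Y]

/-! ### D4 (Lemma 1: local closeness) -/
theorem star_exists
    (hact : Measurable (fun p : Equiv.Perm ℕ × Y => p.1 • p.2))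
    (F : (ℕ → ℤ) → Y) (hF : Measurable F)
    (hmove : ∀ (x : ℕ → ℤ) (h : ℕ → Bool), ∃ g : Equiv.Perm ℕ, g • F x = F (addB x h))
    (E : Finset ℕ) (n : ℕ) (t : ℕ → ℤ) :
    ∃ n' ≥ n, ∃ (t' : ℕ → ℤ) (s : ℕ → Bool), (∀ i < n, t' i = t i) ∧ Star F E n' t' s :=
  star_exists_aux (fun _ hA => analyticSet_bp hA) hact F hF hmove E n t

/-! ### D7 (main theorem of part D) -/
theorem baire_main
    (hact : Measurable (fun p : Equiv.Perm ℕ × Y => p.1 • p.2))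
    (F : (ℕ → ℤ) → Y) (hF : Measurable F)
    (hmove : ∀ (x : ℕ → ℤ) (h : ℕ → Bool), ∃ g : Equiv.Perm ℕ, g • F x = F (addB x h))
    (D : ℕ → Set ((ℕ → ℤ) × (ℕ → ℤ))) (hDo : ∀ n, IsOpen (D n)) (hDd : ∀ n, Dense (D n)) :
    ∃ x x' : ℕ → ℤ, (∀ n, (x, x') ∈ D n) ∧ ∃ g : Equiv.Perm ℕ, g • F x = F x' :=
  baire_main_aux F (limit_property hact F hF) perm_tendsto_iff
    (fun E n t => star_exists hact F hF hmove E n t) D hDo hDd

end

end Pool.Agent.KAut
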