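import Pool.Agent.Work.MP_2cfc43_lc.DDefs

/-! MP_2cfc43_lc, part D, D1: Kuratowski-Ulam (one direction). -/

namespace Pool.Agent.KAut

open Topology Set Filter MeasureTheory

theorem ku {X W : Type*} [TopologicalSpace X] [TopologicalSpace W] [SecondCountableTopology W]
    {C : Set (X × W)} (hC : C ∈ residual (X × W)) :
    ∀ᶠ x in residual X, ∀ᶠ w in residual W, (x, w) ∈ C := by
  obtain ⟨S, hSo, hSd, hSc, hSC⟩ := mem_residual_iff.1 hC
  have key : ∀ t ∈ S, ∀ᶠ x in residual X, ∀ᶠ w in residual W, (x, w) ∈ t := by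
    intro t ht
    have hU : ∀ U ∈ TopologicalSpace.countableBasis W, ∀ᶠ x in residual X,
        ∃ w ∈ U, (x, w) ∈ t := by
      intro U hU
      have hUo : IsOpen U := TopologicalSpace.isOpen_of_mem_countableBasis hU
      have hUn : U.Nonempty := TopologicalSpace.nonempty_of_mem_countableBasis hU
      have ho : IsOpen {x : X | ∃ w ∈ U, (x, w) ∈ t} := by
        have : {x : X | ∃ w ∈ U, (x, w) ∈ t} = Prod.fst '' (t ∩ (univ ×ˢ U)) := by
          ext x
          constructor
          · rintro ⟨w, hw, hx⟩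
            exact ⟨(x, w), ⟨hx, ⟨trivial, hw⟩⟩, rfl⟩
          · rintro ⟨⟨x', w⟩, ⟨hx, ⟨-, hw⟩⟩, rfl⟩
            exact ⟨w, hw, hx⟩
        rw [this]
        exact isOpenMap_fst _ ((hSo t ht).inter (isOpen_univ.prod hUo))
      have hd : Dense {x : X | ∃ w ∈ U, (x, w) ∈ t} := by
        rw [dense_iff_inter_open]
        intro V hV hVn
        obtain ⟨⟨x, w⟩, ⟨hxV, hwU⟩, hxt⟩ := (hSd t ht).inter_open_nonempty (V ×ˢ U)
          (hV.prod hUo) (hVn.prod hUn)
        exact ⟨x, hxV, w, hwU, hxt⟩
      exact residual_of_dense_open ho hd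
    have hall : ∀ᶠ x in residual X, ∀ U ∈ TopologicalSpace.countableBasis W,
        ∃ w ∈ U, (x, w) ∈ t :=
      (eventually_countable_ball (TopologicalSpace.countable_countableBasis W)).2 hU
    filter_upwards [hall] with x hx
    have ho : IsOpen {w : W | (x, w) ∈ t} :=
      (hSo t ht).preimage (by fun_prop : Continuous fun w : W => (x, w))
    have hd : Dense {w : W | (x, w) ∈ t} := by
      rw [(TopologicalSpace.isBasis_countableBasis W).dense_iff]
      intro U hU _
      obtain ⟨w, hw, hxw⟩ := hx U hU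
      exact ⟨w, hw, hxw⟩
    exact residual_of_dense_open ho hd
  have h1 : ∀ᶠ x in residual X, ∀ t ∈ S, ∀ᶠ w in residual W, (x, w) ∈ t :=
    (eventually_countable_ball hSc).2 key
  filter_upwards [h1] with x hx
  have h2 : ∀ᶠ w in residual W, ∀ t ∈ S, (x, w) ∈ t := (eventually_countable_ball hSc).2 hx
  filter_upwards [h2] with w hw
  exact hSC (mem_sInter.2 hw)

end Pool.Agent.KAut
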