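import Pool.Agent.Work.MP_2cfc43_lc.D57

/-! MP_2cfc43_lc, part D, D4: local closeness, from the Baire property of analytic sets. -/

namespace Pool.Agent.KAut

open Topology Set Filter MeasureTheory

section
variable {Y : Type*} [TopologicalSpace Y] [PolishSpace Y] [MeasurableSpace Y] [BorelSpace Y]
  [MulAction (Equiv.Perm ℕ) Y]

theorem continuous_addB : Continuous (fun p : (ℕ → ℤ) × (ℕ → Bool) => addB p.1 p.2) := by
  have h := continuous_bi
  unfold addB
  fun_prop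

/-- the homeomorphism `(z, w) ↦ (z - w₁, w)` -/
def subH : ((ℕ → ℤ) × (ℕ → Bool) × (ℕ → Bool)) ≃ₜ ((ℕ → ℤ) × (ℕ → Bool) × (ℕ → Bool)) where
  toFun p := (fun n => p.1 n - bi (p.2.1 n), p.2)
  invFun p := (fun n => p.1 n + bi (p.2.1 n), p.2)
  left_inv p := by
    ext1
    · funext n
      simp
    · rfl
  right_inv p := by
    ext1
    · funext n
      simp
    · rfl
  continuous_toFun := by
    have h := continuous_bi
    fun_prop
  continuous_invFun := by
    have h := continuous_bi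
    fun_prop

/-- the set of pairs for which some permutation whose inverse is `τ` on `E` does the job -/
def ATau (F : (ℕ → ℤ) → Y) (E : Finset ℕ) (τ : E → ℕ) : Set ((ℕ → ℤ) × (ℕ → Bool)) :=
  {p | ∃ g : Equiv.Perm ℕ, (∀ a : E, g.symm a = τ a) ∧ g • F p.1 = F (addB p.1 p.2)}

theorem measurable_symm_apply (a : ℕ) : Measurable fun g : Equiv.Perm ℕ => g.symm a := by
  have : Continuous fun g : Equiv.Perm ℕ => g.symm a := by
    have h : Continuous (fun g : Equiv.Perm ℕ =>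
        (((g : ℕ → ℕ), (g.symm : ℕ → ℕ)) : (ℕ → ℕ) × (ℕ → ℕ))) := continuous_induced_dom
    have h2 : Continuous (fun q : (ℕ → ℕ) × (ℕ → ℕ) => q.2 a) := by fun_prop
    exact h2.comp h
  exact this.measurable

theorem aTau_analytic [PolishSpace (Equiv.Perm ℕ)]
    (hact : Measurable (fun p : Equiv.Perm ℕ × Y => p.1 • p.2))
    (F : (ℕ → ℤ) → Y) (hF : Measurable F) (E : Finset ℕ) (τ : E → ℕ) :
    AnalyticSet (ATau F E τ) := by
  have hm : MeasurableSet {q : ((ℕ → ℤ) × (ℕ → Bool)) × Equiv.Perm ℕ |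
      (∀ a : E, q.2.symm a = τ a) ∧ q.2 • F q.1.1 = F (addB q.1.1 q.1.2)} := by
    refine MeasurableSet.inter ?_ ?_
    · have : {q : ((ℕ → ℤ) × (ℕ → Bool)) × Equiv.Perm ℕ | ∀ a : E, q.2.symm a = τ a} =
          ⋂ a : E, {q | q.2.symm a = τ a} := by
        ext q; simp
      change MeasurableSet {q : ((ℕ → ℤ) × (ℕ → Bool)) × Equiv.Perm ℕ | ∀ a : E, q.2.symm a = τ a}
      rw [this]
      refine MeasurableSet.iInter fun a => ?_
      exact measurableSet_eq_fun ((measurable_symm_apply a).comp measurable_snd) measurable_const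
    · have h1 : Measurable fun q : ((ℕ → ℤ) × (ℕ → Bool)) × Equiv.Perm ℕ => q.2 • F q.1.1 :=
        hact.comp (measurable_snd.prodMk (hF.comp (measurable_fst.comp measurable_fst)))
      have h2 : Measurable fun q : ((ℕ → ℤ) × (ℕ → Bool)) × Equiv.Perm ℕ =>
          F (addB q.1.1 q.1.2) :=
        hF.comp (continuous_addB.measurable.comp measurable_fst)
      exact measurableSet_eq_fun h1 h2
  have himg : ATau F E τ = Prod.fst '' {q : ((ℕ → ℤ) × (ℕ → Bool)) × Equiv.Perm ℕ |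
      (∀ a : E, q.2.symm a = τ a) ∧ q.2 • F q.1.1 = F (addB q.1.1 q.1.2)} := by
    ext p
    constructor
    · rintro ⟨g, hg⟩
      exact ⟨(p, g), hg, rfl⟩
    · rintro ⟨⟨p', g⟩, hg, rfl⟩
      exact ⟨g, hg⟩
  rw [himg]
  exact hm.analyticSet_image measurable_fst

theorem star_exists_aux [PolishSpace (Equiv.Perm ℕ)]
    (hbp : ∀ A : Set ((ℕ → ℤ) × (ℕ → Bool)), AnalyticSet A → BaireMeasurableSet A)
    (hact : Measurable (fun p : Equiv.Perm ℕ × Y => p.1 • p.2))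
    (F : (ℕ → ℤ) → Y) (hF : Measurable F)
    (hmove : ∀ (x : ℕ → ℤ) (h : ℕ → Bool), ∃ g : Equiv.Perm ℕ, g • F x = F (addB x h))
    (E : Finset ℕ) (n : ℕ) (t : ℕ → ℤ) :
    ∃ n' ≥ n, ∃ (t' : ℕ → ℤ) (s : ℕ → Bool), (∀ i < n, t' i = t i) ∧ Star F E n' t' s := by
  -- the open set of pairs whose sum extends `t`
  have hVo : IsOpen {p : (ℕ → ℤ) × (ℕ → Bool) | ∀ i < n, addB p.1 p.2 i = t i} :=
    (isOpen_cyl n t).preimage continuous_addB
  have hVn : {p : (ℕ → ℤ) × (ℕ → Bool) | ∀ i < n, addB p.1 p.2 i = t i}.Nonempty :=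
    ⟨(t, fun _ => false), fun i _ => by simp [addB, bi]⟩
  set V := {p : (ℕ → ℤ) × (ℕ → Bool) | ∀ i < n, addB p.1 p.2 i = t i} with hV
  -- some `A_τ` is comeager in a nonempty open subset
  obtain ⟨τ, U, hUo, hUA, hUV⟩ : ∃ (τ : E → ℕ) (U : Set ((ℕ → ℤ) × (ℕ → Bool))), IsOpen U ∧
      ATau F E τ =ᶠ[residual _] U ∧ (U ∩ V).Nonempty := by
    by_contra hcon
    push Not at hcon
    have hm : ∀ τ : E → ℕ, ∀ᶠ p in residual ((ℕ → ℤ) × (ℕ → Bool)), p ∈ V → p ∉ ATau F E τ := by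
      intro τ
      obtain ⟨U, hUo, hU⟩ := (hbp _ (aTau_analytic hact F hF E τ)).residualEq_isOpen
      have := hcon τ U hUo hU
      filter_upwards [hU.mem_iff] with p hp hpV hpA
      exact (this ▸ (⟨hp.1 hpA, hpV⟩ : p ∈ U ∩ V) : p ∈ (∅ : Set _))
    have hall := eventually_countable_forall.2 hm
    obtain ⟨p, hpV, hp⟩ := (dense_of_mem_residual hall).inter_open_nonempty V hVo hVn
    obtain ⟨g, hg⟩ := hmove p.1 p.2
    exact hp (fun a => g.symm a) hpV ⟨g, fun _ => rfl, hg⟩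
  -- a box
  obtain ⟨⟨t1, s⟩, hU1, hV1⟩ := hUV
  obtain ⟨U1, U2, hU1o, hU2o, ht1, hs, hbox⟩ := isOpen_prod_iff.1 (hUo.inter hVo) t1 s ⟨hU1, hV1⟩
  obtain ⟨n1, hn1⟩ := cyl_of_isOpen hU1o ht1
  obtain ⟨n2, hn2⟩ := cyl_of_isOpen hU2o hs
  refine ⟨max n (max n1 n2), le_max_left _ _, addB t1 s, s, fun i hi => hV1 i hi, ?_⟩
  set m := max n (max n1 n2) with hmdef
  have hboxm : ∀ (x : ℕ → ℤ) (h : ℕ → Bool), (∀ i < m, x i = t1 i) → (∀ i < m, h i = s i) →
      (x, h) ∈ U := by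
    intro x h hx hh
    have : (x, h) ∈ U ∩ V := hbox ⟨hn1 x fun i hi => hx i (by omega), hn2 h fun i hi => hh i
      (by omega)⟩
    exact this.1
  -- the generic statement for triples
  have hA : ∀ᶠ p in residual ((ℕ → ℤ) × (ℕ → Bool)), p ∈ U → p ∈ ATau F E τ := by
    filter_upwards [hUA.mem_iff] with p hp hpU
    exact hp.2 hpU
  have hT1 : Tendsto (fun p : (ℕ → ℤ) × (ℕ → Bool) × (ℕ → Bool) => (p.1, p.2.1)) (residual _)
      (residual _) :=
    tendsto_residual_of_isOpenMap (by fun_prop) (IsOpenMap.id.prodMap isOpenMap_fst)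
  have hT2 : Tendsto (fun p : (ℕ → ℤ) × (ℕ → Bool) × (ℕ → Bool) => (p.1, p.2.2)) (residual _)
      (residual _) :=
    tendsto_residual_of_isOpenMap (by fun_prop) (IsOpenMap.id.prodMap isOpenMap_snd)
  have hT3 : Tendsto (fun p : (ℕ → ℤ) × (ℕ → Bool) × (ℕ → Bool) => subH p) (residual _)
      (residual _) := subH.residual_map_eq.le
  have hgen := hT3.eventually ((hT1.eventually hA).and (hT2.eventually hA))
  unfold Star
  filter_upwards [hgen] with p hp hc
  obtain ⟨hp1, hp2⟩ := hp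
  have hx : ∀ i < m, (subH p).1 i = t1 i := by
    intro i hi
    obtain ⟨h1, h2, _⟩ := hc i hi
    change p.1 i - bi (p.2.1 i) = t1 i
    rw [h1, h2]
    simp [addB]
  obtain ⟨g1, hg1τ, hg1⟩ := hp1 (hboxm _ _ hx fun i hi => (hc i hi).2.1)
  obtain ⟨g2, hg2τ, hg2⟩ := hp2 (hboxm _ _ hx fun i hi => (hc i hi).2.2)
  have e1 : addB (subH p).1 p.2.1 = p.1 := by
    funext i
    change p.1 i - bi (p.2.1 i) + bi (p.2.1 i) = p.1 i
    ring
  have e2 : addB (subH p).1 p.2.2 = mv p.1 p.2.1 p.2.2 := rfl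
  have hg1' : g1 • F (subH p).1 = F p.1 := by
    have := hg1
    change g1 • F (subH p).1 = F (addB (subH p).1 p.2.1) at this
    rw [this, e1]
  have hg2' : g2 • F (subH p).1 = F (mv p.1 p.2.1 p.2.2) := by
    have := hg2
    change g2 • F (subH p).1 = F (addB (subH p).1 p.2.2) at this
    rw [this, e2]
  refine ⟨g2 * g1⁻¹, fun a ha => ?_, ?_⟩
  · have h1 : g1⁻¹ a = τ ⟨a, ha⟩ := hg1τ ⟨a, ha⟩
    have h2 : g2.symm a = τ ⟨a, ha⟩ := hg2τ ⟨a, ha⟩
    rw [Equiv.Perm.mul_apply, h1, ← h2]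
    simp
  · rw [mul_smul, ← hg1', inv_smul_smul, hg2']

end

end Pool.Agent.KAut
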