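import Pool.Agent.Work.MP_2cfc43_lc.D1

/-! MP_2cfc43_lc, part D, D5 (the good comeager set), D6 (movement). -/

namespace Pool.Agent.KAut

open Topology Set Filter MeasureTheory

theorem star_congr {Y : Type*} [MulAction (Equiv.Perm ℕ) Y] {F : (ℕ → ℤ) → Y} {E : Finset ℕ}
    {n : ℕ} {t t' : ℕ → ℤ} {s s' : ℕ → Bool} (ht : ∀ i < n, t i = t' i) (hs : ∀ i < n, s i = s' i)
    (h : Star F E n t s) : Star F E n t' s' := by
  unfold Star at *
  filter_upwards [h] with p hp hc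
  refine hp fun i hi => ?_
  obtain ⟨h1, h2, h3⟩ := hc i hi
  exact ⟨h1.trans (ht i hi).symm, h2.trans (hs i hi).symm, h3.trans (hs i hi).symm⟩

theorem star_mono {Y : Type*} [MulAction (Equiv.Perm ℕ) Y] {F : (ℕ → ℤ) → Y} {E : Finset ℕ}
    {n n' : ℕ} {t : ℕ → ℤ} {s : ℕ → Bool} (hn : n ≤ n')
    (h : Star F E n t s) : Star F E n' t s := by
  unfold Star at *
  filter_upwards [h] with p hp hc
  exact hp fun i hi => hc i (hi.trans_le hn)

theorem continuous_bi : Continuous bi := continuous_of_discreteTopology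

/-- the homeomorphism `(z, w) ↦ (z - w₁ + w₂, w)` -/
def mvH : ((ℕ → ℤ) × (ℕ → Bool) × (ℕ → Bool)) ≃ₜ ((ℕ → ℤ) × (ℕ → Bool) × (ℕ → Bool)) where
  toFun p := (mv p.1 p.2.1 p.2.2, p.2)
  invFun p := (mv p.1 p.2.2 p.2.1, p.2)
  left_inv p := by
    ext1
    · funext n
      simp only [mv]
      ring
    · rfl
  right_inv p := by
    ext1
    · funext n
      simp only [mv]
      ring
    · rfl
  continuous_toFun := by
    have h := continuous_bi
    unfold mv
    fun_prop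
  continuous_invFun := by
    have h := continuous_bi
    unfold mv
    fun_prop

theorem residual_mv {C : Set (ℕ → ℤ)} (hC : C ∈ residual (ℕ → ℤ)) :
    ∀ᶠ z in residual (ℕ → ℤ), ∀ᶠ w in residual ((ℕ → Bool) × (ℕ → Bool)), mv z w.1 w.2 ∈ C := by
  have h1 : Tendsto (fun p : (ℕ → ℤ) × (ℕ → Bool) × (ℕ → Bool) => p.1) (residual _) (residual _) :=
    tendsto_residual_of_isOpenMap continuous_fst isOpenMap_fst
  have h2 : Tendsto (fun p : (ℕ → ℤ) × (ℕ → Bool) × (ℕ → Bool) => mvH p) (residual _)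
      (residual _) := mvH.residual_map_eq.le
  have h3 := ku (h1.comp h2 hC)
  exact h3

/-- extension of a finite sequence by a default value -/
def extD {α : Type*} (d : α) {n : ℕ} (u : Fin n → α) : ℕ → α := fun i => if h : i < n then u ⟨i, h⟩
  else d

theorem extD_lt {α : Type*} (d : α) {n : ℕ} (u : Fin n → α) {i : ℕ} (h : i < n) :
    extD d u i = u ⟨i, h⟩ := by
  simp [extD, h]

section
variable {Y : Type*} [MulAction (Equiv.Perm ℕ) Y]

/-- first property, as a set -/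
def GoodP2 (F : (ℕ → ℤ) → Y) (z : ℕ → ℤ) : Prop :=
  ∀ (E : Finset ℕ) (n : ℕ) (t : ℕ → ℤ) (s : ℕ → Bool), Star F E n t s →
        (∀ i < n, z i = t i) → ∀ᶠ w in residual ((ℕ → Bool) × (ℕ → Bool)),
          (∀ i < n, w.1 i = s i ∧ w.2 i = s i) →
            ∃ g : Equiv.Perm ℕ, (∀ a ∈ E, g a = a) ∧ g • F z = F (mv z w.1 w.2)

theorem residual_goodP2 (F : (ℕ → ℤ) → Y) : ∀ᶠ z in residual (ℕ → ℤ), GoodP2 F z := by
  have key : ∀ q : (Σ n : ℕ, (Fin n → ℤ) × (Fin n → Bool)) × Finset ℕ,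
      ∀ᶠ z in residual (ℕ → ℤ), Star F q.2 q.1.1 (extD 0 q.1.2.1) (extD false q.1.2.2) →
        (∀ i < q.1.1, z i = extD 0 q.1.2.1 i) → ∀ᶠ w in residual ((ℕ → Bool) × (ℕ → Bool)),
          (∀ i < q.1.1, w.1 i = extD false q.1.2.2 i ∧ w.2 i = extD false q.1.2.2 i) →
            ∃ g : Equiv.Perm ℕ, (∀ a ∈ q.2, g a = a) ∧ g • F z = F (mv z w.1 w.2) := by
    rintro ⟨⟨n, u, v⟩, E⟩
    by_cases hS : Star F E n (extD 0 u) (extD false v)
    · have h1 := ku hS
      filter_upwards [h1] with z hz _ hzt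
      filter_upwards [hz] with w hw hws
      exact hw fun i hi => ⟨hzt i hi, hws i hi⟩
    · exact Eventually.of_forall fun z hS' => absurd hS' hS
  have hall := eventually_countable_forall.2 key
  filter_upwards [hall] with z hz E n t s hS hzt
  have hq := hz ⟨⟨n, fun i => t i, fun i => s i⟩, E⟩
  have e1 : ∀ i < n, t i = extD 0 (fun i : Fin n => t i) i := fun i hi => by rw [extD_lt _ _ hi]
  have e2 : ∀ i < n, s i = extD false (fun i : Fin n => s i) i := fun i hi => by rw [extD_lt _ _ hi]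
  have h3 := hq (star_congr e1 e2 hS) fun i hi => (hzt i hi).trans (e1 i hi)
  filter_upwards [h3] with w hw hws
  exact hw fun i hi => ⟨(hws i hi).1.trans (e2 i hi), (hws i hi).2.trans (e2 i hi)⟩

/-- a set of sequences which with each of its members contains a cylinder is open -/
theorem isOpen_of_cyl {α : Type*} [TopologicalSpace α] [DiscreteTopology α] {U : Set (ℕ → α)}
    (h : ∀ z ∈ U, ∃ n : ℕ, ∀ v : ℕ → α, (∀ i < n, v i = z i) → v ∈ U) : IsOpen U := by
  rw [isOpen_pi_iff]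
  intro z hz
  obtain ⟨n, hn⟩ := h z hz
  refine ⟨Finset.range n, fun i => {z i}, fun i _ => ⟨isOpen_discrete _, rfl⟩, fun v hv => ?_⟩
  exact hn v fun i hi => hv i (by simpa using hi)

theorem cyl_of_isOpen {α : Type*} [TopologicalSpace α] [DiscreteTopology α] {U : Set (ℕ → α)}
    (h : IsOpen U) {z : ℕ → α} (hz : z ∈ U) :
    ∃ n : ℕ, ∀ v : ℕ → α, (∀ i < n, v i = z i) → v ∈ U := by
  rw [isOpen_pi_iff] at h
  obtain ⟨I, u, hu, hI⟩ := h z hz
  obtain ⟨n, hn⟩ := I.exists_nat_subset_range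
  refine ⟨n, fun v hv => hI fun i hi => ?_⟩
  have : v i = z i := hv i (by simpa using hn hi)
  rw [this]
  exact (hu i hi).2

theorem isOpen_cyl {α : Type*} [TopologicalSpace α] [DiscreteTopology α] (n : ℕ) (t : ℕ → α) :
    IsOpen {z : ℕ → α | ∀ i < n, z i = t i} :=
  isOpen_of_cyl fun z hz => ⟨n, fun v hv i hi => (hv i hi).trans (hz i hi)⟩

theorem dense_of_cyl {α : Type*} [TopologicalSpace α] [DiscreteTopology α] {U : Set (ℕ → α)}
    (h : ∀ (n : ℕ) (t : ℕ → α), ∃ v ∈ U, ∀ i < n, v i = t i) : Dense U := by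
  rw [dense_iff_inter_open]
  intro V hV ⟨z, hz⟩
  obtain ⟨n, hn⟩ := cyl_of_isOpen hV hz
  obtain ⟨v, hv, hvt⟩ := h n z
  exact ⟨v, hn v hvt, hv⟩

theorem residual_goodP3 (F : (ℕ → ℤ) → Y)
    (hstar : ∀ (E : Finset ℕ) (n : ℕ) (t : ℕ → ℤ), ∃ n' ≥ n, ∃ (t' : ℕ → ℤ) (s : ℕ → Bool),
      (∀ i < n, t' i = t i) ∧ Star F E n' t' s) :
    ∀ᶠ z in residual (ℕ → ℤ), ∀ E : Finset ℕ, ∃ (n : ℕ) (s : ℕ → Bool), Star F E n z s := by
  rw [eventually_countable_forall]
  intro E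
  refine residual_of_dense_open ?_ ?_
  · refine isOpen_of_cyl ?_
    rintro z ⟨n, s, hS⟩
    exact ⟨n, fun v hv => ⟨n, s, star_congr (fun i hi => (hv i hi).symm) (fun _ _ => rfl) hS⟩⟩
  · refine dense_of_cyl fun n t => ?_
    obtain ⟨n', _, t', s, ht, hS⟩ := hstar E n t
    exact ⟨t', ⟨n', s, hS⟩, ht⟩

/-! ### D5 (Lemma 2: the good comeager set) -/
theorem good_set (F : (ℕ → ℤ) → Y)
    (hstar : ∀ (E : Finset ℕ) (n : ℕ) (t : ℕ → ℤ), ∃ n' ≥ n, ∃ (t' : ℕ → ℤ) (s : ℕ → Bool),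
      (∀ i < n, t' i = t i) ∧ Star F E n' t' s)
    {C₀ : Set (ℕ → ℤ)} (hC₀ : C₀ ∈ residual (ℕ → ℤ)) :
    ∃ C ∈ residual (ℕ → ℤ), C ⊆ C₀ ∧
      (∀ z ∈ C, ∀ᶠ w in residual ((ℕ → Bool) × (ℕ → Bool)), mv z w.1 w.2 ∈ C) ∧
      (∀ z ∈ C, ∀ (E : Finset ℕ) (n : ℕ) (t : ℕ → ℤ) (s : ℕ → Bool), Star F E n t s →
        (∀ i < n, z i = t i) → ∀ᶠ w in residual ((ℕ → Bool) × (ℕ → Bool)),
          (∀ i < n, w.1 i = s i ∧ w.2 i = s i) →
            ∃ g : Equiv.Perm ℕ, (∀ a ∈ E, g a = a) ∧ g • F z = F (mv z w.1 w.2)) ∧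
      (∀ z ∈ C, ∀ E : Finset ℕ, ∃ (n : ℕ) (s : ℕ → Bool), Star F E n z s) := by
  let Φ : Set (ℕ → ℤ) → Set (ℕ → ℤ) := fun C =>
    C ∩ {z | ∀ᶠ w in residual ((ℕ → Bool) × (ℕ → Bool)), mv z w.1 w.2 ∈ C}
  let C₁ : Set (ℕ → ℤ) := C₀ ∩ ({z | GoodP2 F z} ∩
    {z | ∀ E : Finset ℕ, ∃ (n : ℕ) (s : ℕ → Bool), Star F E n z s})
  have hC₁ : C₁ ∈ residual (ℕ → ℤ) :=
    inter_mem hC₀ (inter_mem (residual_goodP2 F) (residual_goodP3 F hstar))
  let K : ℕ → Set (ℕ → ℤ) := fun k => Φ^[k] C₁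
  have hKs : ∀ k, K (k + 1) = Φ (K k) := fun k => Function.iterate_succ_apply' Φ k C₁
  have hK : ∀ k, K k ∈ residual (ℕ → ℤ) := by
    intro k
    induction k with
    | zero => exact hC₁
    | succ k ih =>
      rw [hKs]
      exact inter_mem ih (residual_mv ih)
  have h0 : ∀ z ∈ ⋂ k, K k, z ∈ C₁ := fun z hz => mem_iInter.1 hz 0
  refine ⟨⋂ k, K k, countable_iInter_mem.2 hK, fun z hz => (h0 z hz).1, fun z hz => ?_,
    fun z hz => (h0 z hz).2.1, fun z hz => (h0 z hz).2.2⟩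
  have h1 : ∀ k, ∀ᶠ w in residual ((ℕ → Bool) × (ℕ → Bool)), mv z w.1 w.2 ∈ K k := by
    intro k
    have := mem_iInter.1 hz (k + 1)
    rw [hKs] at this
    exact this.2
  filter_upwards [eventually_countable_forall.2 h1] with w hw
  exact mem_iInter.2 hw

/-- the first `h` of a move towards `t` -/
def moveA (n m : ℕ) (s : ℕ → Bool) (z t : ℕ → ℤ) : ℕ → Bool := fun i =>
  if i < n then s i else if i < m then decide (t i < z i) else false

/-- the second `h` of a move towards `t` -/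
def moveB (n m : ℕ) (s : ℕ → Bool) (z t : ℕ → ℤ) : ℕ → Bool := fun i =>
  if i < n then s i else if i < m then decide (z i < t i) else false

theorem exists_generic {P : (ℕ → Bool) × (ℕ → Bool) → Prop}
    (hP : ∀ᶠ w in residual ((ℕ → Bool) × (ℕ → Bool)), P w) (m : ℕ) (a b : ℕ → Bool) :
    ∃ w : (ℕ → Bool) × (ℕ → Bool), P w ∧ (∀ i < m, w.1 i = a i) ∧ (∀ i < m, w.2 i = b i) := by
  have hd := dense_of_mem_residual hP
  have ho : IsOpen ({z : ℕ → Bool | ∀ i < m, z i = a i} ×ˢ {z : ℕ → Bool | ∀ i < m, z i = b i}) :=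
    (isOpen_cyl m a).prod (isOpen_cyl m b)
  obtain ⟨w, ⟨hw1, hw2⟩, hw3⟩ := hd.inter_open_nonempty _ ho ⟨(a, b), fun _ _ => rfl, fun _ _ => rfl⟩
  exact ⟨w, hw3, hw1, hw2⟩

/-! ### D6 (movement lemma) -/
theorem movement (F : (ℕ → ℤ) → Y) {C : Set (ℕ → ℤ)}
    (h1 : ∀ z ∈ C, ∀ᶠ w in residual ((ℕ → Bool) × (ℕ → Bool)), mv z w.1 w.2 ∈ C)
    (h2 : ∀ z ∈ C, ∀ (E : Finset ℕ) (n : ℕ) (t : ℕ → ℤ) (s : ℕ → Bool), Star F E n t s →
        (∀ i < n, z i = t i) → ∀ᶠ w in residual ((ℕ → Bool) × (ℕ → Bool)),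
          (∀ i < n, w.1 i = s i ∧ w.2 i = s i) →
            ∃ g : Equiv.Perm ℕ, (∀ a ∈ E, g a = a) ∧ g • F z = F (mv z w.1 w.2))
    {z : ℕ → ℤ} (hz : z ∈ C) {E : Finset ℕ} {n : ℕ} {s : ℕ → Bool} (hs : Star F E n z s)
    (m : ℕ) (t : ℕ → ℤ) (ht : ∀ i < n, t i = z i) :
    ∃ z' ∈ C, (∀ i < m, z' i = t i) ∧ (∀ i < n, z' i = z i) ∧
      ∃ g : Equiv.Perm ℕ, (∀ a ∈ E, g a = a) ∧ g • F z = F z' := by
  have main : ∀ M : ℕ, ∀ z ∈ C, Star F E n z s → (∀ i < n, t i = z i) →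
      (∀ i < m, |t i - z i| ≤ M) → ∃ z' ∈ C, (∀ i < m, z' i = t i) ∧ (∀ i < n, z' i = z i) ∧
      ∃ g : Equiv.Perm ℕ, (∀ a ∈ E, g a = a) ∧ g • F z = F z' := by
    intro M
    induction M with
    | zero =>
      intro z hz _ _ hM
      refine ⟨z, hz, fun i hi => ?_, fun _ _ => rfl, 1, fun _ _ => rfl, one_smul _ _⟩
      have := hM i hi
      have h0 : t i - z i = 0 := abs_nonpos_iff.1 (by exact_mod_cast this)
      omega
    | succ M ih =>
      intro z hz hs ht hM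
      obtain ⟨w, ⟨hw1, hw2⟩, hwa, hwb⟩ := exists_generic ((h1 z hz).and
        (h2 z hz E n z s hs fun _ _ => rfl)) (max n m) (moveA n m s z t) (moveB n m s z t)
      have hwn : ∀ i < n, w.1 i = s i ∧ w.2 i = s i := by
        intro i hi
        rw [hwa i (lt_max_of_lt_left hi), hwb i (lt_max_of_lt_left hi)]
        simp [moveA, moveB, hi]
      obtain ⟨g, hgE, hg⟩ := hw2 hwn
      have hz1n : ∀ i < n, mv z w.1 w.2 i = z i := by
        intro i hi
        simp [mv, (hwn i hi).1, (hwn i hi).2]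
      have hz1m : ∀ i < m, |t i - mv z w.1 w.2 i| ≤ M := by
        intro i hi
        by_cases hin : i < n
        · rw [hz1n i hin, ht i hin]
          simp
        · have hMi := hM i hi
          have ea : w.1 i = decide (t i < z i) := by
            rw [hwa i (lt_max_of_lt_right hi)]; simp [moveA, hin, hi]
          have eb : w.2 i = decide (z i < t i) := by
            rw [hwb i (lt_max_of_lt_right hi)]; simp [moveB, hin, hi]
          rcases lt_trichotomy (t i) (z i) with h | h | h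
          · have e1 : w.1 i = true := by rw [ea]; simpa using h
            have e2 : w.2 i = false := by rw [eb]; simpa using h.le
            have : mv z w.1 w.2 i = z i - 1 := by simp [mv, e1, e2, bi]
            rw [this]
            push_cast at hMi
            rw [abs_le] at hMi ⊢
            constructor <;> omega
          · have e1 : w.1 i = false := by rw [ea]; simp [h]
            have e2 : w.2 i = false := by rw [eb]; simp [h]
            have : mv z w.1 w.2 i = z i := by simp [mv, e1, e2, bi]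
            rw [this, h]
            simp
          · have e1 : w.1 i = false := by rw [ea]; simpa using h.le
            have e2 : w.2 i = true := by rw [eb]; simpa using h
            have : mv z w.1 w.2 i = z i + 1 := by simp [mv, e1, e2, bi]
            rw [this]
            push_cast at hMi
            rw [abs_le] at hMi ⊢
            constructor <;> omega
      obtain ⟨z', hz'C, hz'm, hz'n, g', hg'E, hg'⟩ := ih (mv z w.1 w.2) hw1
        (star_congr (fun i hi => (hz1n i hi).symm) (fun _ _ => rfl) hs)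
        (fun i hi => (ht i hi).trans (hz1n i hi).symm) hz1m
      refine ⟨z', hz'C, hz'm, fun i hi => (hz'n i hi).trans (hz1n i hi), g' * g, fun a ha => ?_, ?_⟩
      · rw [Equiv.Perm.mul_apply, hgE a ha, hg'E a ha]
      · rw [mul_smul, hg, hg']
  obtain ⟨M, hM⟩ : ∃ M : ℕ, ∀ i < m, |t i - z i| ≤ M := by
    refine ⟨(Finset.range m).sup fun i => (t i - z i).natAbs, fun i hi => ?_⟩
    have := Finset.le_sup (f := fun i => (t i - z i).natAbs) (Finset.mem_range.2 hi)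
    rw [Int.abs_eq_natAbs]
    exact_mod_cast this
  exact main M z hz hs ht hM

end

end Pool.Agent.KAut
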