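import Mathlib

/-! MP_2cfc43_lc, part D (descriptive set theory). Definitions. -/

namespace Pool.Agent.KAut

open Topology Set Filter MeasureTheory

/-- The topology of the group of all permutations of the natural numbers (pointwise convergence
of the permutation and of its inverse); it is Polish. -/
instance permTop : TopologicalSpace (Equiv.Perm ℕ) :=
  TopologicalSpace.induced
    (fun g : Equiv.Perm ℕ => (((g : ℕ → ℕ), (g.symm : ℕ → ℕ)) : (ℕ → ℕ) × (ℕ → ℕ))) inferInstance

/-- Its Borel structure. -/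
instance permMeas : MeasurableSpace (Equiv.Perm ℕ) := borel _

instance permBorel : BorelSpace (Equiv.Perm ℕ) := ⟨rfl⟩

/-- integer value of a bit -/
def bi (b : Bool) : ℤ := if b then 1 else 0

/-- one step: add a zero-one sequence -/
def addB (x : ℕ → ℤ) (h : ℕ → Bool) : ℕ → ℤ := fun n => x n + bi (h n)

/-- a move: subtract `h`, add `h'` -/
def mv (z : ℕ → ℤ) (h h' : ℕ → Bool) : ℕ → ℤ := fun n => z n - bi (h n) + bi (h' n)

/-- `Star F E n t s`: for generic `(z, h, h')` with `z` extending `t` and `h, h'` extending `s`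
(first `n` places), some permutation fixing `E` pointwise takes `F z` to `F (z - h + h')`. -/
def Star {Y : Type*} [MulAction (Equiv.Perm ℕ) Y] (F : (ℕ → ℤ) → Y) (E : Finset ℕ) (n : ℕ)
    (t : ℕ → ℤ) (s : ℕ → Bool) : Prop :=
  ∀ᶠ p in residual ((ℕ → ℤ) × (ℕ → Bool) × (ℕ → Bool)),
    (∀ i < n, p.1 i = t i ∧ p.2.1 i = s i ∧ p.2.2 i = s i) →
      ∃ g : Equiv.Perm ℕ, (∀ a ∈ E, g a = a) ∧ g • F p.1 = F (mv p.1 p.2.1 p.2.2)

end Pool.Agent.KAut
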