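import Mathlib

/-! MP_2cfc43_lc: common definitions (parts A, B, C, E, F). -/

namespace Pool.Agent.KAut

open MeasureTheory Set Filter Topology

/-! ## Parameters -/

/-- number of classes of symbols of level `k` -/
def pc (k : ℕ) : ℕ := 2 ^ (k + 12)
/-- number of symbols in a class -/
def rc (k : ℕ) : ℕ := 2 ^ k
/-- number of symbols of level `k` -/
def qc (k : ℕ) : ℕ := pc k * rc k
/-- number of cells of a pattern -/
def Lc (k : ℕ) : ℕ := 2 ^ (k + 1)
/-- number of types of cells -/
def tc (k : ℕ) : ℕ := qc (k + 1) + pc (k + 1)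
/-- run length of a cell of type `s` -/
def ell (k s : ℕ) : ℕ := qc k ^ (2 * min s (tc k))
/-- number of occurrences of every symbol in a cell -/
def bc (k : ℕ) : ℕ := qc k ^ (2 * tc k)
/-- length of a cell -/
def Rc (k : ℕ) : ℕ := qc k * bc k
/-- length of a pattern -/
def Mc (k : ℕ) : ℕ := Lc k * Rc k
/-- length of the words of level `k` -/
def hc (k : ℕ) : ℕ := ∏ l ∈ Finset.range k, Mc l

/-- type of the cell `c` in the pattern of the symbol `j` of level `k + 1`; `A` is the number of
high cells -/
def typ (A k j c : ℕ) : ℕ := if c < A then j else qc (k + 1) + j / rc (k + 1)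

/-- symbol of level `k` at the place `n` of the pattern of the symbol `j` of level `k + 1` -/
def psym (A k j n : ℕ) : ℕ := (n / ell k (typ A k j (n / Rc k))) % qc k

/-- place of the coordinate `y = c R + o q + i` (cell `c`, occurrence `o`, symbol `i`) in the
pattern of `j` -/
def eN (A k j y : ℕ) : ℕ :=
  (y / Rc k) * Rc k
    + ((y / qc k) % bc k / ell k (typ A k j (y / Rc k))) * (qc k * ell k (typ A k j (y / Rc k)))
    + (y % qc k) * ell k (typ A k j (y / Rc k))
    + (y / qc k) % bc k % ell k (typ A k j (y / Rc k))

/-- the inverse of `eN` -/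
def eI (A k j n : ℕ) : ℕ :=
  (n / Rc k) * Rc k
    + ((n % Rc k / (qc k * ell k (typ A k j (n / Rc k)))) * ell k (typ A k j (n / Rc k))
        + n % Rc k % ell k (typ A k j (n / Rc k))) * qc k
    + psym A k j n

/-- the word of level `k` of the symbol `j`, over the symbols of level `0` -/
def word (a : ℕ → ℕ) : ℕ → ℕ → List ℕ
  | 0, j => [j]
  | k + 1, j => (List.range (Mc k)).flatMap (fun n => word a k (psym (a k) k j n))

/-- the pattern of `j`, as a word over the classes of level `k` -/
def pat (A k j : ℕ) : List ℕ := (List.range (Mc k)).map (fun n => psym A k j n / rc k)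

/-! ## Longest common subsequences -/

open Classical in
/-- length of a longest common subsequence -/
noncomputable def lcs (u v : List ℕ) : ℕ :=
  (u.sublists.toFinset.filter (fun c => c.Sublist v)).sup List.length

/-! ## Adic transformations -/

/-- Data of an adic transformation of the product of the `Fin (M k)`: a symbol of each coordinate,
and for each symbol `j` of the coordinate `k + 1` an order `e k j` of the coordinate `k`. -/
structure Adic (M : ℕ → ℕ) where
  sym : ∀ k, Fin (M k) → ℕ
  e : ∀ k, ℕ → Equiv.Perm (Fin (M k))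
  e_zero : ∀ k j x, ((e k j x : Fin (M k)) : ℕ) = 0 ↔ (x : ℕ) = 0
  e_last : ∀ k j x, ((e k j x : Fin (M k)) : ℕ) + 1 = M k ↔ (x : ℕ) + 1 = M k

/-- height of the towers -/
def hM (M : ℕ → ℕ) (k : ℕ) : ℕ := ∏ l ∈ Finset.range k, M l

/-- uniform measure -/
noncomputable def unif (α : Type*) [Fintype α] [Nonempty α] [MeasurableSpace α] : Measure α :=
  (PMF.uniformOfFintype α).toMeasure

noncomputable instance (α : Type*) [Fintype α] [Nonempty α] [MeasurableSpace α] :
    IsProbabilityMeasure (unif α) := by
  unfold unif; infer_instance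

/-- the product space and its uniform measure -/
abbrev Prd (M : ℕ → ℕ) := ∀ k, Fin (M k)

noncomputable def nuM (M : ℕ → ℕ) [∀ k, NeZero (M k)] : Measure (Prd M) :=
  Measure.infinitePi (fun k => unif (Fin (M k)))

namespace Adic

variable {M : ℕ → ℕ} [∀ k, NeZero (M k)]

open Classical in
/-- the forward map: cyclic successor with carry -/
noncomputable def fwd (D : Adic M) (y : Prd M) : Prd M := fun k =>
  if ∀ l < k, (y l : ℕ) + 1 = M l then
    (D.e k (D.sym (k + 1) (y (k + 1)))).symm (D.e k (D.sym (k + 1) (y (k + 1))) (y k) + 1)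
  else y k

open Classical in
/-- the backward map -/
noncomputable def bwd (D : Adic M) (y : Prd M) : Prd M := fun k =>
  if ∀ l < k, (y l : ℕ) = 0 then
    (D.e k (D.sym (k + 1) (y (k + 1)))).symm (D.e k (D.sym (k + 1) (y (k + 1))) (y k) - 1)
  else y k

/-- position in the tower of level `K` -/
def pos (D : Adic M) (K : ℕ) (y : Prd M) : ℕ :=
  ∑ k ∈ Finset.range K, ((D.e k (D.sym (k + 1) (y (k + 1))) (y k) : Fin (M k)) : ℕ) * hM M k

end Adic

/-! ## Skew products over the Bernoulli shift -/

abbrev BB := ℤ → Bool

noncomputable def muB : Measure BB := Measure.infinitePi (fun _ : ℤ => unif Bool)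

noncomputable instance : IsProbabilityMeasure muB := by unfold muB; infer_instance

noncomputable instance (M : ℕ → ℕ) [∀ k, NeZero (M k)] : IsProbabilityMeasure (nuM M) := by
  unfold nuM; infer_instance

/-- `(ξ, y) ↦ (shift ξ, T^{ξ 0} y)` -/
def skew {Y : Type*} (T : Y → Y) (w : BB × Y) : BB × Y :=
  (fun n => w.1 (n + 1), if w.1 0 then T w.2 else w.2)

/-- its inverse, from the inverse of `T` -/
def skewInv {Y : Type*} (T' : Y → Y) (w : BB × Y) : BB × Y :=
  (fun n => w.1 (n - 1), if w.1 (-1) then T' w.2 else w.2)

/-! ## Reading a scenery -/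

/-- the list read from the scenery `s` with the bits `bs`: entry `n` is `ψ` of the next `W` bits
and of the scenery seen from the current place; the place moves by one when the bit is `true` -/
def readL {σ β : Type*} (W : ℕ) (ψ : List Bool → (ℕ → σ) → β) :
    ℕ → List Bool → (ℕ → σ) → List β
  | 0, _, _ => []
  | n + 1, bs, s =>
      ψ (bs.take W) s :: readL W ψ n bs.tail (if bs.headI then (fun i => s (i + 1)) else s)

/-- average over all lists of `n` bits -/
noncomputable def avg : ℕ → (List Bool → ℝ) → ℝ
  | 0, f => f []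
  | n + 1, f => (avg n (fun l => f (false :: l)) + avg n (fun l => f (true :: l))) / 2

/-- monotone and 1-Lipschitz for deletions -/
def SubLip {β : Type*} (F : List β → ℕ) : Prop :=
  ∀ X Y : List β, X.Sublist Y → F X ≤ F Y ∧ F Y + X.length ≤ F X + Y.length

/-- the letters read with bit `true` -/
def collapse (Z : List (Bool × ℕ)) : List ℕ := (Z.filter (fun z => z.1)).map Prod.snd

/-- the bits number `n, …, n + W - 1` -/
def bitsL (ξ : BB) (n W : ℕ) : List Bool := (List.range W).map (fun i => ξ ((n + i : ℕ) : ℤ))

end Pool.Agent.KAut
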