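import Pool.Agent.Work.MP_2cfc43_lc.Defs
import Pool.Agent.Work.MP_2cfc43_lc.DDefs

/-! MP_2cfc43_lc: definitions used by the final statement. -/

namespace Pool.Agent.KAut

open MeasureTheory Set Filter Topology
open scoped ENNReal

/-- An invertible measure preserving transformation of `([0,1], λ)` (with its inverse, both
defined everywhere, inverse to each other almost everywhere). -/
structure MPT where
  toFun : unitInterval → unitInterval
  invFun : unitInterval → unitInterval
  mp : MeasurePreserving toFun volume volume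
  mp_inv : MeasurePreserving invFun volume volume
  left_inv : ∀ᵐ x ∂(volume : Measure unitInterval), invFun (toFun x) = x
  right_inv : ∀ᵐ x ∂(volume : Measure unitInterval), toFun (invFun x) = x

/-- Identification modulo null sets. -/
instance mptSetoid : Setoid MPT where
  r S T := S.toFun =ᵐ[volume] T.toFun
  iseqv := ⟨fun _ => EventuallyEq.rfl, fun h => h.symm, fun h h' => h.trans h'⟩

/-- The space `X` of the problem. -/
def AutI : Type := Quotient mptSetoid

/-- `λ (T⁻¹ A ∩ B)` -/
noncomputable def evalAut (A B : Set unitInterval) : AutI → ℝ≥0∞ :=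
  Quotient.lift (fun T : MPT => volume (T.toFun ⁻¹' A ∩ B)) (by
    intro S T h
    apply measure_congr
    have h1 : (S.toFun ⁻¹' A : Set unitInterval) =ᵐ[volume] (T.toFun ⁻¹' A : Set unitInterval) := by
      filter_upwards [h] with x hx
      have : S.toFun x = T.toFun x := hx
      show (S.toFun x ∈ A) = (T.toFun x ∈ A)
      rw [this]
    exact h1.inter EventuallyEq.rfl)

/-- The weak topology of `X`: the coarsest one for which all `T ↦ λ (T⁻¹ A ∩ B)`, with `A`, `B`
measurable, are continuous. -/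
noncomputable instance autTop : TopologicalSpace AutI :=
  ⨅ (A : {A : Set unitInterval // MeasurableSet A}) (B : {B : Set unitInterval // MeasurableSet B}),
    TopologicalSpace.induced (evalAut A.1 B.1) inferInstance

/-- The Borel structure of `X`. -/
noncomputable instance autMeas : MeasurableSpace AutI := borel AutI

instance autBorel : BorelSpace AutI := ⟨rfl⟩

/-- Measure isomorphism: `φ ∘ S = T ∘ φ` almost everywhere for an invertible measure preserving
`φ` (again independent of the representatives). -/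
def Iso (S T : AutI) : Prop :=
  ∃ s t φ : MPT, (⟦s⟧ : Quotient mptSetoid) = S ∧ (⟦t⟧ : Quotient mptSetoid) = T ∧
    ∀ᵐ x ∂(volume : Measure unitInterval), φ.toFun (s.toFun x) = t.toFun (φ.toFun x)

/-- The Kolmogorov property of `S` (with inverse `S'`) on `(Ω, μ)`: there is a sub-sigma-algebra
`𝒜` with, all relations being modulo null sets,
* `S⁻¹ A ∈ 𝒜` for `A ∈ 𝒜` (that is, `𝒜 ⊆ S 𝒜`),
* the sigma-algebras `S^n 𝒜 = {(S'^n)⁻¹ A | A ∈ 𝒜}`, `n ≥ 0`, generate all measurable sets,
* a measurable set which lies in `S^{-n} 𝒜` for every `n ≥ 0` has measure `0` or `1`. -/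
def KolOn {Ω : Type*} [m : MeasurableSpace Ω] (μ : Measure Ω) (S S' : Ω → Ω) : Prop :=
  ∃ 𝒜 : MeasurableSpace Ω, 𝒜 ≤ m ∧
    (∀ A, MeasurableSet[𝒜] A → ∃ A', MeasurableSet[𝒜] A' ∧ S ⁻¹' A =ᵐ[μ] A') ∧
    (∀ B, MeasurableSet[m] B →
      ∃ B', MeasurableSet[⨆ n : ℕ, 𝒜.comap (S'^[n])] B' ∧ B =ᵐ[μ] B') ∧
    (∀ B, MeasurableSet[m] B →
      (∀ n : ℕ, ∃ A, MeasurableSet[𝒜] A ∧ B =ᵐ[μ] S^[n] ⁻¹' A) → μ B = 0 ∨ μ B = 1)

/-- `T` is a Kolmogorov automorphism (the property does not depend on the representative). -/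
def IsKol (T : AutI) : Prop :=
  ∃ t : MPT, (⟦t⟧ : Quotient mptSetoid) = T ∧ KolOn volume t.toFun t.invFun

/-- The space `Ω`. -/
abbrev OmM (M : ℕ → ℕ) := BB × Prd M

/-- An everywhere invertible measure preserving map of `Ω`. -/
structure OmAut (M : ℕ → ℕ) [∀ k, NeZero (M k)] where
  S : OmM M → OmM M
  S' : OmM M → OmM M
  mp : MeasurePreserving S (muB.prod (nuM M)) (muB.prod (nuM M))
  mp' : MeasurePreserving S' (muB.prod (nuM M)) (muB.prod (nuM M))
  left : ∀ w, S' (S w) = w
  right : ∀ w, S (S' w) = w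

end Pool.Agent.KAut
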