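import Pool.Agent.Work.MP_2cfc43_lc.Defs
import Pool.Agent.Work.MP_2cfc43_lc.EDefs

/-! MP_2cfc43_lc, module E1: isomorphism with the unit interval. -/

namespace Pool.Agent.KAut

open MeasureTheory Set Filter Topology ProbabilityTheory
open scoped ENNReal unitInterval

/-- the distribution function of a law without atoms is continuous -/
theorem E1_continuous_cdf (ρ : Measure ℝ) [IsProbabilityMeasure ρ] (h : ∀ x, ρ {x} = 0) :
    Continuous (cdf ρ) := by
  rw [continuous_iff_continuousAt]
  intro x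
  have h1 : (cdf ρ).measure {x} = 0 := by rw [measure_cdf]; exact h x
  rw [StieltjesFunction.measure_singleton, ENNReal.ofReal_eq_zero, sub_nonpos] at h1
  have h2 : Function.leftLim (cdf ρ) x = cdf ρ x :=
    le_antisymm ((monotone_cdf ρ).leftLim_le le_rfl) h1
  rw [continuousAt_iff_continuous_left'_right']
  exact ⟨(Monotone.continuousWithinAt_Iio_iff_leftLim_eq (monotone_cdf ρ)).2 h2,
    ((cdf ρ).right_continuous x).mono Ioi_subset_Ici_self⟩

/-- the distribution function transports the law to the uniform one -/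
theorem E1_cdf_law (ρ : Measure ℝ) [IsProbabilityMeasure ρ] (h : ∀ x, ρ {x} = 0) {t : ℝ}
    (h0 : 0 ≤ t) (h1 : t ≤ 1) : ρ {x | cdf ρ x ≤ t} = ENNReal.ofReal t := by
  have hc := E1_continuous_cdf ρ h
  have hsurj : ∀ s : ℝ, 0 < s → s < 1 → ∃ x, cdf ρ x = s := by
    intro s hs0 hs1
    have ha : ∃ a, cdf ρ a ≤ s :=
      ((tendsto_cdf_atBot ρ).eventually (eventually_le_nhds hs0)).exists
    have hb : ∃ b, s ≤ cdf ρ b :=
      ((tendsto_cdf_atTop ρ).eventually (eventually_ge_nhds hs1)).exists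
    exact mem_range_of_exists_le_of_exists_ge hc ha hb
  have hle : ∀ s : ℝ, t < s → s < 1 → ρ {x | cdf ρ x ≤ t} ≤ ENNReal.ofReal s := by
    intro s hs hs1
    obtain ⟨x, hx⟩ := hsurj s (lt_of_le_of_lt h0 hs) hs1
    have : {y | cdf ρ y ≤ t} ⊆ Iic x := by
      intro y hy
      by_contra hyx
      have := monotone_cdf ρ (le_of_lt (not_le.1 hyx))
      have hy' : cdf ρ y ≤ t := hy
      linarith
    calc ρ {x | cdf ρ x ≤ t} ≤ ρ (Iic x) := measure_mono this
      _ = ENNReal.ofReal s := by rw [← ofReal_cdf, hx]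
  apply le_antisymm
  · rcases eq_or_lt_of_le h1 with h1 | h1
    · rw [h1, ENNReal.ofReal_one]; exact prob_le_one
    · have hT : Tendsto (fun s : ℝ => ENNReal.ofReal s) (𝓝[>] t) (𝓝 (ENNReal.ofReal t)) :=
        (ENNReal.continuous_ofReal.tendsto t).mono_left nhdsWithin_le_nhds
      refine ge_of_tendsto hT ?_
      have : ∀ᶠ s in 𝓝[>] t, s < 1 := (eventually_lt_nhds h1).filter_mono nhdsWithin_le_nhds
      filter_upwards [this, self_mem_nhdsWithin] with s hs1 hs
      exact hle s hs hs1
  · rcases eq_or_lt_of_le h0 with h0 | h0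
    · rw [← h0]; simp
    · rcases eq_or_lt_of_le h1 with h1 | h1
      · have : {x | cdf ρ x ≤ t} = univ := by
          ext x; simp [h1, cdf_le_one ρ x]
        rw [this, measure_univ, h1, ENNReal.ofReal_one]
      · obtain ⟨x, hx⟩ := hsurj t h0 h1
        have : Iic x ⊆ {y | cdf ρ y ≤ t} := fun y hy => by
          have := monotone_cdf ρ (show y ≤ x from hy)
          show cdf ρ y ≤ t
          linarith
        calc ENNReal.ofReal t = ρ (Iic x) := by rw [← ofReal_cdf, hx]
          _ ≤ _ := measure_mono this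

theorem exists_iso_unitInterval {Ω : Type*} [MeasurableSpace Ω] [StandardBorelSpace Ω]
    (μ : Measure Ω) [IsProbabilityMeasure μ] (hna : ∀ x, μ {x} = 0) :
    ∃ (θ : Ω → unitInterval) (θ' : unitInterval → Ω), MeasurePreserving θ μ volume ∧
      MeasurePreserving θ' volume μ ∧ (∀ᵐ w ∂μ, θ' (θ w) = w) ∧
      (∀ᵐ x ∂(volume : Measure unitInterval), θ (θ' x) = x) := by
  classical
  have hemb := measurableEmbedding_embeddingReal Ω
  set e := embeddingReal Ω with he
  set ρ : Measure ℝ := μ.map e with hρ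
  have : IsProbabilityMeasure ρ := Measure.isProbabilityMeasure_map hemb.measurable.aemeasurable
  have hρ0 : ∀ x, ρ {x} = 0 := by
    intro x
    rw [hρ, hemb.map_apply]
    by_cases hx : ∃ w, e w = x
    · obtain ⟨w, rfl⟩ := hx
      have : e ⁻¹' {e w} = {w} := by
        ext w'; simp [hemb.injective.eq_iff]
      rw [this, hna]
    · have : e ⁻¹' {x} = ∅ := by
        ext w'; simp only [mem_preimage, mem_singleton_iff, mem_empty_iff_false, iff_false]
        exact fun h => hx ⟨w', h⟩
      rw [this, measure_empty]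
  have hcont := E1_continuous_cdf ρ hρ0
  have hmono := monotone_cdf ρ
  -- the map
  let θ : Ω → I := fun w => ⟨cdf ρ (e w), cdf_nonneg ρ _, cdf_le_one ρ _⟩
  have hθm : Measurable θ :=
    (hcont.measurable.comp hemb.measurable).subtype_mk
  have hθ : MeasurePreserving θ μ volume := by
    refine ⟨hθm, ?_⟩
    have : IsProbabilityMeasure (μ.map θ) := Measure.isProbabilityMeasure_map hθm.aemeasurable
    refine Measure.ext_of_Iic _ _ fun t => ?_
    rw [Measure.map_apply hθm measurableSet_Iic, unitInterval.volume_Iic]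
    have h2 : θ ⁻¹' Iic t = e ⁻¹' {x | cdf ρ x ≤ (t : ℝ)} := by
      ext w; rfl
    rw [h2, ← hemb.map_apply]
    exact E1_cdf_law ρ hρ0 t.2.1 t.2.2
  -- the exceptional set
  let C : Set I := range (fun p : ℚ => (⟨cdf ρ p, cdf_nonneg ρ _, cdf_le_one ρ _⟩ : I))
  have hC : C.Countable := countable_range _
  have hCm : MeasurableSet C := hC.measurableSet
  let Ω₀ : Set Ω := (θ ⁻¹' C)ᶜ
  have hΩ₀m : MeasurableSet Ω₀ := (hθm hCm).compl
  have hΩ₀ : ∀ᵐ w ∂μ, w ∈ Ω₀ := by
    have h1 : μ (θ ⁻¹' C) = 0 := by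
      rw [hθ.measure_preimage hCm.nullMeasurableSet]
      exact hC.measure_zero _
    exact measure_eq_zero_iff_ae_notMem.1 h1
  have key : ∀ w w' : Ω, w ∈ Ω₀ → e w < e w' → θ w ≠ θ w' := by
    intro w w' hw hlt heq
    obtain ⟨p, hp1, hp2⟩ := exists_rat_btwn hlt
    apply hw
    refine ⟨p, ?_⟩
    apply Subtype.ext
    have h1 : cdf ρ (e w) = cdf ρ (e w') := congrArg Subtype.val heq
    show cdf ρ p = cdf ρ (e w)
    exact le_antisymm (by rw [h1]; exact hmono hp2.le) (hmono hp1.le)
  have hinj : Function.Injective (fun w : Ω₀ => θ w) := by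
    intro w w' hww
    rcases lt_trichotomy (e w) (e w') with h | h | h
    · exact absurd hww (key w w' w.2 h)
    · exact Subtype.ext (hemb.injective h)
    · exact absurd hww.symm (key w' w w'.2 h)
  have : StandardBorelSpace Ω₀ := hΩ₀m.standardBorel
  have hme : MeasurableEmbedding (fun w : Ω₀ => θ w) :=
    (hθm.comp measurable_subtype_coe).measurableEmbedding hinj
  have : Nonempty Ω := μ.nonempty_of_neZero
  obtain ⟨θ', hθ'm, hθ'⟩ := hme.exists_measurable_extend (g := fun w : Ω₀ => (w : Ω))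
    measurable_subtype_coe (fun _ => inferInstance)
  have hleft : ∀ᵐ w ∂μ, θ' (θ w) = w := by
    filter_upwards [hΩ₀] with w hw
    exact congrFun hθ' ⟨w, hw⟩
  have hθ'p : MeasurePreserving θ' volume μ := by
    refine ⟨hθ'm, ?_⟩
    rw [← hθ.map_eq, Measure.map_map hθ'm hθm]
    have : θ' ∘ θ =ᵐ[μ] id := hleft
    rw [Measure.map_congr this, Measure.map_id]
  refine ⟨θ, θ', hθ, hθ'p, hleft, ?_⟩
  have hset : MeasurableSet {x : I | θ (θ' x) = x} :=
    measurableSet_eq_fun (hθm.comp hθ'm) measurable_id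
  rw [← hθ.map_eq, ae_map_iff hθm.aemeasurable hset]
  filter_upwards [hleft] with w hw
  rw [hw]

theorem singleton_null (M : ℕ → ℕ) [∀ k, NeZero (M k)] (w : OmM M) :
    (muB.prod (nuM M)) {w} = 0 := by
  have h1 : muB {w.1} = 0 := by
    have h2 : ∀ n : ℕ, muB {w.1} ≤ (2⁻¹ : ℝ≥0∞) ^ n := by
      intro n
      have h3 : ({w.1} : Set BB) ⊆
          Set.pi ((Finset.range n).map Nat.castEmbedding : Finset ℤ) (fun i => {w.1 i}) := by
        intro ξ hξ i _
        rw [mem_singleton_iff] at hξ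
        rw [hξ]; rfl
      refine (measure_mono h3).trans ?_
      unfold muB
      rw [Measure.infinitePi_pi _ (fun i _ => measurableSet_singleton _)]
      rw [Finset.prod_map]
      have h4 : ∀ b : Bool, unif Bool {b} = (2⁻¹ : ℝ≥0∞) := by
        intro b
        unfold unif
        rw [PMF.toMeasure_apply_singleton _ _ (measurableSet_singleton _)]
        simp
      simp only [h4]
      rw [Finset.prod_const, Finset.card_range]
    have h5 : Tendsto (fun n : ℕ => (2⁻¹ : ℝ≥0∞) ^ n) atTop (𝓝 0) :=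
      ENNReal.tendsto_pow_atTop_nhds_zero_of_lt_one (by simp)
    exact le_antisymm (ge_of_tendsto' h5 h2) zero_le
  have h6 : ({w} : Set (OmM M)) = {w.1} ×ˢ {w.2} := by
    ext x; simp [Prod.ext_iff]
  rw [h6, Measure.prod_prod, h1, zero_mul]

end Pool.Agent.KAut
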