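import Pool.Agent.Work.MP_2cfc43_lc.E1

/-! MP_2cfc43_lc: module E2, transport to the unit interval. -/

namespace Pool.Agent.KAut

open MeasureTheory Set Filter Topology
open scoped ENNReal

section transport

variable {Ω : Type*} [MeasurableSpace Ω] {μ : Measure Ω} {θ : Ω → unitInterval}
  {θ' : unitInterval → Ω}

theorem E2_comp (_h1 : MeasurePreserving θ μ volume) (h2 : MeasurePreserving θ' volume μ)
    (h3 : ∀ᵐ w ∂μ, θ' (θ w) = w) (f : Ω → Ω) {g : Ω → Ω} (hg : MeasurePreserving g μ μ) :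
    ∀ᵐ x : unitInterval, θ (f (θ' (θ (g (θ' x))))) = θ (f (g (θ' x))) := by
  have := (hg.comp h2).quasiMeasurePreserving.ae h3
  filter_upwards [this] with x hx
  have hx' : θ' (θ (g (θ' x))) = g (θ' x) := hx
  rw [hx']

/-- transport of a measure preserving automorphism -/
def E2_mk (h1 : MeasurePreserving θ μ volume) (h2 : MeasurePreserving θ' volume μ)
    (h3 : ∀ᵐ w ∂μ, θ' (θ w) = w) (h4 : ∀ᵐ x : unitInterval, θ (θ' x) = x) (S S' : Ω → Ω)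
    (hS : MeasurePreserving S μ μ) (hS' : MeasurePreserving S' μ μ)
    (hl : ∀ᵐ w ∂μ, S' (S w) = w) (hr : ∀ᵐ w ∂μ, S (S' w) = w) : MPT where
  toFun x := θ (S (θ' x))
  invFun x := θ (S' (θ' x))
  mp := h1.comp (hS.comp h2)
  mp_inv := h1.comp (hS'.comp h2)
  left_inv := by
    filter_upwards [E2_comp h1 h2 h3 S' hS, h2.quasiMeasurePreserving.ae hl, h4] with x hx hx2 hx4
    rw [hx, hx2, hx4]
  right_inv := by
    filter_upwards [E2_comp h1 h2 h3 S hS', h2.quasiMeasurePreserving.ae hr, h4] with x hx hx2 hx4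
    rw [hx, hx2, hx4]

theorem E2_iter (h1 : MeasurePreserving θ μ volume) (h2 : MeasurePreserving θ' volume μ)
    (h3 : ∀ᵐ w ∂μ, θ' (θ w) = w) (h4 : ∀ᵐ x : unitInterval, θ (θ' x) = x) {S : Ω → Ω}
    (hS : MeasurePreserving S μ μ) (n : ℕ) :
    ∀ᵐ x : unitInterval, (fun x => θ (S (θ' x)))^[n] x = θ (S^[n] (θ' x)) := by
  induction n with
  | zero => filter_upwards [h4] with x hx; exact hx.symm
  | succ n ih =>
    filter_upwards [ih, E2_comp h1 h2 h3 S (hS.iterate n)] with x hx hx2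
    rw [Function.iterate_succ_apply', hx, Function.iterate_succ_apply']
    exact hx2

/-- pulling back the join of the `S'^n`-preimages of `A` -/
theorem E2_key {Ω : Type*} {θ : Ω → unitInterval} {θ' : unitInterval → Ω} (A : MeasurableSpace Ω)
    {S' : Ω → Ω}
    (iS' : ∀ n : ℕ, ∀ᵐ x : unitInterval,
      (fun x => θ (S' (θ' x)))^[n] x = θ (S'^[n] (θ' x)))
    (eS' : ∀ n : ℕ, ∀ᵐ x : unitInterval, θ' (θ (S'^[n] (θ' x))) = S'^[n] (θ' x))
    (C : Set Ω) (hC : MeasurableSet[⨆ n : ℕ, A.comap (S'^[n])] C) :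
    ∃ D, MeasurableSet[⨆ n : ℕ, (A.comap θ').comap ((fun x => θ (S' (θ' x)))^[n])] D ∧
      (θ' ⁻¹' C : Set unitInterval) =ᵐ[volume] D := by
  have hle : (⨆ n : ℕ, A.comap (S'^[n])) ≤
      (eventuallyMeasurableSpace
        (⨆ n : ℕ, (A.comap θ').comap ((fun x => θ (S' (θ' x)))^[n]))
        (ae (volume : Measure unitInterval))).map θ' := by
    apply iSup_le
    rintro n _ ⟨D, hD, rfl⟩
    refine ⟨((fun x => θ (S' (θ' x)))^[n]) ⁻¹' (θ' ⁻¹' D), ?_, ?_⟩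
    · exact (le_iSup (fun n : ℕ => (A.comap θ').comap ((fun x => θ (S' (θ' x)))^[n])) n) _
          ⟨θ' ⁻¹' D, ⟨D, hD, rfl⟩, rfl⟩
    · filter_upwards [iS' n, eS' n] with x hx hx2
      change (S'^[n] (θ' x) ∈ D) = (θ' (((fun x => θ (S' (θ' x)))^[n]) x) ∈ D)
      rw [hx, hx2]
  exact hle C hC

theorem E2_kol (h1 : MeasurePreserving θ μ volume) (h2 : MeasurePreserving θ' volume μ)
    (h3 : ∀ᵐ w ∂μ, θ' (θ w) = w) (h4 : ∀ᵐ x : unitInterval, θ (θ' x) = x) {S S' : Ω → Ω}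
    (hS : MeasurePreserving S μ μ) (hS' : MeasurePreserving S' μ μ) (hK : KolOn μ S S') :
    KolOn (volume : Measure unitInterval) (fun x => θ (S (θ' x))) (fun x => θ (S' (θ' x))) := by
  have q1 : ∀ {p : unitInterval → Prop}, (∀ᵐ x, p x) → ∀ᵐ w ∂μ, p (θ w) :=
    fun h => h1.quasiMeasurePreserving.ae h
  have q2 : ∀ {p : Ω → Prop}, (∀ᵐ w ∂μ, p w) → ∀ᵐ x : unitInterval, p (θ' x) :=
    fun h => h2.quasiMeasurePreserving.ae h
  have eS : ∀ n : ℕ, ∀ᵐ x : unitInterval, θ' (θ (S^[n] (θ' x))) = S^[n] (θ' x) := fun n =>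
    ((hS.iterate n).comp h2).quasiMeasurePreserving.ae h3
  have eS' : ∀ n : ℕ, ∀ᵐ x : unitInterval, θ' (θ (S'^[n] (θ' x))) = S'^[n] (θ' x) := fun n =>
    ((hS'.iterate n).comp h2).quasiMeasurePreserving.ae h3
  have eW : ∀ n : ℕ, ∀ᵐ w ∂μ, θ' (θ (S^[n] w)) = S^[n] w := fun n =>
    (hS.iterate n).quasiMeasurePreserving.ae h3
  have iS := E2_iter h1 h2 h3 h4 hS
  have iS' := E2_iter h1 h2 h3 h4 hS'
  have hmθ : ∀ B : Set unitInterval, MeasurableSet B → MeasurableSet (θ ⁻¹' B) :=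
    fun B hB => h1.measurable hB
  have hvol : ∀ B : Set unitInterval, MeasurableSet B → μ (θ ⁻¹' B) = volume B :=
    fun B hB => h1.measure_preimage hB.nullMeasurableSet
  have hcomap := h2.measurable.comap_le
  obtain ⟨A, hA, hK1, hK2, hK3⟩ := hK
  refine ⟨A.comap θ', (MeasurableSpace.comap_mono hA).trans hcomap, ?_, ?_, ?_⟩
  · rintro _ ⟨B, hB, rfl⟩
    obtain ⟨B', hB', hBB'⟩ := hK1 B hB
    refine ⟨θ' ⁻¹' B', ⟨B', hB', rfl⟩, ?_⟩
    have e2 : ∀ᵐ x : unitInterval, (θ' x ∈ S ⁻¹' B) = (θ' x ∈ B') := q2 hBB'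
    filter_upwards [eS 1, e2] with x hx hx2
    have hx' : θ' (θ (S (θ' x))) = S (θ' x) := hx
    change (θ' (θ (S (θ' x))) ∈ B) = (θ' x ∈ B')
    rw [hx']; exact hx2
  · intro B hB
    obtain ⟨B', hB', hBB'⟩ := hK2 (θ ⁻¹' B) (hmθ B hB)
    obtain ⟨C, hC, hCe⟩ := E2_key A iS' eS' B' hB'
    refine ⟨C, hC, ?_⟩
    have e2 : ∀ᵐ x : unitInterval, (θ (θ' x) ∈ B) = (θ' x ∈ B') := q2 hBB'
    have e3 : ∀ᵐ x : unitInterval, (θ' x ∈ B') = (x ∈ C) := hCe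
    filter_upwards [e2, e3, h4] with x hx hx2 hx4
    rw [hx4] at hx
    change (x ∈ B) = (x ∈ C)
    rw [hx, hx2]
  · intro B hB h
    rw [← hvol B hB]
    apply hK3 _ (hmθ B hB)
    intro n
    obtain ⟨C, ⟨D, hD, rfl⟩, hBC⟩ := h n
    refine ⟨D, hD, ?_⟩
    have e1 : ∀ᵐ w ∂μ, (θ w ∈ B) = (θ' (((fun x => θ (S (θ' x)))^[n]) (θ w)) ∈ D) := q1 hBC
    have e2 : ∀ᵐ w ∂μ, ((fun x => θ (S (θ' x)))^[n]) (θ w) = θ (S^[n] (θ' (θ w))) := q1 (iS n)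
    filter_upwards [e1, e2, eW n, h3] with w hw hw2 hw3 hw4
    change (θ w ∈ B) = (S^[n] w ∈ D)
    rw [hw, hw2, hw4, hw3]

end transport

theorem exists_kappa (M : ℕ → ℕ) [∀ k, NeZero (M k)] :
    ∃ κ : OmAut M → AutI,
      (∀ U V : OmAut M, (∃ φ ψ : OmM M → OmM M,
          MeasurePreserving φ (muB.prod (nuM M)) (muB.prod (nuM M)) ∧
          MeasurePreserving ψ (muB.prod (nuM M)) (muB.prod (nuM M)) ∧
          (∀ᵐ w ∂(muB.prod (nuM M)), ψ (φ w) = w) ∧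
          (∀ᵐ w ∂(muB.prod (nuM M)), φ (ψ w) = w) ∧
          (∀ᵐ w ∂(muB.prod (nuM M)), φ (U.S w) = V.S (φ w))) → Iso (κ U) (κ V)) ∧
      (∀ U V : OmAut M, Iso (κ U) (κ V) → ∃ φ : OmM M → OmM M,
          MeasurePreserving φ (muB.prod (nuM M)) (muB.prod (nuM M)) ∧
          ∀ᵐ w ∂(muB.prod (nuM M)), φ (U.S w) = V.S (φ w)) ∧
      (∀ U : OmAut M, KolOn (muB.prod (nuM M)) U.S U.S' → IsKol (κ U)) ∧
      (∀ (U V : OmAut M) (A B : Set unitInterval), MeasurableSet A → MeasurableSet B →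
          evalAut A B (κ U) ≤ evalAut A B (κ V) + (muB.prod (nuM M)) {w | U.S w ≠ V.S w}) := by
  obtain ⟨θ, θ', h1, h2, h3, h4⟩ :=
    exists_iso_unitInterval (muB.prod (nuM M)) (singleton_null M)
  set μ := muB.prod (nuM M) with hμ
  let mk : OmAut M → MPT := fun U => E2_mk h1 h2 h3 h4 U.S U.S' U.mp U.mp'
    (Eventually.of_forall U.left) (Eventually.of_forall U.right)
  refine ⟨fun U => (⟦mk U⟧ : Quotient mptSetoid), ?_, ?_, ?_, ?_⟩
  · rintro U V ⟨φ, ψ, hφ, hψ, hl, hr, hc⟩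
    refine ⟨mk U, mk V, E2_mk h1 h2 h3 h4 φ ψ hφ hψ hl hr, rfl, rfl, ?_⟩
    filter_upwards [E2_comp h1 h2 h3 φ U.mp, E2_comp h1 h2 h3 V.S hφ,
      h2.quasiMeasurePreserving.ae hc] with x hx hx2 hx3
    change θ (φ (θ' (θ (U.S (θ' x))))) = θ (V.S (θ' (θ (φ (θ' x)))))
    rw [hx, hx2, hx3]
  · rintro U V ⟨s, t, Φ, hs, ht, hc⟩
    have hs' : ∀ᵐ x : unitInterval, s.toFun x = θ (U.S (θ' x)) := Quotient.exact hs
    have ht' : ∀ᵐ x : unitInterval, t.toFun x = θ (V.S (θ' x)) := Quotient.exact ht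
    refine ⟨fun w => θ' (Φ.toFun (θ w)), h2.comp (Φ.mp.comp h1), ?_⟩
    have q1 := h1.quasiMeasurePreserving
    have e1 : ∀ᵐ w ∂μ, s.toFun (θ w) = θ (U.S (θ' (θ w))) := q1.ae hs'
    have e2 : ∀ᵐ w ∂μ, t.toFun (Φ.toFun (θ w)) = θ (V.S (θ' (Φ.toFun (θ w)))) :=
      (Φ.mp.comp h1).quasiMeasurePreserving.ae ht'
    have e3 : ∀ᵐ w ∂μ, Φ.toFun (s.toFun (θ w)) = t.toFun (Φ.toFun (θ w)) := q1.ae hc
    have e4 : ∀ᵐ w ∂μ, θ' (θ (V.S (θ' (Φ.toFun (θ w))))) = V.S (θ' (Φ.toFun (θ w))) :=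
      (V.mp.comp (h2.comp (Φ.mp.comp h1))).quasiMeasurePreserving.ae h3
    filter_upwards [e1, e2, e3, e4, h3] with w hw1 hw2 hw3 hw4 hw5
    change θ' (Φ.toFun (θ (U.S w))) = V.S (θ' (Φ.toFun (θ w)))
    rw [hw5] at hw1
    rw [← hw1, hw3, hw2, hw4]
  · intro U hU
    exact ⟨mk U, rfl, E2_kol h1 h2 h3 h4 U.mp U.mp' hU⟩
  · intro U V A B hA hB
    change volume ((fun x => θ (U.S (θ' x))) ⁻¹' A ∩ B) ≤
      volume ((fun x => θ (V.S (θ' x))) ⁻¹' A ∩ B) + μ {w | U.S w ≠ V.S w}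
    have hsub : ((fun x => θ (U.S (θ' x))) ⁻¹' A ∩ B) ⊆
        ((fun x => θ (V.S (θ' x))) ⁻¹' A ∩ B) ∪ θ' ⁻¹' {w | U.S w ≠ V.S w} := by
      rintro x ⟨hx, hxB⟩
      by_cases h : U.S (θ' x) = V.S (θ' x)
      · left
        refine ⟨?_, hxB⟩
        change θ (V.S (θ' x)) ∈ A
        rw [← h]; exact hx
      · right; exact h
    refine (measure_mono hsub).trans ((measure_union_le _ _).trans ?_)
    gcongr
    have := Measure.le_map_apply (μ := (volume : Measure unitInterval)) h2.measurable.aemeasurable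
      {w | U.S w ≠ V.S w}
    rwa [h2.map_eq] at this

end Pool.Agent.KAut
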