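import Pool.Agent.Work.MP_2cfc43_lc.Defs

/-! MP_2cfc43_lc, module N: numbers. -/

namespace Pool.Agent.KAut

open Finset

theorem rc_zero : rc 0 = 1 := by simp [rc]
theorem rc_pos (k : ℕ) : 0 < rc k := by unfold rc; positivity
theorem pc_pos (k : ℕ) : 0 < pc k := by unfold pc; positivity
theorem qc_pos (k : ℕ) : 0 < qc k := Nat.mul_pos (pc_pos k) (rc_pos k)
theorem N_pc_le_qc (k : ℕ) : pc k ≤ qc k := Nat.le_mul_of_pos_right _ (rc_pos k)
theorem N_two_pow_le_qc (k : ℕ) : 2 ^ 12 ≤ qc k := by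
  have h1 : 2 ^ 12 ≤ pc k := by
    unfold pc
    exact Nat.pow_le_pow_right (by norm_num) (by omega)
  exact h1.trans (N_pc_le_qc k)
theorem two_le_qc (k : ℕ) : 2 ≤ qc k := le_trans (by norm_num) (N_two_pow_le_qc k)
theorem Lc_pos (k : ℕ) : 0 < Lc k := by unfold Lc; positivity
theorem bc_pos (k : ℕ) : 0 < bc k := pow_pos (qc_pos k) _
theorem Rc_pos (k : ℕ) : 0 < Rc k := Nat.mul_pos (qc_pos k) (bc_pos k)
theorem two_le_Mc (k : ℕ) : 2 ≤ Mc k := by
  have h1 : 2 ≤ Lc k := by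
    unfold Lc
    calc 2 = 2 ^ 1 := by norm_num
      _ ≤ 2 ^ (k + 1) := Nat.pow_le_pow_right (by norm_num) (by omega)
  calc 2 ≤ Lc k := h1
    _ ≤ Lc k * Rc k := Nat.le_mul_of_pos_right _ (Rc_pos k)
instance Mc_neZero (k : ℕ) : NeZero (Mc k) := ⟨by have := two_le_Mc k; omega⟩
theorem ell_pos (k s : ℕ) : 0 < ell k s := pow_pos (qc_pos k) _
theorem ell_dvd_bc (k s : ℕ) : ell k s ∣ bc k :=
  pow_dvd_pow _ (Nat.mul_le_mul_left 2 (min_le_right s (tc k)))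
/-- consecutive run lengths -/
theorem ell_ratio {k s s' : ℕ} (h : s < s') (h' : s' ≤ tc k) :
    qc k ^ 2 * ell k s ≤ ell k s' := by
  unfold ell
  rw [min_eq_left h', min_eq_left (h.le.trans h'), ← pow_add]
  exact Nat.pow_le_pow_right (qc_pos k) (by omega)
theorem hc_zero : hc 0 = 1 := by simp [hc]
theorem hc_succ (k : ℕ) : hc (k + 1) = hc k * Mc k := by
  unfold hc; rw [Finset.prod_range_succ]
theorem hc_eq_hM (k : ℕ) : hc k = hM Mc k := rfl
theorem hc_pos (k : ℕ) : 0 < hc k := by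
  unfold hc
  exact Finset.prod_pos (fun l _ => by have := two_le_Mc l; omega)
theorem eight_dvd_hc (k : ℕ) : 8 ∣ hc (k + 1) := by
  rw [hc_succ]
  apply Dvd.dvd.mul_left
  unfold Mc
  apply Dvd.dvd.mul_left
  unfold Rc
  apply Dvd.dvd.mul_right
  unfold qc
  apply Dvd.dvd.mul_right
  unfold pc
  exact ⟨2 ^ (k + 9), by rw [show k + 12 = 3 + (k + 9) by ring, pow_add]; norm_num⟩
theorem hc_large (k : ℕ) : 2 ^ k * qc (k + 1) ≤ hc (k + 1) := by
  rw [hc_succ]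
  have h1 : 2 ^ k ≤ Lc k := by
    unfold Lc; exact Nat.pow_le_pow_right (by norm_num) (by omega)
  have h2 : qc (k + 1) ≤ bc k := by
    unfold bc
    have h3 : qc (k + 1) ≤ 2 * tc k := by unfold tc; omega
    calc qc (k + 1) ≤ 2 * tc k := h3
      _ ≤ 2 ^ (2 * tc k) := Nat.lt_two_pow_self.le
      _ ≤ qc k ^ (2 * tc k) := Nat.pow_le_pow_left (two_le_qc k) _
  have h3 : bc k ≤ Rc k := Nat.le_mul_of_pos_left _ (qc_pos k)
  calc 2 ^ k * qc (k + 1) ≤ Lc k * Rc k := Nat.mul_le_mul h1 (h2.trans h3)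
    _ = Mc k := rfl
    _ ≤ hc k * Mc k := Nat.le_mul_of_pos_left _ (hc_pos k)

end Pool.Agent.KAut
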