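import Pool.Agent.Work.MP_2cfc43_lc.Defs
import Pool.Agent.Work.MP_2cfc43_lc.N
import Pool.Agent.Work.MP_2cfc43_lc.F0

/-! MP_2cfc43_lc, module F1: longest common subsequences of the patterns. -/

namespace Pool.Agent.KAut

open List

/-- a word made of constant runs, against a word whose factors contain every letter rarely -/
theorem F1_runs (p K : ℕ) : ∀ (runs : List (ℕ × ℕ)) (u : List ℕ),
    (∀ I : List ℕ, I <:+: u → ∀ c, p * I.count c ≤ I.length + K) →
    p * lcs u (runs.flatMap (fun z => List.replicate z.1 z.2)) ≤ u.length + runs.length * K := by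
  intro runs
  induction runs with
  | nil =>
    intro u _
    have h1 : lcs u ([] : List ℕ) ≤ 0 := F0_le_right u []
    have h2 : lcs u ([] : List ℕ) = 0 := by omega
    simp [h2]
  | cons z runs ih =>
    intro u hu
    obtain ⟨c, hcu, hcv, hc⟩ := exists_lcs u ((z :: runs).flatMap (fun z => List.replicate z.1 z.2))
    rw [← hc]
    rw [List.flatMap_cons] at hcv
    obtain ⟨c1, c2, rfl, h1, h2⟩ := List.sublist_append_iff.1 hcv
    obtain ⟨u1, u2, rfl, h3, h4⟩ := List.append_sublist_iff.1 hcu
    obtain ⟨n, -, rfl⟩ := List.sublist_replicate_iff.1 h1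
    have h5 : n ≤ u1.count z.2 := List.replicate_sublist_iff.1 h3
    have h6 := hu u1 ⟨[], u2, by simp⟩ z.2
    have h7 := ih u2 (fun I hI c => hu I (hI.trans ⟨u1, [], by simp⟩) c)
    have h8 := F0_le h4 h2
    have h9 : p * n ≤ p * u1.count z.2 := Nat.mul_le_mul_left _ h5
    have h10 : p * c2.length ≤ p * lcs u2 (runs.flatMap (fun z => List.replicate z.1 z.2)) :=
      Nat.mul_le_mul_left _ h8
    simp only [List.length_append, List.length_replicate, List.length_cons]
    rw [Nat.mul_add, Nat.add_mul]
    omega

theorem F1_count (f : ℕ → ℕ) (c a t : ℕ) :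
    ((List.range' a t).map f).count c
      = ((Finset.Ico a (a + t)).filter (fun n => f n = c)).card := by
  induction t with
  | zero => simp
  | succ t ih =>
    rw [List.range'_concat, List.map_append, List.count_append, ih]
    have hins : Finset.Ico a (a + (t + 1)) = insert (a + t) (Finset.Ico a (a + t)) := by
      ext x; simp only [Finset.mem_Ico, Finset.mem_insert]; omega
    rw [hins, Finset.filter_insert]
    by_cases h : f (a + t) = c
    · rw [if_pos h, Finset.card_insert_of_notMem (by simp)]
      simp [h]
    · rw [if_neg h]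
      simp [h]

/-- the periodic word with runs of length `l` -/
def perW (q r l a m : ℕ) : List ℕ := (List.range' a m).map (fun n => n / l % q / r)

theorem perW_length (q r l a m : ℕ) : (perW q r l a m).length = m := by simp [perW]

theorem F1_period {q r l : ℕ} (hl : 0 < l) (hr : 0 < r) (c a : ℕ) :
    ((Finset.Ico a (a + q * l)).filter (fun n => n / l % q / r = c)).card ≤ r * l := by
  have hper : Function.Periodic (fun n : ℕ => n / l % q / r = c) (q * l) := by
    intro n
    simp only
    rw [show n + q * l = n + l * q by ring, Nat.add_mul_div_left _ _ hl, Nat.add_mod_right]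
  rw [Nat.filter_Ico_card_eq_of_periodic _ _ _ hper, Nat.count_eq_card_filter_range]
  have hsub : (Finset.range (q * l)).filter (fun n => n / l % q / r = c)
      ⊆ Finset.Ico (c * r * l) (c * r * l + r * l) := by
    intro n hn
    simp only [Finset.mem_filter, Finset.mem_range] at hn
    obtain ⟨h1, h2⟩ := hn
    have h3 : n / l < q := (Nat.div_lt_iff_lt_mul hl).2 h1
    rw [Nat.mod_eq_of_lt h3] at h2
    simp only [Finset.mem_Ico]
    have h4 : c * r ≤ n / l := by
      rw [← h2]; exact Nat.div_mul_le_self _ _
    have h5 : n / l < c * r + r := by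
      rw [← h2]
      exact Nat.lt_div_mul_add hr
    constructor
    · calc c * r * l ≤ n / l * l := Nat.mul_le_mul_right _ h4
        _ ≤ n := Nat.div_mul_le_self _ _
    · have h6 : n < n / l * l + l := Nat.lt_div_mul_add hl
      have h7 : n / l + 1 ≤ c * r + r := h5
      calc n < n / l * l + l := h6
        _ = (n / l + 1) * l := by ring
        _ ≤ (c * r + r) * l := Nat.mul_le_mul_right _ h7
        _ = c * r * l + r * l := by ring
  calc _ ≤ (Finset.Ico (c * r * l) (c * r * l + r * l)).card := Finset.card_le_card hsub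
    _ = r * l := by simp

/-- every letter is rare in every factor -/
theorem F1_rare {p q r l : ℕ} (hl : 0 < l) (hr : 0 < r) (hp : 0 < p) (hq : q = p * r) (c : ℕ) :
    ∀ (t a : ℕ), p * ((Finset.Ico a (a + t)).filter (fun n => n / l % q / r = c)).card
      ≤ t + q * l := by
  intro t
  induction t using Nat.strong_induction_on with
  | _ t ih =>
    intro a
    have hql : p * (r * l) = q * l := by rw [hq]; ring
    have hpos : 0 < q * l := by rw [hq]; positivity
    rcases Nat.lt_or_ge t (q * l) with h | h
    · have h1 : ((Finset.Ico a (a + t)).filter (fun n => n / l % q / r = c)).card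
          ≤ ((Finset.Ico a (a + q * l)).filter (fun n => n / l % q / r = c)).card := by
        apply Finset.card_le_card
        apply Finset.filter_subset_filter
        exact Finset.Ico_subset_Ico_right (by omega)
      have h2 := Nat.mul_le_mul_left p (h1.trans (F1_period (q := q) hl hr c a))
      omega
    · have h1 := ih (t - q * l) (by omega) (a + q * l)
      have h2 := Nat.mul_le_mul_left p (F1_period (q := q) hl hr c a)
      have hun : Finset.Ico a (a + t)
          = Finset.Ico a (a + q * l) ∪ Finset.Ico (a + q * l) (a + q * l + (t - q * l)) := by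
        ext x; simp only [Finset.mem_Ico, Finset.mem_union]; omega
      rw [hun, Finset.filter_union]
      have h3 := Finset.card_union_le
        ((Finset.Ico a (a + q * l)).filter (fun n => n / l % q / r = c))
        ((Finset.Ico (a + q * l) (a + q * l + (t - q * l))).filter (fun n => n / l % q / r = c))
      have h4 := Nat.mul_le_mul_left p h3
      rw [Nat.mul_add] at h4
      omega

theorem F1_infix {q r l a m : ℕ} {I : List ℕ} (h : I <:+: perW q r l a m) :
    ∃ b t, I = perW q r l b t := by
  obtain ⟨s, t, hst⟩ := h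
  refine ⟨a + s.length, I.length, ?_⟩
  have h1 : I = ((perW q r l a m).drop s.length).take I.length := by
    rw [← hst]; simp
  have hlen : s.length + I.length ≤ m := by
    have := congrArg List.length hst
    simp only [List.length_append, perW_length] at this
    omega
  have h2 : perW q r l a m = perW q r l a s.length ++ (perW q r l (a + s.length) I.length
      ++ perW q r l (a + s.length + I.length) (m - s.length - I.length)) := by
    unfold perW
    rw [← List.map_append, ← List.map_append, List.range'_append_1, List.range'_append_1]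
    congr 2
    omega
  rw [h2] at h1
  rw [List.drop_left' (by simp [perW]), List.take_left' (by simp [perW])] at h1
  exact h1

theorem F1_runs_eq {q r l : ℕ} (y : ℕ) : ∀ s : ℕ,
    perW q r l (y * l) (s * l)
      = ((List.range s).map (fun i => (l, (y + i) % q / r))).flatMap
          (fun z => List.replicate z.1 z.2) := by
  intro s
  induction s with
  | zero => simp [perW]
  | succ s ih =>
    rw [List.range_succ, List.map_append, List.flatMap_append, ← ih]
    simp only [List.map_cons, List.map_nil, List.flatMap_cons, List.flatMap_nil, List.append_nil]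
    unfold perW
    rw [show (s + 1) * l = s * l + l by ring, ← List.range'_append_1, List.map_append]
    congr 1
    rw [List.eq_replicate_iff]
    refine ⟨by simp, ?_⟩
    intro b hb
    simp only [List.mem_map, List.mem_range'_1] at hb
    obtain ⟨n, ⟨h1, h2⟩, rfl⟩ := hb
    have h3 : n / l = y + s := by
      apply Nat.div_eq_of_lt_le
      · calc (y + s) * l = y * l + s * l := by ring
          _ ≤ n := h1
      · calc n < y * l + s * l + l := h2
          _ = (y + s + 1) * l := by ring
    rw [h3]

theorem F1_pair {p q r l l' a m y s : ℕ} (hl : 0 < l) (hr : 0 < r) (hp : 0 < p)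
    (hq : q = p * r) (hll : q * l ≤ l') :
    p * lcs (perW q r l a m) (perW q r l' (y * l') (s * l')) ≤ m + s * l' := by
  rw [F1_runs_eq]
  have h1 := F1_runs p (q * l) ((List.range s).map (fun i => (l', (y + i) % q / r)))
    (perW q r l a m) (by
      intro I hI c
      obtain ⟨b, t, rfl⟩ := F1_infix hI
      rw [perW_length]
      unfold perW
      rw [F1_count]
      exact F1_rare hl hr hp hq c t b)
  rw [perW_length, List.length_map, List.length_range] at h1
  have h2 : s * (q * l) ≤ s * l' := Nat.mul_le_mul_left _ hll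
  omega

/-- the two halves of a pattern: cells `x … x + n - 1`, all of type `s` -/
def half (k s x n : ℕ) : List ℕ := perW (qc k) (rc k) (ell k s) (x * Rc k) (n * Rc k)

theorem half_length (k s x n : ℕ) : (half k s x n).length = n * Rc k := perW_length _ _ _ _ _

theorem half_pair_lt {k s s' : ℕ} (h : s < s') (h' : s' ≤ tc k) (x n x' n' : ℕ) :
    pc k * lcs (half k s x n) (half k s' x' n') ≤ n * Rc k + n' * Rc k := by
  obtain ⟨d, hd⟩ : ell k s' ∣ Rc k := (ell_dvd_bc k s').trans ⟨qc k, by unfold Rc; ring⟩
  have h1 : qc k * ell k s ≤ ell k s' := by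
    have h2 := ell_ratio h h'
    have h3 : qc k * ell k s ≤ qc k ^ 2 * ell k s :=
      Nat.mul_le_mul_right _ (by rw [pow_two]; exact Nat.le_mul_of_pos_left _ (qc_pos k))
    exact h3.trans h2
  have h4 := F1_pair (p := pc k) (q := qc k) (r := rc k) (l := ell k s) (l' := ell k s')
    (a := x * Rc k) (m := n * Rc k) (y := x' * d) (s := n' * d) (ell_pos k s)
    (rc_pos k) (pc_pos k) rfl h1
  have e1 : x' * d * ell k s' = x' * Rc k := by rw [hd]; ring
  have e2 : n' * d * ell k s' = n' * Rc k := by rw [hd]; ring
  rw [e1, e2] at h4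
  exact h4

theorem half_pair {k s s' : ℕ} (hne : s ≠ s') (h : s ≤ tc k) (h' : s' ≤ tc k) (x n x' n' : ℕ) :
    pc k * lcs (half k s x n) (half k s' x' n') ≤ n * Rc k + n' * Rc k := by
  rcases Nat.lt_or_ge s s' with h1 | h1
  · exact half_pair_lt h1 h' x n x' n'
  · rw [lcs_comm, Nat.add_comm]
    exact half_pair_lt (by omega) h x' n' x n

theorem map_range_split (f : ℕ → ℕ) (a b : ℕ) :
    (List.range (a + b)).map f = (List.range' 0 a).map f ++ (List.range' a b).map f := by
  rw [List.range_eq_range', ← List.range'_append_1, List.map_append, Nat.zero_add]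

theorem pat_split (R q r B L : ℕ) (hR : 0 < R) (hB : B ≤ L) (T : ℕ → ℕ) (f : ℕ → ℕ)
    (t1 t2 : ℕ) (h1 : ∀ c, c < B → T c = t1) (h2 : ∀ c, B ≤ c → c < L → T c = t2)
    (ℓ : ℕ → ℕ) (hf : ∀ n, f n = (n / ℓ (T (n / R))) % q / r) :
    (List.range (L * R)).map f
      = (List.range' 0 (B * R)).map (fun n => (n / ℓ t1) % q / r)
        ++ (List.range' (B * R) ((L - B) * R)).map (fun n => (n / ℓ t2) % q / r) := by
  have hsplit : L * R = B * R + (L - B) * R := by
    rw [← Nat.add_mul, Nat.add_sub_cancel' hB]
  rw [hsplit, map_range_split]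
  have e1 : (List.range' 0 (B * R)).map f
      = (List.range' 0 (B * R)).map (fun n => (n / ℓ t1) % q / r) := by
    apply List.map_congr_left
    intro n hn
    simp only [List.mem_range'_1, Nat.zero_le, true_and, Nat.zero_add] at hn
    rw [hf, h1 _ ((Nat.div_lt_iff_lt_mul hR).2 hn)]
  have e2 : (List.range' (B * R) ((L - B) * R)).map f
      = (List.range' (B * R) ((L - B) * R)).map (fun n => (n / ℓ t2) % q / r) := by
    apply List.map_congr_left
    intro n hn
    simp only [List.mem_range'_1] at hn
    obtain ⟨h3, h4⟩ := hn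
    rw [← hsplit] at h4
    rw [hf, h2 _ ((Nat.le_div_iff_mul_le hR).2 h3) ((Nat.div_lt_iff_lt_mul hR).2 h4)]
  rw [e1, e2]

theorem pat_eq (A k j : ℕ) :
    pat A k j = half k j 0 (min A (Lc k))
      ++ half k (qc (k + 1) + j / rc (k + 1)) (min A (Lc k)) (Lc k - min A (Lc k)) := by
  have h := pat_split (Rc k) (qc k) (rc k) (min A (Lc k)) (Lc k) (Rc_pos k) (min_le_right _ _)
    (typ A k j) (fun n => psym A k j n / rc k) j (qc (k + 1) + j / rc (k + 1))
    (fun c hc => if_pos (lt_of_lt_of_le hc (min_le_left _ _)))
    (fun c hc hc' => if_neg (by omega)) (ell k) (fun n => rfl)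
  unfold half perW
  rw [Nat.zero_mul]
  exact h

theorem F1_final {k j j' cj cj' B : ℕ} (hj : j < qc (k + 1)) (hj' : j' < qc (k + 1))
    (hc : cj < pc (k + 1)) (hc' : cj' < pc (k + 1)) (hne : j ≠ j') (hBL : B ≤ Lc k)
    (h : cj ≠ cj' ∨ B = Lc k) :
    pc k * lcs (half k j 0 B ++ half k (qc (k + 1) + cj) B (Lc k - B))
      (half k j' 0 B ++ half k (qc (k + 1) + cj') B (Lc k - B)) ≤ 4 * Mc k := by
  have ht : tc k = qc (k + 1) + pc (k + 1) := rfl
  have h0 := lcs_append_le (half k j 0 B) (half k (qc (k + 1) + cj) B (Lc k - B))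
    (half k j' 0 B) (half k (qc (k + 1) + cj') B (Lc k - B))
  have h1 := half_pair (k := k) hne (by omega) (by omega) 0 B 0 B
  have h2 := half_pair (k := k) (s := j) (s' := qc (k + 1) + cj') (by omega)
    (by omega) (by omega) 0 B B (Lc k - B)
  have h3 := half_pair (k := k) (s := qc (k + 1) + cj) (s' := j') (by omega)
    (by omega) (by omega) B (Lc k - B) 0 B
  have h4 : pc k * lcs (half k (qc (k + 1) + cj) B (Lc k - B))
      (half k (qc (k + 1) + cj') B (Lc k - B))
      ≤ (Lc k - B) * Rc k + (Lc k - B) * Rc k := by
    rcases h with h | h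
    · exact half_pair (k := k) (by omega) (by omega) (by omega) B (Lc k - B) B (Lc k - B)
    · have hz : Lc k - B = 0 := by omega
      rw [hz]
      have h5 := lcs_le_left (half k (qc (k + 1) + cj) B 0) (half k (qc (k + 1) + cj') B 0)
      rw [half_length] at h5
      have h6 : lcs (half k (qc (k + 1) + cj) B 0) (half k (qc (k + 1) + cj') B 0) = 0 := by
        omega
      rw [h6]; simp
  have h5 : B * Rc k + (Lc k - B) * Rc k = Mc k := by
    unfold Mc
    rw [← Nat.add_mul]
    congr 1
    omega
  have h6 := Nat.mul_le_mul_left (pc k) h0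
  rw [Nat.mul_add, Nat.mul_add, Nat.mul_add] at h6
  omega

theorem pattern_lcs {A k j j' : ℕ} (hj : j < qc (k + 1)) (hj' : j' < qc (k + 1))
    (h : j / rc (k + 1) ≠ j' / rc (k + 1) ∨ (j ≠ j' ∧ Lc k ≤ A)) :
    pc k * lcs (pat A k j) (pat A k j') ≤ 4 * Mc k := by
  have hcl : ∀ i, i < qc (k + 1) → i / rc (k + 1) < pc (k + 1) := by
    intro i hi
    rw [Nat.div_lt_iff_lt_mul (rc_pos _)]
    exact hi
  have hne : j ≠ j' := by
    rcases h with h | h
    · intro e; exact h (by rw [e])
    · exact h.1
  rw [pat_eq, pat_eq]
  refine F1_final hj hj' (hcl j hj) (hcl j' hj') hne (min_le_right _ _) ?_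
  rcases h with h | h
  · exact Or.inl h
  · exact Or.inr (min_eq_right h.2)

end Pool.Agent.KAut
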