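import Pool.Agent.Work.MP_2cfc43_lc.EDefs
import Pool.Agent.Work.MP_2cfc43_lc.N
import Pool.Agent.Work.MP_2cfc43_lc.P
import Pool.Agent.Work.MP_2cfc43_lc.C1
import Pool.Agent.Work.MP_2cfc43_lc.C4
import Pool.Agent.Work.MP_2cfc43_lc.C5
import Pool.Agent.Work.MP_2cfc43_lc.S

/-! MP_2cfc43_lc, module G: the family of K-automorphisms, continuity, neighbours. -/

namespace Pool.Agent.KAut

open MeasureTheory Set Filter Topology
open scoped ENNReal

/-! ### Module G (the family, continuity) : file G.lean -/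

/-- the automorphism `K_{T_a}` of `Ω` -/
noncomputable def kau (a : ℕ → ℕ) : OmAut Mc where
  S := skew (adic a).fwd
  S' := skewInv (adic a).bwd
  mp := mp_skew ((adic a).mp_fwd two_le_Mc)
  mp' := mp_skewInv ((adic a).mp_bwd two_le_Mc)
  left := skewInv_skew (adic a).bwd_fwd
  right := skew_skewInv (adic a).fwd_bwd


theorem G_uneq (a a' : ℕ → ℕ) (K : ℕ) (h : ∀ k < K, a k = a' k) :
    (muB.prod (nuM Mc)) {w | (kau a).S w ≠ (kau a').S w} ≤ (hM Mc K : ℝ≥0∞)⁻¹ := by
  have h1 : {w | (kau a).S w ≠ (kau a').S w} ⊆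
      univ ×ˢ {y | (adic a).fwd y ≠ (adic a').fwd y} := by
    rintro ⟨ξ, y⟩ hw
    refine ⟨mem_univ _, ?_⟩
    show (adic a).fwd y ≠ (adic a').fwd y
    intro he
    apply hw
    show skew (adic a).fwd (ξ, y) = skew (adic a').fwd (ξ, y)
    unfold skew
    simp only
    rw [he]
  calc (muB.prod (nuM Mc)) {w | (kau a).S w ≠ (kau a').S w}
      ≤ (muB.prod (nuM Mc)) (univ ×ˢ {y | (adic a).fwd y ≠ (adic a').fwd y}) := measure_mono h1
    _ = muB univ * nuM Mc {y | (adic a).fwd y ≠ (adic a').fwd y} := Measure.prod_prod _ _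
    _ = nuM Mc {y | (adic a).fwd y ≠ (adic a').fwd y} := by rw [measure_univ, one_mul]
    _ ≤ _ := by
      apply Adic.fwd_ne_measure
      · intro k x; rfl
      · intro k hk j
        show ePerm (a k) k j = ePerm (a' k) k j
        rw [h k hk]

theorem G_hM_tendsto : Tendsto (fun K => (hM Mc K : ℝ≥0∞)⁻¹) atTop (𝓝 0) := by
  have h1 : ∀ K, 2 ^ K ≤ hM Mc K := by
    intro K
    unfold hM
    calc 2 ^ K = ∏ _l ∈ Finset.range K, 2 := by simp
      _ ≤ _ := Finset.prod_le_prod' (fun l _ => two_le_Mc l)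
  refine ENNReal.tendsto_inv_nat_nhds_zero.comp ?_
  exact tendsto_atTop_mono (fun K => (Nat.lt_two_pow_self.le).trans (h1 K)) tendsto_id

theorem continuous_kappa {κ : OmAut Mc → AutI}
    (hκ : ∀ (U V : OmAut Mc) (A B : Set unitInterval), MeasurableSet A → MeasurableSet B →
          evalAut A B (κ U) ≤ evalAut A B (κ V) + (muB.prod (nuM Mc)) {w | U.S w ≠ V.S w}) :
    Continuous (fun x : ℕ → ℤ => κ (kau (fun k => (x k).natAbs))) := by
  refine continuous_iInf_rng.2 fun A => continuous_iInf_rng.2 fun B => continuous_induced_rng.2 ?_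
  show Continuous (fun x : ℕ → ℤ => evalAut A.1 B.1 (κ (kau (fun k => (x k).natAbs))))
  set φ : (ℕ → ℤ) → ℝ≥0∞ := fun x => evalAut A.1 B.1 (κ (kau (fun k => (x k).natAbs))) with hφ
  rw [continuous_iff_continuousAt]
  intro x
  have hfin : φ x ≠ ⊤ := by
    have h1 : ∀ T : AutI, evalAut A.1 B.1 T ≤ 1 := by
      intro T
      induction T using Quotient.inductionOn with
      | _ t => exact prob_le_one
    exact ne_top_of_le_ne_top ENNReal.one_ne_top (h1 _)
  rw [ContinuousAt, ENNReal.tendsto_nhds hfin]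
  intro ε hε
  obtain ⟨K, hK⟩ := ((ENNReal.tendsto_nhds_zero.1 G_hM_tendsto) ε hε).exists
  -- neighbourhood: same first `K` coordinates
  have hU : ∀ᶠ z in 𝓝 x, ∀ k < K, z k = x k := by
    refine (eventually_all_finite (Set.finite_lt_nat K)).2 ?_
    intro k _
    have : Tendsto (fun z : ℕ → ℤ => z k) (𝓝 x) (𝓝 (x k)) := (continuous_apply k).tendsto x
    have h3 : ∀ᶠ z : ℤ in 𝓝 (x k), z = x k := by rw [nhds_discrete]; exact eventually_pure.2 rfl
    exact this.eventually h3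
  filter_upwards [hU] with z hz
  have h1 : φ x ≤ φ z + ε := by
    refine (hκ _ (kau (fun k => (z k).natAbs)) A.1 B.1 A.2 B.2).trans ?_
    exact add_le_add le_rfl ((G_uneq _ _ K (fun k hk => by simp [hz k hk])).trans hK)
  have h2 : φ z ≤ φ x + ε := by
    refine (hκ _ (kau (fun k => (x k).natAbs)) A.1 B.1 A.2 B.2).trans ?_
    exact add_le_add le_rfl ((G_uneq _ _ K (fun k hk => by simp [hz k hk])).trans hK)
  exact ⟨tsub_le_iff_right.2 h1, h2⟩

/-- the exceptional cells -/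
def G_B (a a' : ℕ → ℕ) (k : ℕ) : Finset (Fin (Mc k)) :=
  Finset.univ.filter (fun x => (x : ℕ) / Rc k = min (a k) (a' k))

theorem G_B_card (a a' : ℕ → ℕ) (k : ℕ) : (G_B a a' k).card ≤ Rc k := by
  have h1 : (G_B a a' k).card ≤ (Finset.Ico (min (a k) (a' k) * Rc k)
      (min (a k) (a' k) * Rc k + Rc k)).card := by
    refine Finset.card_le_card_of_injOn (fun x => (x : ℕ)) ?_ (fun x _ y _ h => Fin.ext h)
    intro x hx
    have hx' : (x : ℕ) / Rc k = min (a k) (a' k) := by simpa [G_B] using hx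
    have hR := Rc_pos k
    rw [← hx']
    simp only [Finset.coe_Ico, Set.mem_Ico]
    constructor
    · exact Nat.div_mul_le_self _ _
    · have := Nat.lt_div_mul_add hR (a := (x : ℕ))
      exact this
  simpa using h1

theorem G_ratio (a a' : ℕ → ℕ) (k : ℕ) :
    ((G_B a a' k).card : ℝ) / Mc k ≤ (1 / 2) ^ k := by
  have hR : (0 : ℝ) < Rc k := Nat.cast_pos.2 (Rc_pos k)
  have hc : ((G_B a a' k).card : ℝ) ≤ Rc k := Nat.cast_le.2 (G_B_card a a' k)
  have hM' : (Mc k : ℝ) = Lc k * Rc k := by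
    rw [← Nat.cast_mul]; rfl
  have hL2 : (Lc k : ℝ) = 2 ^ (k + 1) := by
    unfold Lc; exact Nat.cast_pow 2 (k + 1)
  generalize (Rc k : ℝ) = R at *
  generalize ((G_B a a' k).card : ℝ) = c at *
  rw [hM', hL2, div_le_iff₀ (by positivity), one_div, inv_pow]
  have : ((2 : ℝ) ^ k)⁻¹ * (2 ^ (k + 1) * R) = 2 * R := by
    rw [pow_succ]; field_simp
  rw [this]; linarith

theorem kau_adjacent {a a' : ℕ → ℕ} (h1 : ∀ k, a k ≤ a' k + 1) (h2 : ∀ k, a' k ≤ a k + 1) :
    ∃ φ ψ : OmM Mc → OmM Mc,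
          MeasurePreserving φ (muB.prod (nuM Mc)) (muB.prod (nuM Mc)) ∧
          MeasurePreserving ψ (muB.prod (nuM Mc)) (muB.prod (nuM Mc)) ∧
          (∀ᵐ w ∂(muB.prod (nuM Mc)), ψ (φ w) = w) ∧
          (∀ᵐ w ∂(muB.prod (nuM Mc)), φ (ψ w) = w) ∧
          (∀ᵐ w ∂(muB.prod (nuM Mc)), φ ((kau a).S w) = (kau a').S (φ w)) := by
  have hsum : Summable fun k => (((G_B a a' k).card : ℝ) / Mc k) := by
    have hg : Summable fun k : ℕ => ((1 : ℝ) / 2) ^ k := summable_geometric_two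
    refine Summable.of_nonneg_of_le (fun k => div_nonneg (Nat.cast_nonneg _) (Nat.cast_nonneg _))
      (fun k => ?_) hg
    exact G_ratio a a' k
  obtain ⟨φ, ψ, hφ, hψ, hl, hr, hconj⟩ := Adic.iso_of_adjacent two_le_Mc (adic a) (adic a')
    (fun _ _ => rfl) (G_B a a') hsum (fun k j x hx => by
      apply Fin.ext
      show eN (a k) k j x = eN (a' k) k j x
      apply eN_adj (h1 k) (h2 k)
      simpa [G_B] using hx)
  have key : ∀ {p : Prd Mc → Prop}, (∀ᵐ y ∂nuM Mc, p y) →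
      ∀ᵐ w ∂(muB.prod (nuM Mc)), p w.2 := by
    intro p hp
    exact (Measure.quasiMeasurePreserving_snd (μ := muB) (ν := nuM Mc)).ae hp
  refine ⟨fun w => (w.1, φ w.2), fun w => (w.1, ψ w.2), ?_, ?_, ?_, ?_, ?_⟩
  · exact (MeasurePreserving.id muB).prod hφ
  · exact (MeasurePreserving.id muB).prod hψ
  · filter_upwards [key hl] with w hw
    exact Prod.ext rfl hw
  · filter_upwards [key hr] with w hw
    exact Prod.ext rfl hw
  · filter_upwards [key hconj] with w hw
    show ((fun n => w.1 (n + 1)), φ (if w.1 0 then (adic a).fwd w.2 else w.2))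
      = ((fun n => w.1 (n + 1)), (if w.1 0 then (adic a').fwd (φ w.2) else φ w.2))
    refine Prod.ext rfl ?_
    show φ (if w.1 0 then (adic a).fwd w.2 else w.2)
      = (if w.1 0 then (adic a').fwd (φ w.2) else φ w.2)
    split
    · exact hw
    · rfl

end Pool.Agent.KAut
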