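import Pool.Agent.Work.MP_2cfc43_lc.G
import Pool.Agent.Work.MP_2cfc43_lc.D
import Pool.Agent.Work.MP_2cfc43_lc.A
import Pool.Agent.Work.MP_2cfc43_lc.C3
import Pool.Agent.Work.MP_2cfc43_lc.E2
import Pool.Agent.Work.MP_2cfc43_lc.B6

/-! MP_2cfc43_lc, module Z: the final theorem. -/

namespace Pool.Agent.KAut

open MeasureTheory Set Filter Topology
open scoped ENNReal

universe u

/-! ### Module Z (final theorem) -/

theorem Z_adj (x : ℕ → ℤ) (h : ℕ → Bool) (k : ℕ) :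
    (x k).natAbs ≤ (addB x h k).natAbs + 1 ∧ (addB x h k).natAbs ≤ (x k).natAbs + 1 := by
  unfold addB bi
  split <;> omega

/-- the dense open sets of pairs -/
def Z_D (n : ℕ) : Set ((ℕ → ℤ) × (ℕ → ℤ)) :=
  {p | ∃ k ≥ n, p.1 k = 0 ∧ Lc k ≤ (p.2 k).natAbs}

theorem Z_D_open (n : ℕ) : IsOpen (Z_D n) := by
  have : Z_D n = ⋃ k ∈ {k | n ≤ k}, {p : (ℕ → ℤ) × (ℕ → ℤ) | p.1 k = 0 ∧ Lc k ≤ (p.2 k).natAbs} := by
    ext p
    simp only [Z_D, mem_ofPred_eq, mem_iUnion, exists_prop, ge_iff_le]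
  rw [this]
  refine isOpen_biUnion fun k _ => ?_
  have h1 : Continuous (fun p : (ℕ → ℤ) × (ℕ → ℤ) => (p.1 k, p.2 k)) := by fun_prop
  exact (isOpen_discrete {z : ℤ × ℤ | z.1 = 0 ∧ Lc k ≤ z.2.natAbs}).preimage h1

theorem Z_D_dense (n : ℕ) : Dense (Z_D n) := by
  intro p
  rw [mem_closure_iff_nhds]
  intro U hU
  -- approximate by changing the coordinate `m ≥ n`
  let f : ℕ → (ℕ → ℤ) × (ℕ → ℤ) := fun m =>
    (Function.update p.1 m 0, Function.update p.2 m (Lc m : ℤ))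
  have hf : Tendsto f atTop (𝓝 p) := by
    refine Tendsto.prodMk_nhds ?_ ?_
    · rw [tendsto_pi_nhds]
      intro i
      refine tendsto_const_nhds.congr' ?_
      filter_upwards [eventually_gt_atTop i] with m hm
      rw [Function.update_of_ne (by omega)]
    · rw [tendsto_pi_nhds]
      intro i
      refine tendsto_const_nhds.congr' ?_
      filter_upwards [eventually_gt_atTop i] with m hm
      rw [Function.update_of_ne (by omega)]
  obtain ⟨m, hm1, hm2⟩ := ((hf.eventually_mem hU).and (eventually_ge_atTop n)).exists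
  refine ⟨f m, hm1, m, hm2, ?_, ?_⟩
  · simp [f]
  · simp [f]

theorem kaut_main : ¬ ∃ (Y : Type u) (_ : TopologicalSpace Y) (_ : PolishSpace Y)
    (_ : MeasurableSpace Y) (_ : BorelSpace Y) (_ : MulAction (Equiv.Perm ℕ) Y) (f : AutI → Y),
    Measurable (fun p : Equiv.Perm ℕ × Y => p.1 • p.2) ∧ Measurable f ∧
      ∀ S T : AutI, IsKol S → IsKol T → (Iso S T ↔ ∃ g : Equiv.Perm ℕ, g • f S = f T) := by
  rintro ⟨Y, _, _, _, _, _, f, hact, hf, hred⟩
  obtain ⟨κ, hiso, hiso', hkol, hcont⟩ := exists_kappa Mc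
  have hK : ∀ a : ℕ → ℕ, IsKol (κ (kau a)) := fun a =>
    hkol _ (kol_skew ((adic a).ergodic_fwd two_le_Mc) ((adic a).mp_bwd two_le_Mc)
      (adic a).bwd_fwd (adic a).fwd_bwd)
  set F : (ℕ → ℤ) → Y := fun x => f (κ (kau (fun k => (x k).natAbs))) with hFdef
  have hFm : Measurable F := hf.comp (continuous_kappa hcont).measurable
  have hmove : ∀ (x : ℕ → ℤ) (h : ℕ → Bool), ∃ g : Equiv.Perm ℕ, g • F x = F (addB x h) := by
    intro x h
    exact (hred _ _ (hK _) (hK _)).1 (hiso _ _ (kau_adjacent (fun k => (Z_adj x h k).1)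
      (fun k => (Z_adj x h k).2)))
  obtain ⟨x, x', hD, hg⟩ := baire_main hact F hFm hmove Z_D Z_D_open Z_D_dense
  obtain ⟨φ, hφ, hφ'⟩ := hiso' _ _ ((hred _ _ (hK _) (hK _)).2 hg)
  exact not_factor (fun k => (x k).natAbs) (fun k => (x' k).natAbs)
    (fun n => by
      obtain ⟨k, hk, h1, h2⟩ := hD n
      exact ⟨k, hk, by simp only at h1; simp [h1], h2⟩) φ hφ hφ'

end Pool.Agent.KAut
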